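import Pool.Agent.Lib.MP_154526_nt.Top.FrontA

/-!
# FRONT (B): the `T_τ` step
-/

set_option autoImplicit false

namespace MP154526.Top.Front

open Finset

variable {R : Type} [CommRing R]

/-- the stuffle with `y^j` on words in `x, y`: state `false` at the start of a run of `x`, state
`true` inside a run -/
def S : (List Bool → R) → Bool → ℕ → List Bool → R
  | ψ, _, 0, w => ψ w
  | ψ, false, j + 1, [] => ψ (List.replicate (j + 1) true)
  | ψ, false, j + 1, false :: w => S (fun v => ψ (true :: v)) false j (false :: w) +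
      S (fun v => ψ (false :: v)) true (j + 1) w
  | ψ, false, j + 1, true :: w => S (fun v => ψ (true :: v)) false j (true :: w) +
      S (fun v => ψ (true :: v)) false (j + 1) w +
      S (fun v => ψ (false :: true :: v)) false j w
  | _, true, _ + 1, [] => 0
  | ψ, true, j + 1, false :: w => S (fun v => ψ (false :: v)) true (j + 1) w
  | ψ, true, j + 1, true :: w => S (fun v => ψ (true :: v)) false (j + 1) w +
      S (fun v => ψ (false :: true :: v)) false j w
termination_by _ _ j w => j + w.length

theorem S_zero (ψ : List Bool → R) (s : Bool) : S ψ s 0 = ψ := by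
  funext w
  cases s <;> rw [S]

theorem S_f_nil (ψ : List Bool → R) (j : ℕ) :
    S ψ false (j + 1) [] = S (fun v => ψ (true :: v)) false j [] := by
  rw [S]
  cases j with
  | zero => rw [S_zero]; rfl
  | succ j => rw [S]; rfl

theorem S_f_x (ψ : List Bool → R) (j : ℕ) (w : List Bool) :
    S ψ false (j + 1) (false :: w) = S (fun v => ψ (true :: v)) false j (false :: w) +
      S (fun v => ψ (false :: v)) true (j + 1) w := by
  rw [S]

theorem S_f_y (ψ : List Bool → R) (j : ℕ) (w : List Bool) :
    S ψ false (j + 1) (true :: w) = S (fun v => ψ (true :: v)) false j (true :: w) +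
      S (fun v => ψ (true :: v)) false (j + 1) w +
      S (fun v => ψ (false :: true :: v)) false j w := by
  rw [S]

theorem S_t_nil (ψ : List Bool → R) (j : ℕ) : S ψ true (j + 1) [] = 0 := by
  rw [S]

theorem S_t_x (ψ : List Bool → R) (j : ℕ) (w : List Bool) :
    S ψ true (j + 1) (false :: w) = S (fun v => ψ (false :: v)) true (j + 1) w := by
  rw [S]

theorem S_t_y (ψ : List Bool → R) (j : ℕ) (w : List Bool) :
    S ψ true (j + 1) (true :: w) = S (fun v => ψ (true :: v)) false (j + 1) w +
      S (fun v => ψ (false :: true :: v)) false j w := by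
  rw [S]

/-- evaluation with the changed letters, scanned letter by letter -/
def FF (τ : R) : ℕ → Bool → (List Bool → R) → (List Bool → R) → R
  | 0, _, ψ, c => ψ [] * c []
  | 1, false, ψ, c => FF τ 0 false (fun v => ψ (true :: v)) (fun w => yT c w + τ * c w) +
      FF τ 0 true (fun v => ψ (false :: v)) (dT τ c)
  | n + 2, false, ψ, c => FF τ (n + 1) false (fun v => ψ (true :: v)) (fun w => yT c w + τ * c w) +
      FF τ (n + 1) true (fun v => ψ (false :: v)) (dT τ c) +
      τ * FF τ n false (fun v => ψ (false :: true :: v)) (yT c)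
  | 1, true, ψ, c => FF τ 0 false (fun v => ψ (true :: v)) (yT c) +
      FF τ 0 true (fun v => ψ (false :: v)) (dT τ c)
  | n + 2, true, ψ, c => FF τ (n + 1) false (fun v => ψ (true :: v)) (yT c) +
      FF τ (n + 1) true (fun v => ψ (false :: v)) (dT τ c) +
      τ * FF τ n false (fun v => ψ (false :: true :: v)) (yT c)

theorem FF_zero (τ : R) (s : Bool) (ψ c : List Bool → R) : FF τ 0 s ψ c = ψ [] * c [] := by
  cases s <;> rw [FF]

theorem FF_f_one (τ : R) (ψ c : List Bool → R) : FF τ 1 false ψ c =
    FF τ 0 false (fun v => ψ (true :: v)) (fun w => yT c w + τ * c w) +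
      FF τ 0 true (fun v => ψ (false :: v)) (dT τ c) := rfl

theorem FF_f_succ (τ : R) (n : ℕ) (ψ c : List Bool → R) : FF τ (n + 2) false ψ c =
    FF τ (n + 1) false (fun v => ψ (true :: v)) (fun w => yT c w + τ * c w) +
      FF τ (n + 1) true (fun v => ψ (false :: v)) (dT τ c) +
      τ * FF τ n false (fun v => ψ (false :: true :: v)) (yT c) := by rw [FF]

theorem FF_t_one (τ : R) (ψ c : List Bool → R) : FF τ 1 true ψ c =
    FF τ 0 false (fun v => ψ (true :: v)) (yT c) +
      FF τ 0 true (fun v => ψ (false :: v)) (dT τ c) := rfl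

theorem FF_t_succ (τ : R) (n : ℕ) (ψ c : List Bool → R) : FF τ (n + 2) true ψ c =
    FF τ (n + 1) false (fun v => ψ (true :: v)) (yT c) +
      FF τ (n + 1) true (fun v => ψ (false :: v)) (dT τ c) +
      τ * FF τ n false (fun v => ψ (false :: true :: v)) (yT c) := by rw [FF]

/-- the sum over `j` of the stuffles with `y^j` -/
def Q (τ : R) (n : ℕ) (s : Bool) (ψ c : List Bool → R) : R :=
  ∑ p ∈ antidiagonal n, τ ^ p.1 * E τ p.2 (S ψ s p.1) c

theorem Q_add_right (τ : R) (n : ℕ) (s : Bool) (ψ c c' : List Bool → R) :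
    Q τ n s ψ (fun w => c w + c' w) = Q τ n s ψ c + Q τ n s ψ c' := by
  simp only [Q, E_add_right, mul_add, sum_add_distrib]

theorem Q_mul_right (τ r : R) (n : ℕ) (s : Bool) (ψ c : List Bool → R) :
    Q τ n s ψ (fun w => r * c w) = r * Q τ n s ψ c := by
  simp only [Q, E_mul_right, mul_sum]
  exact sum_congr rfl fun _ _ => by ring

theorem E_S_f_zero (τ : R) (k : ℕ) (ψ c : List Bool → R) :
    E τ (k + 1) (S ψ false 0) c = E τ k (S (fun v => ψ (true :: v)) false 0) (yT c) +
      E τ k (S (fun v => ψ (false :: v)) true 0) (dT τ c) := by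
  simp only [S_zero, E_succ]
  ring

theorem E_S_t_zero (τ : R) (k : ℕ) (ψ c : List Bool → R) :
    E τ (k + 1) (S ψ true 0) c = E τ k (S (fun v => ψ (true :: v)) false 0) (yT c) +
      E τ k (S (fun v => ψ (false :: v)) true 0) (dT τ c) := by
  simp only [S_zero, E_succ]
  ring

theorem E_S_f_succ (τ : R) (k j : ℕ) (ψ c : List Bool → R) :
    E τ (k + 1) (S ψ false (j + 1)) c =
      E τ (k + 1) (S (fun v => ψ (true :: v)) false j) c +
      E τ k (S (fun v => ψ (true :: v)) false (j + 1)) (yT c) +
      E τ k (S (fun v => ψ (false :: v)) true (j + 1)) (dT τ c) +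
      E τ k (S (fun v => ψ (false :: true :: v)) false j) (yT c) := by
  rw [E_succ, E_succ]
  simp only [S_f_x, S_f_y]
  rw [E_add_left, E_add_left, E_add_left]
  ring

theorem E_S_t_succ (τ : R) (k j : ℕ) (ψ c : List Bool → R) :
    E τ (k + 1) (S ψ true (j + 1)) c =
      E τ k (S (fun v => ψ (true :: v)) false (j + 1)) (yT c) +
      E τ k (S (fun v => ψ (false :: v)) true (j + 1)) (dT τ c) +
      E τ k (S (fun v => ψ (false :: true :: v)) false j) (yT c) := by
  rw [E_succ]
  simp only [S_t_x, S_t_y]
  rw [E_add_left]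
  ring

theorem Q_zero (τ : R) (s : Bool) (ψ c : List Bool → R) : Q τ 0 s ψ c = ψ [] * c [] := by
  simp [Q, S_zero, E_zero']

theorem Q_f_one (τ : R) (ψ c : List Bool → R) :
    Q τ 1 false ψ c = Q τ 0 false (fun v => ψ (true :: v)) (fun w => yT c w + τ * c w) +
      Q τ 0 true (fun v => ψ (false :: v)) (dT τ c) := by
  have h := E_S_f_zero τ 0 ψ c
  have h' := S_f_nil ψ 0
  simp only [zero_add] at h h'
  rw [Q, Nat.sum_antidiagonal_succ', Q_zero, Q_zero]
  simp only [Nat.antidiagonal_zero, sum_singleton, zero_add]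
  rw [h, E_zero', h']
  simp only [S_zero, E_zero', pow_zero, pow_one, one_mul]
  ring

theorem Q_t_one (τ : R) (ψ c : List Bool → R) :
    Q τ 1 true ψ c = Q τ 0 false (fun v => ψ (true :: v)) (yT c) +
      Q τ 0 true (fun v => ψ (false :: v)) (dT τ c) := by
  have h := E_S_t_zero τ 0 ψ c
  have h' := S_t_nil ψ 0
  simp only [zero_add] at h h'
  rw [Q, Nat.sum_antidiagonal_succ', Q_zero, Q_zero]
  simp only [Nat.antidiagonal_zero, sum_singleton, zero_add]
  rw [h, E_zero', h']
  simp only [S_zero, E_zero', pow_zero, pow_one, one_mul]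
  ring

theorem Q_f_succ (τ : R) (n : ℕ) (ψ c : List Bool → R) :
    Q τ (n + 2) false ψ c =
      Q τ (n + 1) false (fun v => ψ (true :: v)) (fun w => yT c w + τ * c w) +
      Q τ (n + 1) true (fun v => ψ (false :: v)) (dT τ c) +
      τ * Q τ n false (fun v => ψ (false :: true :: v)) (yT c) := by
  rw [Q_add_right, Q_mul_right]
  have h1 : Q τ (n + 2) false ψ c =
      τ ^ (n + 2) * E τ 0 (S ψ false (n + 2)) c +
      (τ ^ 0 * E τ (n + 2) (S ψ false 0) c +
        ∑ p ∈ antidiagonal n, τ ^ (p.1 + 1) * E τ (p.2 + 1) (S ψ false (p.1 + 1)) c) := by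
    rw [Q, Nat.sum_antidiagonal_succ', Nat.sum_antidiagonal_succ]
  have h2 : Q τ (n + 1) false (fun v => ψ (true :: v)) c =
      τ ^ (n + 1) * E τ 0 (S (fun v => ψ (true :: v)) false (n + 1)) c +
        ∑ p ∈ antidiagonal n, τ ^ p.1 * E τ (p.2 + 1) (S (fun v => ψ (true :: v)) false p.1) c := by
    rw [Q, Nat.sum_antidiagonal_succ']
  have h3 : Q τ (n + 1) false (fun v => ψ (true :: v)) (yT c) =
      τ ^ 0 * E τ (n + 1) (S (fun v => ψ (true :: v)) false 0) (yT c) +
        ∑ p ∈ antidiagonal n,
          τ ^ (p.1 + 1) * E τ p.2 (S (fun v => ψ (true :: v)) false (p.1 + 1)) (yT c) := by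
    rw [Q, Nat.sum_antidiagonal_succ]
  have h4 : Q τ (n + 1) true (fun v => ψ (false :: v)) (dT τ c) =
      τ ^ 0 * E τ (n + 1) (S (fun v => ψ (false :: v)) true 0) (dT τ c) +
        ∑ p ∈ antidiagonal n,
          τ ^ (p.1 + 1) * E τ p.2 (S (fun v => ψ (false :: v)) true (p.1 + 1)) (dT τ c) := by
    rw [Q, Nat.sum_antidiagonal_succ]
  rw [h1, h2, h3, h4, Q]
  have h5 : E τ 0 (S ψ false (n + 2)) c = E τ 0 (S (fun v => ψ (true :: v)) false (n + 1)) c := by
    rw [E_zero', E_zero', S_f_nil]
  rw [h5, E_S_f_zero]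
  have h6 : ∑ p ∈ antidiagonal n, τ ^ (p.1 + 1) * E τ (p.2 + 1) (S ψ false (p.1 + 1)) c =
      τ * ∑ p ∈ antidiagonal n, τ ^ p.1 * E τ (p.2 + 1) (S (fun v => ψ (true :: v)) false p.1) c +
      ∑ p ∈ antidiagonal n,
          τ ^ (p.1 + 1) * E τ p.2 (S (fun v => ψ (true :: v)) false (p.1 + 1)) (yT c) +
      ∑ p ∈ antidiagonal n,
          τ ^ (p.1 + 1) * E τ p.2 (S (fun v => ψ (false :: v)) true (p.1 + 1)) (dT τ c) +
      τ * ∑ p ∈ antidiagonal n,
          τ ^ p.1 * E τ p.2 (S (fun v => ψ (false :: true :: v)) false p.1) (yT c) := by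
    rw [mul_sum, mul_sum, ← sum_add_distrib, ← sum_add_distrib, ← sum_add_distrib]
    refine sum_congr rfl fun p _ => ?_
    rw [E_S_f_succ]
    ring
  rw [h6]
  ring

theorem Q_t_succ (τ : R) (n : ℕ) (ψ c : List Bool → R) :
    Q τ (n + 2) true ψ c =
      Q τ (n + 1) false (fun v => ψ (true :: v)) (yT c) +
      Q τ (n + 1) true (fun v => ψ (false :: v)) (dT τ c) +
      τ * Q τ n false (fun v => ψ (false :: true :: v)) (yT c) := by
  have h1 : Q τ (n + 2) true ψ c =
      τ ^ (n + 2) * E τ 0 (S ψ true (n + 2)) c +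
      (τ ^ 0 * E τ (n + 2) (S ψ true 0) c +
        ∑ p ∈ antidiagonal n, τ ^ (p.1 + 1) * E τ (p.2 + 1) (S ψ true (p.1 + 1)) c) := by
    rw [Q, Nat.sum_antidiagonal_succ', Nat.sum_antidiagonal_succ]
  have h3 : Q τ (n + 1) false (fun v => ψ (true :: v)) (yT c) =
      τ ^ 0 * E τ (n + 1) (S (fun v => ψ (true :: v)) false 0) (yT c) +
        ∑ p ∈ antidiagonal n,
          τ ^ (p.1 + 1) * E τ p.2 (S (fun v => ψ (true :: v)) false (p.1 + 1)) (yT c) := by
    rw [Q, Nat.sum_antidiagonal_succ]
  have h4 : Q τ (n + 1) true (fun v => ψ (false :: v)) (dT τ c) =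
      τ ^ 0 * E τ (n + 1) (S (fun v => ψ (false :: v)) true 0) (dT τ c) +
        ∑ p ∈ antidiagonal n,
          τ ^ (p.1 + 1) * E τ p.2 (S (fun v => ψ (false :: v)) true (p.1 + 1)) (dT τ c) := by
    rw [Q, Nat.sum_antidiagonal_succ]
  rw [h1, h3, h4, Q]
  have h5 : E τ 0 (S ψ true (n + 2)) c = 0 := by
    rw [E_zero', S_t_nil, zero_mul]
  rw [h5, E_S_t_zero]
  have h6 : ∑ p ∈ antidiagonal n, τ ^ (p.1 + 1) * E τ (p.2 + 1) (S ψ true (p.1 + 1)) c =
      ∑ p ∈ antidiagonal n,
          τ ^ (p.1 + 1) * E τ p.2 (S (fun v => ψ (true :: v)) false (p.1 + 1)) (yT c) +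
      ∑ p ∈ antidiagonal n,
          τ ^ (p.1 + 1) * E τ p.2 (S (fun v => ψ (false :: v)) true (p.1 + 1)) (dT τ c) +
      τ * ∑ p ∈ antidiagonal n,
          τ ^ p.1 * E τ p.2 (S (fun v => ψ (false :: true :: v)) false p.1) (yT c) := by
    rw [mul_sum, ← sum_add_distrib, ← sum_add_distrib]
    refine sum_congr rfl fun p _ => ?_
    rw [E_S_t_succ]
    ring
  rw [h6]
  ring

theorem FF_eq_Q (τ : R) (n : ℕ) : (∀ (s : Bool) (ψ c : List Bool → R),
    FF τ n s ψ c = Q τ n s ψ c) ∧ (∀ (s : Bool) (ψ c : List Bool → R),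
    FF τ (n + 1) s ψ c = Q τ (n + 1) s ψ c) := by
  induction n with
  | zero =>
    have h0 : ∀ (s : Bool) (ψ c : List Bool → R), FF τ 0 s ψ c = Q τ 0 s ψ c := by
      intro s ψ c
      rw [Q_zero, FF]
    refine ⟨h0, ?_⟩
    intro s ψ c
    cases s
    · rw [zero_add, FF, Q_f_one, h0, h0]
    · rw [zero_add, FF, Q_t_one, h0, h0]
  | succ n ih =>
    refine ⟨ih.2, ?_⟩
    intro s ψ c
    cases s
    · rw [FF, Q_f_succ, ih.2, ih.2, ih.1]
    · rw [FF, Q_t_succ, ih.2, ih.2, ih.1]

theorem two_eq_zero [Algebra (ZMod 2) R] : (2 : R) = 0 := by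
  have h := map_ofNat (algebraMap (ZMod 2) R) 2
  rw [← h]
  have : (OfNat.ofNat 2 : ZMod 2) = 0 := rfl
  rw [this, map_zero]

/-- `x² = τ x` -/
theorem dT_dT [Algebra (ZMod 2) R] (τ : R) (c : List Bool → R) (w : List Bool) :
    dT τ (dT τ c) w = τ * dT τ c w := by
  have h2 : (2 : R) = 0 := two_eq_zero
  induction w generalizing c with
  | nil => simp
  | cons g w ih =>
    cases g
    · rw [dT_false, dT_true]
      have h1 : (fun v => dT τ c (false :: v)) =
          fun v => c (true :: v) + dT τ (fun v => c (false :: v)) v := funext fun v => dT_false τ c v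
      rw [h1, dT_add, ih, dT_false]
      linear_combination (dT τ (fun v => c (true :: v)) w) * h2
    · rw [dT_true, dT_true]
      have h1 : (fun v => dT τ c (true :: v)) =
          fun v => τ * c (true :: v) + dT τ (fun v => c (true :: v)) v := funext fun v => dT_true τ c v
      rw [h1, dT_add, dT_mul, ih]
      linear_combination (τ * dT τ (fun v => c (true :: v)) w) * h2

/-- runs of length at least two vanish -/
theorem FF_run [Algebra (ZMod 2) R] (τ : R) (n : ℕ) (ψ c : List Bool → R)
    (hc : dT τ c = fun w => τ * c w) :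
    FF τ 0 true (fun v => ψ (false :: v)) (dT τ c) = 0 ∧
    FF τ (n + 1) true ψ (dT τ c) + τ * FF τ n false (fun v => ψ (true :: v)) (yT c) = 0 := by
  have h2 : (2 : R) = 0 := two_eq_zero
  have hmul : ∀ (n : ℕ) (s : Bool) (ψ : List Bool → R),
      FF τ n s ψ (fun w => τ * c w) = τ * FF τ n s ψ c := by
    intro n s ψ
    rw [(FF_eq_Q τ n).1, (FF_eq_Q τ n).1, Q_mul_right]
  have hmul' : ∀ (n : ℕ) (s : Bool) (ψ : List Bool → R),
      FF τ n s ψ (yT fun w => τ * c w) = τ * FF τ n s ψ (yT c) := by
    intro n s ψ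
    have : (yT fun w => τ * c w) = fun w => τ * yT c w := rfl
    rw [this, (FF_eq_Q τ n).1, (FF_eq_Q τ n).1, Q_mul_right]
  have hd : dT τ (fun w => τ * c w) = fun w => τ * (τ * c w) := by
    funext w
    rw [dT_mul, hc]
  refine ⟨by simp [FF], ?_⟩
  induction n generalizing ψ with
  | zero =>
    have h0 : FF τ 0 true (fun v => ψ (false :: v)) (dT τ c) = 0 := by simp [FF]
    rw [hc, hmul, zero_add, FF_t_one, h0]
    linear_combination (τ * FF τ 0 false (fun v => ψ (true :: v)) (yT c)) * h2
  | succ n ih =>
    have h1 := ih (fun v => ψ (false :: v))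
    rw [hc, hmul] at h1
    rw [hc, hmul, FF_t_succ, hc, hmul]
    linear_combination (τ * FF τ (n + 1) false (fun v => ψ (true :: v)) (yT c)) * h2 + τ * h1

theorem FF_eq_F [Algebra (ZMod 2) R] (τ : R) (n : ℕ) (ψ c : List Bool → R) :
    (FF τ n false ψ c = F τ n (fun l => ψ (bw l)) c) ∧
      (FF τ (n + 1) false ψ c = F τ (n + 1) (fun l => ψ (bw l)) c) := by
  induction n generalizing ψ c with
  | zero =>
    refine ⟨by simp [FF, F, bw], ?_⟩
    have h1 : FF τ 0 true (fun v => ψ (false :: v)) (dT τ c) = 0 := by simp [FF]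
    rw [zero_add, FF, F, h1, add_zero]
    simp [FF, F, bw]
  | succ n ih =>
    refine ⟨(ih ψ c).2, ?_⟩
    have hcc : dT τ (dT τ c) = fun w => τ * dT τ c w := funext fun w => dT_dT τ c w
    rw [FF, F]
    have h1 := (ih (fun v => ψ (true :: v)) (fun w => yT c w + τ * c w)).2
    have h2 := (ih (fun v => ψ (false :: true :: v)) (fun w => yT (dT τ c) w + τ * yT c w)).1
    have e1 : (fun l => ψ (bw (0 :: l))) = fun l => (fun v => ψ (true :: v)) (bw l) := by
      funext l; simp [bw]
    have e2 : (fun l => ψ (bw (1 :: l))) = fun l => (fun v => ψ (false :: true :: v)) (bw l) := by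
      funext l; simp [bw]
    rw [e1, e2, ← h1, ← h2, add_assoc]
    congr 1
    have h3 : FF τ n false (fun v => ψ (false :: true :: v)) (fun w => yT (dT τ c) w + τ * yT c w) =
        FF τ n false (fun v => ψ (false :: true :: v)) (yT (dT τ c)) +
          τ * FF τ n false (fun v => ψ (false :: true :: v)) (yT c) := by
      rw [(FF_eq_Q τ n).1, (FF_eq_Q τ n).1, (FF_eq_Q τ n).1, Q_add_right, Q_mul_right]
    rw [h3]
    congr 1
    cases n with
    | zero =>
      have h4 : FF τ 0 true (fun v => ψ (false :: false :: v)) (dT τ (dT τ c)) = 0 := by simp [FF]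
      rw [zero_add, FF_t_one, h4, add_zero]
    | succ n =>
      have h4 := (FF_run τ n (fun v => ψ (false :: false :: v)) (dT τ c) hcc).2
      rw [FF_t_succ, add_assoc, h4, add_zero]

/-- the relation to `stz` -/
theorem S_eq_stz : ∀ (N j : ℕ) (l : List ℕ), j + (bw l).length ≤ N →
    ∀ ψ : List Bool → ZMod 2, S ψ false j (bw l) = stz (fun l => ψ (bw l)) j l := by
  intro N
  induction N with
  | zero =>
    intro j l hl ψ
    obtain rfl : j = 0 := by omega
    rw [S_zero]
    cases l with
    | nil => rw [stz]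
    | cons a l => simp [bw] at hl
  | succ N ih =>
    intro j l hl ψ
    cases j with
    | zero => rw [S_zero, stz]
    | succ j =>
      cases l with
      | nil =>
        rw [stz]
        show S ψ false (j + 1) [] = _
        rw [S]
        congr 1
        clear hl ih
        generalize j + 1 = k
        induction k with
        | zero => rfl
        | succ k ihk => simp [List.replicate_succ, bw, ihk]
      | cons a l =>
        have hlen : (bw (a :: l)).length = a + 1 + (bw l).length := by
          simp [bw]; ring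
        -- inside a run
        have hrun : ∀ (b : ℕ) (φ : List Bool → ZMod 2),
            S φ true (j + 1) (List.replicate b false ++ true :: bw l) =
              S (fun v => φ (List.replicate b false ++ true :: v)) false (j + 1) (bw l) +
              S (fun v => φ (List.replicate (b + 1) false ++ true :: v)) false j (bw l) := by
          intro b
          induction b with
          | zero =>
            intro φ
            simp only [List.replicate_zero, List.nil_append]
            rw [S_t_y]
            rfl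
          | succ b ihb =>
            intro φ
            rw [List.replicate_succ, List.cons_append, S_t_x, ihb]
            rfl
        have h0 : S (fun v => ψ (true :: v)) false j (bw (a :: l)) =
            stz (fun l => ψ (bw (0 :: l))) j (a :: l) := by
          rw [ih j (a :: l) (by omega)]
          simp [bw]
        have h1 : S (fun v => ψ (List.replicate a false ++ true :: v)) false (j + 1) (bw l) =
            stz (fun l => ψ (bw (a :: l))) (j + 1) l := by
          rw [ih (j + 1) l (by omega)]
          simp [bw]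
        have h2 : S (fun v => ψ (List.replicate (a + 1) false ++ true :: v)) false j (bw l) =
            stz (fun l => ψ (bw ((a + 1) :: l))) j l := by
          rw [ih j l (by omega)]
          simp [bw]
        rw [stz, ← h0, ← h1, ← h2]
        cases a with
        | zero =>
          simp only [bw, List.replicate_zero, List.nil_append]
          rw [S_f_y]
          rfl
        | succ a =>
          simp only [bw, List.replicate_succ, List.cons_append]
          rw [S_f_x]
          have := hrun a (fun v => ψ (false :: v))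
          rw [this, add_assoc]
          rfl

theorem S_castB [Algebra (ZMod 2) R] (N : ℕ) : ∀ (s : Bool) (j : ℕ) (w : List Bool),
    j + w.length ≤ N → ∀ ψ : List Bool → ZMod 2,
    S (castB R ψ) s j w = algebraMap (ZMod 2) R (S ψ s j w) := by
  induction N with
  | zero =>
    intro s j w h ψ
    obtain rfl : j = 0 := by omega
    rw [S_zero, S_zero]
    rfl
  | succ N ih =>
    intro s j w h ψ
    cases j with
    | zero => rw [S_zero, S_zero]; rfl
    | succ j =>
      have e : ∀ u : List Bool, (fun v => castB R ψ (u ++ v)) = castB R (fun v => ψ (u ++ v)) :=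
        fun u => rfl
      have e1 := e [true]
      have e2 := e [false]
      have e3 := e [false, true]
      simp only [List.cons_append, List.nil_append] at e1 e2 e3
      cases w with
      | nil =>
        cases s
        · rw [S_f_nil, S_f_nil, e1, ih false j [] (by simpa using h)]
        · rw [S_t_nil, S_t_nil, map_zero]
      | cons g w =>
        simp only [List.length_cons] at h
        cases s <;> cases g
        · rw [S_f_x, S_f_x, e1, e2, ih _ _ _ (by simp; omega), ih _ _ _ (by omega), map_add]
        · rw [S_f_y, S_f_y, e1, e3, ih _ _ _ (by simp; omega), ih _ _ _ (by omega),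
            ih _ _ _ (by omega), map_add, map_add]
        · rw [S_t_x, S_t_x, e2, ih _ _ _ (by omega)]
        · rw [S_t_y, S_t_y, e1, e3, ih _ _ _ (by omega), ih _ _ _ (by omega), map_add]

theorem E_pure (τ : R) (k : ℕ) (ψ c : List Bool → R)
    (h : ∀ w : List Bool, w.length = k → EndY w → w ≠ List.replicate k true → ψ w = 0) :
    E τ k ψ c = ψ (List.replicate k true) * c (List.replicate k false) := by
  induction k generalizing ψ c with
  | zero => rfl
  | succ k ih =>
    rw [E_succ]
    have h1 : E τ k (fun w => ψ (false :: w)) (dT τ c) = 0 := by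
      cases k with
      | zero => simp [E_zero']
      | succ k =>
        refine E_eq_zero _ _ _ _ fun w hw hY => h _ (by simp [hw]) (endY_cons _ _ ?_ hY) ?_
        · rintro rfl; simp at hw
        · rw [List.replicate_succ]; simp
    rw [h1, zero_add, ih]
    · rfl
    · intro w hw hY hne
      refine h _ (by simp [hw]) (endY_cons_true _ hY) ?_
      rw [List.replicate_succ]
      intro he
      exact hne (by simpa using he)

theorem endY_bw' (w : List Bool) (h : EndY w) : ∃ l, bw l = w := by
  induction w with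
  | nil => exact ⟨[], rfl⟩
  | cons g w ih =>
    obtain ⟨l, hl⟩ := ih (endY_tail g w h)
    cases g
    · cases l with
      | nil =>
        simp only [bw] at hl
        subst hl
        rcases h with h | ⟨u, h⟩
        · simp at h
        · cases u with
          | nil => simp at h
          | cons a u => simp at h
      | cons a l =>
        refine ⟨(a + 1) :: l, ?_⟩
        simp only [bw, List.replicate_succ, List.cons_append] at hl ⊢
        rw [hl]
    · exact ⟨0 :: l, by simp [bw, hl]⟩

theorem length_bw' (l : List ℕ) : (bw l).length = l.sum + l.length := by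
  induction l with
  | nil => rfl
  | cons a l ih => simp [bw, ih]; ring

theorem bw_zeros (l : List ℕ) (h : ∀ a ∈ l, a = 0) : bw l = List.replicate l.length true := by
  induction l with
  | nil => rfl
  | cons a l ih =>
    rw [List.length_cons, List.replicate_succ, ← ih fun b hb => h b (List.mem_cons_of_mem _ hb)]
    simp [bw, h a (by simp)]

theorem specB : SpecB := by
  intro R _ _ τ n ψ hT c hc
  have h1 := (FF_eq_F τ n (castB R ψ) c).1
  rw [← h1, (FF_eq_Q τ n).1, Q]
  rw [Finset.sum_eq_single (0, n)]
  · rw [S_zero]; simp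
  · rintro ⟨j, k⟩ hp hne
    rw [HasAntidiagonal.mem_antidiagonal] at hp
    simp only at hp ⊢
    have hj : 1 ≤ j := by
      rcases Nat.eq_zero_or_pos j with rfl | h
      · exact absurd (by simp at hp; rw [hp]) hne
      · exact h
    rw [E_pure, hc, mul_zero, mul_zero]
    intro w hw hY hne'
    obtain ⟨l, rfl⟩ := endY_bw' w hY
    rw [S_castB (j + (bw l).length) false j (bw l) le_rfl,
      S_eq_stz _ j l le_rfl ψ, hT j l hj, map_zero]
    · by_contra hcon
      push Not at hcon
      apply hne'
      rw [bw_zeros l hcon]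
      congr 1
      rw [length_bw'] at hw
      have : l.sum = 0 := List.sum_eq_zero hcon
      omega
    · rw [length_bw'] at hw
      omega
  · intro hp
    exact absurd (HasAntidiagonal.mem_antidiagonal.2 (by simp)) hp

end MP154526.Top.Front
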