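import Pool.Agent.Lib.MP_154526_nt.Top.Stf

/-!
# PASS2 from the regularisation of words
-/

set_option autoImplicit false

namespace MP154526.Top.Pass2

open Finset MP154526.Bound

/-! ### words ending in `y` -/

theorem endY_cons (a : Bool) (l : List Bool) (h : EndY l) (hl : l ≠ []) : EndY (a :: l) := by
  rcases h with rfl | ⟨u, rfl⟩
  · exact absurd rfl hl
  · exact Or.inr ⟨a :: u, rfl⟩

theorem endY_tail (a : Bool) (l : List Bool) (h : EndY (a :: l)) : EndY l := by
  rcases h with h | ⟨u, h⟩
  · exact absurd h (by simp)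
  · rcases u with _ | ⟨c, u⟩
    · simp only [List.nil_append, List.cons.injEq] at h
      exact Or.inl h.2
    · simp only [List.cons_append, List.cons.injEq] at h
      exact Or.inr ⟨u, h.2⟩

theorem endY_bw (l : List ℕ) : EndY (bw l) := by
  induction l with
  | nil => exact Or.inl rfl
  | cons a l ih =>
    rcases l with _ | ⟨b, l⟩
    · exact Or.inr ⟨List.replicate a false, rfl⟩
    · rcases ih with h | ⟨u, h⟩
      · simp [bw] at h
      · exact Or.inr ⟨List.replicate a false ++ true :: u, by rw [bw, h]; simp⟩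

theorem bw_length (l : List ℕ) : (bw l).length = wt l := by
  induction l with
  | nil => rfl
  | cons a l ih =>
    simp only [bw, List.length_append, List.length_replicate, List.length_cons, ih, wt_cons]
    omega

theorem word_map (l : List ℕ) : word (l.map (· + 1)) = bw l := by
  induction l with
  | nil => rfl
  | cons a l ih => simp only [List.map_cons, word, bw, ih, Nat.add_sub_cancel]

theorem shs_mem {M : Type} [AddCommMonoid M] (S : AddSubmonoid M) (F : List Bool → M)
    (u v : List Bool) (hu : EndY u) (hv : EndY v)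
    (h : ∀ l, EndY l → l.length = u.length + v.length → F l ∈ S) : shs F u v ∈ S := by
  induction u, v using shs_induct generalizing F with
  | h0 W => simpa using h W hv (by simp)
  | h1 a σ => simpa using h (a :: σ) hu (by simp)
  | h2 a σ c W ha hb =>
    rw [shs_cons_cons]
    refine S.add_mem (ha _ (endY_tail _ _ hu) hv fun l hl hl' => ?_)
      (hb _ hu (endY_tail _ _ hv) fun l hl hl' => ?_)
    · refine h _ (endY_cons _ _ hl ?_) (by simp only [List.length_cons] at hl' ⊢; omega)
      rintro rfl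
      simp at hl'
    · refine h _ (endY_cons _ _ hl ?_) (by simp only [List.length_cons] at hl' ⊢; omega)
      rintro rfl
      simp only [List.length_nil, List.length_cons] at hl'
      omega

/-! ### the shuffle and the stuffle as sums of words -/

theorem map_sh {M : Type} [AddCommMonoid M] (L : H →+ M) (u v : List Bool) :
    L (sh u v) = shs (fun l => L (wd l)) u v := by
  induction u, v using shs_induct generalizing L with
  | h0 W => rw [sh]; simp
  | h1 a σ => rw [sh]; simp
  | h2 a σ c W ha hb =>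
    rw [sh, shs_cons_cons, map_add]
    have h1 := ha (L.comp (Finsupp.mapDomain.addMonoidHom (List.cons a)))
    have h2 := hb (L.comp (Finsupp.mapDomain.addMonoidHom (List.cons c)))
    simp only [AddMonoidHom.comp_apply, Finsupp.mapDomain.addMonoidHom_apply, wd,
      Finsupp.mapDomain_single] at h1 h2
    simp only [lmul, wd]
    rw [h1, h2]

theorem map_st {M : Type} [AddCommMonoid M] (L : (List ℕ →₀ ℚ) →+ M) (u v : List ℕ) :
    L (st (u.map (· + 1)) (v.map (· + 1))) =
      stf (fun l => L (Finsupp.single (l.map (· + 1)) 1)) u v := by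
  induction u, v using stf_induct generalizing L with
  | h0 W => rw [List.map_nil, st]; simp
  | h1 a σ => rw [List.map_nil, List.map_cons, st]; simp
  | h2 a σ c W ha hb hc =>
    have h1 := ha (L.comp (Finsupp.mapDomain.addMonoidHom (List.cons (a + 1))))
    have h2 := hb (L.comp (Finsupp.mapDomain.addMonoidHom (List.cons (c + 1))))
    have h3 := hc (L.comp (Finsupp.mapDomain.addMonoidHom (List.cons (a + 1 + (c + 1)))))
    simp only [AddMonoidHom.comp_apply, Finsupp.mapDomain.addMonoidHom_apply,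
      Finsupp.mapDomain_single, List.map_cons] at h1 h2 h3
    rw [List.map_cons, List.map_cons, st, stf_cons_cons, map_add, map_add, h1, h2, h3]
    have e : a + 1 + (c + 1) = a + c + 1 + 1 := by omega
    simp only [List.map_cons, e]

theorem shuffle_wd (u v : List Bool) : shuffle (wd u) (wd v) = sh u v := by
  simp [shuffle, wd]

/-- the functional `lin φ` as a linear map -/
noncomputable def linL (φ : List Bool → ℤ) : H →ₗ[ℚ] ℚ :=
  Finsupp.linearCombination ℚ fun w => (φ w : ℚ)

theorem lin_eq (φ : List Bool → ℤ) (h : H) : lin φ h = linL φ h := by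
  simp [lin, linL, Finsupp.linearCombination_apply]

theorem linL_wd (φ : List Bool → ℤ) (w : List Bool) : linL φ (wd w) = φ w := by
  simp [linL, wd]

theorem sh_mem (S : Submodule ℚ H) (u v : List Bool) (hu : EndY u) (hv : EndY v)
    (h : ∀ l, EndY l → l.length = u.length + v.length → wd l ∈ S) : sh u v ∈ S := by
  have e := map_sh (AddMonoidHom.id H) u v
  simp only [AddMonoidHom.id_apply] at e
  rw [e]
  exact shs_mem S.toAddSubmonoid _ u v hu hv h

theorem stuffle_eq (u v : List ℕ) :
    stuffle (u.map (· + 1)) (v.map (· + 1)) = stf (fun l => wd (bw l)) u v := by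
  have e := map_st (Finsupp.mapDomain.addMonoidHom word) u v
  simp only [Finsupp.mapDomain.addMonoidHom_apply, Finsupp.mapDomain_single, word_map] at e
  exact e

/-! ### regularisation is linear -/

theorem shuffle_zero_left (hA : SpecAlg) (b : H) : shuffle 0 b = 0 := by
  have := hA.smul 0 0 b
  simpa using this

theorem isReg_pad (hA : SpecAlg) {h r : H} (hr : IsReg h r) :
    ∃ (N : ℕ) (c : ℕ → H), (∀ j, c j ∈ H0all) ∧ r = c 0 ∧
      ∀ M, N ≤ M → h = ∑ j ∈ range (M + 1), shuffle (c j) (ypow j) := by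
  obtain ⟨N, c, hc, hh, hr⟩ := hr
  refine ⟨N, fun j => if j ≤ N then c j else 0, fun j => ?_, by simpa using hr, fun M hM => ?_⟩
  · dsimp only
    split_ifs
    · exact hc j
    · exact Submodule.zero_mem _
  · rw [hh]
    have hsub : range (N + 1) ⊆ range (M + 1) := by
      intro j hj
      rw [Finset.mem_range] at hj ⊢
      omega
    rw [← Finset.sum_subset hsub]
    · refine Finset.sum_congr rfl fun j hj => ?_
      rw [Finset.mem_range] at hj
      simp only [if_pos (show j ≤ N by omega)]
    · intro j _ hj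
      rw [Finset.mem_range] at hj
      simp only [if_neg (show ¬ j ≤ N by omega)]
      exact shuffle_zero_left hA _

theorem IsReg.add (hA : SpecAlg) {h r h' r' : H} (hr : IsReg h r) (hr' : IsReg h' r') :
    IsReg (h + h') (r + r') := by
  obtain ⟨N, c, hc, rfl, hh⟩ := isReg_pad hA hr
  obtain ⟨N', c', hc', rfl, hh'⟩ := isReg_pad hA hr'
  refine ⟨max N N', fun j => c j + c' j, fun j => Submodule.add_mem _ (hc j) (hc' j), ?_, rfl⟩
  rw [hh _ (le_max_left _ _), hh' _ (le_max_right _ _), ← Finset.sum_add_distrib]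
  exact Finset.sum_congr rfl fun j _ => (hA.add _ _ _).symm

theorem IsReg.smul (hA : SpecAlg) (a : ℚ) {h r : H} (hr : IsReg h r) : IsReg (a • h) (a • r) := by
  obtain ⟨N, c, hc, rfl, rfl⟩ := hr
  refine ⟨N, fun j => a • c j, fun j => Submodule.smul_mem _ _ (hc j), ?_, rfl⟩
  rw [Finset.smul_sum]
  exact Finset.sum_congr rfl fun j _ => (hA.smul _ _ _).symm

theorem IsReg.zero : IsReg (0 : H) 0 := by
  refine ⟨0, fun _ => 0, fun _ => Submodule.zero_mem _, ?_, rfl⟩
  simp [shuffle]

/-- the regularisation of a word of `ℌ¹` -/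
def SpecReg : Prop :=
  ∀ (φ : List Bool → ℤ) (w : List Bool), EndY w →
    ∃ r ∈ H0 w.length, IsReg (wd w) r ∧ lin φ r = (ext φ w : ℚ)

/-- `h` has a regularisation `r` with `φ(r) = φ^(h)` -/
def OK (φ : List Bool → ℤ) (n : ℕ) (h : H) : Prop :=
  ∃ r ∈ H0 n, IsReg h r ∧ linL φ r = linL (ext φ) h

/-- the words of `ℌ¹` of length `n` -/
noncomputable def W1 (n : ℕ) : Submodule ℚ H :=
  Submodule.span ℚ {h | ∃ w, EndY w ∧ w.length = n ∧ h = wd w}

theorem ok_of_mem (hA : SpecAlg) (hR : SpecReg) (φ : List Bool → ℤ) (n : ℕ) (h : H)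
    (hh : h ∈ W1 n) : OK φ n h := by
  induction hh using Submodule.span_induction with
  | mem x hx =>
    obtain ⟨w, hw, hn, rfl⟩ := hx
    obtain ⟨r, h0, h1, h2⟩ := hR φ w hw
    refine ⟨r, hn ▸ h0, h1, ?_⟩
    rw [← lin_eq, h2, linL_wd]
  | zero => exact ⟨0, Submodule.zero_mem _, IsReg.zero, by simp⟩
  | add x y _ _ hx hy =>
    obtain ⟨r, h0, h1, h2⟩ := hx
    obtain ⟨r', h0', h1', h2'⟩ := hy
    exact ⟨r + r', Submodule.add_mem _ h0 h0', IsReg.add hA h1 h1', by rw [map_add, map_add, h2, h2']⟩
  | smul a x _ hx =>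
    obtain ⟨r, h0, h1, h2⟩ := hx
    exact ⟨a • r, Submodule.smul_mem _ _ h0, IsReg.smul hA a h1, by rw [map_smul, map_smul, h2]⟩

/-! ### the finite relations -/

theorem fin_rel (hA : SpecAlg) (hR : SpecReg) (φ : List Bool → ℤ) (n : ℕ) (hK : Kills n φ)
    (u : List ℕ) (a : ℕ) (b : List ℕ) (hn : wt u + wt ((a + 1) :: b) = n) :
    shs (ext φ) (bw u) (bw ((a + 1) :: b)) = stf (fun l => ext φ (bw l)) u ((a + 1) :: b) := by
  set w₁ : List ℕ := u.map (· + 1) with hw₁
  set w₀ : List ℕ := ((a + 1) :: b).map (· + 1) with hw₀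
  have hsum : ∀ l : List ℕ, (l.map (· + 1)).sum = wt l := by
    intro l
    induction l with
    | nil => rfl
    | cons c l ih =>
      rw [List.map_cons, List.sum_cons, ih, wt_cons]
  have hidx : ∀ l : List ℕ, Idx1 (l.map (· + 1)) := by
    intro l k hk
    obtain ⟨c, _, rfl⟩ := List.mem_map.1 hk
    omega
  set h : H := shuffle (wd (word w₁)) (wd (word w₀)) - stuffle w₁ w₀ with hh
  have e1 : shuffle (wd (word w₁)) (wd (word w₀)) = sh (bw u) (bw ((a + 1) :: b)) := by
    rw [shuffle_wd, word_map, word_map]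
  have e2 : stuffle w₁ w₀ = stf (fun l => wd (bw l)) u ((a + 1) :: b) := stuffle_eq _ _
  have hmem : h ∈ W1 n := by
    rw [hh, e1, e2]
    refine Submodule.sub_mem _ ?_ ?_
    · refine sh_mem _ _ _ (endY_bw _) (endY_bw _) fun l hl hl' => Submodule.subset_span ⟨l, hl, ?_, rfl⟩
      rw [hl', bw_length, bw_length, hn]
    · refine stf_mem (W1 n).toAddSubmonoid _ _ _ fun l hl => ?_
      exact Submodule.subset_span ⟨bw l, endY_bw l, by rw [bw_length, hl, hn], rfl⟩
  obtain ⟨r, h0, h1, h2⟩ := ok_of_mem hA hR φ n h hmem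
  have hr : r ∈ RDS n := by
    refine ⟨h0, w₁, w₀, hidx _, ⟨hidx _, ?_⟩, ?_, h1⟩
    · intro k hk
      simp only [hw₀, List.map_cons, List.head?_cons, Option.mem_def, Option.some.injEq] at hk
      omega
    · rw [hw₁, hw₀, hsum, hsum, hn]
  have h3 := hK.rds r hr
  rw [lin_eq, h2, hh, e1, e2, map_sub] at h3
  have h4 := map_sh (linL (ext φ)).toAddMonoidHom (bw u) (bw ((a + 1) :: b))
  have h5 := stf_map (linL (ext φ)).toAddMonoidHom (fun l => wd (bw l)) u ((a + 1) :: b)
  simp only [LinearMap.toAddMonoidHom_coe, linL_wd] at h4 h5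
  rw [h4, h5] at h3
  have h6 := shs_map (Int.castAddHom ℚ) (ext φ) (bw u) (bw ((a + 1) :: b))
  have h7 := stf_map (Int.castAddHom ℚ) (fun l => ext φ (bw l)) u ((a + 1) :: b)
  simp only [Int.coe_castAddHom] at h6 h7
  rw [← h6, ← h7, sub_eq_zero] at h3
  exact_mod_cast h3

theorem specPass2_of (hA : SpecAlg) (hR : SpecReg) (h1 : SpecPass1) : SpecPass2 := by
  intro n φ hn hK
  refine isT_of n _ fun u hu a b hw => ?_
  have e := fin_rel hA hR φ n hK u a b hw
  have e1 := shs_map (Int.castAddHom (ZMod 2)) (ext φ) (bw u) (bw ((a + 1) :: b))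
  have e2 := stf_map (Int.castAddHom (ZMod 2)) (fun l => ext φ (bw l)) u ((a + 1) :: b)
  simp only [Int.coe_castAddHom] at e1 e2
  rw [← e2, ← e, e1]
  refine (h1 n φ hn hK).1 _ _ ?_ ?_ (endY_bw _) (endY_bw _) (by rw [bw_length, bw_length, hw])
  · rcases u with _ | ⟨c, u⟩
    · exact absurd rfl hu
    · simp [bw]
  · simp [bw]

end MP154526.Top.Pass2
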