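import Mathlib

/-!
# Definitions of the problem: words, shuffle, stuffle, regularisation

A word in `x, y` is a list of booleans, `false = x`, `true = y`.
-/

set_option autoImplicit false

namespace MP154526.Bound

open Finset

/-- `ℚ⟨x,y⟩` -/
abbrev H := List Bool →₀ ℚ

/-- a word as an element of `ℚ⟨x,y⟩` -/
noncomputable def wd (w : List Bool) : H := Finsupp.single w 1

/-- multiplication by a letter on the left -/
noncomputable def lmul (a : Bool) (p : H) : H := p.mapDomain (List.cons a)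

/-- shuffle of two words -/
noncomputable def sh : List Bool → List Bool → H
  | [], v => wd v
  | a :: u, [] => wd (a :: u)
  | a :: u, b :: v => lmul a (sh u (b :: v)) + lmul b (sh (a :: u) v)
termination_by u v => u.length + v.length

/-- the bilinear shuffle product -/
noncomputable def shuffle (p q : H) : H := p.sum fun u a => q.sum fun v b => (a * b) • sh u v

/-- the word `y_{k_1} ⋯ y_{k_t}`, where `y_k = x^{k-1} y` -/
def word : List ℕ → List Bool
  | [] => []
  | k :: ks => List.replicate (k - 1) false ++ true :: word ks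

/-- stuffle of two words in the letters `y_k` (a word `y_{k_1} ⋯ y_{k_t}` is the list of the `k_i`) -/
noncomputable def st : List ℕ → List ℕ → (List ℕ →₀ ℚ)
  | [], v => Finsupp.single v 1
  | k :: u, [] => Finsupp.single (k :: u) 1
  | k :: u, l :: v => (st u (l :: v)).mapDomain (List.cons k) +
      (st (k :: u) v).mapDomain (List.cons l) + (st u v).mapDomain (List.cons (k + l))
termination_by u v => u.length + v.length

/-- the stuffle as an element of `ℚ⟨x,y⟩` -/
noncomputable def stuffle (u v : List ℕ) : H := (st u v).mapDomain word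

/-- index lists of words of `ℌ¹` -/
def Idx1 (w : List ℕ) : Prop := ∀ k ∈ w, 1 ≤ k

/-- index lists of words of `ℌ⁰`: empty, or the first index is at least `2` -/
def Idx0 (w : List ℕ) : Prop := Idx1 w ∧ ∀ k ∈ w.head?, 2 ≤ k

/-- words of `ℌ⁰` -/
def Adm (w : List Bool) : Prop := w = [] ∨ ∃ u, w = false :: u ++ [true]

/-- the weight `p` part of `ℌ⁰` -/
noncomputable def H0 (p : ℕ) : Submodule ℚ H :=
  Submodule.span ℚ {h | ∃ w, Adm w ∧ w.length = p ∧ h = wd w}

/-- `ℌ⁰` -/
noncomputable def H0all : Submodule ℚ H := Submodule.span ℚ {h | ∃ w, Adm w ∧ h = wd w}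

/-- the shuffle powers of `y` -/
noncomputable def ypow : ℕ → H
  | 0 => wd []
  | j + 1 => shuffle (wd [true]) (ypow j)

/-- `r = reg h`: `h = ∑ c_j ⧢ y^{⧢ j}` with `c_j ∈ ℌ⁰`, and `r = c_0` -/
def IsReg (h r : H) : Prop :=
  ∃ (N : ℕ) (c : ℕ → H), (∀ j, c j ∈ H0all) ∧ h = ∑ j ∈ range (N + 1), shuffle (c j) (ypow j) ∧
    r = c 0

/-- the regularised double shuffle elements of weight `p` -/
def RDS (p : ℕ) : Set H :=
  {r | r ∈ H0 p ∧ ∃ w₁ w₀ : List ℕ, Idx1 w₁ ∧ Idx0 w₀ ∧ w₁.sum + w₀.sum = p ∧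
    IsReg (shuffle (wd (word w₁)) (wd (word w₀)) - stuffle w₁ w₀) r}

/-- the weight `p` part of the ideal of `(ℌ⁰, ⧢)` generated by the regularised double shuffle
elements -/
noncomputable def J (p : ℕ) : Submodule ℚ H :=
  Submodule.span ℚ {z | ∃ q r h, q ≤ p ∧ r ∈ RDS q ∧ h ∈ H0 (p - q) ∧ z = shuffle r h}

/-- `D_0 = 1`, `D_1 = 0`, `D_2 = 1`, `D_p = D_{p-2} + D_{p-3}` -/
def D : ℕ → ℕ
  | 0 => 1
  | 1 => 0
  | 2 => 1
  | p + 3 => D (p + 1) + D p

/-- the final statement -/
def SpecAnswer : Prop :=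
  ∀ p, Module.finrank ℚ (H0 p ⧸ (J p).comap (H0 p).subtype) ≤ D p

end MP154526.Bound
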