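import Pool.Agent.Lib.MP_154526_nt.Top.Defs
import Pool.Agent.Lib.MP_154526_nt.Top.Answer

/-!
# Plan: exact statements of all modules

Words in `x, y`: `List Bool`, `false = x`, `true = y`.
Words of `ℌ¹` (ending in `y`) are `bw [a_1,…,a_t] = x^{a_1} y ⋯ x^{a_t} y`, `a_i = k_i - 1 ≥ 0`.
-/

set_option autoImplicit false

namespace MP154526.Top

open Finset

/-- the word `x^{a_1} y ⋯ x^{a_t} y` -/
def bw : List ℕ → List Bool
  | [] => []
  | a :: l => List.replicate a false ++ true :: bw l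

/-- empty or ending in `y` -/
def EndY (w : List Bool) : Prop := w = [] ∨ ∃ u, w = u ++ [true]

/-- `ψ` kills the shuffles of two nonempty words of `ℌ¹`, total length `n` -/
def IsSh (n : ℕ) (ψ : List Bool → ZMod 2) : Prop :=
  ∀ u v : List Bool, u ≠ [] → v ≠ [] → EndY u → EndY v → u.length + v.length = n → shs ψ u v = 0

/-- `ψ` kills the half squares `(w ⧢ w)/2 = a (u ⧢ a u)`, `w = a u` -/
def IsHalf (n : ℕ) (ψ : List Bool → ZMod 2) : Prop :=
  ∀ (a : Bool) (u : List Bool), EndY (a :: u) → 2 * (u.length + 1) = n →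
    shs (fun l => ψ (a :: l)) u (a :: u) = 0

/-- the stuffle `y^j * w`, evaluated by `f` (`w` = list of the `a_i = k_i - 1`) -/
def stz (f : List ℕ → ZMod 2) : ℕ → List ℕ → ZMod 2
  | 0, w => f w
  | j + 1, [] => f (List.replicate (j + 1) 0)
  | j + 1, a :: w => stz (fun l => f (0 :: l)) j (a :: w) + stz (fun l => f (a :: l)) (j + 1) w +
      stz (fun l => f ((a + 1) :: l)) j w
termination_by j w => j + w.length

/-- `ψ` kills `y^j * w`, `j ≥ 1`, `w ∈ ℌ¹` not a power of `y` -/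
def IsT (n : ℕ) (ψ : List Bool → ZMod 2) : Prop :=
  ∀ (j : ℕ) (w : List ℕ), 1 ≤ j → (∃ a ∈ w, a ≠ 0) → j + w.sum + w.length = n →
    stz (fun l => ψ (bw l)) j w = 0

/-! ### module RED (helper32) -/

/-- RED: only words with all `a_i ≤ 1` matter -/
def SpecRed : Prop :=
  ∀ (n : ℕ) (ψ : List Bool → ZMod 2), 2 ≤ n → IsSh n ψ → IsT n ψ →
    (∀ l : List ℕ, (∀ a ∈ l, a ≤ 1) → l.sum + l.length = n → ψ (bw l) = 0) →
    ∀ l : List ℕ, l.sum + l.length = n → ψ (bw l) = 0

/-! ### modules FRONT, STAR (THEOREM R) -/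

/-- complete homogeneous polynomial of degree `i` in `s, t` -/
def hh {R : Type} [CommRing R] (i : ℕ) (s t : R) : R := ∑ p ∈ range (i + 1), s ^ p * t ^ (i - p)

/-- the kernel `x^i ↦ [(s+l)s^i + (t+l)t^i]/(s+t) = h_i(s,t) + l h_{i-1}(s,t)` -/
def kerR {R : Type} [CommRing R] (l s t : R) : ℕ → R
  | 0 => 1
  | i + 1 => hh (i + 1) s t + l * hh i s t

/-- the slot functions along the path from `b` with steps `ρ` -/
def starW {R : Type} [CommRing R] (l b : R) : List R → List (ℕ → R)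
  | [] => []
  | r :: ρ => kerR l b (b + r) :: starW l (b + r) ρ

/-- `E_l(u_b)(b, b_1, …, b_m)`: the first slot of `P` carries the powers of the base point -/
def evS {R : Type} [CommRing R] (D : ℕ) (l b : R) (P : List ℕ → R) (ρ : List R) : R :=
  ev D (geo b :: starW l b ρ) P

/-- the hypothesis (STAR) for a family of functionals on `m` slots -/
structure HypStar (D m : ℕ) (P : List ℕ → ZMod 2) : Prop where
  sh : ∀ (R : Type) [CommRing R] [Algebra (ZMod 2) R] (l b : R) (σ W : List R), σ ≠ [] → W ≠ [] →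
    σ.length + W.length = m → shs (evS D l b (cast R P)) σ W = 0
  half : ∀ (R : Type) [CommRing R] [Algebra (ZMod 2) R] (l b a : R) (u : List R),
    2 * (u.length + 1) = m → shs (fun ρ => evS D l b (cast R P) (a :: ρ)) u (a :: u) = 0
  ti : ∀ (R : Type) [CommRing R] [Algebra (ZMod 2) R] (l b c : R) (ρ : List R),
    ρ.length = m → evS D l b (cast R P) ρ = evS D l c (cast R P) ρ

/-- `Q` (a functional on words in two letters) kills shuffles and half squares in length `m` -/
structure LieLike (m : ℕ) (Q : List Bool → ZMod 2) : Prop where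
  sh : ∀ u v : List Bool, u ≠ [] → v ≠ [] → u.length + v.length = m → shs Q u v = 0
  half : ∀ (a : Bool) (u : List Bool), 2 * (u.length + 1) = m →
    shs (fun l => Q (a :: l)) u (a :: u) = 0

/-- STAR (Theorem R): a family with (STAR) is constant in the base point, multi-affine and Lie -/
def SpecStar : Prop :=
  ∀ (D m N : ℕ) (P : List ℕ → ZMod 2), 2 ≤ D → 1 ≤ m → Supp D (m + 1) P →
    (∀ l, P l ≠ 0 → l.sum = N) → HypStar D m P →
    (∀ l, P l ≠ 0 → ∃ l', l = 0 :: l' ∧ ∀ a ∈ l', a ≤ 1) ∧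
    LieLike m (fun l => P (0 :: l.map fun s => if s then 1 else 0))

/-- `z_2 z_1^{i_1} z_2 z_1^{i_2} ⋯` as list of exponents `a = k - 1` -/
def ztail : List ℕ → List ℕ
  | [] => []
  | i :: l => 1 :: (List.replicate i 0 ++ ztail l)

/-- `z_1^{i_0} z_2 z_1^{i_1} ⋯ z_2 z_1^{i_m}` -/
def zw : List ℕ → List ℕ
  | [] => []
  | i :: l => List.replicate i 0 ++ ztail l

/-- the part of `ψ` in words in `z_1, z_2` with exactly `m` letters `z_2`, weight `n` -/
def PR (n m : ℕ) (ψ : List Bool → ZMod 2) : List ℕ → ZMod 2 :=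
  fun l => if l.length = m + 1 ∧ l.sum + 2 * m = n then ψ (bw (zw l)) else 0

/-- FRONT: the top part `P_m` satisfies (STAR) -/
def SpecFront : Prop :=
  ∀ (n m D : ℕ) (ψ : List Bool → ZMod 2), 2 ≤ n → 1 ≤ m → n < D → IsSh n ψ → IsHalf n ψ →
    IsT n ψ →
    (∀ l : List ℕ, m + 1 < l.length → l.sum + 2 * (l.length - 1) = n → ψ (bw (zw l)) = 0) →
    HypStar D m (PR n m ψ)

/-! ### module LYN -/

/-- Lyndon words for the lexicographic order on `List Bool`, `false < true` -/
def IsLyn (w : List Bool) : Prop := w ≠ [] ∧ ∀ u v, w = u ++ v → u ≠ [] → v ≠ [] → w < v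

/-- LYN: a Lie-like functional is determined by its values on Lyndon words -/
def SpecLyn : Prop :=
  ∀ (m : ℕ) (Q : List Bool → ZMod 2), 1 ≤ m → LieLike m Q →
    (∀ w, IsLyn w → w.length = m → Q w = 0) → ∀ w : List Bool, w.length = m → Q w = 0

/-- a graded version: `Q` lives in one bidegree (number of `true`s equal to `k`) -/
def SpecLynGr : Prop :=
  ∀ (m k : ℕ) (Q : List Bool → ZMod 2), 1 ≤ m → LieLike m Q →
    (∀ w, Q w ≠ 0 → w.count true = k) →
    (∀ w, IsLyn w → w.length = m → w.count true = k → Q w = 0) →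
    ∀ w : List Bool, w.length = m → Q w = 0

/-- FACT: uniqueness of the nonincreasing factorisation into Lyndon words -/
def SpecFact : Prop :=
  ∀ L L' : List (List Bool), (∀ w ∈ L, IsLyn w) → (∀ w ∈ L', IsLyn w) →
    L.Pairwise (fun u v => v ≤ u) → L'.Pairwise (fun u v => v ≤ u) →
    L.flatten = L'.flatten → L = L'

/-! ### the statement over `F_2` -/

/-- substitute `a = z_2 = xy` (`false`), `b = z_2 z_1 = xyy` (`true`) -/
def expand : List Bool → List Bool
  | [] => []
  | false :: w => false :: true :: expand w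
  | true :: w => false :: true :: true :: expand w

/-- F2 (assembly of FRONT, STAR, LYN, RED) -/
def SpecF2 : Prop :=
  ∀ (n : ℕ) (ψ : List Bool → ZMod 2), 2 ≤ n → IsSh n ψ → IsHalf n ψ → IsT n ψ →
    (∀ w, IsLyn w → (expand w).length = n → ψ (expand w) = 0) →
    ∀ w, EndY w → w.length = n → ψ w = 0

/-! ### from `ℚ` to `F_2` -/

open MP154526.Bound

/-- linear extension of a function on words -/
noncomputable def lin (φ : List Bool → ℤ) (h : H) : ℚ := h.sum fun w a => a * φ w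

/-- extension of a functional on `ℌ⁰` to words starting with `y`:
`φ^(y^m x w) = (-1)^m φ(x (y^m ⧢ w))`, `φ^(y^m) = 0` for `m ≥ 1` -/
def extAux (φ : List Bool → ℤ) : ℕ → List Bool → ℤ
  | 0, [] => φ []
  | _ + 1, [] => 0
  | m, true :: w => extAux φ (m + 1) w
  | m, false :: w => (-1) ^ m * shs (fun l => φ (false :: l)) (List.replicate m true) w

def ext (φ : List Bool → ℤ) (w : List Bool) : ℤ := extAux φ 0 w

/-- the hypotheses on an integral functional in weight `n` -/
structure Kills (n : ℕ) (φ : List Bool → ℤ) : Prop where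
  rds : ∀ r ∈ RDS n, lin φ r = 0
  prod : ∀ i j, 1 ≤ i → 1 ≤ j → i + j = n → ∀ a ∈ H0 i, ∀ b ∈ H0 j, lin φ (shuffle a b) = 0

/-- PASS1 -/
def SpecPass1 : Prop :=
  ∀ (n : ℕ) (φ : List Bool → ℤ), 2 ≤ n → Kills n φ →
    IsSh n (fun w => (ext φ w : ZMod 2)) ∧ IsHalf n (fun w => (ext φ w : ZMod 2))

/-- PASS2 -/
def SpecPass2 : Prop :=
  ∀ (n : ℕ) (φ : List Bool → ℤ), 2 ≤ n → Kills n φ → IsT n (fun w => (ext φ w : ZMod 2))

/-- SPAN (from F2, PASS1, PASS2): `ℌ⁰_n` is spanned by products, relations and Lyndon words -/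
def SpecSpan : Prop :=
  ∀ n, 1 ≤ n → H0 n ≤
    Submodule.span ℚ {z | ∃ i j a b, 1 ≤ i ∧ 1 ≤ j ∧ i + j = n ∧ a ∈ H0 i ∧ b ∈ H0 j ∧
      z = shuffle a b} ⊔ Submodule.span ℚ (RDS n) ⊔
    Submodule.span ℚ {z | ∃ w, IsLyn w ∧ (expand w).length = n ∧ z = wd (expand w)}

/-- ALG: the shuffle product -/
structure SpecAlg : Prop where
  comm : ∀ a b : H, shuffle a b = shuffle b a
  assoc : ∀ a b c : H, shuffle (shuffle a b) c = shuffle a (shuffle b c)
  one : ∀ a : H, shuffle (wd []) a = a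
  add : ∀ a b c : H, shuffle (a + b) c = shuffle a c + shuffle b c
  smul : ∀ (r : ℚ) (a b : H), shuffle (r • a) b = r • shuffle a b
  h0 : ∀ i j, ∀ a ∈ H0 i, ∀ b ∈ H0 j, shuffle a b ∈ H0 (i + j)

end MP154526.Top
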