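import Pool.Agent.Lib.MP_154526_nt.Top.Defs
import Pool.Agent.Lib.MP_154526_nt.Top.Plan

section
/-!
# Basic API of the shared model
-/
set_option autoImplicit false

namespace MP154526.Top

open Finset

variable {R : Type} [CommRing R]

/-- apply several slot functions -/
def appL (D : ℕ) : List (ℕ → R) → (List ℕ → R) → (List ℕ → R)
  | [], P => P
  | w :: ws, P => appL D ws (app D w P)

theorem ev_eq_appL (D : ℕ) (ws : List (ℕ → R)) (P : List ℕ → R) : ev D ws P = appL D ws P [] := by
  induction ws generalizing P with
  | nil => rfl
  | cons w ws ih => exact ih _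

theorem appL_append (D : ℕ) (ws vs : List (ℕ → R)) (P : List ℕ → R) :
    appL D (ws ++ vs) P = appL D vs (appL D ws P) := by
  induction ws generalizing P with
  | nil => rfl
  | cons w ws ih => exact ih _

theorem ev_append (D : ℕ) (ws vs : List (ℕ → R)) (P : List ℕ → R) :
    ev D (ws ++ vs) P = ev D vs (appL D ws P) := by
  rw [ev_eq_appL, appL_append, ← ev_eq_appL]

theorem app_add (D : ℕ) (w : ℕ → R) (P Q : List ℕ → R) :
    app D w (P + Q) = app D w P + app D w Q := by
  funext l
  simp [app, mul_add, Finset.sum_add_distrib]

theorem app_smul (D : ℕ) (w : ℕ → R) (r : R) (P : List ℕ → R) :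
    app D w (r • P) = r • app D w P := by
  funext l
  simp only [app, Pi.smul_apply, smul_eq_mul, Finset.mul_sum]
  exact Finset.sum_congr rfl fun _ _ => by ring

theorem app_zero (D : ℕ) (w : ℕ → R) : app D w (0 : List ℕ → R) = 0 := by
  funext l
  simp [app]

theorem app_w_add (D : ℕ) (w v : ℕ → R) (P : List ℕ → R) :
    app D (w + v) P = app D w P + app D v P := by
  funext l
  simp [app, add_mul, Finset.sum_add_distrib]

theorem app_w_smul (D : ℕ) (r : R) (w : ℕ → R) (P : List ℕ → R) :
    app D (r • w) P = r • app D w P := by
  funext l
  simp only [app, Pi.smul_apply, smul_eq_mul, Finset.mul_sum]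
  exact Finset.sum_congr rfl fun _ _ => by ring

theorem appL_add (D : ℕ) (ws : List (ℕ → R)) (P Q : List ℕ → R) :
    appL D ws (P + Q) = appL D ws P + appL D ws Q := by
  induction ws generalizing P Q with
  | nil => rfl
  | cons w ws ih => simp only [appL, app_add, ih]

theorem appL_smul (D : ℕ) (ws : List (ℕ → R)) (r : R) (P : List ℕ → R) :
    appL D ws (r • P) = r • appL D ws P := by
  induction ws generalizing P with
  | nil => rfl
  | cons w ws ih => simp only [appL, app_smul, ih]

theorem appL_zero (D : ℕ) (ws : List (ℕ → R)) : appL D ws (0 : List ℕ → R) = 0 := by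
  induction ws with
  | nil => rfl
  | cons w ws ih => simp only [appL, app_zero, ih]

theorem ev_add (D : ℕ) (ws : List (ℕ → R)) (P Q : List ℕ → R) :
    ev D ws (P + Q) = ev D ws P + ev D ws Q := by
  simp only [ev_eq_appL, appL_add, Pi.add_apply]

theorem ev_smul (D : ℕ) (ws : List (ℕ → R)) (r : R) (P : List ℕ → R) :
    ev D ws (r • P) = r * ev D ws P := by
  simp only [ev_eq_appL, appL_smul, Pi.smul_apply, smul_eq_mul]

theorem ev_zero (D : ℕ) (ws : List (ℕ → R)) : ev D ws (0 : List ℕ → R) = 0 := by
  simp only [ev_eq_appL, appL_zero, Pi.zero_apply]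

/-- `P` is supported on lists of length `m` with entries `< D` -/
def SuppR (D m : ℕ) (P : List ℕ → R) : Prop :=
  ∀ l, P l ≠ 0 → l.length = m ∧ ∀ a ∈ l, a < D

theorem SuppR.app {D m : ℕ} {P : List ℕ → R} (h : SuppR D (m + 1) P) (w : ℕ → R) :
    SuppR D m (Top.app D w P) := by
  intro l hl
  obtain ⟨j, _, hj⟩ := Finset.exists_ne_zero_of_sum_ne_zero hl
  have h1 := h (j :: l) (fun h0 => hj (by rw [h0, mul_zero]))
  refine ⟨by simpa using h1.1, fun a ha => h1.2 a (List.mem_cons_of_mem _ ha)⟩

theorem SuppR.app_zero {D : ℕ} {P : List ℕ → R} (h : SuppR D 0 P) (w : ℕ → R) :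
    Top.app D w P = 0 := by
  funext l
  refine Finset.sum_eq_zero fun j _ => ?_
  by_cases h0 : P (j :: l) = 0
  · rw [h0, mul_zero]
  · exact absurd (h _ h0).1 (by simp)

theorem ev_of_length_ne {D m : ℕ} {P : List ℕ → R} (h : SuppR D m P) (ws : List (ℕ → R))
    (hl : ws.length ≠ m) : ev D ws P = 0 := by
  induction ws generalizing m P with
  | nil =>
    by_contra h0
    exact hl (h [] h0).1
  | cons w ws ih =>
    cases m with
    | zero =>
      show ev D ws (app D w P) = 0
      rw [h.app_zero w]
      exact ev_zero D ws
    | succ m => exact ih (h.app w) (fun h1 => hl (by simp [h1]))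

theorem Supp.cast {D m : ℕ} {P : List ℕ → ZMod 2} (h : Supp D m P) [Algebra (ZMod 2) R] :
    SuppR D m (Top.cast R P) := by
  intro l hl
  refine h l fun h0 => hl ?_
  simp [Top.cast, h0]

/-- naturality -/
theorem ev_map {S : Type} [CommRing S] (f : R →+* S) (D : ℕ) (ws : List (ℕ → R))
    (P : List ℕ → R) :
    f (ev D ws P) = ev D (ws.map (fun w j => f (w j))) (fun l => f (P l)) := by
  induction ws generalizing P with
  | nil => rfl
  | cons w ws ih =>
    show f (ev D ws (app D w P)) = ev D (ws.map (fun w j => f (w j))) _
    rw [ih]
    congr 1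
    funext l
    simp [app, map_sum]

theorem cast_map {S : Type} [CommRing S] [Algebra (ZMod 2) R] [Algebra (ZMod 2) S]
    (f : R →+* S) (P : List ℕ → ZMod 2) (l : List ℕ) : f (cast R P l) = cast S P l := by
  have h : f.comp (algebraMap (ZMod 2) R) = algebraMap (ZMod 2) S := Subsingleton.elim _ _
  exact congrArg (fun g : ZMod 2 →+* S => g (P l)) h

theorem path_map {S : Type} [CommRing S] (f : R →+* S) (b : R) (ρ : List R) :
    (path b ρ).map f = path (f b) (ρ.map f) := by
  induction ρ generalizing b with
  | nil => rfl
  | cons r ρ ih => simp only [path, List.map_cons, ih, map_add]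

theorem path_length (b : R) (ρ : List R) : (path b ρ).length = ρ.length := by
  induction ρ generalizing b with
  | nil => rfl
  | cons r ρ ih => simp [path, ih]

/-! ### shuffles -/

section Shs
variable {α M : Type} [AddCommMonoid M]

@[simp] theorem shs_nil_left (F : List α → M) (W : List α) : shs F [] W = F W := by
  rw [shs]

@[simp] theorem shs_nil_right (F : List α → M) (σ : List α) : shs F σ [] = F σ := by
  cases σ <;> rw [shs]

theorem shs_cons_cons (F : List α → M) (a : α) (σ : List α) (c : α) (W : List α) :
    shs F (a :: σ) (c :: W) =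
      shs (fun l => F (a :: l)) σ (c :: W) + shs (fun l => F (c :: l)) (a :: σ) W := by
  rw [shs]

theorem shs_induct {P : List α → List α → Prop} (h0 : ∀ W, P [] W) (h1 : ∀ a σ, P (a :: σ) [])
    (h2 : ∀ a σ c W, P σ (c :: W) → P (a :: σ) W → P (a :: σ) (c :: W)) (σ W : List α) :
    P σ W := by
  induction σ generalizing W with
  | nil => exact h0 W
  | cons a σ ih =>
    induction W with
    | nil => exact h1 a σ
    | cons c W ihW => exact h2 a σ c W (ih _) ihW

theorem shs_zero (σ W : List α) : shs (fun _ => (0 : M)) σ W = 0 := by
  induction σ, W using shs_induct with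
  | h0 W => simp
  | h1 a σ => simp
  | h2 a σ c W ha hb => rw [shs_cons_cons, ha, hb, add_zero]

theorem shs_congr_len {F G : List α → M} (σ W : List α)
    (h : ∀ l : List α, l.length = σ.length + W.length → F l = G l) : shs F σ W = shs G σ W := by
  induction σ, W using shs_induct generalizing F G with
  | h0 W => simpa using h W (by simp)
  | h1 a σ => simpa using h (a :: σ) (by simp)
  | h2 a σ c W ha hb =>
    rw [shs_cons_cons, shs_cons_cons]
    congr 1
    · exact ha fun l hl => h _ (by simp only [List.length_cons] at hl ⊢; omega)
    · exact hb fun l hl => h _ (by simp only [List.length_cons] at hl ⊢; omega)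

theorem shs_map {N : Type} [AddCommMonoid N] (f : M →+ N) (F : List α → M) (σ W : List α) :
    f (shs F σ W) = shs (fun l => f (F l)) σ W := by
  induction σ, W using shs_induct generalizing F with
  | h0 W => simp
  | h1 a σ => simp
  | h2 a σ c W ha hb => rw [shs_cons_cons, shs_cons_cons, map_add, ha, hb]

theorem shs_add (F G : List α → M) (σ W : List α) :
    shs (fun l => F l + G l) σ W = shs F σ W + shs G σ W := by
  induction σ, W using shs_induct generalizing F G with
  | h0 W => simp
  | h1 a σ => simp
  | h2 a σ c W ha hb =>
    rw [shs_cons_cons, shs_cons_cons, shs_cons_cons, ha, hb]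
    abel

theorem shs_comm (F : List α → M) (σ W : List α) : shs F σ W = shs F W σ := by
  induction σ, W using shs_induct generalizing F with
  | h0 W => simp
  | h1 a σ => simp
  | h2 a σ c W ha hb => rw [shs_cons_cons, shs_cons_cons, ha, hb, add_comm]

/-- letters are mapped -/
theorem shs_letters {β : Type} (f : β → α) (F : List α → M) (σ W : List β) :
    shs F (σ.map f) (W.map f) = shs (fun l => F (l.map f)) σ W := by
  induction σ, W using shs_induct generalizing F with
  | h0 W => simp
  | h1 a σ => simp
  | h2 a σ c W ha hb =>
    rw [shs_cons_cons, List.map_cons, List.map_cons, shs_cons_cons]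
    have h1 := ha (fun l => F (f a :: l))
    have h2 := hb (fun l => F (f c :: l))
    rw [List.map_cons] at h1 h2
    rw [h1, h2]
    rfl

/-- all words of the shuffle start with letters satisfying `p` -/
theorem shs_prefix_zero (p : α → Prop) (V W' : List α) (hV : ∀ x ∈ V, p x) (σ : List α)
    (hσ : ∀ x ∈ σ, p x) (G : List α → M)
    (hG : ∀ l : List α, (∀ x ∈ l.take V.length, p x) → G l = 0) :
    shs G σ (V ++ W') = 0 := by
  induction V generalizing G σ with
  | nil =>
    have : G = fun _ => 0 := by
      funext l
      exact hG l (by simp)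
    rw [this]
    exact shs_zero _ _
  | cons v V ih =>
    induction σ generalizing G with
    | nil =>
      rw [shs_nil_left]
      refine hG _ ?_
      simpa using hV
    | cons a σ ihσ =>
      rw [List.cons_append, shs_cons_cons]
      have h1 : shs (fun l => G (a :: l)) σ (v :: (V ++ W')) = 0 := by
        have h2 := ihσ (fun x hx => hσ x (List.mem_cons_of_mem _ hx)) (fun l => G (a :: l)) ?_
        · simpa using h2
        · intro l hl
          refine hG _ ?_
          intro x hx
          simp only [List.length_cons, List.take_succ_cons, List.mem_cons] at hx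
          rcases hx with rfl | hx
          · exact hσ _ (by simp)
          · refine hl x ?_
            simp only [List.length_cons]
            exact List.mem_of_mem_take (i := V.length) (by
              rw [List.take_take]
              simpa using hx)
      rw [h1, zero_add]
      refine ih (fun x hx => hV x (List.mem_cons_of_mem _ hx)) (a :: σ) hσ _ ?_
      intro l hl
      refine hG _ ?_
      intro x hx
      simp only [List.length_cons, List.take_succ_cons, List.mem_cons] at hx
      rcases hx with rfl | hx
      · exact hV _ (by simp)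
      · exact hl x hx

/-- only the words with no letter of `σ` before `w` survive -/
theorem shs_split (p : α → Prop) (V : List α) (w : α) (W : List α) (hV : ∀ x ∈ V, p x)
    (σ : List α) (hσ : ∀ x ∈ σ, p x) (F : List α → M)
    (hF : ∀ l : List α, (∀ x ∈ l.take (V.length + 1), p x) → F l = 0) :
    shs F σ (V ++ w :: W) = shs (fun l => F (V ++ w :: l)) σ W := by
  induction V generalizing F with
  | nil =>
    cases σ with
    | nil => simp
    | cons a σ =>
      rw [List.nil_append, shs_cons_cons]
      have h1 : (fun l => F (a :: l)) = fun _ => 0 := by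
        funext l
        refine hF _ ?_
        intro x hx
        simp only [List.length_nil, zero_add, List.take_succ_cons, List.take_zero,
          List.mem_cons, List.not_mem_nil, or_false] at hx
        subst hx
        exact hσ _ (by simp)
      rw [h1, shs_zero, zero_add]
      rfl
  | cons v V ih =>
    cases σ with
    | nil => simp
    | cons a σ =>
      rw [List.cons_append, shs_cons_cons]
      have h1 : shs (fun l => F (a :: l)) σ (v :: (V ++ w :: W)) = 0 := by
        have := shs_prefix_zero p (v :: V) (w :: W) hV σ
          (fun x hx => hσ x (List.mem_cons_of_mem _ hx)) (fun l => F (a :: l)) ?_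
        · simpa using this
        · intro l hl
          refine hF _ ?_
          intro x hx
          simp only [List.length_cons, List.take_succ_cons, List.mem_cons] at hx hl
          rcases hx with rfl | hx
          · exact hσ _ (by simp)
          · exact hl x hx
      rw [h1, zero_add]
      have h2 := ih (fun x hx => hV x (List.mem_cons_of_mem _ hx)) (fun l => F (v :: l)) ?_
      · rw [h2]
        rfl
      · intro l hl
        refine hF _ ?_
        intro x hx
        simp only [List.length_cons, List.take_succ_cons, List.mem_cons] at hx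
        rcases hx with rfl | hx
        · exact hV _ (by simp)
        · exact hl x hx

end Shs

end MP154526.Top
end

section
/-!
# PASS1: the extension of an integral functional kills shuffles and half squares
-/
set_option autoImplicit false

namespace MP154526.Top.Pass1

open MP154526.Bound MP154526.Top

section Assoc
variable {α M : Type} [AddCommMonoid M]

/-- associativity of the shuffle product -/
theorem shs_assoc (F : List α → M) (u v w : List α) :
    shs (fun s => shs F s w) u v = shs (fun t => shs F u t) v w := by
  suffices h : ∀ (n : ℕ) (F : List α → M) (u v w : List α), u.length + v.length + w.length ≤ n →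
      shs (fun s => shs F s w) u v = shs (fun t => shs F u t) v w from
    h _ F u v w le_rfl
  intro n
  induction n with
  | zero =>
    intro F u v w h
    have hu : u = [] := List.length_eq_zero_iff.mp (by omega)
    have hv : v = [] := List.length_eq_zero_iff.mp (by omega)
    have hw : w = [] := List.length_eq_zero_iff.mp (by omega)
    subst hu hv hw
    simp
  | succ n ih =>
    intro F u v w h
    cases u with
    | nil => simp
    | cons a u =>
      cases v with
      | nil => simp
      | cons b v =>
        cases w with
        | nil => simp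
        | cons c w =>
          simp only [List.length_cons] at h
          have e1 := ih (fun l => F (a :: l)) u (b :: v) (c :: w)
            (by simp only [List.length_cons]; omega)
          have e2 := ih (fun l => F (b :: l)) (a :: u) v (c :: w)
            (by simp only [List.length_cons]; omega)
          have e3 := ih (fun l => F (c :: l)) (a :: u) (b :: v) w
            (by simp only [List.length_cons]; omega)
          have L : shs (fun s => shs F s (c :: w)) (a :: u) (b :: v) =
              shs (fun s => shs (fun l => F (a :: l)) s (c :: w)) u (b :: v) +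
                shs (fun s => shs (fun l => F (b :: l)) s (c :: w)) (a :: u) v +
                shs (fun s => shs (fun l => F (c :: l)) s w) (a :: u) (b :: v) := by
            rw [shs_cons_cons (fun s => shs F s (c :: w)),
              shs_cons_cons (fun s => shs (fun l => F (c :: l)) s w)]
            simp only [shs_cons_cons F, shs_add]
            abel
          have Rr : shs (fun t => shs F (a :: u) t) (b :: v) (c :: w) =
              shs (fun t => shs (fun l => F (a :: l)) u t) (b :: v) (c :: w) +
                shs (fun t => shs (fun l => F (b :: l)) (a :: u) t) v (c :: w) +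
                shs (fun t => shs (fun l => F (c :: l)) (a :: u) t) (b :: v) w := by
            rw [shs_cons_cons (fun t => shs F (a :: u) t),
              shs_cons_cons (fun t => shs (fun l => F (a :: l)) u t)]
            simp only [shs_cons_cons F, shs_add]
            abel
          rw [L, Rr, e1, e2, e3]

end Assoc

/-! ### `lin` -/

theorem lin_wd (φ : List Bool → ℤ) (w : List Bool) : lin φ (wd w) = φ w := by
  simp [lin, wd]

theorem lin_zero (φ : List Bool → ℤ) : lin φ 0 = 0 := by
  simp [lin]

theorem lin_add (φ : List Bool → ℤ) (p q : H) : lin φ (p + q) = lin φ p + lin φ q := by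
  unfold lin
  exact Finsupp.sum_add_index' (by simp) (by intro w a b; ring)

theorem lin_smul (φ : List Bool → ℤ) (c : ℚ) (p : H) : lin φ (c • p) = c * lin φ p := by
  unfold lin
  rw [Finsupp.sum_smul_index' (by simp), Finsupp.mul_sum]
  refine Finsupp.sum_congr fun w _ => ?_
  simp only [smul_eq_mul]
  ring

theorem lin_neg (φ : List Bool → ℤ) (p : H) : lin φ (-p) = -lin φ p := by
  have := lin_smul φ (-1) p
  rw [neg_one_smul, neg_one_mul] at this
  exact this

theorem lin_sub (φ : List Bool → ℤ) (p q : H) : lin φ (p - q) = lin φ p - lin φ q := by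
  rw [sub_eq_add_neg, lin_add, lin_neg, sub_eq_add_neg]

theorem lin_sum {ι : Type*} (φ : List Bool → ℤ) (s : Finset ι) (f : ι → H) :
    lin φ (∑ i ∈ s, f i) = ∑ i ∈ s, lin φ (f i) := by
  classical
  induction s using Finset.induction_on with
  | empty => simp [lin_zero]
  | insert i s hi ih => rw [Finset.sum_insert hi, Finset.sum_insert hi, lin_add, ih]

theorem lin_lmul (φ : List Bool → ℤ) (a : Bool) (p : H) :
    lin φ (lmul a p) = lin (fun w => φ (a :: w)) p := by
  unfold lin lmul
  rw [Finsupp.sum_mapDomain_index (by simp) (by intro w a b; ring)]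

/-- `lin` of a shuffle of words -/
theorem lin_sh (φ : List Bool → ℤ) (u v : List Bool) : lin φ (sh u v) = (shs φ u v : ℤ) := by
  induction u, v using shs_induct generalizing φ with
  | h0 W => rw [sh, shs_nil_left, lin_wd]
  | h1 a σ => rw [sh, shs_nil_right, lin_wd]
  | h2 a σ c W ha hb =>
    rw [sh, shs_cons_cons, lin_add, lin_lmul, lin_lmul, ha, hb]
    push_cast
    rfl

theorem shuffle_wd (u v : List Bool) : shuffle (wd u) (wd v) = sh u v := by
  unfold shuffle wd
  rw [Finsupp.sum_single_index (by simp), Finsupp.sum_single_index (by simp)]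
  simp

/-! ### the extension -/

theorem extAux_rep (φ : List Bool → ℤ) (m k : ℕ) (w : List Bool) :
    extAux φ m (List.replicate k true ++ w) = extAux φ (m + k) w := by
  induction k generalizing m with
  | zero => simp
  | succ k ih =>
    rw [List.replicate_succ, List.cons_append, extAux, ih]
    congr 1
    omega

theorem extAux_false (φ : List Bool → ℤ) (m : ℕ) (w : List Bool) :
    extAux φ m (false :: w) =
      (-1) ^ m * shs (fun l => φ (false :: l)) (List.replicate m true) w := by
  rw [extAux]

theorem ext_false (φ : List Bool → ℤ) (w : List Bool) : ext φ (false :: w) = φ (false :: w) := by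
  rw [ext, extAux_false]
  simp

theorem extAux_succ_nil (φ : List Bool → ℤ) (m : ℕ) : extAux φ (m + 1) [] = 0 := by
  rw [extAux]

theorem extAux_true (φ : List Bool → ℤ) (m : ℕ) (w : List Bool) :
    extAux φ m (true :: w) = extAux φ (m + 1) w := by
  rw [extAux]

theorem shs_true_rep {M : Type} [AddCommMonoid M] (G : List Bool → M) (m : ℕ) :
    shs G [true] (List.replicate m true) = (m + 1) • G (List.replicate (m + 1) true) := by
  induction m generalizing G with
  | zero => simp
  | succ m ih =>
    rw [List.replicate_succ, shs_cons_cons, shs_nil_left, ih, ← List.replicate_succ,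
      ← List.replicate_succ, succ_nsmul' _ (m + 1)]

theorem shs_true_rep_false {M : Type} [AddCommMonoid M] (G : List Bool → M) (m : ℕ)
    (w : List Bool) :
    shs G [true] (List.replicate m true ++ false :: w) =
      (m + 1) • G (List.replicate (m + 1) true ++ false :: w) +
        shs (fun l => G (List.replicate m true ++ false :: l)) [true] w := by
  induction m generalizing G with
  | zero =>
    rw [List.replicate_zero, List.nil_append, shs_cons_cons, shs_nil_left]
    simp
  | succ m ih =>
    rw [List.replicate_succ, List.cons_append, shs_cons_cons, shs_nil_left, ih]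
    rw [← add_assoc]
    congr 1
    simp only [List.replicate_succ, List.cons_append]
    rw [succ_nsmul' _ (m + 1)]

theorem shs_smul_int (c : ℤ) (G : List Bool → ℤ) (u v : List Bool) :
    shs (fun l => c * G l) u v = c * shs G u v :=
  ((shs_map (AddMonoidHom.mulLeft c) G u v)).symm

/-- Claim A -/
theorem extAux_true_sh (φ : List Bool → ℤ) (m : ℕ) (w : List Bool) :
    shs (extAux φ m) [true] w = -(m : ℤ) * extAux φ (m + 1) w := by
  induction w generalizing m with
  | nil => rw [shs_nil_right, extAux_true, extAux_succ_nil, mul_zero]
  | cons a w ih =>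
    rw [shs_cons_cons, shs_nil_left]
    cases a with
    | true =>
      have : (fun l => extAux φ m (true :: l)) = extAux φ (m + 1) := by
        funext l
        rw [extAux_true]
      rw [this, ih, extAux_true, extAux_true]
      push_cast
      ring
    | false =>
      have : (fun l => extAux φ m (false :: l)) =
          fun l => (-1) ^ m * shs (fun l => φ (false :: l)) (List.replicate m true) l := by
        funext l
        rw [extAux_false]
      have e1 : shs (fun t => shs (fun l => φ (false :: l)) (List.replicate m true) t) [true] w =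
          (m + 1) • shs (fun l => φ (false :: l)) (List.replicate (m + 1) true) w := by
        rw [← shs_assoc, shs_comm, shs_true_rep]
      rw [this, shs_smul_int, e1, extAux_true, extAux_false]
      rw [nsmul_eq_mul]
      push_cast
      ring

/-- the extension is killed by `y ⧢ w` -/
theorem ext_true_sh (φ : List Bool → ℤ) (w : List Bool) : shs (ext φ) [true] w = 0 := by
  have := extAux_true_sh φ 0 w
  rw [Nat.cast_zero, neg_zero, zero_mul] at this
  exact this

/-! ### words ending in `y` -/

theorem endY_iff (w : List Bool) : EndY w ↔ ∀ a ∈ w.getLast?, a = true := by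
  constructor
  · rintro (rfl | ⟨u, rfl⟩)
    · simp
    · simp
  · intro h
    rcases List.eq_nil_or_concat w with rfl | ⟨u, a, rfl⟩
    · exact Or.inl rfl
    · right
      have : a = true := h a (by simp)
      subst this
      exact ⟨u, by simp⟩

theorem endY_tail {a : Bool} {w : List Bool} (h : EndY (a :: w)) : EndY w := by
  rw [endY_iff] at h ⊢
  intro c hc
  cases w with
  | nil => simp at hc
  | cons b w =>
    refine h c ?_
    rw [List.getLast?_cons_cons]
    exact hc

theorem endY_cons {a : Bool} {w : List Bool} (h : EndY w) (hw : w ≠ []) : EndY (a :: w) := by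
  rw [endY_iff] at h ⊢
  intro c hc
  cases w with
  | nil => exact absurd rfl hw
  | cons b w =>
    rw [List.getLast?_cons_cons] at hc
    exact h c hc

theorem endY_true : EndY [true] := Or.inr ⟨[], rfl⟩

theorem endY_true_cons {w : List Bool} (h : EndY w) : EndY (true :: w) := by
  by_cases hw : w = []
  · subst hw
    exact endY_true
  · exact endY_cons h hw

theorem endY_rep {w : List Bool} (h : EndY w) (m : ℕ) : EndY (List.replicate m true ++ w) := by
  induction m with
  | zero => simpa using h
  | succ m ih =>
    rw [List.replicate_succ, List.cons_append]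
    exact endY_true_cons ih

theorem endY_of_rep {w : List Bool} (m : ℕ) (h : EndY (List.replicate m true ++ w)) : EndY w := by
  induction m with
  | zero => simpa using h
  | succ m ih =>
    rw [List.replicate_succ, List.cons_append] at h
    exact ih (endY_tail h)

/-- a function vanishing on all words ending in `y` of the right length kills shuffles of such
words -/
theorem shs_zero_of_endY {M : Type} [AddCommMonoid M] (F : List Bool → M) (u v : List Bool)
    (hu : EndY u) (hv : EndY v)
    (h : ∀ l : List Bool, l.length = u.length + v.length → EndY l → F l = 0) :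
    shs F u v = 0 := by
  induction u, v using shs_induct generalizing F with
  | h0 W => rw [shs_nil_left]; exact h W (by simp) hv
  | h1 a σ => rw [shs_nil_right]; exact h _ (by simp) hu
  | h2 a σ c W ha hb =>
    rw [shs_cons_cons, ha, hb, add_zero]
    · exact hu
    · exact endY_tail hv
    · intro l hl hE
      refine h _ (by simp only [List.length_cons] at hl ⊢; omega) (endY_cons hE ?_)
      rintro rfl
      simp only [List.length_nil, List.length_cons] at hl
      omega
    · exact endY_tail hu
    · exact hv
    · intro l hl hE
      refine h _ (by simp only [List.length_cons] at hl ⊢; omega) (endY_cons hE ?_)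
      rintro rfl
      simp only [List.length_nil, List.length_cons] at hl
      omega

/-- every word is `y^m` or `y^m x w` -/
theorem word_cases (w : List Bool) :
    (∃ m, w = List.replicate m true) ∨ ∃ m w', w = List.replicate m true ++ false :: w' := by
  induction w with
  | nil => exact Or.inl ⟨0, rfl⟩
  | cons a w ih =>
    cases a with
    | false => exact Or.inr ⟨0, w, rfl⟩
    | true =>
      rcases ih with ⟨m, rfl⟩ | ⟨m, w', rfl⟩
      · exact Or.inl ⟨m + 1, rfl⟩
      · exact Or.inr ⟨m + 1, w', rfl⟩

theorem nsmul_int_eq_zero {m : ℕ} {x : ℤ} (h : (m + 1) • x = 0) : x = 0 := by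
  rw [nsmul_eq_mul] at h
  rcases mul_eq_zero.mp h with h | h
  · exact absurd h (by positivity)
  · exact h

/-- reduction to words starting with `x` -/
theorem reduce (φ : List Bool → ℤ) (v : List Bool) (L : ℕ)
    (h : ∀ u : List Bool, u.length + 1 = L → EndY (false :: u) → shs (ext φ) (false :: u) v = 0)
    (u : List Bool) (hu : u ≠ []) (hL : u.length = L) (hE : EndY u) : shs (ext φ) u v = 0 := by
  rcases word_cases u with ⟨m, rfl⟩ | ⟨m, w', rfl⟩
  · -- a power of `y`
    cases m with
    | zero => exact absurd rfl hu
    | succ m =>
      have h1 : shs (fun s => shs (ext φ) s v) [true] (List.replicate m true) = 0 := by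
        rw [shs_assoc]
        simp only [ext_true_sh]
        exact shs_zero _ _
      rw [shs_true_rep] at h1
      exact nsmul_int_eq_zero h1
  · induction m generalizing w' with
    | zero =>
      rw [List.replicate_zero, List.nil_append] at hL hE ⊢
      exact h w' (by simpa using hL) hE
    | succ m ih =>
      have h1 : shs (fun s => shs (ext φ) s v) [true] (List.replicate m true ++ false :: w') =
          0 := by
        rw [shs_assoc]
        simp only [ext_true_sh]
        exact shs_zero _ _
      rw [shs_true_rep_false] at h1
      have hw' : EndY w' := endY_tail (endY_of_rep _ hE)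
      have hne : w' ≠ [] := by
        rintro rfl
        have := endY_of_rep _ hE
        rw [endY_iff] at this
        have := this false (by simp)
        simp at this
      have h2 : shs (fun l => shs (ext φ) (List.replicate m true ++ false :: l) v) [true] w' =
          0 := by
        refine shs_zero_of_endY _ _ _ endY_true hw' ?_
        intro l hl hEl
        refine ih l (by simp) ?_ ?_
        · simp only [List.length_append, List.length_replicate, List.length_cons,
            List.length_nil] at hL hl ⊢
          omega
        · refine endY_rep ?_ m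
          refine endY_cons hEl ?_
          rintro rfl
          simp only [List.length_nil, List.length_cons] at hl
          omega
      rw [h2, add_zero] at h1
      exact nsmul_int_eq_zero h1

theorem wd_mem (u : List Bool) (hu : EndY (false :: u)) : wd (false :: u) ∈ H0 (u.length + 1) := by
  refine Submodule.subset_span ⟨false :: u, ?_, by simp, rfl⟩
  right
  rcases hu with h | ⟨t, ht⟩
  · simp at h
  · cases t with
    | nil => simp at ht
    | cons b t =>
      simp only [List.cons_append, List.cons.injEq] at ht
      exact ⟨t, by rw [ht.2]; rfl⟩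

/-- the extension kills shuffles -/
theorem ext_sh (n : ℕ) (φ : List Bool → ℤ) (hK : Kills n φ) (u v : List Bool) (hu : u ≠ [])
    (hv : v ≠ []) (hEu : EndY u) (hEv : EndY v) (hn : u.length + v.length = n) :
    shs (ext φ) u v = 0 := by
  refine reduce φ v u.length ?_ u hu rfl hEu
  intro u' hu' hE'
  rw [shs_comm]
  refine reduce φ (false :: u') v.length ?_ v hv rfl hEv
  intro v' hv' hE''
  rw [shs_comm]
  have h1 := hK.prod (u'.length + 1) (v'.length + 1) (by omega) (by omega) (by omega)
    (wd (false :: u')) (wd_mem u' hE') (wd (false :: v')) (wd_mem v' hE'')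
  rw [shuffle_wd, lin_sh] at h1
  have h2 : shs φ (false :: u') (false :: v') = 0 := by exact_mod_cast h1
  rw [shs_cons_cons] at h2 ⊢
  have h3 : (fun l => ext φ (false :: l)) = fun l => φ (false :: l) := by
    funext l
    exact ext_false φ l
  rw [h3]
  exact h2

/-- the extension kills half squares -/
theorem ext_half (n : ℕ) (φ : List Bool → ℤ) (hK : Kills n φ) (a : Bool) (u : List Bool)
    (hE : EndY (a :: u)) (hn : 2 * (u.length + 1) = n) :
    shs (fun l => ext φ (a :: l)) u (a :: u) = 0 := by
  have h1 := ext_sh n φ hK (a :: u) (a :: u) (by simp) (by simp) hE hE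
    (by simp only [List.length_cons]; omega)
  rw [shs_cons_cons, shs_comm _ (a :: u) u] at h1
  omega

theorem cast_shs (F : List Bool → ℤ) (u v : List Bool) :
    shs (fun w => (F w : ZMod 2)) u v = ((shs F u v : ℤ) : ZMod 2) :=
  (shs_map (Int.castAddHom (ZMod 2)) F u v).symm

end MP154526.Top.Pass1

namespace MP154526.Top

/-- PASS1 -/
theorem specPass1 : SpecPass1 := by
  intro n φ _ hK
  constructor
  · intro u v hu hv hEu hEv hn
    rw [Pass1.cast_shs, Pass1.ext_sh n φ hK u v hu hv hEu hEv hn]
    simp
  · intro a u hE hn
    rw [Pass1.cast_shs (fun l => ext φ (a :: l)), Pass1.ext_half n φ hK a u hE hn]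
    simp

end MP154526.Top
end

section
/-!
# Uniqueness of the nonincreasing factorisation into Lyndon words
-/
set_option autoImplicit false

namespace MP154526.Top

namespace LynFact

theorem le_app (u v : List Bool) : u ≤ u ++ v := by
  induction u with
  | nil => exact not_lt.mp (by intro h; cases h)
  | cons a u ih =>
    rw [List.cons_append]
    rcases lt_or_eq_of_le ih with h | h
    · exact le_of_lt (List.Lex.cons h)
    · rw [← h]

/-- a Lyndon word is at most each of its nonempty suffixes -/
theorem lyn_le {w u v : List Bool} (hw : IsLyn w) (h : w = u ++ v) (hv : v ≠ []) : w ≤ v := by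
  rcases eq_or_ne u [] with rfl | hu
  · rw [h]; simp
  · exact le_of_lt (hw.2 u v h hu hv)

/-- the last factor is the least nonempty suffix -/
theorem last_le (L : List (List Bool)) (l : List Bool) (hL : ∀ w ∈ L ++ [l], IsLyn w)
    (hp : (L ++ [l]).Pairwise (fun u v => v ≤ u)) (t s : List Bool) (hs : s ≠ [])
    (h : (L ++ [l]).flatten = t ++ s) : l ≤ s := by
  induction L generalizing t with
  | nil =>
    simp only [List.nil_append, List.flatten_cons, List.flatten_nil, List.append_nil] at h
    exact lyn_le (hL l (by simp)) h hs
  | cons a L ih =>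
    rw [List.cons_append, List.flatten_cons] at h
    rw [List.cons_append, List.pairwise_cons] at hp
    have hL' : ∀ w ∈ L ++ [l], IsLyn w := fun w hw => hL w (by
      rw [List.cons_append]; exact List.mem_cons_of_mem _ hw)
    rcases List.append_eq_append_iff.mp h with ⟨c, h1, h2⟩ | ⟨c, h1, h2⟩
    · exact ih hL' hp.2 c h2
    · rcases eq_or_ne c [] with rfl | hc
      · exact ih hL' hp.2 [] (by simpa using h2.symm)
      · have ha : a ≤ c := lyn_le (hL a (by simp)) h1 hc
        have hla : l ≤ a := hp.1 l (by simp)
        rw [h2]
        exact hla.trans (ha.trans (le_app _ _))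

end LynFact

open LynFact in
theorem specFact : SpecFact := by
  intro L
  induction L using List.reverseRecOn with
  | nil =>
    intro L' _ hL' _ _ h
    rcases L' with _ | ⟨a, L'⟩
    · rfl
    · exfalso
      rw [List.flatten_nil, List.flatten_cons] at h
      have := (List.append_eq_nil_iff.mp h.symm).1
      exact (hL' a (by simp)).1 this
  | append_singleton L l ih =>
    intro L' hL hL' hp hp' h
    rcases List.eq_nil_or_concat L' with rfl | ⟨M, m, rfl⟩
    · exfalso
      rw [List.flatten_append, List.flatten_cons, List.flatten_nil, List.append_nil] at h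
      have := (List.append_eq_nil_iff.mp h).2
      exact (hL l (by simp)).1 this
    · rw [List.concat_eq_append] at *
      have e1 : (L ++ [l]).flatten = L.flatten ++ l := by simp
      have e2 : (M ++ [m]).flatten = M.flatten ++ m := by simp
      have hl : l ≤ m := last_le L l hL hp M.flatten m (hL' m (by simp)).1 (h.trans e2)
      have hm : m ≤ l := last_le M m hL' hp' L.flatten l (hL l (by simp)).1 (h.symm.trans e1)
      have hlm : l = m := le_antisymm hl hm
      subst hlm
      have h3 : L.flatten = M.flatten := by
        rw [e1, e2] at h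
        exact List.append_cancel_right h
      rw [ih M (fun w hw => hL w (by simp [hw])) (fun w hw => hL' w (by simp [hw]))
        (List.pairwise_append.mp hp).1 (List.pairwise_append.mp hp').1 h3]

end MP154526.Top
end

section
/-!
# SPAN: `ℌ⁰_n` is spanned by products, relations and expanded Lyndon words
-/
set_option autoImplicit false

namespace MP154526.Top

open Finset MP154526.Bound

namespace Span

/-- `lin` as a linear map -/
noncomputable def linM (φ : List Bool → ℤ) : H →ₗ[ℚ] ℚ :=
  Finsupp.linearCombination ℚ (fun w => (φ w : ℚ))

theorem lin_eq (φ : List Bool → ℤ) (h : H) : lin φ h = linM φ h := by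
  simp [lin, linM, Finsupp.linearCombination_apply]

theorem linM_wd (φ : List Bool → ℤ) (w : List Bool) : linM φ (wd w) = φ w := by
  simp [linM, wd]

theorem ext_false (φ : List Bool → ℤ) (u : List Bool) : ext φ (false :: u) = φ (false :: u) := by
  simp [ext, extAux, shs]

/-- a primitive integral functional -/
theorem primitive (T : Finset (List Bool)) (f : List Bool → ℚ) (w₀ : List Bool) (hw : w₀ ∈ T)
    (h0 : f w₀ ≠ 0) :
    ∃ (φ : List Bool → ℤ) (κ : ℚ), κ ≠ 0 ∧ (∀ w ∈ T, f w = κ * φ w) ∧
      ∃ w ∈ T, ¬ (2 : ℤ) ∣ φ w := by
  classical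
  obtain ⟨d, hd, φ₀, hφ₀⟩ : ∃ (d : ℤ), d ≠ 0 ∧ ∃ φ₀ : List Bool → ℤ, ∀ w ∈ T, (d : ℚ) * f w = φ₀ w := by
    refine ⟨∏ w ∈ T, ((f w).den : ℤ), ?_, fun w => (∏ v ∈ T.erase w, ((f v).den : ℤ)) * (f w).num, ?_⟩
    · exact Finset.prod_ne_zero_iff.2 fun w _ => by exact_mod_cast (f w).den_nz
    · intro w hw
      rw [← Finset.mul_prod_erase T _ hw]
      push_cast
      have h1 := Rat.mul_den_eq_num (f w)
      rw [← h1]
      ring
  obtain ⟨g, hg, hgcd⟩ := Finset.extract_gcd φ₀ ⟨w₀, hw⟩
  have hG : T.gcd φ₀ ≠ 0 := by
    intro h
    rw [Finset.gcd_eq_zero_iff] at h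
    have h2 := hφ₀ w₀ hw
    rw [h w₀ hw] at h2
    have h3 : (d : ℚ) ≠ 0 := by exact_mod_cast hd
    simp [h3, h0] at h2
  refine ⟨g, (T.gcd φ₀ : ℤ) / d, div_ne_zero (by exact_mod_cast hG) (by exact_mod_cast hd), ?_, ?_⟩
  · intro w hw
    have h1 := hφ₀ w hw
    rw [hg w hw] at h1
    have h3 : (d : ℚ) ≠ 0 := by exact_mod_cast hd
    push_cast at h1
    field_simp
    linarith
  · by_contra hcon
    push Not at hcon
    have : (2 : ℤ) ∣ T.gcd g := Finset.dvd_gcd hcon
    rw [hgcd] at this
    omega

end Span

open _root_.MP154526.Top.Span in
theorem specSpan (hF : SpecF2) (h1 : SpecPass1) (h2 : SpecPass2) (hA : SpecAlg) : SpecSpan := by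
  classical
  intro n hn
  set S := Submodule.span ℚ {z | ∃ i j a b, 1 ≤ i ∧ 1 ≤ j ∧ i + j = n ∧ a ∈ H0 i ∧ b ∈ H0 j ∧
      z = shuffle a b} ⊔ Submodule.span ℚ (RDS n) ⊔
    Submodule.span ℚ {z | ∃ w, IsLyn w ∧ (expand w).length = n ∧ z = wd (expand w)} with hS
  rw [H0, Submodule.span_le]
  rintro _ ⟨w₀, hw₀, hlen, rfl⟩
  by_contra hcon
  rcases hw₀ with rfl | ⟨u₀, rfl⟩
  · simp at hlen
    omega
  have hn2 : 2 ≤ n := by
    simp at hlen
    omega
  obtain ⟨f, hf0, hfS⟩ := Submodule.exists_le_ker_of_notMem hcon
  -- the finite set of admissible words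
  set T : Finset (List Bool) :=
    (List.finite_length_eq Bool n).toFinset.filter (fun w => Adm w) with hT
  have hmemT : ∀ w, w ∈ T ↔ w.length = n ∧ Adm w := by
    intro w
    simp [hT]
  obtain ⟨φ, κ, hκ, hφ, w₁, hw₁, hodd⟩ := primitive T (fun w => f (wd w)) (false :: u₀ ++ [true])
    ((hmemT _).2 ⟨hlen, Or.inr ⟨u₀, rfl⟩⟩) hf0
  have hlin : ∀ h ∈ H0 n, f h = κ * lin φ h := by
    intro h hh
    rw [lin_eq]
    refine Submodule.span_induction (p := fun h _ => f h = κ * linM φ h) ?_ ?_ ?_ ?_ hh
    · rintro _ ⟨w, hw, hl, rfl⟩
      rw [linM_wd]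
      exact hφ w ((hmemT w).2 ⟨hl, hw⟩)
    · simp
    · intro x y _ _ hx hy
      rw [map_add, map_add, hx, hy]
      ring
    · intro a x _ hx
      rw [map_smul, map_smul, hx, smul_eq_mul, smul_eq_mul]
      ring
  have hzero : ∀ h ∈ H0 n, h ∈ S → lin φ h = 0 := by
    intro h hh hS'
    have h3 := hfS hS'
    rw [LinearMap.mem_ker, hlin h hh] at h3
    rcases mul_eq_zero.1 h3 with h4 | h4
    · exact absurd h4 hκ
    · exact h4
  have hK : Kills n φ := by
    constructor
    · intro r hr
      refine hzero r hr.1 ?_
      exact Submodule.mem_sup_left (Submodule.mem_sup_right (Submodule.subset_span hr))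
    · intro i j hi hj hij a ha b hb
      refine hzero _ (hij ▸ hA.h0 i j a ha b hb) ?_
      exact Submodule.mem_sup_left (Submodule.mem_sup_left
        (Submodule.subset_span ⟨i, j, a, b, hi, hj, hij, ha, hb, rfl⟩))
  have hP1 := h1 n φ hn2 hK
  have hP2 := h2 n φ hn2 hK
  have hLyn : ∀ w, IsLyn w → (expand w).length = n → ((ext φ (expand w) : ℤ) : ZMod 2) = 0 := by
    intro w hw hwl
    have hform : ∃ v, expand w = false :: v ∧ Adm (expand w) := by
      have hend : ∀ u : List Bool, u ≠ [] → ∃ v, expand u = false :: v ++ [true] := by
        intro u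
        induction u with
        | nil => intro h; exact absurd rfl h
        | cons a u ih =>
          intro _
          by_cases hu : u = []
          · subst hu
            cases a
            · exact ⟨[], rfl⟩
            · exact ⟨[true], rfl⟩
          · obtain ⟨v, hv⟩ := ih hu
            cases a
            · exact ⟨true :: false :: v, by simp [expand, hv]⟩
            · exact ⟨true :: true :: false :: v, by simp [expand, hv]⟩
      obtain ⟨v, hv⟩ := hend w hw.1
      exact ⟨v ++ [true], by simpa using hv, Or.inr ⟨v, hv⟩⟩
    obtain ⟨v, hv, hadm⟩ := hform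
    have h5 : lin φ (wd (expand w)) = 0 := by
      refine hzero _ (Submodule.subset_span ⟨expand w, hadm, hwl, rfl⟩) ?_
      exact Submodule.mem_sup_right (Submodule.subset_span ⟨w, hw, hwl, rfl⟩)
    rw [lin_eq, linM_wd] at h5
    have h6 : φ (expand w) = 0 := by exact_mod_cast h5
    rw [hv, ext_false, ← hv, h6]
    simp
  have hall := hF n (fun w => ((ext φ w : ℤ) : ZMod 2)) hn2 hP1.1 hP1.2 hP2 hLyn
  obtain ⟨hl₁, hadm₁⟩ := (hmemT w₁).1 hw₁
  rcases hadm₁ with rfl | ⟨u₁, rfl⟩
  · simp at hl₁
    omega
  have h7 := hall (false :: u₁ ++ [true]) (Or.inr ⟨false :: u₁, rfl⟩) hl₁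
  simp only [List.cons_append, ext_false] at h7
  exact hodd ((ZMod.intCast_zmod_eq_zero_iff_dvd _ 2).1 (by simpa using h7))

end MP154526.Top
end
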