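import Pool.Agent.Lib.MP_154526_nt.Top.Span

/-!
# Kernels, characteristic two, Moebius inversion over vertices in `{0,u}`
-/

set_option autoImplicit false

namespace MP154526.Top

open Finset

variable {R : Type} [CommRing R]

theorem two_zero [Algebra (ZMod 2) R] : (2 : R) = 0 := by
  have h := map_ofNat (algebraMap (ZMod 2) R) 2
  rw [← h]
  have : (OfNat.ofNat 2 : ZMod 2) = 0 := rfl
  rw [this, map_zero]

theorem add_self [Algebra (ZMod 2) R] (a : R) : a + a = 0 := by
  rw [← two_mul, two_zero, zero_mul]

theorem neg_eq [Algebra (ZMod 2) R] (a : R) : -a = a := by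
  rw [neg_eq_iff_add_eq_zero, add_self]

theorem sub_eq [Algebra (ZMod 2) R] (a b : R) : a - b = a + b := by
  rw [sub_eq_add_neg, neg_eq]

/-- the slot functions `δ_0`, `δ_1` -/
def del (i : ℕ) : ℕ → R := fun j => if j = i then 1 else 0

theorem app_del {D i : ℕ} (hi : i < D) (P : List ℕ → R) :
    app D (del i) P = fun l => P (i :: l) := by
  funext l
  simp only [app, del, ite_mul, one_mul, zero_mul]
  rw [Finset.sum_ite_eq' (range D) i]
  simp [hi]

theorem kap_self [Algebra (ZMod 2) R] (u : R) : kap u u = del 0 := by
  funext j
  cases j with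
  | zero => simp [kap, del]
  | succ j => simp [kap, del, add_self]

theorem kap_zero (u : R) : kap u 0 = del 0 + u • del 1 := by
  funext j
  match j with
  | 0 => simp [kap, del]
  | 1 => simp [kap, del]
  | j + 2 => simp [kap, del]

theorem app_kap_self [Algebra (ZMod 2) R] {D : ℕ} (hD : 2 ≤ D) (u : R) (P : List ℕ → R) :
    app D (kap u u) P = fun l => P (0 :: l) := by
  rw [kap_self, app_del (by omega)]

theorem app_kap_zero {D : ℕ} (hD : 2 ≤ D) (u : R) (P : List ℕ → R) :
    app D (kap u 0) P = (fun l => P (0 :: l)) + u • fun l => P (1 :: l) := by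
  rw [kap_zero, app_w_add, app_w_smul, app_del (by omega), app_del (by omega)]

/-- multiplication of the slot function by `1 + ts` -/
theorem geo_mul (t y : R) :
    (fun j => geo y j + if j = 0 then 0 else t * geo y (j - 1)) = kap t y := by
  funext j
  cases j with
  | zero => simp [geo, kap]
  | succ j => simp only [geo, kap, Nat.succ_ne_zero, if_false, Nat.add_sub_cancel]; ring

/-- number of ones -/
def ones (B : List ℕ) : ℕ := B.sum

/-- Moebius inversion over the vertices in `{0,u}` -/
theorem moebius [Algebra (ZMod 2) R] {D : ℕ} (hD : 2 ≤ D) (u : R) (T : (List ℕ → R) → R)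
    (hT : ∀ (r : R) (P Q : List ℕ → R), T (P + r • Q) = T P + r * T Q) (n : ℕ)
    (P : List ℕ → R)
    (h : ∀ c : List Bool, c.length = n →
      T (appL D (c.map (fun s => kap u (bl u s))) P) = 0)
    (B : List ℕ) (hB : ∀ a ∈ B, a ≤ 1) (hn : B.length = n) :
    u ^ B.sum * T (fun l => P (B ++ l)) = 0 := by
  induction n generalizing P B with
  | zero =>
    have : B = [] := List.length_eq_zero_iff.1 hn
    subst this
    simpa [appL] using h [] rfl
  | succ n ih =>
    obtain ⟨a, B, rfl⟩ : ∃ a B', B = a :: B' := by
      cases B with
      | nil => simp at hn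
      | cons a B => exact ⟨a, B, rfl⟩
    have hB' : ∀ a ∈ B, a ≤ 1 := fun x hx => hB x (List.mem_cons_of_mem _ hx)
    have hn' : B.length = n := by simpa using hn
    have h0 : ∀ c : List Bool, c.length = n →
        T (appL D (c.map (fun s => kap u (bl u s))) (fun l => P (0 :: l))) = 0 := by
      intro c hc
      have := h (true :: c) (by simp [hc])
      simp only [List.map_cons, appL, bl, if_true] at this
      rwa [app_kap_self hD] at this
    have h1 : ∀ c : List Bool, c.length = n →
        T (appL D (c.map (fun s => kap u (bl u s))) (u • fun l => P (1 :: l))) = 0 := by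
      intro c hc
      have := h (false :: c) (by simp [hc])
      simp only [List.map_cons, appL, bl, Bool.false_eq_true, if_false] at this
      rw [app_kap_zero hD, appL_add, appL_smul, hT] at this
      have h2 := h0 c hc
      simp only [bl] at h2
      rw [h2, zero_add] at this
      rw [appL_smul]
      have h3 := hT u 0 (appL D (c.map (fun s => kap u (bl u s))) fun l => P (1 :: l))
      have h4 := hT 0 0 0
      simp only [zero_add, zero_mul, add_zero, smul_zero] at h3 h4
      have h5 : T 0 = 0 := by
        have := hT (-1) 0 0
        simp only [smul_zero, add_zero] at this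
        have h6 : (-1 : R) * T 0 = 0 := by
          have h7 : T 0 + -1 * T 0 = T 0 + 0 := by rw [add_zero]; exact this.symm
          exact add_left_cancel h7
        simpa using h6
      rw [h3, h5, zero_add]
      exact this
    have ha : a = 0 ∨ a = 1 := by
      have := hB a (by simp)
      omega
    rcases ha with rfl | rfl
    · have := ih (fun l => P (0 :: l)) h0 B hB' hn'
      simpa using this
    · have := ih (u • fun l => P (1 :: l)) h1 B hB' hn'
      have h2 : (fun l => (u • fun l => P (1 :: l)) (B ++ l)) = (0 : List ℕ → R) + u • fun l => P (1 :: B ++ l) := by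
        funext l
        simp
      have h5 : T 0 = 0 := by
        have := hT (-1) 0 0
        simp only [smul_zero, add_zero] at this
        have h6 : (-1 : R) * T 0 = 0 := by
          have h7 : T 0 + -1 * T 0 = T 0 + 0 := by rw [add_zero]; exact this.symm
          exact add_left_cancel h7
        simpa using h6
      rw [h2, hT, h5, zero_add] at this
      simp only [List.sum_cons, pow_add, pow_one]
      rw [mul_assoc, mul_left_comm]
      exact this

/-- converse: squarefree prefixes -/
theorem appL_bl_zero [Algebra (ZMod 2) R] {D : ℕ} (hD : 2 ≤ D) (u : R) (n : ℕ)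
    (P : List ℕ → R) (h : ∀ (B : List ℕ), (∀ a ∈ B, a ≤ 1) → B.length = n → ∀ l, P (B ++ l) = 0)
    (c : List R) (hc : ∀ x ∈ c, x = 0 ∨ x = u) (hn : c.length = n) :
    appL D (c.map (kap u)) P = 0 := by
  induction n generalizing P c with
  | zero =>
    have : c = [] := List.length_eq_zero_iff.1 hn
    subst this
    funext l
    exact h [] (by simp) rfl l
  | succ n ih =>
    obtain ⟨s, c, rfl⟩ : ∃ a B', c = a :: B' := by
      cases c with
      | nil => simp at hn
      | cons a B => exact ⟨a, B, rfl⟩
    have hn' : c.length = n := by simpa using hn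
    have hc' : ∀ x ∈ c, x = 0 ∨ x = u := fun x hx => hc x (List.mem_cons_of_mem _ hx)
    have h0 : appL D (c.map (kap u)) (fun l => P (0 :: l)) = 0 := by
      refine ih _ ?_ c hc' hn'
      intro B hB hBn l
      exact h (0 :: B) (by simpa using hB) (by simp [hBn]) l
    have h1 : appL D (c.map (kap u)) (fun l => P (1 :: l)) = 0 := by
      refine ih _ ?_ c hc' hn'
      intro B hB hBn l
      exact h (1 :: B) (by simpa using hB) (by simp [hBn]) l
    simp only [List.map_cons, appL]
    rcases hc s (by simp) with rfl | rfl
    · rw [app_kap_zero hD, appL_add, appL_smul, h0, h1]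
      simp
    · rw [app_kap_self hD, h0]

/-- steps of a path with given vertices -/
def steps (b : R) : List R → List R
  | [] => []
  | v :: vs => (b + v) :: steps v vs

theorem path_steps [Algebra (ZMod 2) R] (b : R) (vs : List R) : path b (steps b vs) = vs := by
  induction vs generalizing b with
  | nil => rfl
  | cons v vs ih =>
    have h : b + (b + v) = v := by rw [← add_assoc, add_self, zero_add]
    simp only [steps, path, h, ih]

theorem steps_length (b : R) (vs : List R) : (steps b vs).length = vs.length := by
  induction vs generalizing b with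
  | nil => rfl
  | cons v vs ih => simp [steps, ih]

theorem steps_mem [Algebra (ZMod 2) R] (u b : R) (hb : b = 0 ∨ b = u) (vs : List R)
    (h : ∀ x ∈ vs, x = 0 ∨ x = u) : ∀ x ∈ steps b vs, x = 0 ∨ x = u := by
  induction vs generalizing b with
  | nil => simp [steps]
  | cons v vs ih =>
    have hv := h v (by simp)
    intro x hx
    simp only [steps, List.mem_cons] at hx
    rcases hx with rfl | hx
    · rcases hb with rfl | rfl <;> rcases hv with rfl | rfl <;> simp [add_self]
    · exact ih v hv (fun y hy => h y (List.mem_cons_of_mem _ hy)) x hx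

theorem path_mem [Algebra (ZMod 2) R] (u b : R) (hb : b = 0 ∨ b = u) (ρ : List R)
    (h : ∀ x ∈ ρ, x = 0 ∨ x = u) : ∀ x ∈ path b ρ, x = 0 ∨ x = u := by
  induction ρ generalizing b with
  | nil => simp [path]
  | cons r ρ ih =>
    have hr := h r (by simp)
    have hv : b + r = 0 ∨ b + r = u := by
      rcases hb with rfl | rfl <;> rcases hr with rfl | rfl <;> simp [add_self]
    intro x hx
    simp only [path, List.mem_cons] at hx
    rcases hx with rfl | hx
    · exact hv
    · exact ih _ hv (fun y hy => h y (List.mem_cons_of_mem _ hy)) x hx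

theorem path_append (b : R) (ρ τ : List R) :
    path b (ρ ++ τ) = path b ρ ++ path (b + ρ.sum) τ := by
  induction ρ generalizing b with
  | nil => simp [path]
  | cons r ρ ih => simp only [List.cons_append, path, ih, List.sum_cons, add_assoc]

end MP154526.Top
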