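import Pool.Agent.Lib.MP_154526_nt.Top.Plan
import Pool.Agent.Lib.MP_154526_nt.Top.Moebius

/-!
# Module F2: assembly of FRONT, STAR, LYN, RED
-/

set_option autoImplicit false

namespace MP154526.Top.F2

open MP154526.Top

theorem length_bw (l : List ℕ) : (bw l).length = l.sum + l.length := by
  induction l with
  | nil => rfl
  | cons a l ih =>
    simp only [bw, List.length_append, List.length_replicate, List.length_cons, ih, List.sum_cons]
    omega

theorem endY_cons {w : List Bool} (a : Bool) (h : EndY (a :: w)) (hw : w ≠ []) : EndY w := by
  rcases h with h | ⟨u, hu⟩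
  · simp at h
  · cases u with
    | nil =>
      simp only [List.nil_append, List.cons.injEq] at hu
      exact absurd hu.2 hw
    | cons b u =>
      simp only [List.cons_append, List.cons.injEq] at hu
      exact Or.inr ⟨u, hu.2⟩

theorem exists_bw (w : List Bool) (h : EndY w) : ∃ l, w = bw l := by
  induction w with
  | nil => exact ⟨[], rfl⟩
  | cons a w ih =>
    by_cases hw : w = []
    · subst hw
      rcases h with h | ⟨u, hu⟩
      · simp at h
      · cases u with
        | nil =>
          simp only [List.nil_append, List.cons.injEq, and_true] at hu
          subst hu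
          exact ⟨[0], rfl⟩
        | cons b u => simp at hu
    · obtain ⟨l, rfl⟩ := ih (endY_cons a h hw)
      cases a with
      | true => exact ⟨0 :: l, rfl⟩
      | false =>
        cases l with
        | nil => exact absurd rfl hw
        | cons b l => exact ⟨(b + 1) :: l, by simp [bw, List.replicate_succ]⟩

theorem shs_replicate {α M : Type} [AddCommMonoid M] (t : α) (i j : ℕ) (F : List α → M) :
    shs F (List.replicate i t) (List.replicate j t) =
      (i + j).choose i • F (List.replicate (i + j) t) := by
  induction i generalizing j F with
  | zero => simp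
  | succ i ih =>
    induction j generalizing F with
    | zero => simp
    | succ j ihj =>
      rw [List.replicate_succ, List.replicate_succ, shs_cons_cons]
      have h1 := ih (j + 1) (fun l => F (t :: l))
      have h2 := ihj (fun l => F (t :: l))
      rw [List.replicate_succ] at h1 h2
      rw [h1, h2, ← List.replicate_succ, ← List.replicate_succ]
      have e1 : i + 1 + (j + 1) = (i + (j + 1)) + 1 := by ring
      have e2 : i + 1 + j = i + (j + 1) := by ring
      rw [e1, e2, Nat.choose_succ_succ, add_smul]

theorem choose_odd (n : ℕ) (hn : 2 ≤ n) :
    (∃ i, 0 < i ∧ i < n ∧ n.choose i % 2 = 1) ∨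
      (n % 2 = 0 ∧ (n - 1).choose (n / 2 - 1) % 2 = 1) := by
  induction n using Nat.strong_induction_on with
  | _ n ih =>
    rcases Nat.even_or_odd' n with ⟨k, rfl | rfl⟩
    · by_cases hk : k = 1
      · subst hk
        right
        decide
      · have hp : Fact (Nat.Prime 2) := ⟨Nat.prime_two⟩
        rcases ih k (by omega) (by omega) with ⟨i, hi0, hik, hi⟩ | ⟨hk2, hc⟩
        · left
          refine ⟨2 * i, by omega, by omega, ?_⟩
          have := @Choose.choose_modEq_choose_mod_mul_choose_div_nat (2 * k) (2 * i) 2 hp
          rw [show 2 * k % 2 = 0 by omega, show 2 * i % 2 = 0 by omega,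
            show 2 * k / 2 = k by omega, show 2 * i / 2 = i by omega] at this
          rw [this]
          simpa using hi
        · right
          refine ⟨by omega, ?_⟩
          have := @Choose.choose_modEq_choose_mod_mul_choose_div_nat (2 * k - 1) (2 * k / 2 - 1) 2 hp
          rw [show (2 * k - 1) % 2 = 1 by omega, show (2 * k / 2 - 1) % 2 = 1 by omega,
            show (2 * k - 1) / 2 = k - 1 by omega, show (2 * k / 2 - 1) / 2 = k / 2 - 1 by omega]
            at this
          rw [this]
          simpa using hc
    · left
      exact ⟨1, by omega, by omega, by simp⟩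

theorem natCast_odd {c : ℕ} (hc : c % 2 = 1) (z : ZMod 2) (h : c • z = 0) : z = 0 := by
  rw [nsmul_eq_mul] at h
  have : (c : ZMod 2) = 1 := by
    rw [← Nat.cast_one]
    exact (ZMod.natCast_eq_natCast_iff' c 1 2).2 (by simpa using hc)
  rwa [this, one_mul] at h

theorem endY_replicate (k : ℕ) : EndY (List.replicate k true) := by
  cases k with
  | zero => exact Or.inl rfl
  | succ k => exact Or.inr ⟨List.replicate k true, by rw [List.replicate_succ']⟩

theorem pure_y {n : ℕ} {ψ : List Bool → ZMod 2} (hn : 2 ≤ n) (hSh : IsSh n ψ)
    (hHalf : IsHalf n ψ) : ψ (List.replicate n true) = 0 := by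
  rcases choose_odd n hn with ⟨i, hi0, hin, hi⟩ | ⟨hn2, hc⟩
  · have h := hSh (List.replicate i true) (List.replicate (n - i) true) (by
      intro h
      have := congrArg List.length h
      simp at this
      omega) (by
      intro h
      have := congrArg List.length h
      simp at this
      omega) (endY_replicate _) (endY_replicate _) (by simp; omega)
    rw [shs_replicate, show i + (n - i) = n by omega] at h
    exact natCast_odd hi _ h
  · have h := hHalf true (List.replicate (n / 2 - 1) true) (by
      rw [← List.replicate_succ]
      exact endY_replicate _) (by simp; omega)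
    rw [← List.replicate_succ, shs_replicate,
      show n / 2 - 1 + (n / 2 - 1 + 1) = n - 1 by omega, ← List.replicate_succ,
      show n - 1 + 1 = n by omega] at h
    exact natCast_odd hc _ h

/-- every word in `z_1, z_2` with a `z_2` -/
theorem exists_zw (l : List ℕ) (hl : ∀ a ∈ l, a ≤ 1) : ∃ i : ℕ, ∃ l', l = zw (i :: l') := by
  induction l with
  | nil => exact ⟨0, [], rfl⟩
  | cons a l ih =>
    obtain ⟨i, l', h⟩ := ih fun x hx => hl x (List.mem_cons_of_mem _ hx)
    have ha : a = 0 ∨ a = 1 := by
      have := hl a (by simp)
      omega
    rcases ha with rfl | rfl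
    · refine ⟨i + 1, l', ?_⟩
      rw [h]
      simp [zw, List.replicate_succ]
    · refine ⟨0, i :: l', ?_⟩
      rw [h]
      simp [zw, ztail]

theorem weight_ztail (l : List ℕ) : (ztail l).sum + (ztail l).length = l.sum + 2 * l.length := by
  induction l with
  | nil => rfl
  | cons i l ih =>
    simp only [ztail, List.sum_cons, List.sum_append, List.sum_replicate, List.length_cons,
      List.length_append, List.length_replicate, smul_eq_mul, mul_zero]
    omega

theorem weight_zw (i : ℕ) (l : List ℕ) :
    (zw (i :: l)).sum + (zw (i :: l)).length = (i :: l).sum + 2 * l.length := by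
  have := weight_ztail l
  simp only [zw, List.sum_append, List.sum_replicate, List.length_append, List.length_replicate,
    smul_eq_mul, mul_zero, List.sum_cons]
  omega

theorem bw_zw_expand (w : List Bool) :
    bw (zw (0 :: w.map fun s => if s then 1 else 0)) = expand w := by
  show bw (List.replicate 0 0 ++ ztail _) = _
  rw [List.replicate_zero, List.nil_append]
  induction w with
  | nil => rfl
  | cons s w ih =>
    cases s
    · simp only [List.map_cons, Bool.false_eq_true, if_false, ztail, List.replicate_zero,
        List.nil_append, bw, expand, ih]
      rfl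
    · simp only [List.map_cons, if_true, ztail, List.replicate_one, bw, expand,
        List.cons_append, List.nil_append, ih]
      rfl

theorem exists_map (l : List ℕ) (hl : ∀ a ∈ l, a ≤ 1) :
    ∃ w : List Bool, l = w.map fun s => if s then 1 else 0 := by
  induction l with
  | nil => exact ⟨[], rfl⟩
  | cons a l ih =>
    obtain ⟨w, rfl⟩ := ih fun x hx => hl x (List.mem_cons_of_mem _ hx)
    have ha : a = 0 ∨ a = 1 := by
      have := hl a (by simp)
      omega
    rcases ha with rfl | rfl
    · exact ⟨false :: w, by simp⟩
    · exact ⟨true :: w, by simp⟩

end MP154526.Top.F2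

namespace MP154526.Top

open F2

/-- **F2** -/
theorem specF2 (hF : SpecFront) (hS : SpecStar) (hL : SpecLyn) (hR : SpecRed) : SpecF2 := by
  intro n ψ hn hSh hHalf hT hLyn
  -- all words in `z_1, z_2` with `m ≥ 1` letters `z_2`
  have key : ∀ k m, n < m + k → 1 ≤ m → ∀ l : List ℕ, l.length = m + 1 →
      l.sum + 2 * m = n → ψ (bw (zw l)) = 0 := by
    intro k
    induction k with
    | zero =>
      intro m hm _ l _ hl
      omega
    | succ k ih =>
      intro m hmk hm l hl hw
      have hStar := hF n m (n + 1) ψ hn hm (by omega) hSh hHalf hT (by
        intro l hlen hlw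
        exact ih (l.length - 1) (by omega) (by omega) l (by omega) hlw)
      have hSupp : Supp (n + 1) (m + 1) (PR n m ψ) := by
        intro l hl
        simp only [PR] at hl
        split_ifs at hl with hc
        · refine ⟨hc.1, fun a ha => ?_⟩
          have := List.single_le_sum (by simp) a ha
          omega
        · exact absurd rfl hl
      obtain ⟨h1, h2⟩ := hS (n + 1) m (n - 2 * m) (PR n m ψ) (by omega) hm hSupp (by
        intro l hl
        simp only [PR] at hl
        split_ifs at hl with hc
        · omega
        · exact absurd rfl hl) hStar
      have h3 := hL m _ hm h2 (by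
        intro w hw hwm
        simp only [PR]
        split_ifs with hc
        · rw [bw_zw_expand]
          refine hLyn w hw ?_
          rw [← bw_zw_expand, length_bw, weight_zw]
          simp only [List.length_cons, List.length_map] at hc ⊢
          omega
        · rfl)
      by_contra hne
      have hPR : PR n m ψ l = ψ (bw (zw l)) := by
        simp only [PR]
        rw [if_pos ⟨hl, hw⟩]
      obtain ⟨l', rfl, hl'⟩ := h1 l (by rw [hPR]; exact hne)
      obtain ⟨w, rfl⟩ := exists_map l' hl'
      have h4 := h3 w (by simpa using hl)
      exact hne (hPR ▸ h4)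
  -- words with all exponents at most one
  have hX : ∀ l : List ℕ, (∀ a ∈ l, a ≤ 1) → l.sum + l.length = n → ψ (bw l) = 0 := by
    intro l hl hw
    obtain ⟨i, l', rfl⟩ := exists_zw l hl
    rw [weight_zw] at hw
    cases l' with
    | nil =>
      have hi : i = n := by simpa using hw
      subst hi
      have : bw (zw [i]) = List.replicate i true := by
        simp only [zw, ztail, List.append_nil]
        clear * -
        induction i with
        | zero => rfl
        | succ i ih => simp [List.replicate_succ, bw, ih]
      rw [this]
      exact pure_y hn hSh hHalf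
    | cons j l' =>
      exact key (n + 1) (l'.length + 1) (by omega) (by omega) _ (by simp) (by
        simp only [List.length_cons] at hw ⊢
        omega)
  have hall := hR n ψ hn hSh hT hX
  intro w hw hwn
  obtain ⟨l, rfl⟩ := exists_bw w hw
  exact hall l (by rw [← length_bw]; exact hwn)

end MP154526.Top
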