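import Pool.Agent.Lib.MP_154526_nt.Top.Plan

/-!
# ALG: the shuffle product on `ℚ⟨x,y⟩` is commutative, associative, preserves `ℌ⁰`
-/

set_option autoImplicit false

namespace MP154526.Top.Alg

open Finset MP154526.Bound

theorem shuffle_eq_lift (p q : H) : shuffle p q = p.sum fun u a => q.sum fun v b => (a * b) • sh u v :=
  rfl

theorem shuffle_add_left (a b c : H) : shuffle (a + b) c = shuffle a c + shuffle b c := by
  classical
  simp only [shuffle_eq_lift]
  rw [Finsupp.sum_add_index']
  · intro u
    simp
  · intro u x y
    simp only [add_mul, add_smul]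
    rw [Finsupp.sum_add]

theorem shuffle_smul_left (r : ℚ) (a b : H) : shuffle (r • a) b = r • shuffle a b := by
  classical
  simp only [shuffle_eq_lift]
  rw [Finsupp.sum_smul_index (by intro u; simp)]
  rw [Finsupp.smul_sum]
  refine Finsupp.sum_congr fun u _ => ?_
  rw [Finsupp.smul_sum]
  refine Finsupp.sum_congr fun v _ => ?_
  rw [mul_assoc, mul_smul]

theorem shuffle_add_right (a b c : H) : shuffle a (b + c) = shuffle a b + shuffle a c := by
  classical
  simp only [shuffle_eq_lift]
  rw [← Finsupp.sum_add]
  refine Finsupp.sum_congr fun u _ => ?_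
  rw [Finsupp.sum_add_index']
  · intro u
    simp
  · intro u x y
    simp only [mul_add, add_smul]

theorem shuffle_smul_right (r : ℚ) (a b : H) : shuffle a (r • b) = r • shuffle a b := by
  classical
  simp only [shuffle_eq_lift]
  rw [Finsupp.smul_sum]
  refine Finsupp.sum_congr fun u _ => ?_
  rw [Finsupp.sum_smul_index (by intro u; simp), Finsupp.smul_sum]
  refine Finsupp.sum_congr fun v _ => ?_
  rw [mul_left_comm, mul_smul]

/-- the shuffle product as a bilinear map -/
noncomputable def S : H →ₗ[ℚ] H →ₗ[ℚ] H :=
  LinearMap.mk₂ ℚ shuffle shuffle_add_left shuffle_smul_left shuffle_add_right shuffle_smul_right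

theorem S_apply (a b : H) : S a b = shuffle a b := rfl

theorem shuffle_wd (u v : List Bool) : shuffle (wd u) (wd v) = sh u v := by
  classical
  simp [shuffle_eq_lift, wd]

theorem shuffle_zero_left (a : H) : shuffle 0 a = 0 := by
  rw [← S_apply]; simp

theorem shuffle_zero_right (a : H) : shuffle a 0 = 0 := by
  rw [← S_apply]; simp

/-- left multiplication by a letter as a linear map -/
noncomputable def L (a : Bool) : H →ₗ[ℚ] H := Finsupp.lmapDomain ℚ ℚ (List.cons a)

theorem L_apply (a : Bool) (p : H) : L a p = lmul a p := rfl

theorem L_wd (a : Bool) (u : List Bool) : L a (wd u) = wd (a :: u) := by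
  simp [L, wd, Finsupp.lmapDomain_apply, Finsupp.mapDomain_single]

theorem sh_nil_left (v : List Bool) : sh [] v = wd v := by
  unfold sh; rfl

theorem sh_nil_right (u : List Bool) : sh u [] = wd u := by
  cases u with
  | nil => exact sh_nil_left []
  | cons a u => unfold sh; rfl

theorem sh_cons (a b : Bool) (u v : List Bool) :
    sh (a :: u) (b :: v) = L a (sh u (b :: v)) + L b (sh (a :: u) v) := by
  rw [sh]
  rfl

theorem ext_wd {M : Type*} [AddCommMonoid M] [Module ℚ M] {f g : H →ₗ[ℚ] M}
    (h : ∀ w, f (wd w) = g (wd w)) : f = g := by
  refine Finsupp.lhom_ext' fun w => LinearMap.ext_ring ?_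
  exact h w

theorem sh_comm (u v : List Bool) : sh u v = sh v u := by
  induction h : u.length + v.length using Nat.strong_induction_on generalizing u v with
  | _ n ih =>
    cases u with
    | nil => rw [sh_nil_left, sh_nil_right]
    | cons a u =>
      cases v with
      | nil => rw [sh_nil_left, sh_nil_right]
      | cons b v =>
        rw [sh_cons, sh_cons, add_comm]
        simp only [List.length_cons] at h
        rw [ih _ (by simp only [List.length_cons]; omega) (a :: u) v rfl,
          ih _ (by simp only [List.length_cons]; omega) u (b :: v) rfl]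

theorem S_comm : S = S.flip := by
  refine ext_wd fun u => ext_wd fun v => ?_
  rw [LinearMap.flip_apply, S_apply, S_apply, shuffle_wd, shuffle_wd, sh_comm]

theorem shuffle_comm (a b : H) : shuffle a b = shuffle b a := by
  rw [← S_apply, S_comm, LinearMap.flip_apply, S_apply]

theorem shuffle_one_left (a : H) : shuffle (wd []) a = a := by
  have : S (wd []) = LinearMap.id := by
    refine ext_wd fun u => ?_
    rw [S_apply, shuffle_wd, sh_nil_left]
    rfl
  rw [← S_apply, this]
  rfl

theorem shuffle_one_right (a : H) : shuffle a (wd []) = a := by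
  rw [shuffle_comm, shuffle_one_left]

/-- the recursion for general elements -/
theorem shuffle_L (a b : Bool) (p q : H) :
    shuffle (L a p) (L b q) = L a (shuffle p (L b q)) + L b (shuffle (L a p) q) := by
  have key : (S.compl₂ (L b)).comp (L a) =
      (S.compl₂ (L b)).compr₂ (L a) + (S.comp (L a)).compr₂ (L b) := by
    refine ext_wd fun u => ext_wd fun v => ?_
    simp only [LinearMap.comp_apply, LinearMap.compl₂_apply, LinearMap.add_apply,
      LinearMap.compr₂_apply, L_wd, S_apply, shuffle_wd]
    rw [sh_cons]
  have := congrArg (fun f => f p q) key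
  simpa only [LinearMap.comp_apply, LinearMap.compl₂_apply, LinearMap.add_apply,
    LinearMap.compr₂_apply, S_apply] using this

theorem sh_assoc (u v w : List Bool) : shuffle (sh u v) (wd w) = shuffle (wd u) (sh v w) := by
  induction h : u.length + v.length + w.length using Nat.strong_induction_on generalizing u v w with
  | _ n ih =>
    cases u with
    | nil => rw [sh_nil_left, shuffle_one_left, shuffle_wd]
    | cons a u =>
      cases v with
      | nil => rw [sh_nil_left, sh_nil_right]
      | cons b v =>
        cases w with
        | nil => rw [sh_nil_right, shuffle_one_right, shuffle_wd]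
        | cons c w =>
          simp only [List.length_cons] at h
          have h1 := ih _ (by simp only [List.length_cons]; omega) u (b :: v) (c :: w) rfl
          have h2 := ih _ (by simp only [List.length_cons]; omega) (a :: u) v (c :: w) rfl
          have h3 := ih _ (by simp only [List.length_cons]; omega) (a :: u) (b :: v) w rfl
          have e1 : shuffle (sh (a :: u) (b :: v)) (wd (c :: w)) =
              L a (shuffle (sh u (b :: v)) (wd (c :: w))) +
              L b (shuffle (sh (a :: u) v) (wd (c :: w))) +
              L c (shuffle (sh (a :: u) (b :: v)) (wd w)) := by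
            rw [← L_wd c w, sh_cons a b u v, shuffle_add_left, shuffle_L, shuffle_L,
              shuffle_add_left, map_add]
            abel
          have e2 : shuffle (wd (a :: u)) (sh (b :: v) (c :: w)) =
              L a (shuffle (wd u) (sh (b :: v) (c :: w))) +
              L b (shuffle (wd (a :: u)) (sh v (c :: w))) +
              L c (shuffle (wd (a :: u)) (sh (b :: v) w)) := by
            rw [← L_wd a u, sh_cons b c v w, shuffle_add_right, shuffle_L, shuffle_L,
              shuffle_add_right, map_add]
            abel
          rw [e1, e2, h1, h2, h3]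

theorem shuffle_assoc (a b c : H) : shuffle (shuffle a b) c = shuffle a (shuffle b c) := by
  have key : ∀ u v : List Bool, ∀ c : H,
      shuffle (shuffle (wd u) (wd v)) c = shuffle (wd u) (shuffle (wd v) c) := by
    intro u v c
    have : S (shuffle (wd u) (wd v)) = (S (wd u)).comp (S (wd v)) := by
      refine ext_wd fun w => ?_
      rw [LinearMap.comp_apply, S_apply, S_apply, S_apply, shuffle_wd, shuffle_wd, sh_assoc]
    have h := congrArg (fun f => f c) this
    simpa only [LinearMap.comp_apply, S_apply] using h
  have key2 : ∀ u : List Bool, ∀ b c : H,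
      shuffle (shuffle (wd u) b) c = shuffle (wd u) (shuffle b c) := by
    intro u b c
    have : (S.flip c).comp (S (wd u)) = (S (wd u)).comp (S.flip c) := by
      refine ext_wd fun v => ?_
      simp only [LinearMap.comp_apply, LinearMap.flip_apply, S_apply]
      exact key u v c
    have h := congrArg (fun f => f b) this
    simpa only [LinearMap.comp_apply, LinearMap.flip_apply, S_apply] using h
  have : (S.flip c).comp (S.flip b) = S.flip (shuffle b c) := by
    refine ext_wd fun u => ?_
    simp only [LinearMap.comp_apply, LinearMap.flip_apply, S_apply]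
    exact key2 u b c
  have h := congrArg (fun f => f a) this
  simpa only [LinearMap.comp_apply, LinearMap.flip_apply, S_apply] using h

/-! ### `ℌ⁰` is closed -/

/-- the span of the words of length `n` which are empty or end in `y` -/
noncomputable def E (n : ℕ) : Submodule ℚ H :=
  Submodule.span ℚ {h | ∃ w, EndY w ∧ w.length = n ∧ h = wd w}

theorem endY_cons {a : Bool} {u : List Bool} (h : EndY (a :: u)) : EndY u := by
  rcases h with h | ⟨w, h⟩
  · simp at h
  · cases w with
    | nil =>
      simp only [List.nil_append, List.cons.injEq] at h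
      exact Or.inl h.2
    | cons b w =>
      simp only [List.cons_append, List.cons.injEq] at h
      exact Or.inr ⟨w, h.2⟩

theorem endY_of_ne {a : Bool} {u : List Bool} (h : EndY u) (hu : u ≠ []) : EndY (a :: u) := by
  rcases h with h | ⟨w, h⟩
  · exact absurd h hu
  · exact Or.inr ⟨a :: w, by rw [h]; rfl⟩

theorem L_mem_E {a : Bool} {n : ℕ} (hn : 1 ≤ n) {p : H} (hp : p ∈ E n) : L a p ∈ E (n + 1) := by
  have : E n ≤ (E (n + 1)).comap (L a) := by
    refine Submodule.span_le.2 ?_
    rintro _ ⟨w, hw, hl, rfl⟩
    simp only [Submodule.comap_coe, Set.mem_preimage, SetLike.mem_coe]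
    rw [L_wd]
    refine Submodule.subset_span ⟨a :: w, endY_of_ne hw ?_, by simp [hl], rfl⟩
    rintro rfl
    simp at hl
    omega
  exact this hp

theorem sh_mem_E (u v : List Bool) (hu : EndY u) (hv : EndY v) :
    sh u v ∈ E (u.length + v.length) := by
  induction h : u.length + v.length using Nat.strong_induction_on generalizing u v with
  | _ n ih =>
    cases u with
    | nil =>
      rw [sh_nil_left]
      exact Submodule.subset_span ⟨v, hv, by simpa using h, rfl⟩
    | cons a u =>
      cases v with
      | nil =>
        rw [sh_nil_right]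
        exact Submodule.subset_span ⟨a :: u, hu, by simpa using h, rfl⟩
      | cons b v =>
        rw [sh_cons]
        simp only [List.length_cons] at h
        have h1 := ih (n - 1) (by omega) u (b :: v) (endY_cons hu) hv
          (by simp only [List.length_cons]; omega)
        have h2 := ih (n - 1) (by omega) (a :: u) v hu (endY_cons hv)
          (by simp only [List.length_cons]; omega)
        have hn : n = n - 1 + 1 := by omega
        rw [hn]
        exact Submodule.add_mem _ (L_mem_E (by omega) h1) (L_mem_E (by omega) h2)

theorem L_mem_H0 {n : ℕ} (hn : 1 ≤ n) {p : H} (hp : p ∈ E n) : L false p ∈ H0 (n + 1) := by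
  have : E n ≤ (H0 (n + 1)).comap (L false) := by
    refine Submodule.span_le.2 ?_
    rintro _ ⟨w, hw, hl, rfl⟩
    simp only [Submodule.comap_coe, Set.mem_preimage, SetLike.mem_coe]
    rw [L_wd]
    rcases hw with rfl | ⟨w, rfl⟩
    · simp at hl
      omega
    · exact Submodule.subset_span ⟨_, Or.inr ⟨w, rfl⟩, by simpa using hl, rfl⟩
  exact this hp

theorem endY_tail {u : List Bool} : EndY (u ++ [true]) := Or.inr ⟨u, rfl⟩

theorem shuffle_mem_H0 (i j : ℕ) (a : H) (ha : a ∈ H0 i) (b : H) (hb : b ∈ H0 j) :
    shuffle a b ∈ H0 (i + j) := by
  have key : ∀ u v : List Bool, Adm u → Adm v → u.length = i → v.length = j →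
      sh u v ∈ H0 (i + j) := by
    intro u v hu hv hi hj
    rcases hu with rfl | ⟨u, rfl⟩
    · rw [sh_nil_left]
      refine Submodule.subset_span ⟨v, hv, ?_, rfl⟩
      simp at hi
      omega
    rcases hv with rfl | ⟨v, rfl⟩
    · rw [sh_nil_right]
      refine Submodule.subset_span ⟨_, Or.inr ⟨u, rfl⟩, ?_, rfl⟩
      simp only [List.length_nil] at hj
      omega
    have hl1 : (u ++ [true]).length + (false :: v ++ [true]).length = i + j - 1 := by
      simp only [List.cons_append, List.length_cons, List.length_append, List.length_nil] at hi hj ⊢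
      omega
    have hl2 : (false :: u ++ [true]).length + (v ++ [true]).length = i + j - 1 := by
      simp only [List.cons_append, List.length_cons, List.length_append, List.length_nil] at hi hj ⊢
      omega
    have hpos : 1 ≤ i + j - 1 := by
      simp only [List.cons_append, List.length_cons, List.length_append, List.length_nil] at hi hj
      omega
    have hn : i + j = i + j - 1 + 1 := by omega
    have h1 := sh_mem_E (u ++ [true]) (false :: v ++ [true]) endY_tail
      (Or.inr ⟨false :: v, rfl⟩)
    have h2 := sh_mem_E (false :: u ++ [true]) (v ++ [true]) (Or.inr ⟨false :: u, rfl⟩) endY_tail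
    rw [hl1] at h1
    rw [hl2] at h2
    have e : sh (false :: u ++ [true]) (false :: v ++ [true]) =
        L false (sh (u ++ [true]) (false :: v ++ [true])) +
        L false (sh (false :: u ++ [true]) (v ++ [true])) := by
      simp only [List.cons_append]
      rw [sh_cons]
    rw [e, hn]
    exact Submodule.add_mem _ (L_mem_H0 hpos h1) (L_mem_H0 hpos h2)
  have h1 : ∀ u : List Bool, Adm u → u.length = i → H0 j ≤ (H0 (i + j)).comap (S (wd u)) := by
    intro u hu hi
    refine Submodule.span_le.2 ?_
    rintro _ ⟨v, hv, hl, rfl⟩
    simp only [Submodule.comap_coe, Set.mem_preimage, SetLike.mem_coe, S_apply]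
    rw [shuffle_wd]
    exact key u v hu hv hi hl
  have h2 : H0 i ≤ (H0 (i + j)).comap (S.flip b) := by
    refine Submodule.span_le.2 ?_
    rintro _ ⟨u, hu, hl, rfl⟩
    exact h1 u hu hl hb
  exact h2 ha

end MP154526.Top.Alg

namespace MP154526.Top

/-- ALG -/
theorem specAlg : SpecAlg where
  comm := Alg.shuffle_comm
  assoc := Alg.shuffle_assoc
  one := Alg.shuffle_one_left
  add := Alg.shuffle_add_left
  smul := Alg.shuffle_smul_left
  h0 := fun i j a ha b hb => Alg.shuffle_mem_H0 i j a ha b hb

end MP154526.Top
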