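import Pool.Agent.Lib.MP_154526_nt.Top.Plan
import Pool.Agent.Lib.MP_154526_nt.Top.Span

/-!
# The regularisation of every word of `ℌ¹`, and its compatibility with `ext` (part of PASS2)
-/

set_option autoImplicit false

namespace MP154526.Top.RegN

open Finset MP154526.Bound MP154526.Top

/-- `p ↦ a p` as a linear map -/
noncomputable def lmulL (a : Bool) : H →ₗ[ℚ] H := Finsupp.lmapDomain ℚ ℚ (List.cons a)

theorem lmulL_apply (a : Bool) (p : H) : lmulL a p = lmul a p := rfl

theorem lmul_wd (a : Bool) (w : List Bool) : lmul a (wd w) = wd (a :: w) := by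
  simp [lmul, wd, Finsupp.mapDomain_single]

theorem lmul_add (a : Bool) (p q : H) : lmul a (p + q) = lmul a p + lmul a q :=
  (lmulL a).map_add p q

theorem lmul_smul (a : Bool) (r : ℚ) (p : H) : lmul a (r • p) = r • lmul a p :=
  (lmulL a).map_smul r p

/-- the linear extension of `f` -/
noncomputable def lf (f : List Bool → ℚ) : H →ₗ[ℚ] ℚ := Finsupp.linearCombination ℚ f

theorem lin_eq (φ : List Bool → ℤ) (h : H) : lin φ h = lf (fun w => (φ w : ℚ)) h := by
  simp [lin, lf, Finsupp.linearCombination_apply]

theorem lf_wd (f : List Bool → ℚ) (w : List Bool) : lf f (wd w) = f w := by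
  simp [lf, wd]

theorem lf_lmul (f : List Bool → ℚ) (a : Bool) (p : H) :
    lf f (lmul a p) = lf (fun l => f (a :: l)) p := by
  unfold lf lmul
  rw [Finsupp.linearCombination_mapDomain]
  rfl

theorem sh_nil (v : List Bool) : sh [] v = wd v := by
  rw [sh.eq_def]

theorem sh_nil' (v : List Bool) : sh v [] = wd v := by
  cases v with
  | nil => rw [sh.eq_def]
  | cons a v => rw [sh.eq_def]

theorem sh_cons (a : Bool) (u : List Bool) (b : Bool) (v : List Bool) :
    sh (a :: u) (b :: v) = lmul a (sh u (b :: v)) + lmul b (sh (a :: u) v) := by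
  rw [sh.eq_def]

theorem lf_sh : ∀ (u v : List Bool) (f : List Bool → ℚ), lf f (sh u v) = shs f u v := by
  intro u v
  induction u, v using shs_induct with
  | h0 W => intro f; rw [sh_nil, lf_wd, shs_nil_left]
  | h1 a σ => intro f; rw [sh_nil', lf_wd, shs_nil_right]
  | h2 a σ c W h1 h2 =>
    intro f
    rw [sh_cons, map_add, lf_lmul, lf_lmul, shs_cons_cons, h1, h2]

theorem shs_cast (φ : List Bool → ℤ) (u v : List Bool) :
    shs (fun l => (φ l : ℚ)) u v = ((shs φ u v : ℤ) : ℚ) := by
  have := shs_map (Int.castAddHom ℚ) φ u v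
  simpa using this.symm

theorem shuffle_wd (u v : List Bool) : shuffle (wd u) (wd v) = sh u v := by
  unfold shuffle wd
  rw [Finsupp.sum_single_index, Finsupp.sum_single_index]
  · simp
  · simp
  · simp

/-- `a ↦ a ⧢ b` -/
noncomputable def sR (hA : SpecAlg) (b : H) : H →ₗ[ℚ] H where
  toFun a := shuffle a b
  map_add' x y := hA.add x y b
  map_smul' r x := hA.smul r x b

/-- `b ↦ a ⧢ b` -/
noncomputable def sL (hA : SpecAlg) (a : H) : H →ₗ[ℚ] H where
  toFun b := shuffle a b
  map_add' x y := by rw [hA.comm, hA.add, hA.comm x, hA.comm y]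
  map_smul' r x := by
    rw [hA.comm, hA.smul, hA.comm x]; rfl

/-- the map `q ↦ y^m x q` -/
noncomputable def T (m : ℕ) : H →ₗ[ℚ] H :=
  Finsupp.lmapDomain ℚ ℚ (fun l => List.replicate m true ++ false :: l)

theorem T_wd (m : ℕ) (w : List Bool) :
    T m (wd w) = wd (List.replicate m true ++ false :: w) := by
  simp [T, wd]

theorem lmul_T (m : ℕ) (q : H) : lmul true (T m q) = T (m + 1) q := by
  unfold lmul T
  simp only [Finsupp.lmapDomain_apply]
  rw [← Finsupp.mapDomain_comp]
  rfl

theorem T_zero (q : H) : T 0 q = lmul false q := by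
  unfold lmul T
  rfl

theorem sh_y_word (w : List Bool) : ∀ m : ℕ,
    sh [true] (List.replicate m true ++ false :: w) =
      ((m : ℚ) + 1) • wd (List.replicate (m + 1) true ++ false :: w) + T m (sh [true] w)
  | 0 => by
    rw [List.replicate_zero, List.nil_append, sh_cons, sh_nil, lmul_wd, T_zero]
    simp
  | m + 1 => by
    have e : List.replicate (m + 1) true ++ false :: w =
        true :: (List.replicate m true ++ false :: w) := by
      rw [List.replicate_succ, List.cons_append]
    rw [e, sh_cons, sh_nil, lmul_wd, sh_y_word w m, lmul_add, lmul_smul, lmul_T, lmul_wd,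
      ← e, ← List.cons_append, ← List.replicate_succ, ← add_assoc]
    congr 1
    push_cast
    module

theorem sh_y_pow : ∀ m : ℕ,
    sh [true] (List.replicate m true) = ((m : ℚ) + 1) • wd (List.replicate (m + 1) true)
  | 0 => by rw [List.replicate_zero, sh_nil']; simp
  | m + 1 => by
    rw [List.replicate_succ, sh_cons, sh_nil, lmul_wd, sh_y_pow m, lmul_smul, lmul_wd,
      ← List.replicate_succ, ← List.replicate_succ]
    push_cast
    module

theorem y_T (hA : SpecAlg) (m : ℕ) (q : H) :
    shuffle (wd [true]) (T m q) =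
      ((m : ℚ) + 1) • T (m + 1) q + T m (shuffle (wd [true]) q) := by
  have key : (sL hA (wd [true])) ∘ₗ T m =
      ((m : ℚ) + 1) • T (m + 1) + T m ∘ₗ (sL hA (wd [true])) := by
    apply Finsupp.lhom_ext'
    intro w
    apply LinearMap.ext_ring
    show shuffle (wd [true]) (T m (wd w)) = ((m : ℚ) + 1) • T (m + 1) (wd w) +
      T m (shuffle (wd [true]) (wd w))
    rw [T_wd, shuffle_wd, sh_y_word, shuffle_wd, T_wd]
  exact LinearMap.congr_fun key q

/-! ### the graph of the regularisation -/

/-- `c ↦ ∑ c_j ⧢ y^{⧢ j}` -/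
noncomputable def Phi (hA : SpecAlg) : (ℕ →₀ H) →ₗ[ℚ] H :=
  Finsupp.lsum ℚ (fun j => sR hA (ypow j))

/-- the sequences with values in `ℌ⁰` -/
def Cs : Submodule ℚ (ℕ →₀ H) where
  carrier := {c | ∀ j, c j ∈ H0all}
  add_mem' {a b} ha hb j := by
    rw [Finsupp.add_apply]; exact H0all.add_mem (ha j) (hb j)
  zero_mem' j := by
    rw [Finsupp.zero_apply]; exact H0all.zero_mem
  smul_mem' r a ha j := by
    rw [Finsupp.smul_apply]; exact H0all.smul_mem r (ha j)

/-- the pairs `(h, reg h)` -/
noncomputable def RG (hA : SpecAlg) : Submodule ℚ (H × H) :=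
  Cs.map (LinearMap.prod (Phi hA) (Finsupp.lapply 0))

theorem isReg_of_mem (hA : SpecAlg) {h r : H} (hm : (h, r) ∈ RG hA) : IsReg h r := by
  obtain ⟨c, hc, he⟩ := hm
  have h1 : Phi hA c = h := congrArg Prod.fst he
  have h2 : c 0 = r := congrArg Prod.snd he
  refine ⟨c.support.sup id, c, hc, ?_, h2.symm⟩
  rw [← h1]
  unfold Phi
  rw [Finsupp.lsum_apply, Finsupp.sum_of_support_subset]
  · rfl
  · intro j hj
    rw [mem_range]
    exact Nat.lt_succ_of_le (Finset.le_sup (f := id) hj)
  · intro i _
    exact map_zero _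

theorem mem_base (hA : SpecAlg) {a : H} (ha : a ∈ H0all) : (a, a) ∈ RG hA := by
  refine ⟨Finsupp.single 0 a, ?_, ?_⟩
  · intro j
    rw [Finsupp.single_apply]
    split_ifs
    · exact ha
    · exact H0all.zero_mem
  · refine Prod.ext ?_ ?_
    · show Phi hA (Finsupp.single 0 a) = a
      unfold Phi
      rw [Finsupp.lsum_single]
      show shuffle a (wd []) = a
      rw [hA.comm, hA.one]
    · show (Finsupp.single 0 a : ℕ →₀ H) 0 = a
      rw [Finsupp.single_eq_same]

theorem mem_shift (hA : SpecAlg) {h r : H} (hm : (h, r) ∈ RG hA) :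
    (shuffle (wd [true]) h, 0) ∈ RG hA := by
  obtain ⟨c, hc, he⟩ := hm
  have h1 : Phi hA c = h := congrArg Prod.fst he
  refine ⟨Finsupp.mapDomain Nat.succ c, ?_, ?_⟩
  · intro j
    cases j with
    | zero =>
      rw [Finsupp.mapDomain_of_notMem_range]
      · exact H0all.zero_mem
      · rintro ⟨j, hj⟩
        exact Nat.succ_ne_zero j hj
    | succ j =>
      rw [show j + 1 = Nat.succ j from rfl, Finsupp.mapDomain_apply Nat.succ_injective]
      exact hc j
  · refine Prod.ext ?_ ?_
    · show Phi hA (Finsupp.mapDomain Nat.succ c) = shuffle (wd [true]) h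
      rw [← h1]
      have key : Phi hA ∘ₗ (Finsupp.lmapDomain H ℚ Nat.succ) =
          (sL hA (wd [true])) ∘ₗ Phi hA := by
        apply Finsupp.lhom_ext'
        intro j
        apply LinearMap.ext
        intro a
        show Phi hA (Finsupp.mapDomain Nat.succ (Finsupp.single j a)) =
          shuffle (wd [true]) (Phi hA (Finsupp.single j a))
        rw [Finsupp.mapDomain_single]
        unfold Phi
        rw [Finsupp.lsum_single, Finsupp.lsum_single]
        show shuffle a (shuffle (wd [true]) (ypow j)) = shuffle (wd [true]) (shuffle a (ypow j))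
        rw [← hA.assoc, hA.comm a, hA.assoc]
      exact LinearMap.congr_fun key c
    · show (Finsupp.mapDomain Nat.succ c) 0 = 0
      rw [Finsupp.mapDomain_of_notMem_range]
      rintro ⟨j, hj⟩
      exact Nat.succ_ne_zero j hj

/-! ### the spaces of words ending in `y` -/

/-- span of the nonempty words of length `k` ending in `y` -/
noncomputable def E (k : ℕ) : Submodule ℚ H :=
  Submodule.span ℚ {h | ∃ w, w.length = k ∧ (∃ u, w = u ++ [true]) ∧ h = wd w}

theorem wd_mem_E {w : List Bool} (h : ∃ u, w = u ++ [true]) : wd w ∈ E w.length :=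
  Submodule.subset_span ⟨w, rfl, h, rfl⟩

theorem lmul_mem_E (a : Bool) {k : ℕ} {q : H} (hq : q ∈ E k) : lmul a q ∈ E (k + 1) := by
  have : E k ≤ (E (k + 1)).comap (lmulL a) := by
    unfold E
    rw [Submodule.span_le]
    rintro _ ⟨w, hw, ⟨u, hu⟩, rfl⟩
    show lmul a (wd w) ∈ Submodule.span ℚ _
    rw [lmul_wd]
    exact Submodule.subset_span ⟨a :: w, by simp [hw], ⟨a :: u, by simp [hu]⟩, rfl⟩
  exact this hq

theorem lmul_false_mem {k : ℕ} {q : H} (hq : q ∈ E k) : lmul false q ∈ H0 (k + 1) := by
  have : E k ≤ (H0 (k + 1)).comap (lmulL false) := by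
    unfold E
    rw [Submodule.span_le]
    rintro _ ⟨w, hw, ⟨u, hu⟩, rfl⟩
    show lmul false (wd w) ∈ Submodule.span ℚ _
    rw [lmul_wd]
    exact Submodule.subset_span ⟨false :: w, Or.inr ⟨u, by simp [hu]⟩, by simp [hw], rfl⟩
  exact this hq

theorem H0_le (p : ℕ) : H0 p ≤ H0all := by
  unfold H0 H0all
  apply Submodule.span_mono
  rintro _ ⟨w, hw, _, rfl⟩
  exact ⟨w, hw, rfl⟩

theorem endY_tail {a : Bool} {u : List Bool} (h : EndY (a :: u)) : EndY u := by
  rcases h with h | ⟨v, hv⟩
  · cases h
  · cases v with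
    | nil =>
      rw [List.nil_append] at hv
      injection hv with h1 h2
      exact Or.inl h2
    | cons b v =>
      rw [List.cons_append] at hv
      injection hv with h1 h2
      exact Or.inr ⟨v, h2⟩

theorem endY_ne {u : List Bool} (h : EndY u) (hu : u ≠ []) : ∃ v, u = v ++ [true] := by
  rcases h with h | h
  · exact absurd h hu
  · exact h

theorem sh_mem_E (u v : List Bool) : EndY u → EndY v → (u ≠ [] ∨ v ≠ []) →
    sh u v ∈ E (u.length + v.length) := by
  induction u, v using shs_induct with
  | h0 W =>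
    intro _ hv h
    rw [sh_nil]
    have hW : W ≠ [] := by
      rcases h with h | h
      · exact absurd rfl h
      · exact h
    have := wd_mem_E (endY_ne hv hW)
    simpa using this
  | h1 a σ =>
    intro hu _ _
    rw [sh_nil']
    have := wd_mem_E (endY_ne hu (List.cons_ne_nil a σ))
    simpa using this
  | h2 a σ c W h1 h2 =>
    intro hu hv _
    rw [sh_cons]
    have e1 := lmul_mem_E a (h1 (endY_tail hu) hv (Or.inr (List.cons_ne_nil _ _)))
    have e2 := lmul_mem_E c (h2 hu (endY_tail hv) (Or.inl (List.cons_ne_nil _ _)))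
    have l1 : σ.length + (c :: W).length + 1 = (a :: σ).length + (c :: W).length := by
      simp only [List.length_cons]; omega
    have l2 : (a :: σ).length + W.length + 1 = (a :: σ).length + (c :: W).length := by
      simp only [List.length_cons]; omega
    rw [l1] at e1
    rw [l2] at e2
    exact Submodule.add_mem _ e1 e2

theorem endY_replicate (m : ℕ) : EndY (List.replicate m true) := by
  cases m with
  | zero => exact Or.inl rfl
  | succ m =>
    refine Or.inr ⟨List.replicate m true, ?_⟩
    rw [← List.replicate_succ']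

theorem shuffle_mem_E (hA : SpecAlg) (m : ℕ) {k : ℕ} {q : H} (hq : q ∈ E k) :
    shuffle (wd (List.replicate m true)) q ∈ E (m + k) := by
  have : E k ≤ (E (m + k)).comap (sL hA (wd (List.replicate m true))) := by
    unfold E
    rw [Submodule.span_le]
    rintro _ ⟨w, hw, ⟨u, hu⟩, rfl⟩
    show shuffle (wd (List.replicate m true)) (wd w) ∈ Submodule.span ℚ _
    rw [shuffle_wd]
    have h3 := sh_mem_E (List.replicate m true) w (endY_replicate m) (Or.inr ⟨u, hu⟩)
      (Or.inr (by rw [hu]; simp))
    rw [List.length_replicate, hw] at h3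
    exact h3
  exact this hq

/-! ### the main induction -/

theorem shuffle_pow_y (hA : SpecAlg) (m : ℕ) :
    shuffle (wd (List.replicate m true)) (wd [true]) =
      ((m : ℚ) + 1) • wd (List.replicate (m + 1) true) := by
  rw [hA.comm, shuffle_wd, sh_y_pow]

theorem main (hA : SpecAlg) : ∀ (m k : ℕ) (q : H), q ∈ E k →
    (T m q, (-1 : ℚ) ^ m • lmul false (shuffle (wd (List.replicate m true)) q)) ∈ RG hA
  | 0, k, q, hq => by
    rw [T_zero, List.replicate_zero, hA.one, pow_zero, one_smul]
    exact mem_base hA (H0_le _ (lmul_false_mem hq))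
  | m + 1, k, q, hq => by
    have hne : ((m : ℚ) + 1) ≠ 0 := by positivity
    have h1 := mem_shift hA (main hA m k q hq)
    have hyq : shuffle (wd [true]) q ∈ E (1 + k) := by
      have := shuffle_mem_E hA 1 hq
      simpa using this
    have h2 := main hA m (1 + k) _ hyq
    have h3 := (RG hA).smul_mem ((m : ℚ) + 1)⁻¹ ((RG hA).sub_mem h1 h2)
    rw [y_T hA m q] at h3
    have e1 : ((m : ℚ) + 1)⁻¹ • (((m : ℚ) + 1) • T (m + 1) q + T m (shuffle (wd [true]) q) -
        T m (shuffle (wd [true]) q)) = T (m + 1) q := by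
      rw [add_sub_cancel_right, smul_smul, inv_mul_cancel₀ hne, one_smul]
    have e2 : ((m : ℚ) + 1)⁻¹ • ((0 : H) - (-1 : ℚ) ^ m •
        lmul false (shuffle (wd (List.replicate m true)) (shuffle (wd [true]) q))) =
        (-1 : ℚ) ^ (m + 1) • lmul false (shuffle (wd (List.replicate (m + 1) true)) q) := by
      rw [← hA.assoc, shuffle_pow_y hA, hA.smul, lmul_smul, zero_sub, smul_neg, smul_smul,
        smul_smul, pow_succ, mul_neg_one, neg_smul]
      congr 2
      field_simp
    have e3 : ((m : ℚ) + 1)⁻¹ • (((((m : ℚ) + 1) • T (m + 1) q + T m (shuffle (wd [true]) q), 0) -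
        (T m (shuffle (wd [true]) q), (-1 : ℚ) ^ m •
          lmul false (shuffle (wd (List.replicate m true)) (shuffle (wd [true]) q)))) : H × H) =
        (T (m + 1) q, (-1 : ℚ) ^ (m + 1) •
          lmul false (shuffle (wd (List.replicate (m + 1) true)) q)) := by
      refine Prod.ext ?_ ?_
      · exact e1
      · exact e2
    rw [e3] at h3
    exact h3

theorem pow_mem (hA : SpecAlg) : ∀ m : ℕ,
    (wd (List.replicate m true), if m = 0 then wd [] else 0) ∈ RG hA
  | 0 => by
    rw [if_pos rfl, List.replicate_zero]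
    exact mem_base hA (Submodule.subset_span ⟨[], Or.inl rfl, rfl⟩)
  | m + 1 => by
    have hne : ((m : ℚ) + 1) ≠ 0 := by positivity
    have h1 := mem_shift hA (pow_mem hA m)
    have h3 := (RG hA).smul_mem ((m : ℚ) + 1)⁻¹ h1
    rw [shuffle_wd, sh_y_pow] at h3
    have e3 : ((m : ℚ) + 1)⁻¹ • ((((m : ℚ) + 1) • wd (List.replicate (m + 1) true), 0) : H × H) =
        (wd (List.replicate (m + 1) true), 0) := by
      refine Prod.ext ?_ ?_
      · show ((m : ℚ) + 1)⁻¹ • (((m : ℚ) + 1) • wd (List.replicate (m + 1) true)) = _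
        rw [smul_smul, inv_mul_cancel₀ hne, one_smul]
      · exact smul_zero _
    rw [e3] at h3
    rw [if_neg (Nat.succ_ne_zero m)]
    exact h3

theorem word_cases (w : List Bool) : ∃ m : ℕ, w = List.replicate m true ∨
    ∃ w', w = List.replicate m true ++ false :: w' := by
  induction w with
  | nil => exact ⟨0, Or.inl rfl⟩
  | cons a w ih =>
    obtain ⟨m, h | ⟨w', h⟩⟩ := ih
    · cases a with
      | false => exact ⟨0, Or.inr ⟨w, rfl⟩⟩
      | true => exact ⟨m + 1, Or.inl (by rw [h, List.replicate_succ])⟩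
    · cases a with
      | false => exact ⟨0, Or.inr ⟨w, rfl⟩⟩
      | true => exact ⟨m + 1, Or.inr ⟨w', by rw [h, List.replicate_succ, List.cons_append]⟩⟩

theorem extAux_replicate (φ : List Bool → ℤ) (v : List Bool) : ∀ (m k : ℕ),
    extAux φ k (List.replicate m true ++ v) = extAux φ (k + m) v
  | 0, k => by simp
  | m + 1, k => by
    rw [List.replicate_succ, List.cons_append, extAux, extAux_replicate φ v m (k + 1)]
    congr 1
    omega

theorem ext_pow (φ : List Bool → ℤ) (m : ℕ) :
    ext φ (List.replicate m true) = if m = 0 then φ [] else 0 := by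
  have h := extAux_replicate φ [] m 0
  rw [List.append_nil, zero_add] at h
  unfold ext
  rw [h]
  cases m with
  | zero => rfl
  | succ m => rfl

theorem ext_word (φ : List Bool → ℤ) (m : ℕ) (w : List Bool) :
    ext φ (List.replicate m true ++ false :: w) =
      (-1) ^ m * shs (fun l => φ (false :: l)) (List.replicate m true) w := by
  have h := extAux_replicate φ (false :: w) m 0
  rw [zero_add] at h
  unfold ext
  rw [h, extAux]

theorem regOK (hA : SpecAlg) (φ : List Bool → ℤ) (w : List Bool) (hw : EndY w) :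
    ∃ r ∈ H0 w.length, IsReg (wd w) r ∧ lin φ r = (ext φ w : ℚ) := by
  obtain ⟨m, h | ⟨w', h⟩⟩ := word_cases w
  · subst h
    refine ⟨if m = 0 then wd [] else 0, ?_, isReg_of_mem hA (pow_mem hA m), ?_⟩
    · split_ifs with h0
      · subst h0
        exact Submodule.subset_span ⟨[], Or.inl rfl, rfl, rfl⟩
      · exact Submodule.zero_mem _
    · rw [ext_pow]
      split_ifs with h0
      · rw [lin_eq, lf_wd]
      · rw [lin_eq, map_zero, Int.cast_zero]
  · subst h
    have hw' : ∃ u, w' = u ++ [true] := by
      have h1 : EndY (false :: w') := by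
        clear φ
        induction m with
        | zero => simpa using hw
        | succ m ih =>
          apply ih
          rw [List.replicate_succ, List.cons_append] at hw
          exact endY_tail hw
      rcases h1 with h1 | ⟨v, hv⟩
      · cases h1
      · cases v with
        | nil => simp at hv
        | cons b v =>
          rw [List.cons_append] at hv
          injection hv with h1 h2
          exact ⟨v, h2⟩
    have hE : wd w' ∈ E w'.length := wd_mem_E hw'
    refine ⟨(-1 : ℚ) ^ m • lmul false (shuffle (wd (List.replicate m true)) (wd w')), ?_, ?_, ?_⟩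
    · have h1 := lmul_false_mem (shuffle_mem_E hA m hE)
      have h2 : (List.replicate m true ++ false :: w').length = m + w'.length + 1 := by
        simp; omega
      rw [h2]
      exact Submodule.smul_mem _ _ h1
    · have h1 := isReg_of_mem hA (main hA m _ _ hE)
      rw [T_wd] at h1
      exact h1
    · rw [lin_eq, map_smul, lf_lmul, shuffle_wd, lf_sh, ext_word, smul_eq_mul,
        shs_cast (fun l => φ (false :: l))]
      push_cast
      rfl

end MP154526.Top.RegN
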