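import Pool.Agent.Lib.MP_154526_nt.Top.Pass2Main
import Pool.Agent.Lib.MP_154526_nt.Top.Reg
import Pool.Agent.Lib.MP_154526_nt.Top.Span

/-!
# Module PASS2
-/

set_option autoImplicit false

namespace MP154526.Top

theorem specPass2 (hA : SpecAlg) : SpecPass2 :=
  Pass2.specPass2_of hA (fun φ w hw => RegN.regOK hA φ w hw) specPass1

end MP154526.Top
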