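import Pool.Agent.Lib.MP_154526_nt.Top.FrontDefs

/-!
# FRONT (A): the shuffle side
-/

set_option autoImplicit false

namespace MP154526.Top.Front

open Finset

variable {R : Type} [CommRing R]

theorem dT_add (τ : R) (c c' : List Bool → R) (w : List Bool) :
    dT τ (fun v => c v + c' v) w = dT τ c w + dT τ c' w := by
  induction w generalizing c c' with
  | nil => simp [dT]
  | cons g w ih =>
    cases g
    · simp only [dT, ih]; ring
    · simp only [dT, ih]; ring

theorem dT_mul (τ r : R) (c : List Bool → R) (w : List Bool) :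
    dT τ (fun v => r * c v) w = r * dT τ c w := by
  induction w generalizing c with
  | nil => simp [dT]
  | cons g w ih =>
    cases g
    · simp only [dT, ih]; ring
    · simp only [dT, ih]; ring

@[simp] theorem dT_nil (τ : R) (c : List Bool → R) : dT τ c [] = 0 := rfl

theorem E_zero' (τ : R) (ψ c : List Bool → R) : E τ 0 ψ c = ψ [] * c [] := rfl

theorem E_succ (τ : R) (n : ℕ) (ψ c : List Bool → R) : E τ (n + 1) ψ c =
    E τ n (fun w => ψ (false :: w)) (dT τ c) + E τ n (fun w => ψ (true :: w)) (yT c) := rfl

theorem E_add_left (τ : R) (n : ℕ) (ψ ψ' c : List Bool → R) :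
    E τ n (fun w => ψ w + ψ' w) c = E τ n ψ c + E τ n ψ' c := by
  induction n generalizing ψ ψ' c with
  | zero => simp only [E_zero']; ring
  | succ n ih => simp only [E_succ, ih]; ring

theorem E_mul_left (τ r : R) (n : ℕ) (ψ c : List Bool → R) :
    E τ n (fun w => r * ψ w) c = r * E τ n ψ c := by
  induction n generalizing ψ c with
  | zero => simp only [E_zero']; ring
  | succ n ih => simp only [E_succ, ih]; ring

theorem E_zero_left (τ : R) (n : ℕ) (c : List Bool → R) :
    E τ n (fun _ => (0 : R)) c = 0 := by
  have := E_mul_left τ 0 n (fun _ => (0 : R)) c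
  simpa using this

theorem E_add_right (τ : R) (n : ℕ) (ψ c c' : List Bool → R) :
    E τ n ψ (fun w => c w + c' w) = E τ n ψ c + E τ n ψ c' := by
  induction n generalizing ψ c c' with
  | zero => simp only [E_zero']; ring
  | succ n ih =>
    simp only [E_succ]
    have h1 : dT τ (fun w => c w + c' w) = fun w => dT τ c w + dT τ c' w :=
      funext fun w => dT_add τ c c' w
    have h2 : yT (fun w => c w + c' w) = fun w => yT c w + yT c' w := rfl
    rw [h1, h2, ih, ih]; ring

theorem E_mul_right (τ r : R) (n : ℕ) (ψ c : List Bool → R) :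
    E τ n ψ (fun w => r * c w) = r * E τ n ψ c := by
  induction n generalizing ψ c with
  | zero => simp only [E_zero']; ring
  | succ n ih =>
    simp only [E_succ]
    have h1 : dT τ (fun w => r * c w) = fun w => r * dT τ c w :=
      funext fun w => dT_mul τ r c w
    have h2 : yT (fun w => r * c w) = fun w => r * yT c w := rfl
    rw [h1, h2, ih, ih]; ring

theorem E_zero_right (τ : R) (n : ℕ) (ψ : List Bool → R) :
    E τ n ψ (fun _ => (0 : R)) = 0 := by
  have := E_mul_right τ 0 n ψ (fun _ => (0 : R))
  simpa using this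

theorem endY_cons_true (w : List Bool) (h : EndY w) : EndY (true :: w) := by
  rcases h with rfl | ⟨u, rfl⟩
  · exact Or.inr ⟨[], rfl⟩
  · exact Or.inr ⟨true :: u, rfl⟩

theorem endY_cons (g : Bool) (w : List Bool) (hw : w ≠ []) (h : EndY w) : EndY (g :: w) := by
  rcases h with rfl | ⟨u, rfl⟩
  · exact absurd rfl hw
  · exact Or.inr ⟨g :: u, rfl⟩

theorem endY_tail (g : Bool) (w : List Bool) (h : EndY (g :: w)) : EndY w := by
  rcases h with h | ⟨u, h⟩
  · exact absurd h (by simp)
  · cases u with
    | nil =>
      simp only [List.nil_append, List.cons.injEq] at h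
      exact Or.inl h.2
    | cons a u =>
      simp only [List.cons_append, List.cons.injEq] at h
      exact Or.inr ⟨u, h.2⟩

/-- only words ending in `y` matter -/
theorem E_congr (τ : R) (n : ℕ) (ψ ψ' c : List Bool → R)
    (h : ∀ w : List Bool, w.length = n → EndY w → ψ w = ψ' w) : E τ n ψ c = E τ n ψ' c := by
  induction n generalizing ψ ψ' c with
  | zero => rw [E_zero', E_zero', h [] rfl (Or.inl rfl)]
  | succ n ih =>
    rw [E_succ, E_succ]
    congr 1
    · cases n with
      | zero => simp [E_zero']
      | succ n =>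
        refine ih _ _ _ fun w hw hY => h _ (by simp [hw]) (endY_cons _ _ ?_ hY)
        rintro rfl
        simp at hw
    · exact ih _ _ _ fun w hw hY => h _ (by simp [hw]) (endY_cons_true _ hY)

theorem E_eq_zero (τ : R) (n : ℕ) (ψ c : List Bool → R)
    (h : ∀ w : List Bool, w.length = n → EndY w → ψ w = 0) : E τ n ψ c = 0 := by
  rw [E_congr τ n ψ (fun _ => 0) c h, E_zero_left]

/-- the product of two functionals -/
def mulc : (List Bool → R) → (List Bool → R) → List Bool → R
  | c₁, c₂, [] => c₁ [] * c₂ []
  | c₁, c₂, g :: w => mulc (fun v => c₁ (g :: v)) c₂ w + mulc c₁ (fun v => c₂ (g :: v)) w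

theorem mulc_cons (c₁ c₂ : List Bool → R) (g : Bool) (w : List Bool) :
    mulc c₁ c₂ (g :: w) =
      mulc (fun v => c₁ (g :: v)) c₂ w + mulc c₁ (fun v => c₂ (g :: v)) w := rfl

theorem mulc_comm (c₁ c₂ : List Bool → R) (w : List Bool) : mulc c₁ c₂ w = mulc c₂ c₁ w := by
  induction w generalizing c₁ c₂ with
  | nil => simp only [mulc]; ring
  | cons g w ih => rw [mulc_cons, mulc_cons, ih, ih c₁]; ring

theorem mulc_add_left (c c' d : List Bool → R) (w : List Bool) :
    mulc (fun v => c v + c' v) d w = mulc c d w + mulc c' d w := by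
  induction w generalizing c c' d with
  | nil => simp only [mulc]; ring
  | cons g w ih => simp only [mulc_cons, ih]; ring

theorem mulc_mul_left (r : R) (c d : List Bool → R) (w : List Bool) :
    mulc (fun v => r * c v) d w = r * mulc c d w := by
  induction w generalizing c d with
  | nil => simp only [mulc]; ring
  | cons g w ih => simp only [mulc_cons, ih]; ring

theorem mulc_add_right (c d d' : List Bool → R) (w : List Bool) :
    mulc c (fun v => d v + d' v) w = mulc c d w + mulc c d' w := by
  rw [mulc_comm, mulc_add_left, mulc_comm d, mulc_comm d']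

theorem mulc_mul_right (r : R) (c d : List Bool → R) (w : List Bool) :
    mulc c (fun v => r * d v) w = r * mulc c d w := by
  rw [mulc_comm, mulc_mul_left, mulc_comm d]

theorem dT_false (τ : R) (c : List Bool → R) (w : List Bool) :
    dT τ c (false :: w) = c (true :: w) + dT τ (fun v => c (false :: v)) w := rfl

theorem dT_true (τ : R) (c : List Bool → R) (w : List Bool) :
    dT τ c (true :: w) = τ * c (true :: w) + dT τ (fun v => c (true :: v)) w := rfl

theorem dT_mulc (τ : R) (c₁ c₂ : List Bool → R) (w : List Bool) :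
    dT τ (mulc c₁ c₂) w = mulc (dT τ c₁) c₂ w + mulc c₁ (dT τ c₂) w := by
  induction w generalizing c₁ c₂ with
  | nil => simp [mulc]
  | cons g w ih =>
    cases g
    · rw [dT_false]
      simp only [mulc_cons, dT_false]
      rw [dT_add, ih, ih, mulc_add_left, mulc_add_right]
      ring
    · rw [dT_true]
      simp only [mulc_cons, dT_true]
      rw [dT_add, ih, ih, mulc_add_left, mulc_add_right, mulc_mul_left, mulc_mul_right]
      ring

/-- half of the square of a functional -/
def hsq (c : List Bool → R) : List Bool → R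
  | [] => 0
  | g :: w => mulc (fun v => c (g :: v)) c w

theorem dT_hsq (τ : R) (c : List Bool → R) (hc : c [] = 0) (w : List Bool) :
    dT τ (hsq c) w = mulc (dT τ c) c w := by
  cases w with
  | nil => simp [mulc, hc]
  | cons g w =>
    cases g
    · rw [dT_false]
      simp only [hsq, mulc_cons, dT_false]
      rw [dT_mulc, mulc_add_left, mulc_comm (dT τ c)]
      ring
    · rw [dT_true]
      simp only [hsq, mulc_cons, dT_true]
      rw [dT_mulc, mulc_add_left, mulc_comm (dT τ c), mulc_mul_left]
      ring

/-! ### the double evaluation -/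

/-- the part of the double evaluation in lengths `i`, `j` -/
def G (τ : R) (i j : ℕ) (ψ c₁ c₂ : List Bool → R) : R :=
  E τ i (fun u => E τ j (fun v => shs ψ u v) c₂) c₁

theorem G_succ_zero (τ : R) (i : ℕ) (ψ c₁ c₂ : List Bool → R) :
    G τ (i + 1) 0 ψ c₁ c₂ =
      G τ i 0 (fun w => ψ (false :: w)) (dT τ c₁) c₂ +
        G τ i 0 (fun w => ψ (true :: w)) (yT c₁) c₂ := by
  simp only [G, E_zero', shs_nil_right, E_succ]

theorem G_zero_succ (τ : R) (j : ℕ) (ψ c₁ c₂ : List Bool → R) :
    G τ 0 (j + 1) ψ c₁ c₂ =
      G τ 0 j (fun w => ψ (false :: w)) c₁ (dT τ c₂) +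
        G τ 0 j (fun w => ψ (true :: w)) c₁ (yT c₂) := by
  simp only [G, E_zero', shs_nil_left, E_succ]
  ring

theorem G_inner (τ : R) (j : ℕ) (ψ c₂ : List Bool → R) (g : Bool) (u : List Bool) :
    E τ (j + 1) (fun v => shs ψ (g :: u) v) c₂ =
      E τ (j + 1) (fun v => shs (fun w => ψ (g :: w)) u v) c₂ +
        (E τ j (fun v => shs (fun w => ψ (false :: w)) (g :: u) v) (dT τ c₂) +
          E τ j (fun v => shs (fun w => ψ (true :: w)) (g :: u) v) (yT c₂)) := by
  rw [E_succ, E_succ]
  simp only [shs_cons_cons]
  rw [E_add_left, E_add_left]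
  ring

theorem G_succ_succ (τ : R) (i j : ℕ) (ψ c₁ c₂ : List Bool → R) :
    G τ (i + 1) (j + 1) ψ c₁ c₂ =
      (G τ i (j + 1) (fun w => ψ (false :: w)) (dT τ c₁) c₂ +
        G τ i (j + 1) (fun w => ψ (true :: w)) (yT c₁) c₂) +
      (G τ (i + 1) j (fun w => ψ (false :: w)) c₁ (dT τ c₂) +
        G τ (i + 1) j (fun w => ψ (true :: w)) c₁ (yT c₂)) := by
  simp only [G]
  rw [E_succ]
  simp only [G_inner]
  rw [E_add_left, E_add_left, E_add_left, E_add_left, E_succ, E_succ]
  ring

theorem G_sum (τ : R) (n : ℕ) (ψ c₁ c₂ : List Bool → R) :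
    ∑ p ∈ antidiagonal n, G τ p.1 p.2 ψ c₁ c₂ = E τ n ψ (mulc c₁ c₂) := by
  induction n generalizing ψ c₁ c₂ with
  | zero => simp [G, E_zero', mulc]; ring
  | succ n ih =>
    have key : ∑ p ∈ antidiagonal (n + 1), G τ p.1 p.2 ψ c₁ c₂ =
        ∑ p ∈ antidiagonal n, (G τ p.1 p.2 (fun w => ψ (false :: w)) (dT τ c₁) c₂ +
          G τ p.1 p.2 (fun w => ψ (true :: w)) (yT c₁) c₂) +
        ∑ p ∈ antidiagonal n, (G τ p.1 p.2 (fun w => ψ (false :: w)) c₁ (dT τ c₂) +
          G τ p.1 p.2 (fun w => ψ (true :: w)) c₁ (yT c₂)) := by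
      cases n with
      | zero =>
        simp [Nat.antidiagonal_succ, G_zero_succ, G_succ_zero]
        ring
      | succ n =>
        rw [Nat.sum_antidiagonal_succ, Nat.sum_antidiagonal_succ',
          Nat.sum_antidiagonal_succ' (n := n), Nat.sum_antidiagonal_succ (n := n)]
        simp only [G_zero_succ, G_succ_zero, G_succ_succ]
        rw [sum_add_distrib]
        ring
    rw [key]
    simp only [sum_add_distrib, ih]
    rw [E_succ]
    have h1 : dT τ (mulc c₁ c₂) = fun w => mulc (dT τ c₁) c₂ w + mulc c₁ (dT τ c₂) w :=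
      funext fun w => dT_mulc τ c₁ c₂ w
    have h2 : yT (mulc c₁ c₂) = fun w => mulc (yT c₁) c₂ w + mulc c₁ (yT c₂) w := rfl
    rw [h1, h2, E_add_right, E_add_right]
    ring

theorem E_comm (τ : R) (i j : ℕ) (k : List Bool → List Bool → R) (c₁ c₂ : List Bool → R) :
    E τ i (fun u => E τ j (fun v => k u v) c₂) c₁ =
      E τ j (fun v => E τ i (fun u => k u v) c₁) c₂ := by
  induction i generalizing k c₁ with
  | zero =>
    simp only [E_zero']
    have := E_mul_left τ (c₁ []) j (fun v => k [] v) c₂
    rw [mul_comm, ← this]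
    simp only [mul_comm]
  | succ i ih =>
    simp only [E_succ]
    rw [ih, ih, E_add_left]

theorem shs_castB [Algebra (ZMod 2) R] (ψ : List Bool → ZMod 2) (u v : List Bool) :
    shs (castB R ψ) u v = algebraMap (ZMod 2) R (shs ψ u v) :=
  (shs_map (algebraMap (ZMod 2) R).toAddMonoidHom ψ u v).symm

/-- the product rule -/
theorem E_mulc [Algebra (ZMod 2) R] (τ : R) (n : ℕ) (hn : 1 ≤ n) (ψ : List Bool → ZMod 2)
    (h : IsSh n ψ) (c₁ c₂ : List Bool → R) :
    E τ n (castB R ψ) (mulc c₁ c₂) =
      c₁ [] * E τ n (castB R ψ) c₂ + c₂ [] * E τ n (castB R ψ) c₁ := by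
  rw [← G_sum]
  obtain ⟨n, rfl⟩ : ∃ k, n = k + 1 := ⟨n - 1, by omega⟩
  rw [Nat.sum_antidiagonal_succ]
  have h0 : G τ 0 (n + 1) (castB R ψ) c₁ c₂ = c₁ [] * E τ (n + 1) (castB R ψ) c₂ := by
    simp only [G, E_zero', shs_nil_left]
    ring
  have h1 : ∀ i j, i + j = n → j ≠ 0 → G τ (i + 1) j (castB R ψ) c₁ c₂ = 0 := by
    intro i j hij hj
    refine E_eq_zero _ _ _ _ fun u hu hY => E_eq_zero _ _ _ _ fun v hv hY' => ?_
    rw [shs_castB, h u v _ _ hY hY' (by omega), map_zero]
    · rintro rfl; simp at hu
    · rintro rfl; simp at hv; omega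
  have h2 : ∑ p ∈ antidiagonal n, G τ (p.1 + 1) p.2 (castB R ψ) c₁ c₂ =
      c₂ [] * E τ (n + 1) (castB R ψ) c₁ := by
    rw [Finset.sum_eq_single (n, 0)]
    · simp only [G, E_zero', shs_nil_right]
      rw [← E_mul_left]
      simp only [mul_comm]
    · rintro ⟨i, j⟩ hp hne
      rw [HasAntidiagonal.mem_antidiagonal] at hp
      refine h1 i j hp ?_
      rintro rfl
      simp at hp
      exact hne (by rw [hp])
    · intro hp
      exact absurd (HasAntidiagonal.mem_antidiagonal.2 (by simp)) hp
  rw [h0, h2]

/-- kernel of the half square -/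
def kk (ψ : List Bool → R) : List Bool → List Bool → R
  | [], _ => 0
  | g :: u, v => shs (fun w => ψ (g :: w)) u v

theorem alt_aux [Algebra (ZMod 2) R] (τ : R) (a : ℕ) (k : List Bool → List Bool → R)
    (hs : ∀ u v, k u v = k v u) (hk : ∀ u, k u u = 0) (c : List Bool → R) :
    E τ a (fun u => E τ a (fun v => k u v) c) c = 0 := by
  induction a generalizing k c with
  | zero => simp only [E_zero', hk]; ring
  | succ a ih =>
    simp only [E_succ, E_add_left]
    have h1 := ih (fun u v => k (false :: u) (false :: v)) (fun u v => hs _ _) (fun u => hk _)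
      (dT τ c)
    have h2 := ih (fun u v => k (true :: u) (true :: v)) (fun u v => hs _ _) (fun u => hk _)
      (yT c)
    rw [h1, h2, zero_add, add_zero, E_comm τ a a (fun u v => k (true :: u) (false :: v))]
    have h3 : (fun v => E τ a (fun u => k (true :: u) (false :: v)) (yT c)) =
        fun v => E τ a (fun u => k (false :: v) (true :: u)) (yT c) := by
      funext v
      congr 1
      funext u
      exact hs _ _
    rw [h3, ← two_mul]
    have : (2 : R) = 0 := by
      have h := map_ofNat (algebraMap (ZMod 2) R) 2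
      rw [← h]
      have : (OfNat.ofNat 2 : ZMod 2) = 0 := rfl
      rw [this, map_zero]
    rw [this, zero_mul]

/-- half squares are killed -/
theorem E_hsq [Algebra (ZMod 2) R] (τ : R) (n : ℕ) (ψ : List Bool → ZMod 2)
    (h : IsSh n ψ) (hh : IsHalf n ψ) (c : List Bool → R) (hc : c [] = 0) :
    E τ n (castB R ψ) (hsq c) = 0 := by
  have h20 : (2 : R) = 0 := by
    have h := map_ofNat (algebraMap (ZMod 2) R) 2
    rw [← h]
    have : (OfNat.ofNat 2 : ZMod 2) = 0 := rfl
    rw [this, map_zero]
  cases n with
  | zero => simp [E_zero', hsq]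
  | succ n =>
    set ψR := castB R ψ with hψR
    set S : ℕ × ℕ → R := fun p => E τ p.1 (fun u => E τ p.2 (fun v => kk ψR u v) c) c with hS
    have e1 : E τ (n + 1) ψR (hsq c) = ∑ p ∈ antidiagonal (n + 1), S p := by
      rw [Nat.sum_antidiagonal_succ]
      have h0 : S (0, n + 1) = 0 := by
        simp only [hS, E_zero', kk, E_zero_left, zero_mul]
      rw [h0, zero_add, E_succ]
      have h1 : dT τ (hsq c) = mulc (dT τ c) c := funext fun w => dT_hsq τ c hc w
      have h2 : yT (hsq c) = mulc (yT c) c := rfl
      rw [h1, h2, ← G_sum, ← G_sum, ← sum_add_distrib]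
      refine sum_congr rfl fun p _ => ?_
      simp only [hS, G, E_succ, kk]
    rw [e1]
    -- symmetry of the kernel
    have hsym : ∀ u v : List Bool, u ≠ [] → v ≠ [] → EndY u → EndY v →
        u.length + v.length = n + 1 → kk ψR u v + kk ψR v u = 0 := by
      intro u v hu hv hYu hYv hl
      cases u with
      | nil => exact absurd rfl hu
      | cons g u =>
        cases v with
        | nil => exact absurd rfl hv
        | cons g' v =>
          have := h (g :: u) (g' :: v) hu hv hYu hYv hl
          simp only [kk]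
          rw [shs_comm (fun w => ψR (g' :: w)), ← shs_cons_cons, hψR, shs_castB, this, map_zero]
    have hdiag : ∀ u : List Bool, u ≠ [] → EndY u → 2 * u.length = n + 1 → kk ψR u u = 0 := by
      intro u hu hY hl
      cases u with
      | nil => exact absurd rfl hu
      | cons g u =>
        have := hh g u hY (by simpa using hl)
        simp only [kk]
        have e : (fun w => ψR (g :: w)) = castB R (fun w => ψ (g :: w)) := rfl
        rw [e, shs_castB, this, map_zero]
    have hbd : ∀ j, S (0, j) = 0 := by
      intro j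
      simp only [hS, E_zero', kk, E_zero_left, zero_mul]
    have hbd' : ∀ i, S (i, 0) = 0 := by
      intro i
      simp only [hS, E_zero', hc, mul_zero, E_zero_left]
    refine Finset.sum_involution (fun p _ => p.swap) ?_ ?_ ?_ ?_
    · rintro ⟨i, j⟩ hp
      rw [HasAntidiagonal.mem_antidiagonal] at hp
      simp only [Prod.swap] at hp ⊢
      rcases Nat.eq_zero_or_pos i with rfl | hi
      · rw [hbd, hbd', add_zero]
      rcases Nat.eq_zero_or_pos j with rfl | hj
      · rw [hbd, hbd', add_zero]
      simp only [hS]
      rw [E_comm τ j i (fun u v => kk ψR u v), ← E_add_left]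
      refine E_eq_zero _ _ _ _ fun u hu hY => ?_
      rw [← E_add_left]
      refine E_eq_zero _ _ _ _ fun v hv hY' => ?_
      refine hsym u v ?_ ?_ hY hY' (by omega)
      · rintro rfl; simp at hu; omega
      · rintro rfl; simp at hv; omega
    · rintro ⟨i, j⟩ hp hne hsw
      rw [HasAntidiagonal.mem_antidiagonal] at hp
      simp only [Prod.swap, Prod.mk.injEq] at hp hsw
      obtain ⟨rfl, -⟩ := hsw
      apply hne
      -- diagonal term
      have hj : j ≠ 0 := by rintro rfl; simp at hp
      classical
      set k' : List Bool → List Bool → R := fun u v =>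
        if u.length = j ∧ v.length = j ∧ EndY u ∧ EndY v then kk ψR u v else 0 with hk'
      have e2 : S (j, j) = E τ j (fun u => E τ j (fun v => k' u v) c) c := by
        simp only [hS]
        refine E_congr _ _ _ _ _ fun u hu hY => E_congr _ _ _ _ _ fun v hv hY' => ?_
        simp only [hk']
        rw [if_pos ⟨hu, hv, hY, hY'⟩]
      rw [e2]
      refine alt_aux τ j k' ?_ ?_ c
      · intro u v
        simp only [hk']
        by_cases h1 : u.length = j ∧ v.length = j ∧ EndY u ∧ EndY v
        · rw [if_pos h1, if_pos ⟨h1.2.1, h1.1, h1.2.2.2, h1.2.2.1⟩]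
          have := hsym u v (by rintro rfl; simp at h1; omega) (by rintro rfl; simp at h1; omega)
            h1.2.2.1 h1.2.2.2 (by omega)
          rw [eq_neg_of_add_eq_zero_left this, neg_eq_iff_add_eq_zero, ← two_mul, h20, zero_mul]
        · rw [if_neg h1, if_neg fun h2 => h1 ⟨h2.2.1, h2.1, h2.2.2.2, h2.2.2.1⟩]
      · intro u
        simp only [hk']
        by_cases h1 : u.length = j ∧ u.length = j ∧ EndY u ∧ EndY u
        · rw [if_pos h1]
          exact hdiag u (by rintro rfl; simp at h1; omega) h1.2.2.1 (by omega)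
        · rw [if_neg h1]
    · rintro ⟨i, j⟩ hp
      rw [HasAntidiagonal.mem_antidiagonal] at hp ⊢
      simp only [Prod.swap] at hp ⊢
      omega
    · rintro ⟨i, j⟩ hp
      rfl

/-! ### paths -/

theorem X_false (b : R) (ρ : List R) (w : List Bool) : X b ρ (false :: w) = b * X b ρ w := by
  cases ρ <;> simp [X]

theorem X_nil (b : R) (ρ : List R) : X b ρ [] = if ρ = [] then 1 else 0 := by
  cases ρ <;> simp [X]

theorem mulc_X (b c : R) (σ W : List R) (w : List Bool) :
    mulc (X b σ) (X c W) w = shs (fun ρ => X (b + c) ρ w) σ W := by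
  induction w generalizing b c σ W with
  | nil =>
    cases σ with
    | nil => cases W <;> simp [mulc, X]
    | cons r σ =>
      cases W with
      | nil => simp [mulc, X]
      | cons s W =>
        have : ∀ (ρ : List R), (r :: σ).length + (s :: W).length = ρ.length →
            X (b + c) ρ [] = 0 := by
          intro ρ hρ
          cases ρ with
          | nil => simp at hρ
          | cons _ _ => rfl
        rw [shs_congr_len (G := fun _ => 0) _ _ (fun l hl => this l hl.symm), shs_zero]
        simp [mulc, X]
  | cons g w ih =>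
    cases g
    · rw [mulc_cons]
      have h1 : (fun v => X b σ (false :: v)) = fun v => b * X b σ v :=
        funext fun v => X_false b σ v
      have h2 : (fun v => X c W (false :: v)) = fun v => c * X c W v :=
        funext fun v => X_false c W v
      rw [h1, h2, mulc_mul_left, mulc_mul_right, ih, ← add_mul]
      have h3 : (fun ρ => X (b + c) ρ (false :: w)) = fun ρ => (b + c) * X (b + c) ρ w :=
        funext fun ρ => X_false _ _ _
      rw [h3]
      exact shs_map (AddMonoidHom.mulLeft (b + c)) (fun ρ => X (b + c) ρ w) σ W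
    · rw [mulc_cons]
      cases σ with
      | nil =>
        cases W with
        | nil =>
          have h1 : (fun v => X b [] (true :: v)) = fun v => (0 : R) * 0 := by
            funext v; simp [X]
          have h2 : (fun v => X c [] (true :: v)) = fun v => (0 : R) * 0 := by
            funext v; simp [X]
          rw [h1, h2, mulc_mul_left, mulc_mul_right]
          simp [X]
        | cons s W =>
          have h1 : (fun v => X b [] (true :: v)) = fun v => (0 : R) * 0 := by
            funext v; simp [X]
          have h2 : (fun v => X c (s :: W) (true :: v)) = X (c + s) W := by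
            funext v; simp [X]
          rw [h1, h2, mulc_mul_left, zero_mul, zero_add, ih, shs_nil_left, shs_nil_left]
          simp only [X]
          rw [add_assoc]
      | cons r σ =>
        have h1 : (fun v => X b (r :: σ) (true :: v)) = X (b + r) σ := by
          funext v; simp [X]
        cases W with
        | nil =>
          have h2 : (fun v => X c [] (true :: v)) = fun v => (0 : R) * 0 := by
            funext v; simp [X]
          rw [h1, h2, mulc_mul_right, zero_mul, add_zero, ih, shs_nil_right, shs_nil_right]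
          simp only [X]
          rw [add_right_comm]
        | cons s W =>
          have h2 : (fun v => X c (s :: W) (true :: v)) = X (c + s) W := by
            funext v; simp [X]
          rw [h1, h2, ih, ih, shs_cons_cons]
          simp only [X]
          rw [add_right_comm b r c, ← add_assoc b c s]

theorem hsq_X (a : R) (u : List R) (w : List Bool) :
    hsq (X 0 (a :: u)) w = shs (fun ρ => X 0 (a :: ρ) w) u (a :: u) := by
  cases w with
  | nil =>
    have : (fun ρ : List R => X 0 (a :: ρ) []) = fun _ => (0 : R) := rfl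
    rw [this, shs_zero]
    rfl
  | cons g w =>
    cases g
    · have h1 : (fun v => X 0 (a :: u) (false :: v)) = fun v => (0 : R) * 0 := by
        funext v; simp [X]
      simp only [hsq]
      rw [h1, mulc_mul_left, zero_mul]
      have h2 : (fun ρ : List R => X 0 (a :: ρ) (false :: w)) = fun _ => (0 : R) := by
        funext v; simp [X]
      rw [h2, shs_zero]
    · have h1 : (fun v => X 0 (a :: u) (true :: v)) = X a u := by
        funext v; simp [X]
      simp only [hsq]
      rw [h1, mulc_X, add_zero]
      have h2 : (fun ρ : List R => X 0 (a :: ρ) (true :: w)) = fun ρ => X a ρ w := by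
        funext v; simp [X]
      rw [h2]

theorem E_shs {α : Type} (τ : R) (n : ℕ) (ψ : List Bool → R) (F : List α → List Bool → R)
    (σ W : List α) :
    shs (fun ρ => E τ n ψ (F ρ)) σ W = E τ n ψ (fun w => shs (fun ρ => F ρ w) σ W) := by
  induction σ, W using shs_induct generalizing F with
  | h0 W => simp
  | h1 a σ => simp
  | h2 a σ c W ha hb =>
    simp only [shs_cons_cons]
    rw [E_add_right, ha (fun l => F (a :: l)), hb (fun l => F (c :: l))]

theorem specA : SpecA := by
  intro R _ _ τ n ψ hn hSh
  have hti : ∀ (b c : R) (ρ : List R), ρ ≠ [] →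
      E τ n (castB R ψ) (X b ρ) = E τ n (castB R ψ) (X c ρ) := by
    intro b c ρ hρ
    have h1 := E_mulc τ n hn ψ hSh (X (b - c) []) (X c ρ)
    have h2 : mulc (X (b - c) []) (X c ρ) = X b ρ := by
      funext w
      rw [mulc_X, shs_nil_left, sub_add_cancel]
    rw [h2, X_nil, X_nil, if_pos rfl, if_neg hρ, one_mul, zero_mul, add_zero] at h1
    exact h1
  refine ⟨?_, hti, ?_⟩
  · intro b σ W hσ hW
    rw [E_shs]
    have h1 := E_mulc τ n hn ψ hSh (X b σ) (X 0 W)
    rw [X_nil, X_nil, if_neg hσ, if_neg hW, zero_mul, zero_mul, add_zero] at h1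
    rw [← h1]
    congr 1
    funext w
    rw [mulc_X, add_zero]
  · intro hHalf b a u
    have h1 : shs (fun ρ => E τ n (castB R ψ) (X b (a :: ρ))) u (a :: u) =
        shs (fun ρ => E τ n (castB R ψ) (X 0 (a :: ρ))) u (a :: u) :=
      shs_congr_len _ _ fun ρ _ => hti b 0 (a :: ρ) (by simp)
    rw [h1, E_shs τ n (castB R ψ) (fun ρ => X 0 (a :: ρ))]
    have h2 := E_hsq τ n ψ hSh hHalf (X (0 : R) (a :: u)) rfl
    have h3 : (fun w => shs (fun ρ => X (0 : R) (a :: ρ) w) u (a :: u)) = hsq (X 0 (a :: u)) :=
      funext fun w => (hsq_X a u w).symm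
    rw [h3, h2]

end MP154526.Top.Front
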