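import Pool.Agent.Lib.MP_154526_nt.Top.Plan

/-!
# Reduction of the injectivity statement to TOPINJ

`ψ : List Bool → ZMod 2` is a functional on words (`false = x`, `true = y`).
-/

set_option autoImplicit false

namespace MP154526.Top.Red

open Finset

/-! ## generalities on `shs` -/

section shs

variable {α M : Type} [AddCommMonoid M]

@[simp] theorem shs_nil_left (F : List α → M) (W : List α) : shs F [] W = F W := by
  cases W <;> simp [shs]

@[simp] theorem shs_nil_right (F : List α → M) (σ : List α) : shs F σ [] = F σ := by
  cases σ <;> simp [shs]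

theorem shs_cons_cons (F : List α → M) (a : α) (σ : List α) (c : α) (W : List α) :
    shs F (a :: σ) (c :: W) =
      shs (fun l => F (a :: l)) σ (c :: W) + shs (fun l => F (c :: l)) (a :: σ) W := by
  rw [shs]

theorem shs_add (F G : List α → M) (σ W : List α) :
    shs (fun l => F l + G l) σ W = shs F σ W + shs G σ W := by
  induction σ generalizing W F G with
  | nil => simp
  | cons a σ ih =>
    induction W generalizing F G with
    | nil => simp
    | cons c W ihW =>
      rw [shs_cons_cons, shs_cons_cons, shs_cons_cons, ih, ihW]
      abel

theorem shs_zero (σ W : List α) : shs (fun _ : List α => (0 : M)) σ W = 0 := by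
  induction σ generalizing W with
  | nil => simp
  | cons a σ ih =>
    induction W with
    | nil => simp
    | cons c W ihW => rw [shs_cons_cons, ih, ihW, add_zero]

/-- congruence on lists of the right length -/
theorem shs_congr {F G : List α → M} (σ W : List α)
    (h : ∀ l : List α, l.length = σ.length + W.length → F l = G l) :
    shs F σ W = shs G σ W := by
  induction σ generalizing W F G with
  | nil => simp at h; simp [h W rfl]
  | cons a σ ih =>
    induction W generalizing F G with
    | nil => simp at h; simp [h (a :: σ) (by simp)]
    | cons c W ihW =>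
      rw [shs_cons_cons, shs_cons_cons]
      congr 1
      · apply ih
        intro l hl
        apply h
        simp only [List.length_cons] at hl ⊢
        omega
      · apply ihW
        intro l hl
        apply h
        simp only [List.length_cons] at hl ⊢
        omega

theorem shs_comm (F : List α → M) (σ W : List α) : shs F σ W = shs F W σ := by
  induction σ generalizing W F with
  | nil => simp
  | cons a σ ih =>
    induction W generalizing F with
    | nil => simp
    | cons c W ihW =>
      rw [shs_cons_cons, shs_cons_cons, ih, ihW, add_comm]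

/-- last letter recursion -/
theorem shs_append_append (F : List α → M) (σ : List α) (a : α) (W : List α) (c : α) :
    shs F (σ ++ [a]) (W ++ [c]) =
      shs (fun l => F (l ++ [a])) σ (W ++ [c]) + shs (fun l => F (l ++ [c])) (σ ++ [a]) W := by
  induction σ generalizing W F with
  | nil =>
    induction W generalizing F with
    | nil => simp [shs_cons_cons, add_comm]
    | cons d W ihW =>
      simp only [List.nil_append, List.cons_append] at ihW ⊢
      rw [shs_cons_cons, ihW, shs_cons_cons]
      simp only [shs_nil_left, List.cons_append]
      abel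
  | cons b σ ih =>
    induction W generalizing F with
    | nil =>
      simp only [List.nil_append, List.cons_append] at ih ⊢
      rw [shs_cons_cons, shs_nil_right, shs_cons_cons, shs_nil_right]
      have := ih (F := fun l => F (b :: l)) (W := [])
      simp only [List.nil_append] at this
      rw [this]
      simp only [shs_nil_right, List.cons_append]
      abel
    | cons d W ihW =>
      simp only [List.cons_append] at ihW ⊢
      rw [shs_cons_cons]
      have h1 := ih (F := fun l => F (b :: l)) (W := d :: W)
      simp only [List.cons_append] at h1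
      rw [h1, ihW, shs_cons_cons, shs_cons_cons]
      simp only [List.cons_append]
      abel

theorem shs_reverse (F : List α → M) (σ W : List α) :
    shs (fun l => F l.reverse) σ W = shs F σ.reverse W.reverse := by
  induction σ generalizing W F with
  | nil => simp
  | cons a σ ih =>
    induction W generalizing F with
    | nil => simp
    | cons c W ihW =>
      rw [shs_cons_cons]
      simp only [List.reverse_cons]
      rw [shs_append_append]
      have h1 := ih (F := fun l => F (l ++ [a])) (W := c :: W)
      have h2 := ihW (F := fun l => F (l ++ [c]))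
      simp only [List.reverse_cons] at h1 h2
      rw [h1, h2]

end shs

/-! ## the generating function of a functional on words -/

section gen

variable {R : Type} [CommRing R]

theorem shs_mul_left {α : Type} (c : R) (F : List α → R) (σ W : List α) :
    shs (fun l => c * F l) σ W = c * shs F σ W := by
  induction σ generalizing W F with
  | nil => simp
  | cons a σ ih =>
    induction W generalizing F with
    | nil => simp
    | cons d W ihW => rw [shs_cons_cons, shs_cons_cons, ih, ihW, mul_add]

theorem shs_sum_mul (F : List R → R) (σ W : List R) (e : R) :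
    shs (fun l => (e + l.sum) * F l) σ W = (e + σ.sum + W.sum) * shs F σ W := by
  induction σ generalizing W F e with
  | nil => simp
  | cons a σ ih =>
    induction W generalizing F e with
    | nil => simp
    | cons d W ihW =>
      rw [shs_cons_cons, shs_cons_cons]
      have h1 := ih (F := fun l => F (a :: l)) (W := d :: W) (e := e + a)
      have h2 := ihW (F := fun l => F (d :: l)) (e := e + d)
      simp only [List.sum_cons, add_assoc] at h1 h2 ⊢
      rw [h1, h2, mul_add]
      congr 1
      congr 1
      ring

/-- the sum of `∏ vᵢ^aᵢ · F (x^a₁ y ⋯ x^a_p y)` over all words of length `n`, where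
`vᵢ = ρᵢ + ⋯ + ρ_p` -/
def gen : ℕ → List R → (List Bool → R) → R
  | 0, [], F => F []
  | 0, _ :: _, _ => 0
  | _ + 1, [], _ => 0
  | n + 1, r :: ρ, F =>
      (r :: ρ).sum * gen n (r :: ρ) (fun w => F (false :: w)) + gen n ρ (fun w => F (true :: w))

@[simp] theorem gen_zero_cons (r : R) (ρ : List R) (F : List Bool → R) :
    gen 0 (r :: ρ) F = 0 := rfl

@[simp] theorem gen_zero_nil (F : List Bool → R) : gen 0 ([] : List R) F = F [] := rfl

@[simp] theorem gen_succ_nil (n : ℕ) (F : List Bool → R) :
    gen (n + 1) ([] : List R) F = 0 := rfl

theorem gen_succ_cons (n : ℕ) (r : R) (ρ : List R) (F : List Bool → R) :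
    gen (n + 1) (r :: ρ) F =
      (r :: ρ).sum * gen n (r :: ρ) (fun w => F (false :: w)) +
        gen n ρ (fun w => F (true :: w)) := rfl

theorem gen_add (n : ℕ) (ρ : List R) (F G : List Bool → R) :
    gen n ρ (fun w => F w + G w) = gen n ρ F + gen n ρ G := by
  induction n generalizing ρ F G with
  | zero => cases ρ <;> simp
  | succ n ih =>
    cases ρ with
    | nil => simp
    | cons r ρ =>
      rw [gen_succ_cons, gen_succ_cons, gen_succ_cons, ih, ih]
      ring

theorem gen_mul (n : ℕ) (ρ : List R) (c : R) (F : List Bool → R) :
    gen n ρ (fun w => c * F w) = c * gen n ρ F := by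
  induction n generalizing ρ F with
  | zero => cases ρ <;> simp
  | succ n ih =>
    cases ρ with
    | nil => simp
    | cons r ρ =>
      rw [gen_succ_cons, gen_succ_cons, ih, ih]
      ring

theorem gen_zero_fun (n : ℕ) (ρ : List R) :
    gen n ρ (fun _ => (0 : R)) = 0 := by
  have := gen_mul n ρ 0 (fun _ => (0 : R))
  simpa using this

/-- the double generating function of `shs F` in total length `n` -/
def dgen (n : ℕ) (ρ W : List R) (F : List Bool → R) : R :=
  ∑ p ∈ antidiagonal n, gen p.1 ρ (fun u => gen p.2 W (fun v => shs F u v))

theorem gen_inner (j : ℕ) (s : R) (W : List R) (F : List Bool → R) (a : Bool) (u : List Bool) :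
    gen (j + 1) (s :: W) (fun v => shs F (a :: u) v) =
      gen (j + 1) (s :: W) (fun v => shs (fun w => F (a :: w)) u v) +
        ((s :: W).sum * gen j (s :: W) (fun v => shs (fun w => F (false :: w)) (a :: u) v) +
          gen j W (fun v => shs (fun w => F (true :: w)) (a :: u) v)) := by
  rw [gen_succ_cons, gen_succ_cons]
  simp only [shs_cons_cons]
  rw [gen_add, gen_add]
  ring

theorem gen_outer (i j : ℕ) (r : R) (ρ : List R) (s : R) (W : List R) (F : List Bool → R) :
    gen (i + 1) (r :: ρ) (fun u => gen (j + 1) (s :: W) (fun v => shs F u v)) =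
      ((r :: ρ).sum * gen i (r :: ρ) (fun u => gen (j + 1) (s :: W)
          (fun v => shs (fun w => F (false :: w)) u v)) +
        gen i ρ (fun u => gen (j + 1) (s :: W) (fun v => shs (fun w => F (true :: w)) u v))) +
      ((s :: W).sum * gen (i + 1) (r :: ρ) (fun u => gen j (s :: W)
          (fun v => shs (fun w => F (false :: w)) u v)) +
        gen (i + 1) (r :: ρ) (fun u => gen j W (fun v => shs (fun w => F (true :: w)) u v))) := by
  rw [gen_succ_cons]
  simp only [gen_inner]
  rw [gen_add, gen_add, gen_add, gen_add, gen_mul, gen_mul, gen_succ_cons, gen_succ_cons]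
  ring

theorem dgen_succ (n : ℕ) (r : R) (ρ : List R) (s : R) (W : List R) (F : List Bool → R) :
    dgen (n + 1) (r :: ρ) (s :: W) F =
      ((r :: ρ).sum + (s :: W).sum) * dgen n (r :: ρ) (s :: W) (fun w => F (false :: w)) +
        dgen n ρ (s :: W) (fun w => F (true :: w)) +
        dgen n (r :: ρ) W (fun w => F (true :: w)) := by
  have key : dgen (n + 1) (r :: ρ) (s :: W) F =
      ∑ p ∈ antidiagonal n, ((r :: ρ).sum * gen p.1 (r :: ρ) (fun u => gen p.2 (s :: W)
          (fun v => shs (fun w => F (false :: w)) u v)) +
        gen p.1 ρ (fun u => gen p.2 (s :: W) (fun v => shs (fun w => F (true :: w)) u v))) +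
      ∑ p ∈ antidiagonal n, ((s :: W).sum * gen p.1 (r :: ρ) (fun u => gen p.2 (s :: W)
          (fun v => shs (fun w => F (false :: w)) u v)) +
        gen p.1 (r :: ρ) (fun u => gen p.2 W (fun v => shs (fun w => F (true :: w)) u v))) := by
    cases n with
    | zero =>
      simp [dgen, Nat.antidiagonal_succ, gen_succ_cons, gen_zero_fun]
    | succ n =>
      rw [dgen, Nat.sum_antidiagonal_succ, Nat.sum_antidiagonal_succ',
        Nat.sum_antidiagonal_succ' (n := n), Nat.sum_antidiagonal_succ (n := n)]
      simp only [gen_zero_cons, gen_zero_fun, mul_zero, add_zero, zero_add, gen_outer]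
      rw [sum_add_distrib]
  rw [key]
  simp only [sum_add_distrib, ← mul_sum, dgen]
  ring

theorem dgen_nil_left (n : ℕ) (W : List R) (F : List Bool → R) :
    dgen n [] W F = gen n W F := by
  cases n with
  | zero => simp [dgen]
  | succ n => simp [dgen, Nat.sum_antidiagonal_succ]

theorem dgen_nil_right (n : ℕ) (ρ : List R) (F : List Bool → R) :
    dgen n ρ [] F = gen n ρ F := by
  cases n with
  | zero => simp [dgen]
  | succ n => simp [dgen, Nat.sum_antidiagonal_succ', gen_zero_fun]

theorem dgen_zero_cons (r : R) (ρ : List R) (s : R) (W : List R) (F : List Bool → R) :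
    dgen 0 (r :: ρ) (s :: W) F = 0 := by
  simp [dgen]

theorem gen_cons_of_ne (n : ℕ) (F : List Bool → R) (ρ W : List R) :
    shs (fun σ => gen (n + 1) σ F) ρ W =
      if ρ = [] ∧ W = [] then 0 else
      (ρ.sum + W.sum) * shs (fun σ => gen n σ (fun w => F (false :: w))) ρ W +
        shs (fun σ => gen n σ.tail (fun w => F (true :: w))) ρ W := by
  by_cases h : ρ = [] ∧ W = []
  · simp [h]
  · rw [if_neg h]
    have h1 := shs_sum_mul (fun σ => gen n σ (fun w => F (false :: w))) ρ W 0
    simp only [zero_add] at h1
    rw [← h1, ← shs_add]
    apply shs_congr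
    intro l hl
    cases l with
    | nil =>
      exfalso
      apply h
      simp only [List.length_nil] at hl
      constructor
      · exact List.length_eq_zero_iff.1 (by omega)
      · exact List.length_eq_zero_iff.1 (by omega)
    | cons a l => rw [gen_succ_cons]; rfl

theorem dgen_eq (n : ℕ) (ρ W : List R) (F : List Bool → R) :
    dgen n ρ W F = shs (fun σ => gen n σ F) ρ W := by
  induction n generalizing ρ W F with
  | zero =>
    cases ρ with
    | nil => simp [dgen_nil_left]
    | cons r ρ =>
      cases W with
      | nil => simp [dgen_nil_right]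
      | cons s W =>
        rw [dgen_zero_cons, shs_cons_cons]
        simp only [gen_zero_cons]
        rw [shs_zero, shs_zero, add_zero]
  | succ n ih =>
    cases ρ with
    | nil => simp [dgen_nil_left]
    | cons r ρ =>
      cases W with
      | nil => simp [dgen_nil_right]
      | cons s W =>
        rw [dgen_succ, gen_cons_of_ne, if_neg (by simp), ih, ih, ih, shs_cons_cons
          (fun σ : List R => gen n σ.tail (fun w => F (true :: w)))]
        simp only [List.tail_cons]
        ring

/-- the word `x^a₁ y ⋯ x^a_p y` -/
def word : List ℕ → List Bool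
  | [] => []
  | a :: l => List.replicate a false ++ true :: word l

/-- its length -/
def wt : List ℕ → ℕ
  | [] => 0
  | a :: l => a + 1 + wt l

theorem word_succ (a : ℕ) (l : List ℕ) : word ((a + 1) :: l) = false :: word (a :: l) := by
  simp [word, List.replicate_succ]

theorem word_zero (l : List ℕ) : word (0 :: l) = true :: word l := by simp [word]

theorem gen_congr (n : ℕ) (ρ : List R) (F G : List Bool → R)
    (h : ∀ l : List ℕ, l.length = ρ.length → wt l = n → F (word l) = G (word l)) :
    gen n ρ F = gen n ρ G := by
  induction n generalizing ρ F G with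
  | zero =>
    cases ρ with
    | nil => simpa [word] using h [] rfl rfl
    | cons r ρ => rfl
  | succ n ih =>
    cases ρ with
    | nil => rfl
    | cons r ρ =>
      rw [gen_succ_cons, gen_succ_cons]
      congr 1
      · congr 1
        apply ih
        intro l hl hw
        cases l with
        | nil => simp at hl
        | cons a l =>
          rw [← word_succ]
          apply h
          · simpa using hl
          · simp only [wt] at hw ⊢
            omega
      · apply ih
        intro l hl hw
        rw [← word_zero]
        apply h
        · simpa using hl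
        · simp only [wt]
          omega

theorem gen_eq_zero (n : ℕ) (ρ : List R) (F : List Bool → R)
    (h : ∀ l : List ℕ, l.length = ρ.length → wt l = n → F (word l) = 0) :
    gen n ρ F = 0 := by
  rw [gen_congr n ρ F (fun _ => 0) h, gen_zero_fun]

/-- the steps relation -/
theorem shs_gen_eq_zero (n : ℕ) (ρ W : List R) (F : List Bool → R)
    (h : ∀ l₁ l₂ : List ℕ, l₁.length = ρ.length → l₂.length = W.length → wt l₁ + wt l₂ = n →
      shs F (word l₁) (word l₂) = 0) :
    shs (fun σ => gen n σ F) ρ W = 0 := by
  rw [← dgen_eq, dgen]
  apply sum_eq_zero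
  intro p hp
  rw [HasAntidiagonal.mem_antidiagonal] at hp
  apply gen_eq_zero
  intro l₁ hl₁ hw₁
  apply gen_eq_zero
  intro l₂ hl₂ hw₂
  exact h l₁ l₂ hl₁ hl₂ (by omega)

/-! ## link with `ev` -/

theorem app_congr (D : ℕ) (w : ℕ → R) {P Q : List ℕ → R} (l : List ℕ)
    (h : ∀ j, P (j :: l) = Q (j :: l)) : app D w P l = app D w Q l := by
  simp [app, h]

theorem ev_congr (D : ℕ) (ws : List (ℕ → R)) {P Q : List ℕ → R}
    (h : ∀ l : List ℕ, l.length = ws.length → P l = Q l) : ev D ws P = ev D ws Q := by
  induction ws generalizing P Q with
  | nil => exact h [] rfl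
  | cons w ws ih =>
    simp only [ev]
    apply ih
    intro l hl
    apply app_congr
    intro j
    apply h
    simp [hl]

theorem app_add (D : ℕ) (w : ℕ → R) (P Q : List ℕ → R) :
    app D w (fun l => P l + Q l) = fun l => app D w P l + app D w Q l := by
  funext l
  simp [app, mul_add, sum_add_distrib]

theorem ev_add (D : ℕ) (ws : List (ℕ → R)) (P Q : List ℕ → R) :
    ev D ws (fun l => P l + Q l) = ev D ws P + ev D ws Q := by
  induction ws generalizing P Q with
  | nil => rfl
  | cons w ws ih =>
    simp only [ev]
    rw [app_add, ih]

theorem app_smul (D : ℕ) (w : ℕ → R) (c : R) (P : List ℕ → R) :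
    app D w (fun l => c * P l) = fun l => c * app D w P l := by
  funext l
  simp only [app, mul_sum]
  apply sum_congr rfl
  intros
  ring

theorem ev_smul (D : ℕ) (ws : List (ℕ → R)) (c : R) (P : List ℕ → R) :
    ev D ws (fun l => c * P l) = c * ev D ws P := by
  induction ws generalizing P with
  | nil => rfl
  | cons w ws ih =>
    simp only [ev]
    rw [app_smul, ih]

theorem ev_zero (D : ℕ) (ws : List (ℕ → R)) : ev D ws (fun _ => (0 : R)) = 0 := by
  have := ev_smul D ws 0 (fun _ => (0 : R))
  simpa using this

theorem ev_sum {ι : Type} (D : ℕ) (ws : List (ℕ → R)) (s : Finset ι) (P : ι → List ℕ → R) :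
    ev D ws (fun l => ∑ i ∈ s, P i l) = ∑ i ∈ s, ev D ws (P i) := by
  classical
  induction s using Finset.induction_on with
  | empty => simp [ev_zero]
  | insert a s ha ih =>
    simp only [sum_insert ha]
    rw [ev_add, ih]

theorem ev_append (D : ℕ) (ws : List (ℕ → R)) (w : ℕ → R) (P : List ℕ → R) :
    ev D (ws ++ [w]) P = ∑ j ∈ range D, w j * ev D ws (fun l => P (l ++ [j])) := by
  induction ws generalizing P with
  | nil => rfl
  | cons v ws ih =>
    simp only [List.cons_append, ev]
    rw [ih]
    rfl

theorem ev_reverse (D : ℕ) (ws : List (ℕ → R)) (P : List ℕ → R) :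
    ev D ws.reverse P = ev D ws (fun l => P l.reverse) := by
  induction ws generalizing P with
  | nil => rfl
  | cons w ws ih =>
    simp only [List.reverse_cons, ev]
    rw [ev_append]
    simp only [ih]
    rw [← show ev D ws (fun l => ∑ j ∈ range D, w j * P (l.reverse ++ [j])) =
      ∑ j ∈ range D, w j * ev D ws (fun l => P (l.reverse ++ [j])) from ?_]
    · congr 1
      funext l
      simp [app]
    · rw [ev_sum]
      simp only [ev_smul]

/-- suffix sums -/
def ssum : List R → List R
  | [] => []
  | r :: ρ => (r :: ρ).sum :: ssum ρ

theorem path_append (b : R) (σ : List R) (r : R) :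
    path b (σ ++ [r]) = path b σ ++ [b + σ.sum + r] := by
  induction σ generalizing b with
  | nil => simp [path]
  | cons a σ ih => simp [path, ih, add_assoc]

theorem path_reverse (ρ : List R) : path 0 ρ.reverse = (ssum ρ).reverse := by
  induction ρ with
  | nil => rfl
  | cons r ρ ih =>
    simp only [List.reverse_cons, path_append, ssum, ih, List.sum_reverse, zero_add, List.sum_cons]
    rw [add_comm]

theorem gen_cons_sum (n : ℕ) (r : R) (ρ : List R) (F : List Bool → R) :
    gen n (r :: ρ) F = ∑ a ∈ range n, (r :: ρ).sum ^ a *
      gen (n - 1 - a) ρ (fun w => F (List.replicate a false ++ true :: w)) := by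
  induction n generalizing F with
  | zero => simp
  | succ n ih =>
    rw [gen_succ_cons, ih, sum_range_succ', mul_sum]
    congr 1
    · apply sum_congr rfl
      intro a ha
      rw [pow_succ]
      have : n + 1 - 1 - (a + 1) = n - 1 - a := by omega
      rw [this]
      simp only [List.replicate_succ, List.cons_append]
      ring
    · simp

theorem ev_eq_gen (D n : ℕ) (hn : n ≤ D) (ρ : List R) (F : List Bool → R) :
    ev D ((ssum ρ).map geo) (fun l => if wt l = n then F (word l) else 0) = gen n ρ F := by
  induction ρ generalizing n F with
  | nil =>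
    cases n with
    | zero => simp [ssum, ev, wt, word]
    | succ n => simp [ssum, ev, wt]
  | cons r ρ ih =>
    simp only [ssum, List.map_cons, ev]
    rw [gen_cons_sum]
    have h1 : app D (geo (r :: ρ).sum) (fun l => if wt l = n then F (word l) else 0) =
        fun l => ∑ a ∈ range D, (r :: ρ).sum ^ a *
          (if a + 1 + wt l = n then F (List.replicate a false ++ true :: word l) else 0) := by
      funext l
      rfl
    rw [h1, ev_sum]
    simp only [ev_smul]
    rw [← sum_subset (range_subset_range.2 hn) (f := fun a => (r :: ρ).sum ^ a *
      ev D ((ssum ρ).map geo) (fun l => if a + 1 + wt l = n then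
        F (List.replicate a false ++ true :: word l) else 0))]
    · apply sum_congr rfl
      intro a ha
      rw [mem_range] at ha
      congr 1
      rw [← ih (n - 1 - a) (by omega)]
      congr 1
      funext l
      have : (a + 1 + wt l = n) ↔ (wt l = n - 1 - a) := by omega
      simp only [this]
    · intro a _ ha
      rw [mem_range] at ha
      have : (fun l => if a + 1 + wt l = n then
        F (List.replicate a false ++ true :: word l) else 0) = fun _ => (0 : R) := by
        funext l
        rw [if_neg (by omega)]
      rw [this, ev_zero, mul_zero]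

/-! ## raising operators -/

/-- the slot operation: multiplication by `1 + t s` -/
def lift1 (t : R) (w : ℕ → R) : ℕ → R := fun j => w j + if j = 0 then 0 else t * w (j - 1)

/-- `up l j f`: the sum of `f (l + 1_J)` over all `J` with `j` elements -/
def up {M : Type} [AddCommMonoid M] : List ℕ → ℕ → (List ℕ → M) → M
  | [], 0, f => f []
  | [], _ + 1, _ => 0
  | a :: l, 0, f => up l 0 (fun l' => f (a :: l'))
  | a :: l, j + 1, f => up l (j + 1) (fun l' => f (a :: l')) + up l j (fun l' => f ((a + 1) :: l'))

theorem up_zero {M : Type} [AddCommMonoid M] (l : List ℕ) (f : List ℕ → M) : up l 0 f = f l := by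
  induction l generalizing f with
  | nil => rfl
  | cons a l ih => rw [up, ih]

theorem up_append_zero {M : Type} [AddCommMonoid M] (l : List ℕ) (a j : ℕ) (f : List ℕ → M) :
    up (l ++ [a]) (j + 1) f =
      up l (j + 1) (fun l' => f (l' ++ [a])) + up l j (fun l' => f (l' ++ [a + 1])) := by
  induction l generalizing j f with
  | nil =>
    cases j with
    | zero => simp [up]
    | succ j => simp [up]
  | cons b l ih =>
    cases j with
    | zero =>
      simp only [List.cons_append, up, up_zero, ih]
      abel
    | succ j =>
      simp only [List.cons_append, up, ih]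
      abel

theorem up_reverse {M : Type} [AddCommMonoid M] (l : List ℕ) (j : ℕ) (f : List ℕ → M) :
    up l.reverse j f = up l j (fun l' => f l'.reverse) := by
  induction l generalizing j f with
  | nil => cases j <;> simp [up]
  | cons a l ih =>
    cases j with
    | zero => simp [up_zero]
    | succ j =>
      simp only [List.reverse_cons, up_append_zero, ih, up]

theorem up_congr {M : Type} [AddCommMonoid M] (l : List ℕ) (j : ℕ) (f g : List ℕ → M)
    (h : ∀ l', l'.length = l.length → wt l' = wt l + j → f l' = g l') : up l j f = up l j g := by
  induction l generalizing j f g with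
  | nil =>
    cases j with
    | zero => simpa [up] using h [] rfl rfl
    | succ j => rfl
  | cons a l ih =>
    cases j with
    | zero => rw [up_zero, up_zero]; exact h _ rfl (by simp)
    | succ j =>
      simp only [up]
      congr 1
      · apply ih
        intro l' hl' hw
        apply h
        · simp [hl']
        · simp only [wt]; omega
      · apply ih
        intro l' hl' hw
        apply h
        · simp [hl']
        · simp only [wt]; omega

theorem up_zero_fun {M : Type} [AddCommMonoid M] (l : List ℕ) (j : ℕ) :
    up l j (fun _ => (0 : M)) = 0 := by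
  induction l generalizing j with
  | nil => cases j <;> rfl
  | cons a l ih => cases j <;> simp [up, ih]

theorem up_add (l : List ℕ) (j : ℕ) (f g : List ℕ → R) :
    up l j (fun l' => f l' + g l') = up l j f + up l j g := by
  induction l generalizing j f g with
  | nil => cases j <;> simp [up]
  | cons a l ih =>
    cases j with
    | zero => simp [up_zero]
    | succ j =>
      simp only [up, ih]
      ring

theorem up_mul (l : List ℕ) (j : ℕ) (c : R) (f : List ℕ → R) :
    up l j (fun l' => c * f l') = c * up l j f := by
  induction l generalizing j f with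
  | nil => cases j <;> simp [up]
  | cons a l ih =>
    cases j with
    | zero => simp [up_zero]
    | succ j =>
      simp only [up, ih]
      ring

/-- `∑_j t^j up l j P` -/
def ut (t : R) : List ℕ → (List ℕ → R) → R
  | [], P => P []
  | a :: l, P => ut t l (fun l' => P (a :: l') + t * P ((a + 1) :: l'))

theorem ut_eq (t : R) (l : List ℕ) (P : List ℕ → R) (N : ℕ) (hN : l.length < N) :
    ut t l P = ∑ j ∈ range N, t ^ j * up l j P := by
  induction l generalizing P N with
  | nil =>
    obtain ⟨N, rfl⟩ : ∃ N', N = N' + 1 := ⟨N - 1, by simp at hN; omega⟩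
    rw [sum_range_succ']
    simp [ut, up]
  | cons a l ih =>
    simp only [List.length_cons] at hN
    obtain ⟨N, rfl⟩ : ∃ N', N = N' + 1 := ⟨N - 1, by omega⟩
    rw [ut, sum_range_succ', up_zero]
    simp only [up]
    have h1 : ut t l (fun l' => P (a :: l') + t * P ((a + 1) :: l')) =
        (∑ j ∈ range (N + 1), t ^ j * up l j (fun l' => P (a :: l'))) +
        ∑ j ∈ range N, t ^ j * up l j (fun l' => t * P ((a + 1) :: l')) := by
      have e1 := ih (fun l' => P (a :: l')) (N + 1) (by omega)
      have e2 := ih (fun l' => t * P ((a + 1) :: l')) N (by omega)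
      rw [← e1, ← e2, ih _ (N + 1) (by omega), ih _ (N + 1) (by omega), ih _ (N + 1) (by omega),
        ← sum_add_distrib]
      apply sum_congr rfl
      intro j _
      rw [up_add]
      ring
    rw [h1, sum_range_succ' (fun j => t ^ j * up l j (fun l' => P (a :: l'))), up_zero]
    simp only [mul_add, sum_add_distrib, pow_zero, one_mul]
    have h2 : ∑ j ∈ range N, t ^ j * up l j (fun l' => t * P ((a + 1) :: l')) =
        ∑ j ∈ range N, t ^ (j + 1) * up l j (fun l' => P ((a + 1) :: l')) := by
      apply sum_congr rfl
      intro j _
      rw [up_mul]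
      ring
    rw [h2]
    ring

theorem ut_sum {ι : Type} (t : R) (l : List ℕ) (s : Finset ι) (c : ι → R) (P : ι → List ℕ → R) :
    ut t l (fun l' => ∑ i ∈ s, c i * P i l') = ∑ i ∈ s, c i * ut t l (P i) := by
  induction l generalizing P with
  | nil => simp [ut]
  | cons a l ih =>
    simp only [ut]
    rw [← ih]
    congr 1
    funext l'
    rw [mul_sum, ← sum_add_distrib]
    apply sum_congr rfl
    intro i _
    ring

theorem app_lift (D : ℕ) (t : R) (w : ℕ → R) (P : List ℕ → R) (l : List ℕ)
    (h : P (D :: l) = 0) :
    app D (lift1 t w) P l = ∑ j ∈ range D, w j * (P (j :: l) + t * P ((j + 1) :: l)) := by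
  have e : ∑ j ∈ range D, w j * (t * P ((j + 1) :: l)) =
      ∑ j ∈ range D, (if j = 0 then 0 else t * w (j - 1)) * P (j :: l) := by
    have h1 := sum_range_succ (fun j => (if j = 0 then 0 else t * w (j - 1)) * P (j :: l)) D
    have h2 := sum_range_succ' (fun j => (if j = 0 then 0 else t * w (j - 1)) * P (j :: l)) D
    rw [h, mul_zero, add_zero] at h1
    rw [← h1, h2]
    simp only [if_true, zero_mul, add_zero]
    apply sum_congr rfl
    intro j _
    simp
    ring
  simp only [mul_add, sum_add_distrib, app, lift1, add_mul]
  rw [e]

theorem ev_lift (D : ℕ) (t : R) (ws : List (ℕ → R)) (P : List ℕ → R)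
    (h : ∀ l : List ℕ, (∃ a ∈ l, D ≤ a) → P l = 0) :
    ev D (ws.map (lift1 t)) P = ev D ws (fun l => ut t l P) := by
  induction ws generalizing P with
  | nil => rfl
  | cons w ws ih =>
    simp only [List.map_cons, ev]
    rw [ih]
    · apply ev_congr
      intro l _
      have e : app D (lift1 t w) P =
          fun l => ∑ j ∈ range D, w j * (P (j :: l) + t * P ((j + 1) :: l)) := by
        funext l
        exact app_lift D t w P l (h _ ⟨D, by simp, le_rfl⟩)
      rw [e, ut_sum]
      rfl
    · rintro l ⟨a, ha, hD⟩
      simp only [app]
      apply sum_eq_zero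
      intro j _
      rw [h _ ⟨a, by simp [ha], hD⟩, mul_zero]

end gen

/-! ## stuffles -/

/-- the sum of `F` over all terms of the stuffle product of two words
(the list `[a₁, a₂, …]` encodes `y_{a₁+1} y_{a₂+1} ⋯`) -/
def stf {M : Type} [AddCommMonoid M] (F : List ℕ → M) : List ℕ → List ℕ → M
  | [], v => F v
  | m :: u, [] => F (m :: u)
  | m :: u, n :: v => stf (fun l => F (m :: l)) u (n :: v) + stf (fun l => F (n :: l)) (m :: u) v +
      stf (fun l => F ((m + n + 1) :: l)) u v
termination_by u v => u.length + v.length

section stf

variable {M : Type} [AddCommMonoid M]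

@[simp] theorem stf_nil_left (F : List ℕ → M) (v : List ℕ) : stf F [] v = F v := by
  cases v <;> simp [stf]

@[simp] theorem stf_nil_right (F : List ℕ → M) (u : List ℕ) : stf F u [] = F u := by
  cases u <;> simp [stf]

theorem stf_cons_cons (F : List ℕ → M) (m : ℕ) (u : List ℕ) (n : ℕ) (v : List ℕ) :
    stf F (m :: u) (n :: v) = stf (fun l => F (m :: l)) u (n :: v) +
      stf (fun l => F (n :: l)) (m :: u) v + stf (fun l => F ((m + n + 1) :: l)) u v := by
  rw [stf]

/-- congruence on lists of the right weight -/
theorem stf_congr {F G : List ℕ → M} (u v : List ℕ)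
    (h : ∀ l : List ℕ, wt l = wt u + wt v → F l = G l) :
    stf F u v = stf G u v := by
  induction u generalizing v F G with
  | nil => simp [wt] at h; simp [h v rfl]
  | cons a u ih =>
    induction v generalizing F G with
    | nil => simp [wt] at h; simp [h (a :: u) (by simp [wt])]
    | cons c v ihv =>
      rw [stf_cons_cons, stf_cons_cons]
      congr 1
      · congr 1
        · apply ih
          intro l hl
          apply h
          simp only [wt] at hl ⊢
          omega
        · apply ihv
          intro l hl
          apply h
          simp only [wt] at hl ⊢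
          omega
      · apply ih
        intro l hl
        apply h
        simp only [wt] at hl ⊢
        omega

theorem stf_eq_zero (G : List ℕ → M) (u v : List ℕ)
    (h : ∀ l : List ℕ, v.length ≤ l.length → G l = 0) : stf G u v = 0 := by
  induction u generalizing v G with
  | nil => simp [h v le_rfl]
  | cons a u ih =>
    induction v generalizing G with
    | nil => simp [h (a :: u) (by simp)]
    | cons c v ihv =>
      rw [stf_cons_cons, ih, ihv, ih]
      · simp
      · intro l hl; apply h; simpa using hl
      · intro l hl; apply h; simpa using hl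
      · intro l hl; apply h; simp only [List.length_cons] at hl ⊢; omega

/-- the part of lowest length of a stuffle with `y₁^j` -/
theorem stf_top (F : List ℕ → M) (j : ℕ) (w : List ℕ)
    (h : ∀ l : List ℕ, w.length < l.length → F l = 0) :
    stf F (List.replicate j 0) w = up w j F := by
  induction w generalizing j F with
  | nil =>
    cases j with
    | zero => simp [up]
    | succ j => simp [up, h, List.replicate_succ]
  | cons a w ih =>
    cases j with
    | zero => simp [up_zero]
    | succ j =>
      rw [List.replicate_succ, stf_cons_cons, stf_eq_zero, ← List.replicate_succ, ih, zero_add,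
        zero_add, ih]
      · rfl
      · intro l hl; apply h; simpa using hl
      · intro l hl; apply h; simpa using hl
      · intro l hl; apply h; simp only [List.length_cons] at hl ⊢; omega

end stf

/-! ## the reduction -/

/-- `ψ` kills all shuffle products of two nonempty words ending in `y`, of total length `n` -/
def HypSh (n : ℕ) (ψ : List Bool → ZMod 2) : Prop :=
  ∀ l₁ l₂ : List ℕ, l₁ ≠ [] → l₂ ≠ [] → wt l₁ + wt l₂ = n → shs ψ (word l₁) (word l₂) = 0

/-- `ψ` kills all stuffle products `y₁^j * w`, `j ≥ 1`, of weight `n`, where `w` is not a power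
of `y₁` -/
def HypSt (n : ℕ) (ψ : List Bool → ZMod 2) : Prop :=
  ∀ (j : ℕ) (w : List ℕ), 1 ≤ j → (∃ a ∈ w, a ≠ 0) → j + wt w = n →
    stf (fun l => ψ (word l)) (List.replicate j 0) w = 0

/-- `ψ` vanishes on the words in `y₁, y₂` -/
def HypX (n : ℕ) (ψ : List Bool → ZMod 2) : Prop :=
  ∀ l : List ℕ, (∀ a ∈ l, a ≤ 1) → wt l = n → ψ (word l) = 0

/-- the injectivity statement, internal form -/
def SpecRedInt : Prop :=
  ∀ (n : ℕ) (ψ : List Bool → ZMod 2), 1 ≤ n → HypSh n ψ → HypSt n ψ → HypX n ψ →
    ∀ l : List ℕ, wt l = n → ψ (word l) = 0

theorem wt_append (l l' : List ℕ) : wt (l ++ l') = wt l + wt l' := by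
  induction l with
  | nil => simp [wt]
  | cons a l ih => simp [wt, ih]; ring

theorem wt_reverse (l : List ℕ) : wt l.reverse = wt l := by
  induction l with
  | nil => rfl
  | cons a l ih => simp only [List.reverse_cons, wt_append, ih, wt]; omega

theorem wt_replicate (j : ℕ) : wt (List.replicate j 0) = j := by
  induction j with
  | zero => rfl
  | succ j ih => simp only [List.replicate_succ, wt, ih]; omega

theorem length_le_wt (l : List ℕ) : l.length ≤ wt l := by
  induction l with
  | nil => simp
  | cons a l ih => simp only [List.length_cons, wt]; omega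

theorem lt_wt_of_mem (l : List ℕ) (a : ℕ) (ha : a ∈ l) : a < wt l := by
  induction l with
  | nil => simp at ha
  | cons b l ih =>
    simp only [wt]
    rcases List.mem_cons.1 ha with h | h
    · omega
    · have := ih h
      omega

theorem shs_map {α M N : Type} [AddCommMonoid M] [AddCommMonoid N] (φ : M →+ N)
    (F : List α → M) (σ W : List α) : shs (fun l => φ (F l)) σ W = φ (shs F σ W) := by
  induction σ generalizing W F with
  | nil => simp
  | cons a σ ih =>
    induction W generalizing F with
    | nil => simp
    | cons c W ihW => rw [shs_cons_cons, shs_cons_cons, ih, ihW, map_add]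

theorem up_map {M N : Type} [AddCommMonoid M] [AddCommMonoid N] (φ : M →+ N)
    (l : List ℕ) (j : ℕ) (f : List ℕ → M) : up l j (fun l' => φ (f l')) = φ (up l j f) := by
  induction l generalizing j f with
  | nil => cases j <;> simp [up]
  | cons a l ih =>
    cases j with
    | zero => simp [up_zero]
    | succ j => simp only [up, ih, map_add]

theorem up_of_zeros {M : Type} [AddCommMonoid M] (l : List ℕ) (hl : ∀ a ∈ l, a = 0) (j : ℕ)
    (f : List ℕ → M) (h : ∀ l' : List ℕ, (∀ a ∈ l', a ≤ 1) → f l' = 0) : up l j f = 0 := by
  induction l generalizing j f with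
  | nil =>
    cases j with
    | zero => exact h [] (by simp)
    | succ j => rfl
  | cons a l ih =>
    have ha : a = 0 := hl a (by simp)
    subst ha
    cases j with
    | zero =>
      rw [up_zero]
      apply h
      intro b hb
      rw [hl b hb]
      omega
    | succ j =>
      simp only [up]
      rw [ih (fun a ha => hl a (by simp [ha])), ih (fun a ha => hl a (by simp [ha])), add_zero]
      · intro l' hl'
        apply h
        intro b hb
        rcases List.mem_cons.1 hb with h' | h'
        · omega
        · exact hl' b h'
      · intro l' hl'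
        apply h
        intro b hb
        rcases List.mem_cons.1 hb with h' | h'
        · omega
        · exact hl' b h'

theorem red_step (hTop : SpecTopInj) (n : ℕ) (ψ : List Bool → ZMod 2) (hSh : HypSh n ψ)
    (hSt : HypSt n ψ) (hX : HypX n ψ) (M : ℕ)
    (hM : ∀ l : List ℕ, M < l.length → wt l = n → ψ (word l) = 0) (l : List ℕ)
    (hl : l.length = M) (hw : wt l = n) : ψ (word l) = 0 := by
  classical
  set F : List ℕ → ZMod 2 := fun l => if wt l = n then ψ (word l) else 0 with hF
  set P : List ℕ → ZMod 2 := fun l => if l.length = M then F l.reverse else 0 with hP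
  have hsupp : Supp (n + 2) M P := by
    intro l hl
    simp only [hP, hF, wt_reverse] at hl
    split_ifs at hl with h1 h2
    · refine ⟨h1, fun a ha => ?_⟩
      have := lt_wt_of_mem l a ha
      omega
    · simp at hl
    · simp at hl
  have hFlong : ∀ l : List ℕ, M < l.length → F l = 0 := by
    intro l hl
    simp only [hF]
    split_ifs with h
    · exact hM l hl h
    · rfl
  have hup : ∀ (l : List ℕ) (j : ℕ), l.length = M → 1 ≤ j → up l j P = 0 := by
    intro l j hlen hj
    have h1 : up l j P = up l.reverse j F := by
      rw [up_reverse]
      apply up_congr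
      intro l' hl' _
      simp only [hP]
      rw [if_pos (by rw [hl', hlen])]
    rw [h1]
    by_cases hwt : j + wt l = n
    · by_cases hz : ∃ a ∈ l.reverse, a ≠ 0
      · rw [← stf_top]
        · rw [← hSt j l.reverse hj hz (by rw [wt_reverse]; exact hwt)]
          apply stf_congr
          intro l' hl'
          simp only [hF]
          rw [if_pos]
          rw [hl', wt_replicate, wt_reverse]
          exact hwt
        · intro l' hl'
          apply hFlong
          rw [List.length_reverse] at hl'
          omega
      · push Not at hz
        apply up_of_zeros _ hz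
        intro l' hl'
        simp only [hF]
        split_ifs with h
        · exact hX l' hl' h
        · rfl
    · rw [up_congr (g := fun _ => 0), up_zero_fun]
      intro l' _ hl'
      simp only [hF]
      rw [if_neg]
      rw [hl', wt_reverse]
      omega
  have hG : HypG (n + 2) M P := by
    intro R _ _ t ws hws
    have e1 := ev_lift (n + 2) t ws (cast R P) (by
      rintro l ⟨a, ha, hD⟩
      simp only [cast]
      by_contra hne
      have : P l ≠ 0 := by
        intro h0
        apply hne
        rw [h0, map_zero]
      have := (hsupp l this).2 a ha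
      omega)
    change ev (n + 2) (ws.map (lift1 t)) (cast R P) = _
    rw [e1]
    apply ev_congr
    intro l hl
    rw [ut_eq t l _ (l.length + 1) (by omega), sum_range_succ', up_zero]
    simp only [pow_zero, one_mul]
    rw [sum_eq_zero, zero_add]
    intro j _
    have := up_map (algebraMap (ZMod 2) R : ZMod 2 →+ R) l (j + 1) P
    have h2 : up l (j + 1) (cast R P) = 0 := by
      change up l (j + 1) (fun l' => (algebraMap (ZMod 2) R : ZMod 2 →+ R) (P l')) = 0
      rw [this, hup l (j + 1) (by rw [hl, hws]) (by omega), map_zero]
    rw [h2, mul_zero]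
  have hD : HypD (n + 2) M P := by
    intro R _ _ σ W hσ hW hlen
    have e1 : ∀ ρ : List R, ρ.length = M →
        ev (n + 2) ((path 0 ρ).map geo) (cast R P) =
          gen n ρ.reverse (fun w => algebraMap (ZMod 2) R (ψ w)) := by
      intro ρ hρ
      have e2 := path_reverse ρ.reverse
      rw [List.reverse_reverse] at e2
      rw [e2, List.map_reverse, ev_reverse, ← ev_eq_gen (n + 2) n (by omega)]
      apply ev_congr
      intro l hl
      have hl2 : l.length = M := by
        rw [hl, List.length_map]
        have : ∀ ρ : List R, (ssum ρ).length = ρ.length := by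
          intro ρ
          induction ρ with
          | nil => rfl
          | cons r ρ ih => simp [ssum, ih]
        rw [this, List.length_reverse, hρ]
      simp only [cast, hP, hF, List.length_reverse, List.reverse_reverse]
      rw [if_pos hl2]
      split_ifs <;> simp
    have e3 : shs (fun ρ => ev (n + 2) ((path 0 ρ).map geo) (cast R P)) σ W =
        shs (fun ρ : List R => gen n ρ.reverse (fun w => algebraMap (ZMod 2) R (ψ w))) σ W := by
      apply shs_congr
      intro ρ hρ
      exact e1 ρ (by omega)
    rw [e3, shs_reverse (fun ρ => gen n ρ (fun w => algebraMap (ZMod 2) R (ψ w)))]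
    apply shs_gen_eq_zero
    intro l₁ l₂ h1 h2 h12
    have := shs_map (algebraMap (ZMod 2) R : ZMod 2 →+ R) ψ (word l₁) (word l₂)
    change shs (fun w => (algebraMap (ZMod 2) R : ZMod 2 →+ R) (ψ w)) (word l₁) (word l₂) = 0
    rw [this, hSh l₁ l₂ _ _ h12, map_zero]
    · rintro rfl
      simp only [List.length_nil, List.length_reverse] at h1
      exact hσ (List.length_eq_zero_iff.1 h1.symm)
    · rintro rfl
      simp only [List.length_nil, List.length_reverse] at h2
      exact hW (List.length_eq_zero_iff.1 h2.symm)
  have hSF : HypSF P := by
    intro l hl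
    simp only [hP, hF]
    split_ifs with h1 h2
    · exact hX l.reverse (by simpa using hl) h2
    · rfl
    · rfl
  have := hTop (n + 2) M P (by omega) hsupp hG hD hSF l.reverse
  simp only [hP, hF, List.length_reverse, List.reverse_reverse] at this
  rw [if_pos hl, if_pos hw] at this
  exact this

theorem specRedInt (hTop : SpecTopInj) : SpecRedInt := by
  intro n ψ hn hSh hSt hX
  have key : ∀ k M : ℕ, n + 1 ≤ M + k → ∀ l : List ℕ, M ≤ l.length → wt l = n →
      ψ (word l) = 0 := by
    intro k
    induction k with
    | zero =>
      intro M hM l hl hw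
      have := length_le_wt l
      omega
    | succ k ih =>
      intro M hM l hl hw
      rcases Nat.lt_or_ge M l.length with h | h
      · exact ih (M + 1) (by omega) l h hw
      · exact red_step hTop n ψ hSh hSt hX M
          (fun l' hl' hw' => ih (M + 1) (by omega) l' hl' hw') l (by omega) hw
  intro l hw
  exact key (n + 1) 0 (by omega) l (by omega) hw

theorem word_eq_bw (l : List ℕ) : word l = bw l := by
  induction l with
  | nil => rfl
  | cons a l ih => simp [word, bw, ih]

theorem wt_eq (l : List ℕ) : wt l = l.sum + l.length := by
  induction l with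
  | nil => rfl
  | cons a l ih => simp only [wt, ih, List.sum_cons, List.length_cons]; omega

theorem length_word (l : List ℕ) : (word l).length = wt l := by
  induction l with
  | nil => rfl
  | cons a l ih => simp only [word, wt, List.length_append, List.length_replicate,
      List.length_cons, ih]; omega

theorem endY_word (l : List ℕ) : EndY (word l) := by
  induction l with
  | nil => exact Or.inl rfl
  | cons a l ih =>
    right
    rcases ih with h | ⟨u, hu⟩
    · exact ⟨List.replicate a false, by simp [word, h]⟩
    · exact ⟨List.replicate a false ++ true :: u, by simp [word, hu]⟩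

theorem word_ne_nil (l : List ℕ) (h : l ≠ []) : word l ≠ [] := by
  cases l with
  | nil => exact absurd rfl h
  | cons a l => simp [word]

theorem stz_eq_stf (f : List ℕ → ZMod 2) (j : ℕ) (w : List ℕ) :
    stz f j w = stf f (List.replicate j 0) w := by
  induction j generalizing f w with
  | zero => simp [stz]
  | succ j ihj =>
    induction w generalizing f with
    | nil => simp [stz]
    | cons a w ih =>
      rw [stz, List.replicate_succ, stf_cons_cons, ihj, ihj, ih, ← List.replicate_succ, zero_add]

end MP154526.Top.Red

namespace MP154526.Top

/-- RED: only words with all `a_i ≤ 1` matter -/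
theorem specRed (hTop : SpecTopInj) : SpecRed := by
  intro n ψ hn hSh hT hX l hl
  have h := Red.specRedInt hTop n ψ (by omega) ?_ ?_ ?_ l (by rw [Red.wt_eq]; exact hl)
  · rwa [Red.word_eq_bw] at h
  · intro l₁ l₂ h1 h2 h12
    refine hSh _ _ (Red.word_ne_nil l₁ h1) (Red.word_ne_nil l₂ h2) (Red.endY_word _)
      (Red.endY_word _) ?_
    rw [Red.length_word, Red.length_word, h12]
  · intro j w hj hw hjw
    rw [← Red.stz_eq_stf]
    simp only [Red.word_eq_bw]
    refine hT j w hj hw ?_
    rw [Red.wt_eq] at hjw
    omega
  · intro l hl hw
    rw [Red.word_eq_bw]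
    rw [Red.wt_eq] at hw
    exact hX l hl hw

end MP154526.Top
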