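import Pool.Agent.Lib.MP_154526_nt.Top.FrontB
import Pool.Agent.Lib.MP_154526_nt.Top.Red

/-!
# FRONT (C): the part of top degree in `a`
-/

set_option autoImplicit false

namespace MP154526.Top.Front

open Finset

variable {R : Type} [CommRing R]

/-- transpose of the derivation `y ↦ a`, `a ↦ 0` -/
def Dt : (List Bool → R) → List Bool → R
  | _, [] => 0
  | c, false :: w => c (true :: w) + Dt (fun v => c (false :: v)) w
  | c, true :: w => Dt (fun v => c (true :: v)) w

theorem Dt_nil (c : List Bool → R) : Dt c [] = 0 := rfl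

theorem Dt_false (c : List Bool → R) (w : List Bool) :
    Dt c (false :: w) = c (true :: w) + Dt (fun v => c (false :: v)) w := rfl

theorem Dt_true (c : List Bool → R) (w : List Bool) :
    Dt c (true :: w) = Dt (fun v => c (true :: v)) w := rfl

theorem Dt_add (c c' : List Bool → R) (w : List Bool) :
    Dt (fun v => c v + c' v) w = Dt c w + Dt c' w := by
  induction w generalizing c c' with
  | nil => simp [Dt]
  | cons g w ih =>
    cases g
    · simp only [Dt, ih]; ring
    · simp only [Dt, ih]

theorem Dt_mul (r : R) (c : List Bool → R) (w : List Bool) :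
    Dt (fun v => r * c v) w = r * Dt c w := by
  induction w generalizing c with
  | nil => simp [Dt]
  | cons g w ih =>
    cases g
    · simp only [Dt, ih]; ring
    · simp only [Dt, ih]

theorem Dt_Dt [Algebra (ZMod 2) R] (c : List Bool → R) (w : List Bool) : Dt (Dt c) w = 0 := by
  have h2 : (2 : R) = 0 := two_eq_zero
  induction w generalizing c with
  | nil => rfl
  | cons g w ih =>
    cases g
    · rw [Dt_false, Dt_true]
      have h1 : (fun v => Dt c (false :: v)) =
          fun v => c (true :: v) + Dt (fun v => c (false :: v)) v := funext fun v => Dt_false c v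
      rw [h1, Dt_add, ih]
      linear_combination (Dt (fun v => c (true :: v)) w) * h2
    · rw [Dt_true]
      have h1 : (fun v => Dt c (true :: v)) = Dt (fun v => c (true :: v)) :=
        funext fun v => Dt_true c v
      rw [h1, ih]

theorem dT_eq (τ : R) (c : List Bool → R) (w : List Bool) :
    dT τ c w = Dt c w + τ * (w.count true : ℕ) * c w := by
  induction w generalizing c with
  | nil => simp [Dt]
  | cons g w ih =>
    cases g
    · rw [dT_false, Dt_false, ih]
      simp
      ring
    · rw [dT_true, Dt_true, ih]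
      simp
      ring

/-- `c` is homogeneous of degree `r` in `a` -/
def Hom (r : ℕ) (c : List Bool → R) : Prop := ∀ w : List Bool, w.count true ≠ r → c w = 0

theorem Hom.yT {r : ℕ} {c : List Bool → R} (h : Hom r c) : Hom r (yT c) :=
  fun w hw => h (false :: w) (by simpa using hw)

theorem Hom.add {r : ℕ} {c c' : List Bool → R} (h : Hom r c) (h' : Hom r c') :
    Hom r (fun w => c w + c' w) := fun w hw => by simp [h w hw, h' w hw]

theorem Hom.mul {r : ℕ} {c : List Bool → R} (h : Hom r c) (f : List Bool → R) :
    Hom r (fun w => f w * c w) := fun w hw => by simp [h w hw]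

theorem Hom.Dt_aux {r : ℕ} (w : List Bool) : ∀ {c : List Bool → R}, Hom r c →
    w.count true + 1 ≠ r → Dt c w = 0 := by
  induction w generalizing r with
  | nil => intro c _ _; rfl
  | cons g w ih =>
    intro c h hw
    cases g
    · rw [Dt_false, h (true :: w) (by simpa using hw),
        ih (r := r) (fun v hv => h (false :: v) (by simpa using hv)) (by simpa using hw), zero_add]
    · rw [Dt_true]
      cases r with
      | zero =>
        have : (fun v => c (true :: v)) = fun _ => (0 : R) * 0 := by
          funext v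
          rw [h (true :: v) (by simp)]
          simp
        rw [this, Dt_mul, zero_mul]
      | succ r =>
        exact ih (r := r) (fun v hv => h (true :: v) (by simpa using hv)) (by simpa using hw)

theorem Hom.Dt {r : ℕ} {c : List Bool → R} (h : Hom (r + 1) c) : Hom r (Front.Dt c) :=
  fun w hw => Hom.Dt_aux w h (by omega)

theorem Hom.Dt_zero {c : List Bool → R} (h : Hom 0 c) : Front.Dt c = fun _ => 0 :=
  funext fun w => Hom.Dt_aux w h (by omega)

theorem F_add (τ : R) (n : ℕ) (P : List ℕ → R) (c c' : List Bool → R) :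
    (F τ n P (fun w => c w + c' w) = F τ n P c + F τ n P c') ∧
    (F τ (n + 1) P (fun w => c w + c' w) = F τ (n + 1) P c + F τ (n + 1) P c') := by
  induction n generalizing P c c' with
  | zero => constructor <;> simp only [F, zero_add, yT] <;> ring
  | succ n ih =>
    refine ⟨(ih P c c').2, ?_⟩
    rw [F, F, F]
    have h1 := (ih (fun l => P (0 :: l)) (fun w => yT c w + τ * c w)
      (fun w => yT c' w + τ * c' w)).2
    have h2 := (ih (fun l => P (1 :: l)) (fun w => yT (dT τ c) w + τ * yT c w)
      (fun w => yT (dT τ c') w + τ * yT c' w)).1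
    have e1 : (fun w => yT (fun w => c w + c' w) w + τ * (c w + c' w)) =
        fun w => (yT c w + τ * c w) + (yT c' w + τ * c' w) := by
      funext w; simp only [yT]; ring
    have e2 : (fun w => yT (dT τ fun w => c w + c' w) w + τ * yT (fun w => c w + c' w) w) =
        fun w => (yT (dT τ c) w + τ * yT c w) + (yT (dT τ c') w + τ * yT c' w) := by
      funext w
      simp only [yT]
      rw [dT_add]
      ring
    rw [e1, e2, h1, h2]
    ring

/-- number of letters `z_2` -/
def ones' (w : List ℕ) : ℕ := w.sum

/-- words in `z_1, z_2` of weight `n` -/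
def W01 (n : ℕ) (w : List ℕ) : Prop := (∀ a ∈ w, a ≤ 1) ∧ w.sum + w.length = n

theorem W01.cons0 {n : ℕ} {w : List ℕ} (h : W01 n w) : W01 (n + 1) (0 :: w) :=
  ⟨by intro a ha; rcases List.mem_cons.1 ha with rfl | ha
      · omega
      · exact h.1 a ha, by simp; have := h.2; omega⟩

theorem W01.cons1 {n : ℕ} {w : List ℕ} (h : W01 n w) : W01 (n + 2) (1 :: w) :=
  ⟨by intro a ha; rcases List.mem_cons.1 ha with rfl | ha
      · omega
      · exact h.1 a ha, by simp; have := h.2; omega⟩

theorem F_low (τ : R) (n : ℕ) (r : ℕ) (P : List ℕ → R) (c : List Bool → R)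
    (hc : Hom r c) :
    ((∀ w, W01 n w → r ≤ w.sum → P w = 0) → F τ n P c = 0) ∧
    ((∀ w, W01 (n + 1) w → r ≤ w.sum → P w = 0) → F τ (n + 1) P c = 0) := by
  induction n generalizing r P c with
  | zero =>
    have h0 : ∀ (r : ℕ) (P : List ℕ → R) (c : List Bool → R), Hom r c →
        (∀ w, W01 0 w → r ≤ w.sum → P w = 0) → F τ 0 P c = 0 := by
      intro r P c hc hP
      rw [F]
      rcases Nat.eq_zero_or_pos r with rfl | hr
      · rw [hP [] ⟨by simp, by simp⟩ (by simp), zero_mul]
      · rw [hc [] (by simp; omega), mul_zero]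
    refine ⟨h0 r P c hc, fun hP => ?_⟩
    rw [zero_add, F]
    exact h0 r _ _ (hc.yT.add (hc.mul fun _ => τ)) fun w hw hr =>
      hP _ hw.cons0 (by simpa using hr)
  | succ n ih =>
    refine ⟨(ih r P c hc).2, fun hP => ?_⟩
    rw [F]
    have h1 : F τ (n + 1) (fun l => P (0 :: l)) (fun w => yT c w + τ * c w) = 0 :=
      (ih r _ _ (hc.yT.add (hc.mul fun _ => τ))).2 fun w hw hr =>
        hP _ hw.cons0 (by simpa using hr)
    rw [h1, zero_add]
    have e2 : (fun w => yT (dT τ c) w + τ * yT c w) =
        fun w => yT (Dt c) w + (fun w : List Bool =>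
          (τ * (w.count true : ℕ) + τ) * yT c w) w := by
      funext w
      simp only [yT]
      rw [dT_eq]
      simp
      ring
    rw [e2, (F_add τ n _ _ _).1]
    have h2 : F τ n (fun l => P (1 :: l)) (fun w : List Bool =>
        (τ * (w.count true : ℕ) + τ) * yT c w) = 0 :=
      (ih r _ _ (hc.yT.mul _)).1 fun w hw hr =>
        hP _ hw.cons1 (by simp; omega)
    rw [h2, add_zero]
    cases r with
    | zero =>
      have : yT (Dt c) = fun _ : List Bool => (0 : R) := by
        rw [hc.Dt_zero]; rfl
      rw [this]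
      exact (ih 0 _ _ (fun _ _ => rfl)).1 fun w hw hr => hP _ hw.cons1 (by simp)
    | succ r =>
      exact (ih r _ _ hc.Dt.yT).1 fun w hw hr => hP _ hw.cons1 (by simp; omega)

/-- only top parts -/
def FT (l : R) : ℕ → (List ℕ → R) → (List Bool → R) → R
  | 0, P, c => P [] * c []
  | 1, P, c => FT l 0 (fun w => P (0 :: w)) (fun w => yT c w + l * c w)
  | n + 2, P, c => FT l (n + 1) (fun w => P (0 :: w)) (fun w => yT c w + l * c w) +
      FT l n (fun w => P (1 :: w)) (yT (Dt c))

theorem FT_zero_right (l : R) (n : ℕ) (P : List ℕ → R) :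
    (FT l n P (fun _ => 0) = 0) ∧ (FT l (n + 1) P (fun _ => 0) = 0) := by
  induction n generalizing P with
  | zero => constructor <;> simp [FT, yT]
  | succ n ih =>
    refine ⟨(ih P).2, ?_⟩
    rw [FT]
    have e1 : (fun w => yT (fun _ => (0 : R)) w + l * (fun _ : List Bool => (0 : R)) w) =
        fun _ => 0 := by funext w; simp [yT]
    have e2 : yT (Dt fun _ => (0 : R)) = fun _ => 0 := by
      funext w
      simp only [yT]
      have := Dt_mul (0 : R) (fun _ => 0) (false :: w)
      simpa using this
    rw [e1, e2, (ih _).2, (ih _).1, add_zero]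

theorem F_eq_FT (τ : R) (n : ℕ) (r : ℕ) (P : List ℕ → R) (c : List Bool → R)
    (hc : Hom r c) :
    ((∀ w, W01 n w → r < w.sum → P w = 0) → F τ n P c = FT τ n P c) ∧
    ((∀ w, W01 (n + 1) w → r < w.sum → P w = 0) → F τ (n + 1) P c = FT τ (n + 1) P c) := by
  induction n generalizing r P c with
  | zero =>
    refine ⟨fun _ => rfl, fun _ => rfl⟩
  | succ n ih =>
    refine ⟨(ih r P c hc).2, fun hP => ?_⟩
    rw [F, FT]
    have h1 : F τ (n + 1) (fun l => P (0 :: l)) (fun w => yT c w + τ * c w) =
        FT τ (n + 1) (fun l => P (0 :: l)) (fun w => yT c w + τ * c w) :=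
      (ih r _ _ (hc.yT.add (hc.mul fun _ => τ))).2 fun w hw hr =>
        hP _ hw.cons0 (by simpa using hr)
    rw [h1]
    congr 1
    have e2 : (fun w => yT (dT τ c) w + τ * yT c w) =
        fun w => yT (Dt c) w + (fun w : List Bool =>
          (τ * (w.count true : ℕ) + τ) * yT c w) w := by
      funext w
      simp only [yT]
      rw [dT_eq]
      simp
      ring
    rw [e2, (F_add τ n _ _ _).1]
    have h2 : F τ n (fun l => P (1 :: l)) (fun w : List Bool =>
        (τ * (w.count true : ℕ) + τ) * yT c w) = 0 :=
      (F_low τ n r _ _ (hc.yT.mul _)).1 fun w hw hr =>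
        hP _ hw.cons1 (by simp; omega)
    rw [h2, add_zero]
    cases r with
    | zero =>
      have h3 : yT (Dt c) = fun _ : List Bool => (0 : R) := by
        rw [hc.Dt_zero]; rfl
      rw [h3, (FT_zero_right τ n _).1]
      exact (F_low τ n 0 _ _ (fun _ _ => rfl)).1 fun w hw hr => hP _ hw.cons1 (by simp)
    | succ r =>
      exact (ih r _ _ hc.Dt.yT).1 fun w hw hr => hP _ hw.cons1 (by simp; omega)

theorem FT_add (l : R) (n : ℕ) (P : List ℕ → R) (c c' : List Bool → R) :
    (FT l n P (fun w => c w + c' w) = FT l n P c + FT l n P c') ∧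
    (FT l (n + 1) P (fun w => c w + c' w) = FT l (n + 1) P c + FT l (n + 1) P c') := by
  induction n generalizing P c c' with
  | zero => constructor <;> simp only [FT, zero_add, yT] <;> ring
  | succ n ih =>
    refine ⟨(ih P c c').2, ?_⟩
    rw [FT, FT, FT]
    have h1 := (ih (fun l => P (0 :: l)) (fun w => yT c w + l * c w)
      (fun w => yT c' w + l * c' w)).2
    have h2 := (ih (fun l => P (1 :: l)) (yT (Dt c)) (yT (Dt c'))).1
    have e1 : (fun w => yT (fun w => c w + c' w) w + l * (c w + c' w)) =
        fun w => (yT c w + l * c w) + (yT c' w + l * c' w) := by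
      funext w; simp only [yT]; ring
    have e2 : yT (Dt fun w => c w + c' w) = fun w => yT (Dt c) w + yT (Dt c') w := by
      funext w
      simp only [yT]
      rw [Dt_add]
    rw [e1, e2, h1, h2]
    ring

theorem FT_mul (l r : R) (n : ℕ) (P : List ℕ → R) (c : List Bool → R) :
    (FT l n P (fun w => r * c w) = r * FT l n P c) ∧
    (FT l (n + 1) P (fun w => r * c w) = r * FT l (n + 1) P c) := by
  induction n generalizing P c with
  | zero => constructor <;> simp only [FT, zero_add, yT] <;> ring
  | succ n ih =>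
    refine ⟨(ih P c).2, ?_⟩
    rw [FT, FT]
    have h1 := (ih (fun l => P (0 :: l)) (fun w => yT c w + l * c w)).2
    have h2 := (ih (fun l => P (1 :: l)) (yT (Dt c))).1
    have e1 : (fun w => yT (fun w => r * c w) w + l * (r * c w)) =
        fun w => r * (yT c w + l * c w) := by
      funext w; simp only [yT]; ring
    have e2 : yT (Dt fun w => r * c w) = fun w => r * yT (Dt c) w := by
      funext w
      simp only [yT]
      rw [Dt_mul]
    rw [e1, e2, h1, h2]
    ring

/-! ### convolutions -/

/-- `∑ a_i T (n - i) (P ∘ (0^i ++ ·))` -/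
def conv (a : ℕ → R) (T : ℕ → (List ℕ → R) → R) : ℕ → (List ℕ → R) → R
  | 0, P => a 0 * T 0 P
  | n + 1, P => a 0 * T (n + 1) P + conv (fun i => a (i + 1)) T n (fun w => P (0 :: w))

theorem conv_zero (a : ℕ → R) (T : ℕ → (List ℕ → R) → R) (P : List ℕ → R) :
    conv a T 0 P = a 0 * T 0 P := rfl

theorem conv_succ (a : ℕ → R) (T : ℕ → (List ℕ → R) → R) (n : ℕ) (P : List ℕ → R) :
    conv a T (n + 1) P =
      a 0 * T (n + 1) P + conv (fun i => a (i + 1)) T n (fun w => P (0 :: w)) := rfl

theorem conv_add (a b : ℕ → R) (T : ℕ → (List ℕ → R) → R) (n : ℕ) (P : List ℕ → R) :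
    conv (fun i => a i + b i) T n P = conv a T n P + conv b T n P := by
  induction n generalizing a b P with
  | zero => simp only [conv]; ring
  | succ n ih =>
    rw [conv, conv, conv, ih (fun i => a (i + 1)) (fun i => b (i + 1))]
    ring

theorem conv_mul (r : R) (a : ℕ → R) (T : ℕ → (List ℕ → R) → R) (n : ℕ) (P : List ℕ → R) :
    conv (fun i => r * a i) T n P = r * conv a T n P := by
  induction n generalizing a P with
  | zero => simp only [conv]; ring
  | succ n ih =>
    rw [conv, conv, ih (fun i => a (i + 1))]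
    ring

theorem conv_eq_sum (a : ℕ → R) (T : ℕ → (List ℕ → R) → R) (D n : ℕ) (hn : n < D)
    (P : List ℕ → R) :
    conv a T n P = ∑ i ∈ range D, a i *
      (if i ≤ n then T (n - i) (fun w => P (List.replicate i 0 ++ w)) else 0) := by
  induction n generalizing a P D with
  | zero =>
    rw [Finset.sum_eq_single 0]
    · simp [conv]
    · intro i _ hi
      rw [if_neg (by omega), mul_zero]
    · intro h
      exact absurd (Finset.mem_range.2 hn) h
  | succ n ih =>
    obtain ⟨D, rfl⟩ : ∃ k, D = k + 1 := ⟨D - 1, by omega⟩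
    rw [conv, ih (fun i => a (i + 1)) D (by omega), Finset.sum_range_succ']
    rw [add_comm]
    congr 1
    · refine Finset.sum_congr rfl fun i _ => ?_
      by_cases h : i ≤ n
      · rw [if_pos h, if_pos (by omega), Nat.succ_sub_succ]
        simp [List.replicate_succ]
      · rw [if_neg h, if_neg (by omega)]

/-- the words starting with `z_2` -/
def TT (l : R) : List R → R → ℕ → (List ℕ → R) → R
  | [], _, 0, P => P []
  | [], _, _ + 1, _ => 0
  | _ :: _, _, 0, _ => 0
  | _ :: _, _, 1, _ => 0
  | r :: ρ, β, n + 2, P => conv (kerR l β (β + r)) (TT l ρ (β + r)) n (fun w => P (1 :: w))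

theorem Hom_X (b : R) (ρ : List R) : Hom ρ.length (X b ρ) := by
  intro w
  induction w generalizing b ρ with
  | nil =>
    intro h
    cases ρ with
    | nil => simp at h
    | cons r ρ => rfl
  | cons g w ih =>
    intro h
    cases g
    · rw [X_false, ih b ρ (by simpa using h), mul_zero]
    · cases ρ with
      | nil => simp [X]
      | cons r ρ =>
        simp only [X]
        exact ih _ _ (by simpa using h)

theorem yT_X (b : R) (ρ : List R) : yT (X b ρ) = fun w => b * X b ρ w :=
  funext fun w => X_false b ρ w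

/-- `yT D X_b = X_{b'} + b D X_b` -/
theorem yT_Dt_X (b r : R) (ρ : List R) :
    yT (Dt (X b (r :: ρ))) = fun w => X (b + r) ρ w + b * Dt (X b (r :: ρ)) w := by
  funext w
  simp only [yT]
  rw [Dt_false]
  have h1 : (fun v => X b (r :: ρ) (false :: v)) = fun v => b * X b (r :: ρ) v :=
    funext fun v => X_false _ _ _
  rw [h1, Dt_mul]
  simp [X]

theorem hh_succ (i : ℕ) (s t : R) : hh (i + 1) s t = t ^ (i + 1) + s * hh i s t := by
  rw [hh, hh, Finset.sum_range_succ', mul_sum]
  rw [add_comm]
  congr 1
  · simp
  · refine Finset.sum_congr rfl fun p _ => ?_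
    rw [Nat.succ_sub_succ]
    ring

theorem hh_zero (s t : R) : hh 0 s t = 1 := by simp [hh]

/-- `K_n` -/
def kc (β β' : R) : ℕ → R
  | 0 => 0
  | i + 1 => hh i β β'

theorem K_step [Algebra (ZMod 2) R] (l β r : R) (ρ : List R)
    (hU : ∀ n P, FT l n P (X (β + r + l) ρ) =
      conv (fun i => (β + r) ^ i) (TT l ρ (β + r)) n P) :
    ∀ n, (∀ P, FT l n P (Dt (X (β + l) (r :: ρ))) =
      conv (kc β (β + r)) (TT l ρ (β + r)) n P) ∧
      (∀ P, FT l (n + 1) P (Dt (X (β + l) (r :: ρ))) =
      conv (kc β (β + r)) (TT l ρ (β + r)) (n + 1) P) := by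
  have h2 : (2 : R) = 0 := two_eq_zero
  set c := Dt (X (β + l) (r :: ρ)) with hcdef
  have e1 : (fun w => yT c w + l * c w) =
      fun w => X (β + r + l) ρ w + (fun w => β * c w) w := by
    funext w
    rw [hcdef, yT_Dt_X]
    simp only
    rw [show β + l + r = β + r + l by ring]
    linear_combination (l * Dt (X (β + l) (r :: ρ)) w) * h2
  have e2 : yT (Dt c) = fun _ => (0 : R) := by
    funext w
    exact Dt_Dt _ _
  have h0 : ∀ P, FT l 0 P c = conv (kc β (β + r)) (TT l ρ (β + r)) 0 P := by
    intro P
    rw [FT, conv_zero, hcdef, Dt_nil, kc]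
    ring
  have hk : (fun i => kc β (β + r) (i + 1)) =
      fun i => (β + r) ^ i + β * kc β (β + r) i := by
    funext i
    cases i with
    | zero => simp [kc, hh_zero]
    | succ i => simp only [kc]; rw [hh_succ]
  intro n
  induction n with
  | zero =>
    refine ⟨h0, fun P => ?_⟩
    rw [zero_add, FT, e1, (FT_add l 0 _ _ _).1, hU, (FT_mul l β 0 _ _).1, h0,
      ← zero_add 1, conv_succ, hk, conv_add, conv_mul, kc]
    ring
  | succ n ih =>
    refine ⟨ih.2, fun P => ?_⟩
    rw [FT, e1, e2, (FT_zero_right l n _).1, add_zero, (FT_add l (n + 1) _ _ _).1, hU,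
      (FT_mul l β (n + 1) _ _).1, ih.2, conv_succ _ _ (n + 1), hk, conv_add, conv_mul, kc]
    ring

theorem U_step [Algebra (ZMod 2) R] (l : R) (ρ : List R) : ∀ (β : R) (n : ℕ) (P : List ℕ → R),
    FT l n P (X (β + l) ρ) = conv (fun i => β ^ i) (TT l ρ β) n P := by
  have h2 : (2 : R) = 0 := two_eq_zero
  have e1 : ∀ (β : R) (ρ : List R), (fun w => yT (X (β + l) ρ) w + l * X (β + l) ρ w) =
      fun w => β * X (β + l) ρ w := by
    intro β ρ
    funext w
    rw [yT_X]
    linear_combination (l * X (β + l) ρ w) * h2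
  have hpow : ∀ β : R, (fun i => β ^ (i + 1)) = fun i => β * β ^ i := by
    intro β
    funext i
    ring
  induction ρ with
  | nil =>
    intro β
    have hD : yT (Dt (X (β + l) ([] : List R))) = fun _ => (0 : R) := by
      have h := Hom_X (β + l) ([] : List R)
      have h' : Dt (X (β + l) ([] : List R)) = fun _ => (0 : R) := Hom.Dt_zero h
      rw [h']
      rfl
    have key : ∀ n, (∀ P, FT l n P (X (β + l) []) = conv (fun i => β ^ i) (TT l [] β) n P) ∧
        (∀ P, FT l (n + 1) P (X (β + l) []) = conv (fun i => β ^ i) (TT l [] β) (n + 1) P) := by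
      have h0 : ∀ P : List ℕ → R, FT l 0 P (X (β + l) []) =
          conv (fun i => β ^ i) (TT l [] β) 0 P := by
        intro P
        rw [FT, conv_zero, TT]
        simp [X]
      intro n
      induction n with
      | zero =>
        refine ⟨h0, fun P => ?_⟩
        rw [zero_add, FT, e1, (FT_mul l β 0 _ _).1, h0, ← zero_add 1, conv_succ, hpow, conv_mul,
          TT]
        ring
      | succ n ih =>
        refine ⟨ih.2, fun P => ?_⟩
        rw [FT, e1, (FT_mul l β (n + 1) _ _).1, ih.2, hD, (FT_zero_right l n _).1,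
          conv_succ _ _ (n + 1), hpow, conv_mul, TT]
        ring
    intro n P
    exact (key n).1 P
  | cons r ρ ihρ =>
    intro β
    have hK := K_step l β r ρ (ihρ (β + r))
    have hV : ∀ n P, FT l n P (yT (Dt (X (β + l) (r :: ρ)))) =
        conv (kerR l β (β + r)) (TT l ρ (β + r)) n P := by
      intro n P
      rw [yT_Dt_X, show β + l + r = β + r + l by ring]
      rw [(FT_add l n _ _ _).1, (FT_mul l (β + l) n _ _).1, (hK n).1, ihρ (β + r),
        ← conv_mul, ← conv_add]
      congr 1
      funext i
      cases i with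
      | zero => simp [kc, kerR]
      | succ i => simp only [kc, kerR]; rw [hh_succ]; ring
    have key : ∀ n, (∀ P, FT l n P (X (β + l) (r :: ρ)) =
        conv (fun i => β ^ i) (TT l (r :: ρ) β) n P) ∧
        (∀ P, FT l (n + 1) P (X (β + l) (r :: ρ)) =
          conv (fun i => β ^ i) (TT l (r :: ρ) β) (n + 1) P) := by
      have h0 : ∀ P : List ℕ → R, FT l 0 P (X (β + l) (r :: ρ)) =
          conv (fun i => β ^ i) (TT l (r :: ρ) β) 0 P := by
        intro P
        rw [FT, conv_zero, TT]
        simp [X]
      intro n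
      induction n with
      | zero =>
        refine ⟨h0, fun P => ?_⟩
        rw [zero_add, FT, e1, (FT_mul l β 0 _ _).1, h0, ← zero_add 1, conv_succ, hpow, conv_mul,
          zero_add, TT]
        ring
      | succ n ih =>
        refine ⟨ih.2, fun P => ?_⟩
        rw [FT, e1, (FT_mul l β (n + 1) _ _).1, ih.2, hV, conv_succ _ _ (n + 1), hpow, conv_mul,
          TT]
        ring
    intro n P
    exact (key n).1 P

/-- `TT` as an evaluation -/
def Nf (m k : ℕ) (Q : List ℕ → R) : List ℕ → R :=
  fun l' => if l'.length = m ∧ l'.sum + 2 * m = k then Q (ztail l') else 0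

theorem TT_eq (l : R) (D : ℕ) (ρ : List R) : ∀ (β : R) (k : ℕ), k < D → ∀ Q : List ℕ → R,
    TT l ρ β k Q = ev D (starW l β ρ) (Nf ρ.length k Q) := by
  induction ρ with
  | nil =>
    intro β k hk Q
    cases k with
    | zero => simp [TT, starW, ev, Nf, ztail]
    | succ k => simp [TT, starW, ev, Nf]
  | cons r ρ ih =>
    intro β k hk Q
    rw [starW]
    show _ = ev D (starW l (β + r) ρ) (app D (kerR l β (β + r)) (Nf (r :: ρ).length k Q))
    rcases Nat.lt_or_ge k 2 with h | h
    · have h0 : app D (kerR l β (β + r)) (Nf (r :: ρ).length k Q) = fun _ => 0 := by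
        funext l'
        refine Finset.sum_eq_zero fun i _ => ?_
        rw [Nf, if_neg, mul_zero]
        rintro ⟨_, h1⟩
        simp only [List.length_cons] at h1
        omega
      rw [h0, Red.ev_zero]
      interval_cases k <;> rfl
    · obtain ⟨k, rfl⟩ : ∃ j, k = j + 2 := ⟨k - 2, by omega⟩
      rw [TT, conv_eq_sum _ _ D k (by omega)]
      have h1 : app D (kerR l β (β + r)) (Nf (r :: ρ).length (k + 2) Q) =
          fun l' => ∑ i ∈ range D, kerR l β (β + r) i *
            (if i ≤ k then Nf ρ.length (k - i) (fun w => Q (1 :: (List.replicate i 0 ++ w))) l'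
              else 0) := by
        funext l'
        refine Finset.sum_congr rfl fun i _ => ?_
        congr 1
        simp only [Nf, List.length_cons, List.sum_cons, ztail]
        by_cases hi : i ≤ k
        · rw [if_pos hi]
          congr 1
          apply propext
          constructor
          · rintro ⟨h1, h2⟩
            exact ⟨by omega, by omega⟩
          · rintro ⟨h1, h2⟩
            exact ⟨by omega, by omega⟩
        · rw [if_neg hi, if_neg]
          rintro ⟨h1, h2⟩
          omega
      rw [h1, Red.ev_sum]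
      refine Finset.sum_congr rfl fun i _ => ?_
      rw [Red.ev_smul]
      congr 1
      by_cases hi : i ≤ k
      · simp only [if_pos hi]
        rw [ih (β + r) (k - i) (by omega)]
      · simp only [if_neg hi]
        rw [Red.ev_zero]

theorem conv_TT (l β : R) (D n : ℕ) (hn : n < D) (ρ : List R) (P : List ℕ → R) :
    conv (fun i => β ^ i) (TT l ρ β) n P = ev D (geo β :: starW l β ρ)
      (fun l' => if l'.length = ρ.length + 1 ∧ l'.sum + 2 * ρ.length = n then P (zw l') else 0) := by
  rw [conv_eq_sum _ _ D n hn]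
  show _ = ev D (starW l β ρ) (app D (geo β) _)
  have h1 : app D (geo β)
      (fun l' => if l'.length = ρ.length + 1 ∧ l'.sum + 2 * ρ.length = n then P (zw l') else 0) =
      fun l' => ∑ i ∈ range D, β ^ i *
        (if i ≤ n then Nf ρ.length (n - i) (fun w => P (List.replicate i 0 ++ w)) l' else 0) := by
    funext l'
    refine Finset.sum_congr rfl fun i _ => ?_
    rw [geo]
    congr 1
    simp only [Nf, List.length_cons, List.sum_cons, zw]
    by_cases hi : i ≤ n
    · rw [if_pos hi]
      congr 1
      apply propext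
      constructor
      · rintro ⟨h1, h2⟩
        exact ⟨by omega, by omega⟩
      · rintro ⟨h1, h2⟩
        exact ⟨by omega, by omega⟩
    · rw [if_neg hi, if_neg]
      rintro ⟨h1, h2⟩
      omega
  rw [h1, Red.ev_sum]
  refine Finset.sum_congr rfl fun i _ => ?_
  rw [Red.ev_smul]
  congr 1
  by_cases hi : i ≤ n
  · simp only [if_pos hi]
    rw [TT_eq l D ρ β (n - i) (by omega)]
  · simp only [if_neg hi]
    rw [Red.ev_zero]

theorem exists_zw (w : List ℕ) (hw : ∀ a ∈ w, a ≤ 1) :
    ∃ l : List ℕ, l ≠ [] ∧ zw l = w ∧ l.length = w.sum + 1 ∧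
      l.sum + 2 * (l.length - 1) = w.sum + w.length := by
  induction w with
  | nil => exact ⟨[0], by simp, by simp [zw, ztail], by simp, by simp⟩
  | cons a w ih =>
    obtain ⟨l, hl, h1, h2, h3⟩ := ih fun b hb => hw b (List.mem_cons_of_mem _ hb)
    have ha := hw a (by simp)
    cases l with
    | nil => exact absurd rfl hl
    | cons i l =>
      rcases Nat.lt_or_ge a 1 with h | h
      · obtain rfl : a = 0 := by omega
        refine ⟨(i + 1) :: l, by simp, ?_, ?_, ?_⟩
        · simp only [zw, List.replicate_succ, List.cons_append] at h1 ⊢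
          rw [h1]
        · simp at h2 ⊢
          exact h2
        · simp at h3 ⊢
          omega
      · obtain rfl : a = 1 := by omega
        refine ⟨0 :: i :: l, by simp, ?_, ?_, ?_⟩
        · simp only [zw, ztail, List.replicate_zero, List.nil_append] at h1 ⊢
          rw [h1]
        · simp at h2 ⊢
          omega
        · simp at h3 h2 ⊢
          omega

theorem specC : SpecC := by
  intro R _ _ l b n m D ψ hm hn htop ρ hρ
  have h1 := (F_eq_FT l n m (fun l => castB R ψ (bw l)) (X (b + l) ρ)
    (by rw [← hρ]; exact Hom_X _ _)).1 ?_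
  · rw [h1, U_step, conv_TT l b D n hn, evS]
    congr 1
    funext l'
    simp only [cast, PR, hρ, castB]
    split_ifs with h
    · rfl
    · rw [map_zero]
  · intro w hw hlt
    obtain ⟨l', hl', h1, h2, h3⟩ := exists_zw w hw.1
    have := htop l' (by omega) (by rw [h3]; exact hw.2)
    rw [h1] at this
    show algebraMap (ZMod 2) R (ψ (bw w)) = 0
    rw [this, map_zero]

end MP154526.Top.Front
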