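import Pool.Agent.Lib.MP_154526_nt.Top.StarDefs

/-!
# STAR from Theorem R
-/

set_option autoImplicit false

namespace MP154526.Top.StarF

open Finset MP154526.Top.Star

/-! ### functions on words which are additive in every letter -/

section Add

variable {α M : Type} [AddCommMonoid M] [AddCommMonoid α]

/-- additive in every letter -/
def AddL (F : List α → M) : Prop :=
  ∀ (V : List α) (x y : α) (W : List α),
    F (V ++ (x + y) :: W) = F (V ++ x :: W) + F (V ++ y :: W)

theorem AddL.cons {F : List α → M} (h : AddL F) (a : α) : AddL (fun l => F (a :: l)) :=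
  fun V x y W => h (a :: V) x y W

theorem shs_addL {F : List α → M} (h : AddL F) (V : List α) (x y : α) (V' W : List α) :
    shs F (V ++ (x + y) :: V') W = shs F (V ++ x :: V') W + shs F (V ++ y :: V') W := by
  induction W generalizing F V with
  | nil =>
    rw [shs_nil_right, shs_nil_right, shs_nil_right]
    exact h V x y V'
  | cons c W ihW =>
    induction V generalizing F with
    | nil =>
      simp only [List.nil_append]
      rw [shs_cons_cons, shs_cons_cons, shs_cons_cons]
      have h1 : (fun l => F ((x + y) :: l)) = fun l => F (x :: l) + F (y :: l) := by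
        funext l
        exact h [] x y l
      have h2 := ihW (h.cons c) []
      simp only [List.nil_append] at h2
      rw [h1, shs_add, h2]
      abel
    | cons a V ihV =>
      simp only [List.cons_append]
      rw [shs_cons_cons, shs_cons_cons, shs_cons_cons]
      have h1 := ihV (h.cons a)
      have h2 := ihW (h.cons c) (a :: V)
      simp only [List.cons_append] at h2
      rw [h1, h2]
      abel

theorem shs_addR {F : List α → M} (h : AddL F) (σ V : List α) (x y : α) (V' : List α) :
    shs F σ (V ++ (x + y) :: V') = shs F σ (V ++ x :: V') + shs F σ (V ++ y :: V') := by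
  rw [shs_comm, shs_addL h, shs_comm F _ σ, shs_comm F _ σ]

/-- left half shuffle -/
def hs (F : List α → M) : List α → List α → M
  | [], _ => 0
  | a :: σ, W => shs (fun l => F (a :: l)) σ W

theorem hs_addL {F : List α → M} (h : AddL F) (V : List α) (x y : α) (V' W : List α) :
    hs F (V ++ (x + y) :: V') W = hs F (V ++ x :: V') W + hs F (V ++ y :: V') W := by
  cases V with
  | nil =>
    simp only [List.nil_append, hs]
    rw [← shs_add]
    congr 1
    funext l
    exact h [] x y l
  | cons a V => exact shs_addL (h.cons a) V x y V' W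

theorem hs_addR {F : List α → M} (h : AddL F) (σ V : List α) (x y : α) (V' : List α) :
    hs F σ (V ++ (x + y) :: V') = hs F σ (V ++ x :: V') + hs F σ (V ++ y :: V') := by
  cases σ with
  | nil => simp [hs]
  | cons a σ => exact shs_addR (h.cons a) σ V x y V'

omit [AddCommMonoid α] in
theorem shs_eq_hs (F : List α → M) {σ W : List α} (hσ : σ ≠ []) (hW : W ≠ []) :
    shs F σ W = hs F σ W + hs F W σ := by
  obtain ⟨a, σ, rfl⟩ := List.exists_cons_of_ne_nil hσ
  obtain ⟨c, W, rfl⟩ := List.exists_cons_of_ne_nil hW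
  rw [shs_cons_cons, shs_comm (fun l => F (c :: l))]
  rfl

/-- the half square is additive modulo shuffles -/
theorem hsq_add {F : List α → M} (h : AddL F) (V : List α) (x y : α) (V' : List α)
    (h1 : shs F (V ++ x :: V') (V ++ y :: V') = 0) :
    hs F (V ++ (x + y) :: V') (V ++ (x + y) :: V') =
      hs F (V ++ x :: V') (V ++ x :: V') + hs F (V ++ y :: V') (V ++ y :: V') := by
  rw [hs_addL h, hs_addR h, hs_addR h]
  rw [shs_eq_hs F (by simp) (by simp)] at h1
  calc _ = hs F (V ++ x :: V') (V ++ x :: V') + hs F (V ++ y :: V') (V ++ y :: V') +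
        (hs F (V ++ x :: V') (V ++ y :: V') + hs F (V ++ y :: V') (V ++ x :: V')) := by abel
    _ = _ := by rw [h1, add_zero]

/-- extension from the letters `p` to the sums of two letters of `p` -/
theorem ext_add (H : List α → M) (p : α → Prop) (n : ℕ)
    (hadd : ∀ (V : List α) (x y : α) (W : List α), V.length + W.length + 1 = n →
      (∀ z ∈ V, p z) → p x → p y → (∀ x ∈ W, p x ∨ ∃ y z, p y ∧ p z ∧ x = y + z) →
      H (V ++ (x + y) :: W) = H (V ++ x :: W) + H (V ++ y :: W))
    (h0 : ∀ w : List α, w.length = n → (∀ x ∈ w, p x) → H w = 0) (w : List α)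
    (hn : w.length = n) (hw : ∀ x ∈ w, p x ∨ ∃ y z, p y ∧ p z ∧ x = y + z) : H w = 0 := by
  have key : ∀ (W V : List α), V.length + W.length = n → (∀ x ∈ V, p x) →
      (∀ x ∈ W, p x ∨ ∃ y z, p y ∧ p z ∧ x = y + z) → H (V ++ W) = 0 := by
    intro W
    induction W with
    | nil =>
      intro V h1 h2 _
      rw [List.append_nil]
      exact h0 V (by simpa using h1) h2
    | cons x W ih =>
      intro V h1 h2 h3
      have hW : ∀ x ∈ W, p x ∨ ∃ y z, p y ∧ p z ∧ x = y + z :=
        fun y hy => h3 y (List.mem_cons_of_mem _ hy)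
      have hl : ∀ y, (V ++ [y]).length + W.length = n := by
        intro y
        simp only [List.length_append, List.length_cons, List.length_nil] at h1 ⊢
        omega
      have hV : ∀ y, p y → ∀ x ∈ V ++ [y], p x := by
        intro y hy x hx
        rcases List.mem_append.1 hx with hx | hx
        · exact h2 x hx
        · rw [List.mem_singleton.1 hx]; exact hy
      have hstep : ∀ y, p y → H (V ++ y :: W) = 0 := by
        intro y hy
        have := ih (V ++ [y]) (hl y) (hV y hy) hW
        simpa using this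
      rcases h3 x (by simp) with hx | ⟨y, z, hy, hz, rfl⟩
      · exact hstep x hx
      · rw [hadd V y z W (by simp only [List.length_cons] at h1; omega) h2 hy hz hW, hstep y hy, hstep z hz,
          add_zero]
  simpa using key w [] (by simpa using hn) (by simp) hw

end Add

/-! ### evaluation -/

variable {R : Type} [CommRing R]

theorem ev_addL (D : ℕ) (P : List ℕ → R) : AddL (fun ws => ev D ws P) := by
  intro V x y W
  show ev D (V ++ (x + y) :: W) P = ev D (V ++ x :: W) P + ev D (V ++ y :: W) P
  rw [ev_append, ev_append, ev_append]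
  show ev D W (app D (x + y) _) = ev D W (app D x _) + ev D W (app D y _)
  rw [app_w_add, ev_add]

/-- the affine slot function -/
def aff (r : R) : ℕ → R := del 0 + r • del 1

theorem aff_zero : aff (0 : R) = del 0 := by simp [aff]

theorem aff_one : aff (1 : R) = del 0 + del 1 := by simp [aff]

theorem del_one_eq [Algebra (ZMod 2) R] : (del 1 : ℕ → R) = aff 1 + aff 0 := by
  rw [aff_zero, aff_one]
  funext j
  simp only [Pi.add_apply]
  linear_combination -(add_self (del 0 j : R))

/-- only exponents `≤ 1` -/
def LE1 (P : List ℕ → R) : Prop := ∀ l, P l ≠ 0 → ∀ a ∈ l, a ≤ 1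

theorem app_congr1 {D : ℕ} {P : List ℕ → R} (h : LE1 P) {w w' : ℕ → R} (h0 : w 0 = w' 0)
    (h1 : w 1 = w' 1) : app D w P = app D w' P := by
  funext l
  refine Finset.sum_congr rfl fun j _ => ?_
  match j with
  | 0 => rw [h0]
  | 1 => rw [h1]
  | j + 2 =>
    have : P ((j + 2) :: l) = 0 := by
      by_contra hc
      have := h _ hc (j + 2) (by simp)
      omega
    rw [this, mul_zero, mul_zero]

theorem LE1.app {D : ℕ} {P : List ℕ → R} (h : LE1 P) (w : ℕ → R) : LE1 (Top.app D w P) := by
  intro l hl a ha
  obtain ⟨j, _, hj⟩ := Finset.exists_ne_zero_of_sum_ne_zero hl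
  exact h (j :: l) (fun h0 => hj (by rw [h0, mul_zero])) a (List.mem_cons_of_mem _ ha)

theorem ev_congr1 {D : ℕ} {P : List ℕ → R} (h : LE1 P) {ws ws' : List (ℕ → R)}
    (hw : List.Forall₂ (fun w w' : ℕ → R => w 0 = w' 0 ∧ w 1 = w' 1) ws ws') :
    ev D ws P = ev D ws' P := by
  induction hw generalizing P with
  | nil => rfl
  | cons h1 _ ih =>
    show ev D _ (Top.app D _ P) = ev D _ (Top.app D _ P)
    rw [app_congr1 h h1.1 h1.2]
    exact ih (h.app _)

theorem starW_aff [Algebra (ZMod 2) R] (b : R) (ρ : List R) :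
    List.Forall₂ (fun w w' : ℕ → R => w 0 = w' 0 ∧ w 1 = w' 1) (starW 0 b ρ) (ρ.map aff) := by
  induction ρ generalizing b with
  | nil => exact List.Forall₂.nil
  | cons r ρ ih =>
    refine List.Forall₂.cons ⟨?_, ?_⟩ (ih _)
    · simp [aff, del]
    · rw [kerR_one]
      simp only [aff, del, Pi.add_apply, Pi.smul_apply, smul_eq_mul]
      norm_num
      rw [← add_assoc, add_self, zero_add]

theorem evS_aff [Algebra (ZMod 2) R] {D : ℕ} {P : List ℕ → R}
    (h : ∀ i l, P (i :: l) ≠ 0 → ∀ a ∈ l, a ≤ 1) (b : R) (ρ : List R) :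
    evS D 0 b P ρ = ev D (ρ.map aff) (app D (geo b) P) := by
  refine ev_congr1 (P := app D (geo b) P) ?_ (starW_aff b ρ)
  intro l hl a ha
  obtain ⟨j, _, hj⟩ := Finset.exists_ne_zero_of_sum_ne_zero hl
  exact h j l (fun h0 => hj (by rw [h0, mul_zero])) a ha

theorem ev_del {D : ℕ} (l : List ℕ) (hl : ∀ a ∈ l, a < D) (P : List ℕ → R) :
    ev D (l.map del) P = P l := by
  induction l generalizing P with
  | nil => rfl
  | cons a l ih =>
    show ev D (l.map del) (app D (del a) P) = P (a :: l)
    rw [ih (fun x hx => hl x (List.mem_cons_of_mem _ hx)), app_del (hl a (by simp))]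

/-- letters `aff 0`, `aff 1` -/
def isAff (x : ℕ → R) : Prop := x = aff 0 ∨ x = aff 1

theorem map_aff_of {w : List (ℕ → R)} (h : ∀ x ∈ w, isAff x) :
    ∃ ρ : List R, w = ρ.map aff ∧ ρ.length = w.length := by
  induction w with
  | nil => exact ⟨[], rfl, rfl⟩
  | cons x w ih =>
    obtain ⟨ρ, h1, h2⟩ := ih fun y hy => h y (List.mem_cons_of_mem _ hy)
    rcases h x (by simp) with hx | hx
    · exact ⟨0 :: ρ, by simp [hx, ← h1], by simp [h2]⟩
    · exact ⟨1 :: ρ, by simp [hx, ← h1], by simp [h2]⟩

theorem del_isAff [Algebra (ZMod 2) R] {l : List ℕ} (hl : ∀ a ∈ l, a ≤ 1) :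
    ∀ x ∈ l.map (del (R := R)), isAff x ∨ ∃ y z, isAff y ∧ isAff z ∧ x = y + z := by
  intro x hx
  obtain ⟨a, ha, rfl⟩ := List.mem_map.1 hx
  have := hl a ha
  rcases Nat.le_one_iff_eq_zero_or_eq_one.1 this with rfl | rfl
  · exact Or.inl (Or.inl aff_zero.symm)
  · exact Or.inr ⟨aff 1, aff 0, Or.inr rfl, Or.inl rfl, del_one_eq⟩

/-! ### binomial coefficients -/

theorem shs_rep {α M : Type} [AddCommMonoid M] (a : α) (i j : ℕ) (F : List α → M) :
    shs F (List.replicate i a) (List.replicate j a) =
      (i + j).choose i • F (List.replicate (i + j) a) := by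
  induction i generalizing j F with
  | zero => simp
  | succ i ihi =>
    induction j generalizing F with
    | zero => simp
    | succ j ihj =>
      have h1 := ihi (j + 1) (fun l => F (a :: l))
      have h2 := ihj (fun l => F (a :: l))
      rw [List.replicate_succ, List.replicate_succ, shs_cons_cons, ← List.replicate_succ,
        ← List.replicate_succ, h1, h2, show i + 1 + (j + 1) = (i + j + 1) + 1 by ring,
        show i + (j + 1) = i + j + 1 by ring, show i + 1 + j = i + j + 1 by ring,
        Nat.choose_succ_succ (i + j + 1) i, add_smul, ← List.replicate_succ]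

theorem odd_nsmul [Algebra (ZMod 2) R] {n : ℕ} (hn : n % 2 = 1) (x : R) : n • x = x := by
  obtain ⟨k, rfl⟩ : ∃ k, n = k + k + 1 := ⟨n / 2, by omega⟩
  rw [add_smul, add_smul, one_smul, add_self, zero_add]

theorem choose_case (m : ℕ) (hm : 2 ≤ m) :
    (∃ j, 1 ≤ j ∧ j < m ∧ m.choose j % 2 = 1) ∨
      ∃ u, 2 * (u + 1) = m ∧ (2 * u + 1).choose u % 2 = 1 := by
  have : Fact (Nat.Prime 2) := ⟨Nat.prime_two⟩
  induction m using Nat.strong_induction_on with
  | _ m ih =>
    rcases Nat.mod_two_eq_zero_or_one m with h | h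
    · obtain ⟨n, rfl⟩ : ∃ n, m = 2 * n := ⟨m / 2, by omega⟩
      rcases Nat.lt_or_ge n 2 with hn | hn
      · have : n = 1 := by omega
        subst this
        exact Or.inr ⟨0, rfl, rfl⟩
      · rcases ih n (by omega) hn with ⟨j, h1, h2, h3⟩ | ⟨u, h1, h2⟩
        · refine Or.inl ⟨2 * j, by omega, by omega, ?_⟩
          have := Choose.choose_modEq_choose_mod_mul_choose_div_nat (p := 2) (n := 2 * n)
            (k := 2 * j)
          unfold Nat.ModEq at this
          rw [this, Nat.mul_mod_right, Nat.mul_mod_right, Nat.mul_div_cancel_left _ two_pos,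
            Nat.mul_div_cancel_left _ two_pos]
          simpa using h3
        · refine Or.inr ⟨2 * u + 1, by omega, ?_⟩
          have := Choose.choose_modEq_choose_mod_mul_choose_div_nat (p := 2)
            (n := 2 * (2 * u + 1) + 1) (k := 2 * u + 1)
          unfold Nat.ModEq at this
          rw [this, show (2 * (2 * u + 1) + 1) % 2 = 1 by omega, show (2 * u + 1) % 2 = 1 by omega,
            show (2 * (2 * u + 1) + 1) / 2 = 2 * u + 1 by omega,
            show (2 * u + 1) / 2 = u by omega]
          simpa using h2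
    · exact Or.inl ⟨1, le_rfl, by omega, by simpa using h⟩

theorem hypR_of_hypStar {D m : ℕ} (hm : 2 ≤ m) {P : List ℕ → ZMod 2} (h : HypStar D m P) :
    HypR D m P := by
  intro R _ _ l b k W hk hkW
  by_cases hW : W = []
  · subst hW
    have hkm : k = m := by simpa using hkW
    subst hkm
    show shs (evS D l b (cast R P)) (List.replicate k l) [] = 0
    rw [shs_nil_right]
    rcases choose_case k hm with ⟨j, h1, h2, h3⟩ | ⟨u, h1, h2⟩
    · have h4 := h.sh R l b (List.replicate j l) (List.replicate (k - j) l)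
        (by intro h0; have := congrArg List.length h0; simp at this; omega)
        (by intro h0; have := congrArg List.length h0; simp at this; omega)
        (by simp; omega)
      rw [shs_rep, show j + (k - j) = k by omega, odd_nsmul h3] at h4
      exact h4
    · have h4 := h.half R l b l (List.replicate u l) (by simpa using h1)
      rw [← List.replicate_succ, shs_rep, show u + (u + 1) = 2 * u + 1 by ring, odd_nsmul h2,
        ← List.replicate_succ, show 2 * u + 1 + 1 = k by omega] at h4
      exact h4
  · exact h.sh R l b (List.replicate k l) W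
      (by intro h0; have := congrArg List.length h0; simp at this; omega) hW (by simpa using hkW)

/-! ### the case `m ≥ 2` -/

theorem cast_zmod (P : List ℕ → ZMod 2) : cast (ZMod 2) P = P := by
  funext l
  simp [cast]

theorem base_zero {D m N : ℕ} {P : List ℕ → ZMod 2} (hS : Supp D (m + 1) P)
    (hN : ∀ l, P l ≠ 0 → l.sum = N) (h : HypStar D m P)
    (h1 : ∀ i l, P (i :: l) ≠ 0 → ∀ a ∈ l, a ≤ 1) :
    ∀ i l, P (i :: l) ≠ 0 → i = 0 := by
  intro i l hil
  by_contra hi
  have hS1 := hS _ hil
  have hlm : l.length = m := by simpa using hS1.1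
  let H : List (ℕ → ZMod 2) → ZMod 2 := fun ws =>
    ev D ws (app D (geo 1) P) + ev D ws (app D (geo 0) P)
  have hH : ∀ V x y W, H (V ++ (x + y) :: W) = H (V ++ x :: W) + H (V ++ y :: W) := by
    intro V x y W
    have e1 := ev_addL D (app D (geo 1) P) V x y W
    have e2 := ev_addL D (app D (geo 0) P) V x y W
    simp only [H] at e1 e2 ⊢
    rw [e1, e2]
    ring
  have hz : H (l.map del) = 0 := by
    refine ext_add H isAff m (fun V x y W _ _ _ _ _ => hH V x y W) ?_ _ (by simpa using hlm)
      (del_isAff (h1 i l hil))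
    intro w hw hp
    obtain ⟨ρ, rfl, hρ⟩ := map_aff_of hp
    have e := h.ti (ZMod 2) 0 1 0 ρ (by rw [hρ, hw])
    rw [cast_zmod, evS_aff h1, evS_aff h1] at e
    show ev D _ _ + ev D _ _ = 0
    rw [e]
    exact add_self (R := ZMod 2) _
  have hD : ∀ a ∈ l, a < D := fun a ha => hS1.2 a (List.mem_cons_of_mem _ ha)
  have hiD : i < D := hS1.2 i (by simp)
  simp only [H] at hz
  rw [ev_del l hD, ev_del l hD] at hz
  have e1 : app D (geo 1) P l = P (i :: l) := by
    simp only [app, geo, one_pow, one_mul]
    refine Finset.sum_eq_single i ?_ ?_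
    · intro j _ hj
      by_contra h0
      have := hN _ h0
      have := hN _ hil
      simp only [List.sum_cons] at *
      omega
    · intro h0
      exact absurd (Finset.mem_range.2 hiD) h0
  have e2 : app D (geo 0) P l = 0 := by
    refine Finset.sum_eq_zero fun j _ => ?_
    by_cases hj : j = 0
    · subst hj
      by_cases h0 : P (0 :: l) = 0
      · rw [h0, mul_zero]
      · have := hN _ h0
        have := hN _ hil
        simp only [List.sum_cons] at *
        omega
    · rw [geo, zero_pow hj, zero_mul]
  rw [e1, e2, add_zero] at hz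
  exact hil hz

/-- bits as exponents -/
def bit (s : Bool) : ℕ := if s then 1 else 0

theorem app_geo_zero {D : ℕ} (hD : 1 ≤ D) (P : List ℕ → R) :
    app D (geo 0) P = fun l => P (0 :: l) := by
  have : (geo (0 : R)) = del 0 := by
    funext j
    cases j <;> simp [geo, del]
  rw [this, app_del (by omega)]

theorem lieLike {D m : ℕ} {P : List ℕ → ZMod 2} (hD : 2 ≤ D) (h : HypStar D m P)
    (h1 : ∀ i l, P (i :: l) ≠ 0 → ∀ a ∈ l, a ≤ 1) :
    LieLike m (fun l => P (0 :: l.map bit)) := by
  set Q : List ℕ → ZMod 2 := fun l => P (0 :: l) with hQ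
  let F : List (ℕ → ZMod 2) → ZMod 2 := fun ws => ev D ws Q
  have hF : AddL F := ev_addL D Q
  have hev : ∀ ρ : List (ZMod 2), evS D 0 0 (cast (ZMod 2) P) ρ = F (ρ.map aff) := by
    intro ρ
    rw [cast_zmod, evS_aff h1, app_geo_zero (by omega)]
  have hdel : ∀ w : List Bool, F ((w.map bit).map del) = P (0 :: w.map bit) := by
    intro w
    refine ev_del _ ?_ Q
    intro a ha
    obtain ⟨s, _, rfl⟩ := List.mem_map.1 ha
    cases s <;> simp [bit] <;> omega
  have hbit : ∀ w : List Bool, ∀ a ∈ w.map bit, a ≤ 1 := by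
    intro w a ha
    obtain ⟨s, _, rfl⟩ := List.mem_map.1 ha
    cases s <;> simp [bit]
  -- shuffles of words in the letters `aff`
  have hsh0 : ∀ σ W : List (ℕ → ZMod 2), σ ≠ [] → W ≠ [] → σ.length + W.length = m →
      (∀ x ∈ σ, isAff x) → (∀ x ∈ W, isAff x) → shs F σ W = 0 := by
    intro σ W hσ hW hm hpσ hpW
    obtain ⟨σ, rfl, hσl⟩ := map_aff_of hpσ
    obtain ⟨W, rfl, hWl⟩ := map_aff_of hpW
    rw [shs_letters]
    have := h.sh (ZMod 2) 0 0 σ W (fun h0 => hσ (by simp [h0])) (fun h0 => hW (by simp [h0]))
      (by simpa using hm)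
    rw [← this]
    congr 1
    funext ρ
    exact (hev ρ).symm
  have hsh1 : ∀ σ W : List (ℕ → ZMod 2), σ ≠ [] → W ≠ [] → σ.length + W.length = m →
      (∀ x ∈ σ, isAff x ∨ ∃ y z, isAff y ∧ isAff z ∧ x = y + z) →
      (∀ x ∈ W, isAff x ∨ ∃ y z, isAff y ∧ isAff z ∧ x = y + z) → shs F σ W = 0 := by
    intro σ W hσ hW hm hpσ hpW
    refine ext_add (fun σ => shs F σ W) isAff σ.length (fun V x y V' _ _ _ _ _ => shs_addL hF V x y V' W)
      ?_ σ rfl hpσ
    intro σ' hσ' hpσ'
    refine ext_add (fun W => shs F σ' W) isAff W.length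
      (fun V x y V' _ _ _ _ _ => shs_addR hF σ' V x y V') ?_ W rfl hpW
    intro W' hW' hpW'
    refine hsh0 σ' W' ?_ ?_ (by rw [hσ', hW', hm]) hpσ' hpW'
    · intro h0
      rw [h0] at hσ'
      exact hσ (List.length_eq_zero_iff.1 hσ'.symm)
    · intro h0
      rw [h0] at hW'
      exact hW (List.length_eq_zero_iff.1 hW'.symm)
  refine ⟨?_, ?_⟩
  · intro u v hu hv huv
    have := hsh1 ((u.map bit).map del) ((v.map bit).map del) (by simpa using hu)
      (by simpa using hv) (by simpa using huv) (del_isAff (hbit u)) (del_isAff (hbit v))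
    rw [List.map_map, List.map_map, shs_letters] at this
    rw [← this]
    congr 1
    funext l
    rw [← hdel l, List.map_map]
  · intro a u hau
    have key : hs F (((a :: u).map bit).map del) (((a :: u).map bit).map del) = 0 := by
      refine ext_add (fun w => hs F w w) isAff (u.length + 1) ?_ ?_ _ (by simp)
        (del_isAff (hbit _))
      · intro V x y W hn hV hx hy hW
        refine hsq_add hF V x y W (hsh1 _ _ (by simp) (by simp) ?_ ?_ ?_)
        · simp only [List.length_append, List.length_cons]
          omega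
        · intro z hz
          rcases List.mem_append.1 hz with hz | hz
          · exact Or.inl (hV z hz)
          · rcases List.mem_cons.1 hz with rfl | hz
            · exact Or.inl hx
            · exact hW z hz
        · intro z hz
          rcases List.mem_append.1 hz with hz | hz
          · exact Or.inl (hV z hz)
          · rcases List.mem_cons.1 hz with rfl | hz
            · exact Or.inl hy
            · exact hW z hz
      · intro w hw hp
        obtain ⟨ρ, rfl, hρ⟩ := map_aff_of hp
        obtain ⟨c, ρ, rfl⟩ : ∃ c ρ', ρ = c :: ρ' := by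
          cases ρ with
          | nil => simp at hw
          | cons c ρ' => exact ⟨c, ρ', rfl⟩
        show shs (fun l => F (aff c :: l)) (ρ.map aff) ((c :: ρ).map aff) = 0
        rw [shs_letters]
        have := h.half (ZMod 2) 0 0 c ρ (by
          simp only [List.map_cons, List.length_cons, List.length_map] at hw
          omega)
        rw [← this]
        congr 1
        funext τ
        exact (hev (c :: τ)).symm
    have e : shs (fun l => F (del (bit a) :: l)) ((u.map bit).map del)
        (((a :: u).map bit).map del) = 0 := key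
    rw [List.map_map, List.map_map, shs_letters] at e
    rw [← e]
    congr 1
    funext l
    have := hdel (a :: l)
    rw [List.map_map] at this
    exact this.symm

/-! ### the case `m = 1` -/

theorem evS_one (D : ℕ) (l b r : R) (P : List ℕ → R) :
    evS D l b P [r] =
      ∑ j ∈ range D, kerR l b (b + r) j * ∑ i ∈ range D, b ^ i * P [i, j] := rfl

theorem one_case {D N : ℕ} {P : List ℕ → ZMod 2} (hS : Supp D 2 P)
    (hN : ∀ l, P l ≠ 0 → l.sum = N) (h : HypStar D 1 P) :
    ∀ i l, P (i :: l) ≠ 0 → ∀ a ∈ l, a ≤ 1 := by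
  intro i l hil a ha
  by_contra ha1
  push Not at ha1
  have hS1 := hS _ hil
  obtain ⟨j, rfl⟩ : ∃ j, l = [j] := by
    have : l.length = 1 := by simpa using hS1.1
    exact List.length_eq_one_iff.1 this
  have haj : a = j := by simpa using ha
  subst haj
  have hNa : i + a = N := by simpa using hN _ hil
  have hz : ∀ j, P [0, j] ≠ 0 → 2 ≤ j := by
    intro j hj
    have := hN _ hj
    simp only [List.sum_cons, List.sum_nil] at this
    omega
  have hsum0 : ∀ (R : Type) [CommRing R] [Algebra (ZMod 2) R] (j : ℕ), j ∈ range D →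
      ∑ i ∈ range D, (0 : R) ^ i * cast R P [i, j] = cast R P [0, j] := by
    intro R _ _ j hj
    rw [Finset.sum_eq_single 0]
    · simp
    · intro b _ hb
      rw [zero_pow hb, zero_mul]
    · intro h0
      exact absurd (Finset.mem_range.2 (lt_of_le_of_lt (Nat.zero_le _) (Finset.mem_range.1 hj))) h0
  -- all `P [0, j]` vanish
  have e2 := h.ti (ZMod 2) 0 1 0 [1] rfl
  have e3 := h.ti (ZMod 2) 1 1 0 [0] rfl
  rw [evS_one, evS_one] at e2 e3
  have h11 : (1 : ZMod 2) + 1 = 0 := rfl
  have k1 : ∀ j, kerR (0 : ZMod 2) 1 0 j = 1 := by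
    intro j
    cases j with
    | zero => rfl
    | succ j => rw [kerR_right_zero]; simp
  have k2 : ∀ j, kerR (0 : ZMod 2) 0 1 j = 1 := by
    intro j
    cases j with
    | zero => rfl
    | succ j => rw [kerR_zero_left]; simp
  have k3 : ∀ j, kerR (1 : ZMod 2) 1 1 j = 1 := by
    intro j
    rw [kerR_l_left, one_pow]
  have k4 : ∀ j, 2 ≤ j → kerR (1 : ZMod 2) 0 0 j = 0 := by
    intro j hj
    obtain ⟨j, rfl⟩ : ∃ k, j = k + 2 := ⟨j - 2, by omega⟩
    rw [kerR_zero_left]; simp
  rw [h11, zero_add] at e2
  rw [add_zero, add_zero] at e3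
  have r3 : ∑ j ∈ range D, kerR (1 : ZMod 2) 0 0 j *
      ∑ i ∈ range D, (0 : ZMod 2) ^ i * cast (ZMod 2) P [i, j] = 0 := by
    refine Finset.sum_eq_zero fun j hj => ?_
    rw [hsum0 (ZMod 2) j hj, cast_zmod]
    by_cases h0 : P [0, j] = 0
    · rw [h0, mul_zero]
    · rw [k4 j (hz j h0), zero_mul]
  have r2 : ∑ j ∈ range D, kerR (0 : ZMod 2) 0 1 j *
      ∑ i ∈ range D, (0 : ZMod 2) ^ i * cast (ZMod 2) P [i, j] = ∑ j ∈ range D, P [0, j] := by
    refine Finset.sum_congr rfl fun j hj => ?_
    rw [hsum0 (ZMod 2) j hj, cast_zmod, k2, one_mul]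
  rw [r3] at e3
  rw [r2] at e2
  simp only [k1, k3, one_mul] at e2 e3
  rw [e3] at e2
  have hall : ∀ j, P [0, j] = 0 := by
    intro j
    by_contra h0
    have hj := hN _ h0
    simp only [List.sum_cons, List.sum_nil] at hj
    have : ∑ j ∈ range D, P [0, j] = P [0, j] := by
      refine Finset.sum_eq_single j ?_ ?_
      · intro b _ hb
        by_contra h1
        have := hN _ h1
        simp only [List.sum_cons, List.sum_nil] at this
        omega
      · intro h1
        exact absurd (Finset.mem_range.2 ((hS _ h0).2 j (by simp))) h1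
    rw [this] at e2
    exact h0 e2.symm
  -- all values vanish
  have e4 := h.ti (Polynomial (ZMod 2)) 1 1 0 [1 + Polynomial.X] rfl
  rw [evS_one, evS_one] at e4
  have r4 : ∑ j ∈ range D, kerR (1 : Polynomial (ZMod 2)) 0 (0 + (1 + Polynomial.X)) j *
      ∑ i ∈ range D, (0 : Polynomial (ZMod 2)) ^ i * cast (Polynomial (ZMod 2)) P [i, j] = 0 := by
    refine Finset.sum_eq_zero fun j hj => ?_
    rw [hsum0 _ j hj]
    simp [cast, hall j]
  have hX : (1 : Polynomial (ZMod 2)) + (1 + Polynomial.X) = Polynomial.X := by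
    rw [← add_assoc, add_self, zero_add]
  rw [r4, hX] at e4
  simp only [kerR_l_left, one_pow, one_mul] at e4
  have e5 := congrArg (fun p : Polynomial (ZMod 2) => p.coeff a) e4
  have haD : a < D := hS1.2 a (by simp)
  have hiD : i < D := hS1.2 i (by simp)
  have hc : ∀ j, ∑ i ∈ range D, cast (Polynomial (ZMod 2)) P [i, j] =
      Polynomial.C (∑ i ∈ range D, P [i, j]) := by
    intro j
    rw [map_sum]
    rfl
  simp only [hc, Polynomial.finsetSum_coeff, Polynomial.coeff_mul_C, Polynomial.coeff_X_pow,
    Polynomial.coeff_zero] at e5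
  rw [Finset.sum_eq_single a] at e5
  · rw [if_pos rfl, one_mul, Finset.sum_eq_single i] at e5
    · exact hil e5
    · intro b _ hb
      by_contra h1
      have := hN _ h1
      simp only [List.sum_cons, List.sum_nil] at this
      omega
    · intro h0
      exact absurd (Finset.mem_range.2 hiD) h0
  · intro b _ hb
    rw [if_neg (Ne.symm hb), zero_mul]
  · intro h0
    exact absurd (Finset.mem_range.2 haD) h0

end MP154526.Top.StarF

namespace MP154526.Top

open Finset MP154526.Top.StarF

/-- STAR from THEOREM R -/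
theorem specStar (hR : Star.SpecR) : SpecStar := by
  intro D m N P hD hm hS hN h
  have h1 : ∀ i l, P (i :: l) ≠ 0 → ∀ a ∈ l, a ≤ 1 := by
    rcases Nat.lt_or_ge m 2 with hm2 | hm2
    · have : m = 1 := by omega
      subst this
      exact one_case hS hN h
    · exact hR D m P hD hS (hypR_of_hypStar hm2 h)
  refine ⟨?_, ?_⟩
  · intro l hl
    obtain ⟨i, l', rfl⟩ : ∃ i l', l = i :: l' := by
      cases l with
      | nil =>
        have := (hS _ hl).1
        simp at this
      | cons i l' => exact ⟨i, l', rfl⟩
    have := base_zero hS hN h h1 i l' hl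
    subst this
    exact ⟨l', rfl, h1 0 l' hl⟩
  · exact lieLike hD h h1

end MP154526.Top
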