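import Pool.Agent.Lib.MP_154526_nt.Top.Plan

/-!
# Module FIN: the dimension bound from the spanning statement
-/

set_option autoImplicit false

namespace MP154526.Top

open MP154526.Bound

namespace FinN

theorem expand_append (u v : List Bool) : expand (u ++ v) = expand u ++ expand v := by
  induction u with
  | nil => rfl
  | cons a u ih => cases a <;> simp [expand, ih]

theorem expand_adm : ∀ w : List Bool, w ≠ [] → ∃ u, expand w = false :: u ++ [true]
  | [], h => absurd rfl h
  | [false], _ => ⟨[], rfl⟩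
  | [true], _ => ⟨[true], rfl⟩
  | false :: b :: w, _ => by
    obtain ⟨u, hu⟩ := expand_adm (b :: w) (by simp)
    exact ⟨true :: false :: u, by rw [expand, hu]; rfl⟩
  | true :: b :: w, _ => by
    obtain ⟨u, hu⟩ := expand_adm (b :: w) (by simp)
    exact ⟨true :: true :: false :: u, by rw [expand, hu]; rfl⟩

theorem wd_expand_mem (w : List Bool) : wd (expand w) ∈ H0 (expand w).length := by
  apply Submodule.subset_span
  refine ⟨expand w, ?_, rfl, rfl⟩
  by_cases h : w = []
  · left
    rw [h]
    rfl
  · right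
    exact expand_adm w h

theorem wd_nil_mem : wd [] ∈ H0 0 := Submodule.subset_span ⟨[], Or.inl rfl, rfl, rfl⟩

section alg

variable (hA : SpecAlg)
include hA

theorem add_right (a b c : H) : shuffle a (b + c) = shuffle a b + shuffle a c := by
  rw [hA.comm, hA.add, hA.comm b, hA.comm c]

theorem smul_right (r : ℚ) (a b : H) : shuffle a (r • b) = r • shuffle a b := by
  rw [hA.comm, hA.smul, hA.comm b]

theorem one_right (a : H) : shuffle a (wd []) = a := by
  rw [hA.comm, hA.one]

/-- left multiplication -/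
noncomputable def mulR (b : H) : H →ₗ[ℚ] H where
  toFun a := shuffle a b
  map_add' x y := hA.add x y b
  map_smul' r x := hA.smul r x b

theorem span_left {A : Set H} {N : Submodule ℚ H} {b : H} (h : ∀ a ∈ A, shuffle a b ∈ N) :
    ∀ a ∈ Submodule.span ℚ A, shuffle a b ∈ N := by
  intro a ha
  have : Submodule.span ℚ A ≤ N.comap (mulR hA b) := Submodule.span_le.mpr h
  exact this ha

theorem span_both {A B : Set H} {N : Submodule ℚ H}
    (h : ∀ a ∈ A, ∀ b ∈ B, shuffle a b ∈ N) :
    ∀ a ∈ Submodule.span ℚ A, ∀ b ∈ Submodule.span ℚ B, shuffle a b ∈ N := by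
  intro a ha b hb
  refine span_left hA (fun a' ha' => ?_) a ha
  rw [hA.comm]
  refine span_left hA (fun b' hb' => ?_) b hb
  rw [hA.comm]
  exact h a' ha' b' hb'

end alg

/-- product of the generators attached to the words of `L` -/
noncomputable def prodL : List (List Bool) → H
  | [] => wd []
  | w :: L => shuffle (wd (expand w)) (prodL L)

/-- total weight -/
def wt (L : List (List Bool)) : ℕ := (L.map fun w => (expand w).length).sum

theorem wt_flatten (L : List (List Bool)) : (expand L.flatten).length = wt L := by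
  induction L with
  | nil => rfl
  | cons w L ih =>
    rw [List.flatten_cons, expand_append, List.length_append, ih]
    simp [wt]

theorem prodL_mem (hA : SpecAlg) (L : List (List Bool)) : prodL L ∈ H0 (wt L) := by
  induction L with
  | nil => exact wd_nil_mem
  | cons w L ih =>
    have h := hA.h0 _ _ _ (wd_expand_mem w) _ ih
    simpa [prodL, wt] using h

theorem prodL_append (hA : SpecAlg) (L L' : List (List Bool)) :
    prodL (L ++ L') = shuffle (prodL L) (prodL L') := by
  induction L with
  | nil => exact (hA.one _).symm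
  | cons w L ih =>
    rw [List.cons_append, prodL, ih, prodL, hA.assoc]

theorem prodL_perm (hA : SpecAlg) {L L' : List (List Bool)} (h : L.Perm L') :
    prodL L = prodL L' := by
  induction h with
  | nil => rfl
  | cons w _ ih => rw [prodL, prodL, ih]
  | swap u v L =>
    rw [prodL, prodL, prodL, prodL, ← hA.assoc, ← hA.assoc, hA.comm (wd (expand v))]
  | trans _ _ ih1 ih2 => rw [ih1, ih2]

theorem wt_perm {L L' : List (List Bool)} (h : L.Perm L') : wt L = wt L' :=
  (h.map _).sum_eq

/-- the admissible lists -/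
def Good (n : ℕ) (L : List (List Bool)) : Prop :=
  (∀ w ∈ L, IsLyn w) ∧ L.Pairwise (fun u v => v ≤ u) ∧ wt L = n

/-- span of the monomials in the Lyndon generators -/
noncomputable def M (n : ℕ) : Submodule ℚ H := Submodule.span ℚ {z | ∃ L, Good n L ∧ z = prodL L}

theorem mem_M (hA : SpecAlg) {n : ℕ} {L : List (List Bool)} (h : ∀ w ∈ L, IsLyn w)
    (hw : wt L = n) : prodL L ∈ M n := by
  have hp : (L.insertionSort (fun u v => v ≤ u)).Perm L := List.perm_insertionSort _ _
  have hs : (L.insertionSort (fun u v => v ≤ u)).Pairwise (fun u v => v ≤ u) :=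
    List.pairwise_insertionSort _ _
  rw [← prodL_perm hA hp]
  exact Submodule.subset_span ⟨_, ⟨fun w hw => h w (hp.mem_iff.mp hw), hs,
    (wt_perm hp).trans hw⟩, rfl⟩

theorem M_le (hA : SpecAlg) (n : ℕ) : M n ≤ H0 n := by
  refine Submodule.span_le.mpr ?_
  rintro z ⟨L, hL, rfl⟩
  rw [← hL.2.2]
  exact prodL_mem hA L

theorem M_mul (hA : SpecAlg) {i j : ℕ} : ∀ a ∈ M i, ∀ b ∈ M j, shuffle a b ∈ M (i + j) := by
  refine span_both hA ?_
  rintro a ⟨L, hL, rfl⟩ b ⟨L', hL', rfl⟩
  rw [← prodL_append hA]
  refine mem_M hA ?_ ?_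
  · intro w hw
    rcases List.mem_append.mp hw with h | h
    exacts [hL.1 w h, hL'.1 w h]
  · rw [← hL.2.2, ← hL'.2.2]
    simp [wt]

theorem J_mul (hA : SpecAlg) {i j : ℕ} {b : H} (hb : b ∈ H0 j) :
    ∀ a ∈ J i, shuffle a b ∈ J (i + j) := by
  refine span_left hA ?_
  rintro a ⟨q, r, h, hq, hr, hh, rfl⟩
  apply Submodule.subset_span
  refine ⟨q, r, shuffle h b, by omega, hr, ?_, ?_⟩
  · have h1 := hA.h0 _ _ _ hh _ hb
    have h2 : i - q + j = i + j - q := by omega
    rwa [h2] at h1
  · rw [hA.assoc]

theorem RDS_le (hA : SpecAlg) (n : ℕ) : Submodule.span ℚ (RDS n) ≤ J n := by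
  refine Submodule.span_le.mpr ?_
  intro r hr
  apply Submodule.subset_span
  refine ⟨n, r, wd [], le_refl _, hr, ?_, ?_⟩
  · rw [Nat.sub_self]
    exact wd_nil_mem
  · rw [one_right hA]

theorem H0_zero : H0 0 ≤ Submodule.span ℚ {wd []} := by
  refine Submodule.span_mono ?_
  rintro h ⟨w, _, hw, rfl⟩
  rw [List.length_eq_zero_iff.mp hw]
  rfl

theorem main (hS : SpecSpan) (hA : SpecAlg) : ∀ n, H0 n ≤ J n ⊔ M n := by
  intro n
  induction n using Nat.strong_induction_on with
  | _ n ih =>
    rcases Nat.eq_zero_or_pos n with rfl | hn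
    · refine (H0_zero.trans ?_).trans le_sup_right
      rw [Submodule.span_le]
      intro z hz
      rw [Set.mem_singleton_iff] at hz
      rw [hz]
      exact mem_M hA (L := []) (by simp) rfl
    · refine (hS n hn).trans ?_
      refine sup_le (sup_le ?_ ((RDS_le hA n).trans le_sup_left)) ?_
      · rw [Submodule.span_le]
        rintro z ⟨i, j, a, b, hi, hj, hij, ha, hb, rfl⟩
        obtain ⟨a1, ha1, a2, ha2, haa⟩ := Submodule.mem_sup.mp (ih i (by omega) ha)
        obtain ⟨b1, hb1, b2, hb2, hbb⟩ := Submodule.mem_sup.mp (ih j (by omega) hb)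
        have k1 : shuffle a1 b ∈ J n := by
          rw [← hij]
          exact J_mul hA hb a1 ha1
        have k2 : shuffle a2 b1 ∈ J n := by
          rw [hA.comm, ← hij, Nat.add_comm]
          exact J_mul hA (M_le hA i ha2) b1 hb1
        have k3 : shuffle a2 b2 ∈ M n := by
          rw [← hij]
          exact M_mul hA a2 ha2 b2 hb2
        have k4 : shuffle a b = (shuffle a1 b + shuffle a2 b1) + shuffle a2 b2 := by
          rw [← haa, hA.add, ← hbb, add_right hA a2, add_assoc]
        rw [SetLike.mem_coe, k4]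
        exact Submodule.add_mem_sup (Submodule.add_mem _ k1 k2) k3
      · rw [Submodule.span_le]
        rintro z ⟨w, hw, hn, rfl⟩
        refine Submodule.mem_sup_right ?_
        have h1 := mem_M hA (L := [w]) (n := n) (by simpa using hw) (by simpa [wt] using hn)
        rwa [prodL, prodL, one_right hA] at h1

open Classical in
/-- the monomial attached to a word -/
noncomputable def gen (n : ℕ) (w : List Bool) : H :=
  if h : ∃ L, Good n L ∧ L.flatten = w then prodL h.choose else 0

theorem gen_flatten (hF : SpecFact) {n : ℕ} {L : List (List Bool)} (hL : Good n L) :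
    gen n L.flatten = prodL L := by
  have h : ∃ L', Good n L' ∧ L'.flatten = L.flatten := ⟨L, hL, rfl⟩
  rw [gen, dif_pos h]
  congr 1
  exact hF _ _ h.choose_spec.1.1 hL.1 h.choose_spec.1.2.1 hL.2.1 h.choose_spec.2

theorem gen_mem (hA : SpecAlg) (n : ℕ) (w : List Bool) : gen n w ∈ H0 n := by
  rw [gen]
  split_ifs with h
  · have := prodL_mem hA h.choose
    rwa [h.choose_spec.1.2.2] at this
  · exact Submodule.zero_mem _

/-- number of words of a given weight -/
theorem exists_words : ∀ p, ∃ W : Finset (List Bool), (∀ w, w ∈ W ↔ (expand w).length = p) ∧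
    W.card = D p
  | 0 => ⟨{[]}, by
      intro w
      rcases w with _ | ⟨_ | _, w⟩ <;> simp [expand], rfl⟩
  | 1 => ⟨∅, by
      intro w
      rcases w with _ | ⟨_ | _, w⟩ <;> simp [expand], rfl⟩
  | 2 => ⟨{[false]}, by
      intro w
      rcases w with _ | ⟨_ | _, _ | ⟨_ | _, w⟩⟩ <;> simp [expand], rfl⟩
  | p + 3 => by
    obtain ⟨W1, h1, c1⟩ := exists_words (p + 1)
    obtain ⟨W2, h2, c2⟩ := exists_words p
    refine ⟨W1.image (List.cons false) ∪ W2.image (List.cons true), ?_, ?_⟩
    · intro w
      rcases w with _ | ⟨_ | _, w⟩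
      · simp [expand]
      · simp [expand, h1]
      · simp [expand, h2]
    · rw [Finset.card_union_of_disjoint, Finset.card_image_of_injective,
        Finset.card_image_of_injective, c1, c2]
      · rfl
      · intro a b h
        simpa using h
      · intro a b h
        simpa using h
      · rw [Finset.disjoint_left]
        intro w hw hw'
        rw [Finset.mem_image] at hw hw'
        obtain ⟨a, _, rfl⟩ := hw
        obtain ⟨b, _, hb⟩ := hw'
        simp at hb

end FinN

open FinN

/-- FIN -/
theorem specAnswer (hS : SpecSpan) (hA : SpecAlg) (hF : SpecFact) : SpecAnswer := by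
  intro p
  obtain ⟨W, hW, hWc⟩ := exists_words p
  rw [← hWc]
  let f : W → (H0 p ⧸ (J p).comap (H0 p).subtype) :=
    fun w => Submodule.Quotient.mk ⟨gen p w, gen_mem hA p w⟩
  have hM : M p ≤ Submodule.span ℚ {z | ∃ w ∈ W, z = gen p w} := by
    rw [M, Submodule.span_le]
    rintro z ⟨L, hL, rfl⟩
    apply Submodule.subset_span
    refine ⟨L.flatten, (hW _).mpr ?_, (gen_flatten hF hL).symm⟩
    rw [wt_flatten, hL.2.2]
  have key : ∀ m ∈ Submodule.span ℚ {z | ∃ w ∈ W, z = gen p w}, ∃ hm : m ∈ H0 p,
      (Submodule.Quotient.mk ⟨m, hm⟩ : H0 p ⧸ (J p).comap (H0 p).subtype) ∈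
        Submodule.span ℚ (Set.range f) := by
    intro m hm
    induction hm using Submodule.span_induction with
    | mem z hz =>
      obtain ⟨w, hw, rfl⟩ := hz
      exact ⟨gen_mem hA p w, Submodule.subset_span ⟨⟨w, hw⟩, rfl⟩⟩
    | zero => exact ⟨Submodule.zero_mem _, by
        have : (⟨0, Submodule.zero_mem _⟩ : H0 p) = 0 := rfl
        rw [this, Submodule.Quotient.mk_zero]
        exact Submodule.zero_mem _⟩
    | add x y _ _ hx hy =>
      obtain ⟨hx1, hx2⟩ := hx
      obtain ⟨hy1, hy2⟩ := hy
      exact ⟨Submodule.add_mem _ hx1 hy1, Submodule.add_mem _ hx2 hy2⟩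
    | smul r x _ hx =>
      obtain ⟨hx1, hx2⟩ := hx
      exact ⟨Submodule.smul_mem _ r hx1, Submodule.smul_mem _ r hx2⟩
  have htop : Submodule.span ℚ (Set.range f) = ⊤ := by
    rw [eq_top_iff]
    rintro x -
    obtain ⟨y, rfl⟩ := Submodule.Quotient.mk_surjective _ x
    obtain ⟨j, hj, m, hm, hjm⟩ := Submodule.mem_sup.mp (main hS hA p y.2)
    obtain ⟨hm1, hm2⟩ := key m (hM hm)
    have : (Submodule.Quotient.mk y : H0 p ⧸ (J p).comap (H0 p).subtype) =
        Submodule.Quotient.mk ⟨m, hm1⟩ := by
      rw [Submodule.Quotient.eq, Submodule.mem_comap]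
      have h1 : ((H0 p).subtype (y - ⟨m, hm1⟩) : H) = j := by
        rw [map_sub]
        change (y : H) - m = j
        rw [← hjm]
        abel
      rw [h1]
      exact hj
    rw [this]
    exact hm2
  have h1 := finrank_range_le_card (R := ℚ) f
  rw [Set.finrank, htop, finrank_top, Fintype.card_coe] at h1
  exact h1

end MP154526.Top
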