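import Pool.Agent.Lib.MP_154526_nt.Top.StarDefs
import Pool.Agent.Lib.MP_154526_nt.Top.Red

section
/-!
# Lemma X (double shuffle modulo 2)
-/
set_option autoImplicit false

namespace MP154526.Top.Star.LX

open Finset Polynomial

section Kernel

variable {R : Type} [CommRing R]

theorem hh_zero (s t : R) : hh 0 s t = 1 := by simp [hh]

theorem hh_succ (i : ℕ) (s t : R) : hh (i + 1) s t = s * hh i s t + t ^ (i + 1) := by
  unfold hh
  rw [Finset.sum_range_succ', Finset.mul_sum]
  congr 1
  · refine Finset.sum_congr rfl fun p _ => ?_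
    rw [pow_succ, show i + 1 - (p + 1) = i - p by omega]
    ring
  · simp

theorem hh_comm (i : ℕ) (s t : R) : hh i s t = hh i t s := by
  unfold hh
  rw [← Finset.sum_range_reflect]
  refine Finset.sum_congr rfl fun p hp => ?_
  have := Finset.mem_range.1 hp
  rw [show i + 1 - 1 - p = i - p by omega, show i - (i - p) = p by omega, mul_comm]

theorem hh_zero_left (i : ℕ) (t : R) : hh i 0 t = t ^ i := by
  cases i with
  | zero => simp [hh_zero]
  | succ i => rw [hh_succ]; simp

theorem kerR_comm (l s t : R) : kerR l s t = kerR l t s := by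
  funext i
  cases i with
  | zero => rfl
  | succ i => simp only [kerR, hh_comm _ s t]

variable (R) in
theorem two_eq [Algebra (ZMod 2) R] : (2 : R) = 0 := by
  have h : algebraMap (ZMod 2) R 2 = 0 := by
    rw [show (2 : ZMod 2) = 0 from rfl, map_zero]
  rwa [map_ofNat] at h

theorem dbl [Algebra (ZMod 2) R] (x : R) : x + x = 0 := by
  rw [← two_mul, two_eq R, zero_mul]

theorem kerR_zero_succ (l t : R) (i : ℕ) : kerR l 0 t (i + 1) = t ^ i * (t + l) := by
  simp only [kerR, hh_zero_left]
  ring

theorem kerR_self_succ [Algebra (ZMod 2) R] (l t : R) (i : ℕ) :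
    kerR l l t (i + 1) = t ^ (i + 1) := by
  simp only [kerR, hh_succ]
  linear_combination dbl (l * hh i l t)

/-- slots at a vertex `c ∈ {0, l}` -/
theorem kerR_c_succ [Algebra (ZMod 2) R] (l c t : R) (hc : c = 0 ∨ c = l) (i : ℕ) :
    kerR l c t (i + 1) = t ^ i * (t + c + l) := by
  rcases hc with rfl | rfl
  · rw [kerR_zero_succ, add_zero]
  · rw [kerR_self_succ, pow_succ]
    linear_combination (-t ^ i) * dbl c

theorem kerR_step [Algebra (ZMod 2) R] (l c : R) (hc : c = 0 ∨ c = l) :
    kerR l c (c + l) = fun j => if j = 0 then 1 else 0 := by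
  funext j
  cases j with
  | zero => rfl
  | succ i =>
    rw [kerR_c_succ l c _ hc, if_neg (Nat.succ_ne_zero i)]
    have : c + l + c + l = 0 := by linear_combination dbl c + dbl l
    rw [this, mul_zero]

theorem kerR_l_one [Algebra (ZMod 2) R] (l s : R) : kerR l s (s + l) 1 = 0 := by
  have h : kerR l s (s + l) 1 = hh 1 s (s + l) + l * hh 0 s (s + l) := rfl
  rw [h, hh_succ, hh_zero]
  linear_combination dbl s + dbl l

theorem kerR_l_two [Algebra (ZMod 2) R] (l s : R) (i : ℕ) :
    kerR l s (s + l) (i + 2) = s * (s + l) * hh i s (s + l) := by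
  have h : kerR l s (s + l) (i + 2) = hh (i + 2) s (s + l) + l * hh (i + 1) s (s + l) := rfl
  rw [h, hh_succ (i + 1), hh_succ i]
  linear_combination dbl ((s + l) ^ (i + 2))

theorem c_add [Algebra (ZMod 2) R] {l c : R} (hc : c = 0 ∨ c = l) : c + l = 0 ∨ c + l = l := by
  rcases hc with rfl | rfl
  · right; ring
  · left; exact dbl c

theorem c_nsmul [Algebra (ZMod 2) R] (l : R) (i : ℕ) : i • l = 0 ∨ i • l = l := by
  induction i with
  | zero => left; simp
  | succ i ih => rw [succ_nsmul]; exact c_add ih

end Kernel

section Ev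

variable {R : Type} [CommRing R]

theorem app_del (D : ℕ) (hD : 1 ≤ D) (P : List ℕ → R) :
    app D (fun j => if j = 0 then 1 else 0) P = fun x => P (0 :: x) := by
  funext x
  unfold app
  rw [Finset.sum_eq_single_of_mem 0 (Finset.mem_range.2 hD)]
  · simp
  · intro j _ hj
    simp [hj]

theorem app_geo_zero (D : ℕ) (hD : 1 ≤ D) (P : List ℕ → R) :
    app D (geo 0) P = fun x => P (0 :: x) := by
  rw [← app_del D hD P]
  congr 1
  funext j
  cases j with
  | zero => simp [geo]
  | succ j => simp [geo]

theorem evS_eq (D : ℕ) (l b : R) (P : List ℕ → R) (ρ : List R) :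
    evS D l b P ρ = ev D (starW l b ρ) (app D (geo b) P) := rfl

theorem evW_cons (D : ℕ) (l c r : R) (Q : List ℕ → R) (ρ : List R) :
    ev D (starW l c (r :: ρ)) Q = ev D (starW l (c + r) ρ) (app D (kerR l c (c + r)) Q) := rfl

theorem starW_length (l : R) (ρ : List R) : ∀ b : R, (starW l b ρ).length = ρ.length := by
  induction ρ with
  | nil => intro b; rfl
  | cons r ρ ih => intro b; simp [starW, ih]

theorem evW_rep [Algebra (ZMod 2) R] (D : ℕ) (hD : 1 ≤ D) (l : R) (ρ : List R) (i : ℕ) :
    ∀ (c : R) (_ : c = 0 ∨ c = l) (Q : List ℕ → R),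
      ev D (starW l c (List.replicate i l ++ ρ)) Q =
        ev D (starW l (c + i • l) ρ) (fun x => Q (List.replicate i 0 ++ x)) := by
  induction i with
  | zero =>
    intro c _ Q
    simp
  | succ i ih =>
    intro c hc Q
    rw [List.replicate_succ, List.cons_append, evW_cons, kerR_step l c hc, app_del D hD,
      ih (c + l) (c_add hc)]
    congr 2
    rw [succ_nsmul]
    ring

theorem evS_zero_rep [Algebra (ZMod 2) R] (D : ℕ) (hD : 1 ≤ D) (l : R) (ρ : List R) (i : ℕ)
    (P : List ℕ → R) :
    evS D l 0 P (List.replicate i l ++ ρ) =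
      ev D (starW l (i • l) ρ) (fun x => P (0 :: (List.replicate i 0 ++ x))) := by
  rw [evS_eq, app_geo_zero D hD, evW_rep D hD l ρ i 0 (Or.inl rfl), zero_add]

theorem appL_single (D : ℕ) (a : ℕ) (ws : List (ℕ → R)) : ∀ P : List ℕ → R,
    appL D ws P [a] = ev D ws (fun x => P (x ++ [a])) := by
  induction ws with
  | nil => intro P; rfl
  | cons w ws ih =>
    intro P
    show appL D ws (app D w P) [a] = _
    rw [ih]
    rfl

theorem ev_last (D : ℕ) (ws : List (ℕ → R)) (w : ℕ → R) (P : List ℕ → R) :
    ev D (ws ++ [w]) P = ∑ a ∈ range D, w a * ev D ws (fun x => P (x ++ [a])) := by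
  rw [ev_append]
  show app D w (appL D ws P) [] = _
  unfold app
  exact Finset.sum_congr rfl fun a _ => by rw [appL_single]

theorem evS_length_ne {D m : ℕ} {P : List ℕ → R} (h : SuppR D (m + 1) P) (l b : R) (ρ : List R)
    (hρ : ρ.length ≠ m) : evS D l b P ρ = 0 := by
  unfold evS
  refine ev_of_length_ne h _ ?_
  simp only [List.length_cons, starW_length]
  omega

end Ev

section Nat

set_option linter.unusedSectionVars false

variable {R R' : Type} [CommRing R] [CommRing R'] [Algebra (ZMod 2) R] [Algebra (ZMod 2) R']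

theorem hh_map (f : R →+* R') (i : ℕ) (s t : R) : f (hh i s t) = hh i (f s) (f t) := by
  simp [hh, map_sum]

theorem kerR_map (f : R →+* R') (l s t : R) (i : ℕ) :
    f (kerR l s t i) = kerR (f l) (f s) (f t) i := by
  cases i with
  | zero => simp [kerR]
  | succ i => simp only [kerR, map_add, map_mul, hh_map]

theorem starW_map (f : R →+* R') (l : R) (ρ : List R) : ∀ b : R,
    (starW l b ρ).map (fun w j => f (w j)) = starW (f l) (f b) (ρ.map f) := by
  induction ρ with
  | nil => intro b; rfl
  | cons r ρ ih =>
    intro b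
    simp only [starW, List.map_cons, ih, map_add]
    congr 1
    funext j
    rw [kerR_map, map_add]

theorem evS_map (f : R →+* R') (D : ℕ) (l b : R) (v : List ℕ → ZMod 2) (ρ : List R) :
    f (evS D l b (cast R v) ρ) = evS D (f l) (f b) (cast R' v) (ρ.map f) := by
  unfold evS
  rw [ev_map, List.map_cons, starW_map]
  congr 1
  · congr 1
    funext j
    simp [geo]
  · funext x
    exact cast_map f v x

theorem S_map (f : R →+* R') (D k : ℕ) (l b : R) (v : List ℕ → ZMod 2) (W : List R) :
    f (S D k l b (cast R v) W) = S D k (f l) (f b) (cast R' v) (W.map f) := by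
  unfold S
  have h := shs_map f.toAddMonoidHom (evS D l b (cast R v)) (List.replicate k l) W
  have h' : f (shs (evS D l b (cast R v)) (List.replicate k l) W) =
      shs (fun ρ => f (evS D l b (cast R v) ρ)) (List.replicate k l) W := h
  rw [h', ← List.map_replicate, shs_letters]
  congr 1
  funext ρ
  rw [evS_map]

theorem S_eval (D k : ℕ) (l b : R) (v : List ℕ → ZMod 2) (W : List R) (p : R[X]) (L : R[X])
    (V : List R[X]) (x : R) (hL : L.eval x = l) (hp : p.eval x = b)
    (hV : V.map (fun q => q.eval x) = W) :
    (S D k L p (cast R[X] v) V).eval x = S D k l b (cast R v) W := by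
  have h := S_map (evalRingHom x) D k L p v V
  simp only [coe_evalRingHom, hL, hp] at h
  rw [h]
  have h2 : V.map (evalRingHom x) = W := by
    rw [← hV]
    rfl
  exact congrArg (S D k l b (cast R v)) h2

end Nat

section Cancel

variable {R : Type} [CommRing R]

theorem cancel_X {p : R[X]} (h : X * p = 0) : p = 0 := by
  have h1 := (monic_X (R := R)).isRegular.left
  exact h1 (by simpa using h)

theorem cancel_XC (c : R) {p : R[X]} (h : (X + C c) * p = 0) : p = 0 := by
  have h1 := (monic_X_add_C c).isRegular.left
  exact h1 (by simpa using h)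

end Cancel

section Shift

/-- lower the base exponent -/
def up (v : List ℕ → ZMod 2) : List ℕ → ZMod 2
  | [] => 0
  | n :: x => v ((n + 1) :: x)

/-- remove `j + 1` slots with exponent `0` and lower the next exponent -/
def sft (j : ℕ) (v : List ℕ → ZMod 2) : List ℕ → ZMod 2
  | [] => 0
  | n :: x => v (0 :: (List.replicate j 0 ++ (n + 1) :: x))

/-- the last exponent is at least 2 -/
def LastTwo (v : List ℕ → ZMod 2) : Prop := ∀ l, v l ≠ 0 → ∃ l' a, l = l' ++ [a] ∧ 2 ≤ a

theorem LastTwo.eq_zero {v : List ℕ → ZMod 2} (h : LastTwo v) (l : List ℕ) (a : ℕ) (ha : a < 2) :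
    v (l ++ [a]) = 0 := by
  by_contra h0
  obtain ⟨l', a', h1, h2⟩ := h _ h0
  have := (List.append_inj' h1 rfl).2
  simp only [List.cons.injEq, and_true] at this
  omega

theorem supp_up {D m : ℕ} {v : List ℕ → ZMod 2} (h : Supp D (m + 1) v) : Supp D (m + 1) (up v) := by
  intro l hl
  cases l with
  | nil => exact absurd rfl hl
  | cons n x =>
    have h1 := h ((n + 1) :: x) hl
    refine ⟨by simpa using h1.1, ?_⟩
    intro a ha
    rcases List.mem_cons.1 ha with rfl | ha
    · have := h1.2 (a + 1) (by simp)
      omega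
    · exact h1.2 a (by simp [ha])

theorem last_up {m D : ℕ} (hm : 1 ≤ m) {v : List ℕ → ZMod 2} (hs : Supp D (m + 1) v)
    (h : LastTwo v) : LastTwo (up v) := by
  intro l hl
  cases l with
  | nil => exact absurd rfl hl
  | cons n x =>
    have h1 := (hs ((n + 1) :: x) hl).1
    obtain ⟨l', a, h2, h3⟩ := h ((n + 1) :: x) hl
    cases l' with
    | nil =>
      exfalso
      have h4 := congrArg List.length h2
      simp only [List.length_cons, List.nil_append, List.length_nil] at h4 h1
      omega
    | cons c l' =>
      rw [List.cons_append, List.cons.injEq] at h2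
      exact ⟨n :: l', a, by rw [h2.2]; rfl, h3⟩

theorem supp_sft {D m j : ℕ} {v : List ℕ → ZMod 2} (h : Supp D (m + 1 + j + 1) v) :
    Supp D (m + 1) (sft j v) := by
  intro l hl
  cases l with
  | nil => exact absurd rfl hl
  | cons n x =>
    have h1 := h _ hl
    refine ⟨?_, ?_⟩
    · have := h1.1
      simp only [List.length_cons, List.length_append, List.length_replicate] at this ⊢
      omega
    · intro a ha
      rcases List.mem_cons.1 ha with rfl | ha
      · have := h1.2 (a + 1) (by simp)
        omega
      · exact h1.2 a (by simp [ha])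

theorem last_sft {m D j : ℕ} (hm : 1 ≤ m) {v : List ℕ → ZMod 2} (hs : Supp D (m + 1 + j + 1) v)
    (h : LastTwo v) : LastTwo (sft j v) := by
  intro l hl
  cases l with
  | nil => exact absurd rfl hl
  | cons n x =>
    have h1 := (hs _ hl).1
    obtain ⟨l', a, h2, h3⟩ := h _ hl
    have hx : x ≠ [] := by
      rintro rfl
      simp only [List.length_cons, List.length_append, List.length_replicate,
        List.length_nil] at h1
      omega
    obtain ⟨x', b, rfl⟩ : ∃ x' b, x = x' ++ [b] :=
      ⟨x.dropLast, x.getLast hx, (List.dropLast_append_getLast hx).symm⟩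
    refine ⟨n :: x', b, rfl, ?_⟩
    have h4 : (0 :: (List.replicate j 0 ++ (n + 1) :: x')) ++ [b] = l' ++ [a] := by
      rw [← h2]
      simp
    have h5 := (List.append_inj' h4 rfl).2
    simp only [List.cons.injEq, and_true] at h5
    omega

end Shift


section Main

variable {D : ℕ}

theorem cast_ne_zero {R : Type} [CommRing R] [Algebra (ZMod 2) R] {v : List ℕ → ZMod 2}
    {l : List ℕ} (h : v l = 0) : cast R v l = 0 := by
  simp [cast, h]

/-- `S(v) = b S(up v)` if `v(0 :: ·) = 0` -/
theorem S_up {m : ℕ} {v : List ℕ → ZMod 2} (hs : Supp D (m + 1) v) (h0 : ∀ x, v (0 :: x) = 0)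
    {R : Type} [CommRing R] [Algebra (ZMod 2) R] (k : ℕ) (l b : R) (W : List R) :
    S D k l b (cast R v) W = b * S D k l b (cast R (up v)) W := by
  have happ : app D (geo b) (cast R v) = b • app D (geo b) (cast R (up v)) := by
    funext x
    have e1 : app D (geo b) (cast R v) x = ∑ j ∈ range (D + 1), b ^ j * cast R v (j :: x) := by
      rw [Finset.sum_range_succ]
      have : cast R v (D :: x) = 0 := by
        apply cast_ne_zero
        by_contra h
        exact absurd ((hs _ h).2 D (by simp)) (lt_irrefl D)
      rw [this, mul_zero, add_zero]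
      rfl
    rw [e1, Finset.sum_range_succ', cast_ne_zero (h0 x), mul_zero, add_zero]
    simp only [Pi.smul_apply, smul_eq_mul, app, Finset.mul_sum]
    refine Finset.sum_congr rfl fun j _ => ?_
    have : cast R (up v) (j :: x) = cast R v ((j + 1) :: x) := rfl
    rw [this, geo, pow_succ]
    ring
  have hev : ∀ ρ, evS D l b (cast R v) ρ = b * evS D l b (cast R (up v)) ρ := by
    intro ρ
    rw [evS_eq, evS_eq, happ, ev_smul]
  unfold S
  have h1 := shs_map (AddMonoidHom.mulLeft b) (evS D l b (cast R (up v))) (List.replicate k l) W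
  have h2 : b * shs (evS D l b (cast R (up v))) (List.replicate k l) W =
      shs (fun ρ => b * evS D l b (cast R (up v)) ρ) (List.replicate k l) W := h1
  rw [h2]
  congr 1
  funext ρ
  exact hev ρ

theorem hypX_up {m : ℕ} {v : List ℕ → ZMod 2} (hs : Supp D (m + 1) v) (h0 : ∀ x, v (0 :: x) = 0)
    (h : HypX D m v) : HypX D m (up v) := by
  constructor
  · intro R _ _ l b k W w w' hk hW
    have h1 := h.lt R[X] (C l) X k (W.map C) (C w) (C w') hk (by simpa using hW)
    rw [S_up hs h0, S_up hs h0] at h1
    have h2 : (X : R[X]) * ((C w' + C l) * S D k (C l) X (cast R[X] (up v)) (W.map C ++ [C w]) -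
        (C w + C l) * S D k (C l) X (cast R[X] (up v)) (W.map C ++ [C w'])) = 0 := by
      linear_combination h1
    have h3 := congrArg (fun p => p.eval b) (cancel_X h2)
    simp only [eval_sub, eval_mul, eval_add, eval_C, eval_zero] at h3
    rw [S_eval D k l b (up v) (W ++ [w]) X (C l) _ b (eval_C) eval_X (by simp [Function.comp_def]),
      S_eval D k l b (up v) (W ++ [w']) X (C l) _ b (eval_C) eval_X (by simp [Function.comp_def])] at h3
    exact sub_eq_zero.1 h3
  · intro R _ _ l b
    have h1 := h.top R[X] (C l) X
    rw [S_up hs h0] at h1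
    have h3 := congrArg (fun p => p.eval b) (cancel_X h1)
    simp only [eval_zero] at h3
    rwa [S_eval D m l b (up v) [] X (C l) [] b (eval_C) eval_X rfl] at h3

/-- the key identity: `w1` is the first letter after `l^j` -/
theorem S_key (hD : 1 ≤ D) {m j : ℕ} {v : List ℕ → ZMod 2} (hs : Supp D (m + 1 + j + 1) v)
    (hc : ∀ x, v (0 :: (List.replicate (j + 1) 0 ++ x)) = 0)
    {R : Type} [CommRing R] [Algebra (ZMod 2) R] (k : ℕ) (l w1 : R) (W : List R) :
    S D k l 0 (cast R v) (List.replicate j l ++ w1 :: W) =
      (w1 + l) * S D k l (j • l + w1) (cast R (sft j v)) W := by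
  unfold S
  rw [shs_split (fun x => x = l) (List.replicate j l) w1 W
    (fun x hx => List.eq_of_mem_replicate hx) (List.replicate k l)
    (fun x hx => List.eq_of_mem_replicate hx)]
  · have hF : (fun ρ => evS D l 0 (cast R v) (List.replicate j l ++ w1 :: ρ)) =
        fun ρ => (w1 + l) * evS D l (j • l + w1) (cast R (sft j v)) ρ := by
      funext ρ
      rw [evS_zero_rep D hD, evW_cons, evS_eq]
      have happ : app D (kerR l (j • l) (j • l + w1))
          (fun x => cast R v (0 :: (List.replicate j 0 ++ x))) =
          (w1 + l) • app D (geo (j • l + w1)) (cast R (sft j v)) := by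
        funext x
        have e1 : app D (kerR l (j • l) (j • l + w1))
            (fun x => cast R v (0 :: (List.replicate j 0 ++ x))) x =
            ∑ n ∈ range (D + 1), kerR l (j • l) (j • l + w1) n *
              cast R v (0 :: (List.replicate j 0 ++ n :: x)) := by
          rw [Finset.sum_range_succ]
          have : cast R v (0 :: (List.replicate j 0 ++ D :: x)) = 0 := by
            apply cast_ne_zero
            by_contra h
            exact absurd ((hs _ h).2 D (by simp)) (lt_irrefl D)
          rw [this, mul_zero, add_zero]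
          rfl
        have e2 : cast R v (0 :: (List.replicate j 0 ++ 0 :: x)) = 0 := by
          apply cast_ne_zero
          have := hc x
          rwa [List.replicate_succ', List.append_assoc] at this
        rw [e1, Finset.sum_range_succ', e2, mul_zero, add_zero]
        simp only [Pi.smul_apply, smul_eq_mul, app, Finset.mul_sum]
        refine Finset.sum_congr rfl fun n _ => ?_
        rw [kerR_c_succ l (j • l) _ (c_nsmul l j)]
        have : cast R (sft j v) (n :: x) =
          cast R v (0 :: (List.replicate j 0 ++ (n + 1) :: x)) := rfl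
        rw [this, geo]
        have e3 : j • l + w1 + j • l + l = w1 + l := by linear_combination dbl (j • l)
        rw [e3]
        ring
      rw [happ, ev_smul]
    rw [hF]
    have h1 := shs_map (AddMonoidHom.mulLeft (w1 + l))
      (evS D l (j • l + w1) (cast R (sft j v))) (List.replicate k l) W
    exact h1.symm
  · intro ρ hρ
    rw [List.length_replicate] at hρ
    by_cases hlen : ρ.length = m + 1 + j
    · have h1 : ρ = List.replicate (j + 1) l ++ ρ.drop (j + 1) := by
        conv_lhs => rw [← List.take_append_drop (j + 1) ρ]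
        congr 1
        refine List.eq_replicate_iff.2 ⟨?_, hρ⟩
        rw [List.length_take]
        omega
      rw [h1, evS_zero_rep D hD]
      have h2 : (fun x => cast R v (0 :: (List.replicate (j + 1) 0 ++ x))) = 0 := by
        funext x
        exact cast_ne_zero (hc x)
      rw [h2, ev_zero]
    · exact evS_length_ne hs.cast l 0 ρ hlen

/-- step of the downward induction -/
theorem hypX_sft (hD : 1 ≤ D) {m j : ℕ} (hm : 1 ≤ m) {v : List ℕ → ZMod 2}
    (hs : Supp D (m + 1 + j + 1) v) (hl : LastTwo v)
    (hc : ∀ x, v (0 :: (List.replicate (j + 1) 0 ++ x)) = 0) (h : HypX D (m + 1 + j) v) :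
    HypX D m (sft j v) := by
  constructor
  · intro R _ _ l b k W w w' hk hW
    have h1 := h.lt R[X] (C l) 0 k (List.replicate j (C l) ++ (X + C (j • l)) :: W.map C)
      (C w) (C w') hk (by simp; omega)
    rw [List.append_assoc, List.append_assoc, List.cons_append, List.cons_append,
      S_key hD hs hc, S_key hD hs hc] at h1
    have e : j • (C l : R[X]) + (X + C (j • l)) = X := by
      rw [map_nsmul]
      linear_combination dbl (j • (C l : R[X]))
    rw [e] at h1
    have h2 : (X + C (j • l + l) : R[X]) *
        ((C w' + C l) * S D k (C l) X (cast R[X] (sft j v)) (W.map C ++ [C w]) -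
        (C w + C l) * S D k (C l) X (cast R[X] (sft j v)) (W.map C ++ [C w'])) = 0 := by
      rw [map_add]
      linear_combination h1
    have h3 := congrArg (fun p => p.eval b) (cancel_XC _ h2)
    simp only [eval_sub, eval_mul, eval_add, eval_C, eval_zero] at h3
    rw [S_eval D k l b (sft j v) (W ++ [w]) X (C l) _ b (eval_C) eval_X
        (by simp [Function.comp_def]),
      S_eval D k l b (sft j v) (W ++ [w']) X (C l) _ b (eval_C) eval_X
        (by simp [Function.comp_def])] at h3
    exact sub_eq_zero.1 h3
  · -- `f b = S_m(b; [])` is constant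
    have base : ∀ (R : Type) [CommRing R] [Algebra (ZMod 2) R] (l w w' : R),
        (w' + l) * ((w + l) * S D m l (j • l + w) (cast R (sft j v)) []) =
        (w + l) * ((w' + l) * S D m l (j • l + w') (cast R (sft j v)) []) := by
      intro R _ _ l w w'
      have h1 := h.lt R l 0 m (List.replicate j l) w w' hm (by simp; omega)
      rwa [S_key hD hs hc, S_key hD hs hc] at h1
    have step1 : ∀ (R : Type) [CommRing R] [Algebra (ZMod 2) R] (l w w' : R),
        (w + l) * (S D m l (j • l + w) (cast R (sft j v)) [] -
          S D m l (j • l + w') (cast R (sft j v)) []) = 0 := by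
      intro R _ _ l w w'
      have h1 := base R[X] (C l) (C w) X
      have h2 : (X + C l : R[X]) * ((C w + C l) *
          (S D m (C l) (j • C l + C w) (cast R[X] (sft j v)) [] -
          S D m (C l) (j • C l + X) (cast R[X] (sft j v)) [])) = 0 := by
        linear_combination h1
      have h3 := congrArg (fun p => p.eval w') (cancel_XC _ h2)
      simp only [eval_sub, eval_mul, eval_add, eval_C, eval_zero] at h3
      rwa [S_eval D m l (j • l + w) (sft j v) [] _ (C l) [] w' (eval_C) (by simp) rfl,
        S_eval D m l (j • l + w') (sft j v) [] _ (C l) [] w' (eval_C) (by simp) rfl] at h3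
    have step2 : ∀ (R : Type) [CommRing R] [Algebra (ZMod 2) R] (l w w' : R),
        S D m l (j • l + w) (cast R (sft j v)) [] =
          S D m l (j • l + w') (cast R (sft j v)) [] := by
      intro R _ _ l w w'
      have h1 := step1 R[X] (C l) X (C w')
      have h3 := congrArg (fun p => p.eval w) (cancel_XC _ h1)
      simp only [eval_sub, eval_zero] at h3
      rw [S_eval D m l (j • l + w) (sft j v) [] _ (C l) [] w (eval_C) (by simp) rfl,
        S_eval D m l (j • l + w') (sft j v) [] _ (C l) [] w (eval_C) (by simp) rfl] at h3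
      exact sub_eq_zero.1 h3
    intro R _ _ l b
    have h1 := step2 R l (b + j • l) (j • l)
    rw [dbl (j • l), show j • l + (b + j • l) = b by linear_combination dbl (j • l)] at h1
    rw [h1]
    unfold S
    rw [shs_nil_right]
    have h2 := evS_zero_rep D hD l [] m (cast R (sft j v))
    rw [List.append_nil] at h2
    rw [h2]
    show cast R (sft j v) (0 :: (List.replicate m 0 ++ [])) = 0
    apply cast_ne_zero
    obtain ⟨m', rfl⟩ : ∃ m', m = m' + 1 := ⟨m - 1, by omega⟩
    rw [List.append_nil, List.replicate_succ', ← List.cons_append]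
    exact (last_sft hm hs hl).eq_zero _ 0 (by norm_num)

end Main

section Top

variable {D : ℕ}

theorem starW_rep {R : Type} [CommRing R] [Algebra (ZMod 2) R] (l b : R) (m : ℕ) :
    ∀ c : R, (c = b ∨ c = b + l) →
      starW l c (List.replicate m l) = List.replicate m (kerR l b (b + l)) := by
  induction m with
  | zero => intro c _; rfl
  | succ m ih =>
    intro c hc
    rw [List.replicate_succ, List.replicate_succ]
    show kerR l c (c + l) :: starW l (c + l) (List.replicate m l) = _
    rcases hc with rfl | rfl
    · rw [ih _ (Or.inr rfl)]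
    · have e : b + l + l = b := by linear_combination dbl l
      rw [e, ih _ (Or.inl rfl), kerR_comm]

/-- the beginning of the downward induction -/
theorem claim_top (hD : 1 ≤ D) {m1 : ℕ} {v : List ℕ → ZMod 2} (hs : Supp D (m1 + 1 + 1) v)
    (hl : LastTwo v) (h : HypX D (m1 + 1) v) (a0 : ℕ) :
    v (0 :: (List.replicate m1 0 ++ [a0])) = 0 := by
  by_cases ha2 : a0 < 2
  · rw [← List.cons_append]
    exact hl.eq_zero _ _ ha2
  by_cases haD : D ≤ a0
  · by_contra h0
    exact absurd ((hs _ h0).2 a0 (by simp)) (not_lt.2 haD)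
  have h1 := h.top (ZMod 2)[X][X] (C X) X
  set l : (ZMod 2)[X][X] := C X with hldef
  set b : (ZMod 2)[X][X] := X with hbdef
  unfold S at h1
  rw [shs_nil_right] at h1
  have e1 : evS D l b (cast (ZMod 2)[X][X] v) (List.replicate (m1 + 1) l) =
      ev D ((geo b :: List.replicate m1 (kerR l b (b + l))) ++ [kerR l b (b + l)])
        (cast (ZMod 2)[X][X] v) := by
    unfold evS
    rw [starW_rep l b (m1 + 1) b (Or.inl rfl), List.replicate_succ', List.cons_append]
  rw [e1, ev_last] at h1
  set E : ℕ → (ZMod 2)[X][X] := fun a =>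
    ev D (geo b :: List.replicate m1 (kerR l b (b + l)))
      (fun x => cast (ZMod 2)[X][X] v (x ++ [a])) with hE
  have hE0 : ∀ a, a < 2 → E a = 0 := by
    intro a ha
    have : (fun x => cast (ZMod 2)[X][X] v (x ++ [a])) = 0 := by
      funext x
      exact cast_ne_zero (hl.eq_zero x a ha)
    rw [hE]
    simp only
    rw [this, ev_zero]
  have e2 : ∑ a ∈ range D, kerR l b (b + l) a * E a =
      b * ((b + l) * ∑ a ∈ range D, (if a < 2 then 0 else hh (a - 2) b (b + l)) * E a) := by
    rw [Finset.mul_sum, Finset.mul_sum]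
    refine Finset.sum_congr rfl fun a _ => ?_
    by_cases ha : a < 2
    · rw [hE0 a ha]; ring
    · obtain ⟨i, rfl⟩ : ∃ i, a = i + 2 := ⟨a - 2, by omega⟩
      rw [kerR_l_two, if_neg ha, show i + 2 - 2 = i by omega]
      ring
  have h2 : b * ((b + l) * ∑ a ∈ range D, (if a < 2 then 0 else hh (a - 2) b (b + l)) * E a) = 0 := by
    rw [← e2]; exact h1
  have h3 := cancel_XC _ (cancel_X h2)
  have h4 := congrArg (evalRingHom (0 : (ZMod 2)[X])) h3
  rw [map_sum, map_zero] at h4
  have hEev : ∀ a, evalRingHom (0 : (ZMod 2)[X]) (E a) =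
      cast (ZMod 2)[X] v (0 :: (List.replicate m1 0 ++ [a])) := by
    intro a
    have h5 := ev_map (evalRingHom (0 : (ZMod 2)[X])) D
      (geo b :: List.replicate m1 (kerR l b (b + l)))
      (fun x => cast (ZMod 2)[X][X] v (x ++ [a]))
    rw [List.map_cons, List.map_replicate] at h5
    have g1 : (fun j => evalRingHom (0 : (ZMod 2)[X]) (geo b j)) = geo 0 := by
      funext j
      simp [geo, hbdef]
    have g2 : (fun j => evalRingHom (0 : (ZMod 2)[X]) (kerR l b (b + l) j)) =
        fun j => if j = 0 then 1 else 0 := by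
      funext j
      rw [kerR_map]
      have : evalRingHom (0 : (ZMod 2)[X]) (b + l) = 0 + X := by
        simp [hbdef, hldef]
      rw [this]
      have h6 : evalRingHom (0 : (ZMod 2)[X]) l = X := by simp [hldef]
      have h7 : evalRingHom (0 : (ZMod 2)[X]) b = 0 := by simp [hbdef]
      rw [h6, h7, kerR_step X 0 (Or.inl rfl)]
    have g3 : (fun x => evalRingHom (0 : (ZMod 2)[X]) (cast (ZMod 2)[X][X] v (x ++ [a]))) =
        fun x => cast (ZMod 2)[X] v (x ++ [a]) := by
      funext x
      exact cast_map _ v _
    rw [g1, g2, g3] at h5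
    have h8 : evalRingHom (0 : (ZMod 2)[X]) (E a) = _ := h5
    rw [h8]
    show ev D (List.replicate m1 _) (app D (geo 0) _) = _
    rw [app_geo_zero D hD]
    have h9 : ∀ (n : ℕ) (Q : List ℕ → (ZMod 2)[X]),
        ev D (List.replicate n (fun j => if j = 0 then (1 : (ZMod 2)[X]) else 0)) Q =
          Q (List.replicate n 0) := by
      intro n
      induction n with
      | zero => intro Q; rfl
      | succ n ih =>
        intro Q
        rw [List.replicate_succ, List.replicate_succ]
        show ev D _ (app D _ Q) = _
        rw [app_del D hD, ih]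
    rw [h9]
    rfl
  have h10 : ∑ a ∈ range D, (if a < 2 then 0 else (X : (ZMod 2)[X]) ^ (a - 2)) *
      C (v (0 :: (List.replicate m1 0 ++ [a]))) = 0 := by
    refine Eq.trans ?_ h4
    refine Finset.sum_congr rfl fun a _ => ?_
    rw [map_mul, hEev]
    have : (algebraMap (ZMod 2) (ZMod 2)[X]) (v (0 :: (List.replicate m1 0 ++ [a]))) =
      C (v (0 :: (List.replicate m1 0 ++ [a]))) := rfl
    rw [cast, this]
    congr 1
    by_cases ha : a < 2
    · rw [if_pos ha, if_pos ha, map_zero]
    · rw [if_neg ha, if_neg ha, hh_map]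
      have g5 : evalRingHom (0 : (ZMod 2)[X]) (b + l) = X := by
        simp [hbdef, hldef]
      have g6 : evalRingHom (0 : (ZMod 2)[X]) b = 0 := by simp [hbdef]
      rw [g5, g6, hh_zero_left]
  have h11 := congrArg (fun p : (ZMod 2)[X] => p.coeff (a0 - 2)) h10
  simp only [finsetSum_coeff, coeff_mul_C, coeff_zero] at h11
  rw [Finset.sum_eq_single_of_mem a0 (Finset.mem_range.2 (by omega))] at h11
  · rw [if_neg ha2, coeff_X_pow, if_pos rfl, one_mul] at h11
    exact h11
  · intro a _ hne
    by_cases ha : a < 2
    · rw [if_pos ha]; simp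
    · rw [if_neg ha, coeff_X_pow, if_neg (by omega), zero_mul]

/-- Lemma X -/
theorem main (hD : 2 ≤ D) : ∀ (m : ℕ), 1 ≤ m → ∀ (v : List ℕ → ZMod 2), Supp D (m + 1) v →
    LastTwo v → HypX D m v → ∀ l, v l = 0 := by
  have hD1 : 1 ≤ D := by omega
  intro m
  induction m using Nat.strong_induction_on with
  | _ m ihm =>
    intro hm
    -- base exponent zero
    have base : ∀ v : List ℕ → ZMod 2, Supp D (m + 1) v → LastTwo v → HypX D m v →
        ∀ x, v (0 :: x) = 0 := by
      intro v hs hl hX
      have claim : ∀ i, i + 1 ≤ m → ∀ x, v (0 :: (List.replicate (m - 1 - i) 0 ++ x)) = 0 := by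
        intro i
        induction i with
        | zero =>
          intro _ x
          obtain ⟨m1, rfl⟩ : ∃ m1, m = m1 + 1 := ⟨m - 1, by omega⟩
          rw [show m1 + 1 - 1 - 0 = m1 by omega]
          by_cases hx : x.length = 1
          · obtain ⟨a, rfl⟩ := List.length_eq_one_iff.1 hx
            exact claim_top hD1 hs hl hX a
          · by_contra h0
            have := (hs _ h0).1
            simp only [List.length_cons, List.length_append, List.length_replicate] at this
            omega
        | succ i ih =>
          intro hi x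
          have ih' := ih (by omega)
          -- `j = m - 2 - i`, `m = (i+1) + 1 + j`
          obtain ⟨j, hj⟩ : ∃ j, m = i + 1 + 1 + j := ⟨m - 2 - i, by omega⟩
          subst hj
          rw [show i + 1 + 1 + j - 1 - (i + 1) = j by omega]
          rw [show i + 1 + 1 + j - 1 - i = j + 1 by omega] at ih'
          have hs' : Supp D (i + 1 + 1 + j + 1) v := hs
          have hw := ihm (i + 1) (by omega) (by omega) (sft j v) (supp_sft hs')
            (last_sft (by omega) hs' hl) (hypX_sft hD1 (by omega) hs' hl ih' hX)
          cases x with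
          | nil =>
            by_contra h0
            have := (hs _ h0).1
            simp only [List.length_cons, List.length_append, List.length_replicate,
              List.length_nil] at this
            omega
          | cons n x =>
            cases n with
            | zero =>
              have := ih' x
              rwa [List.replicate_succ', List.append_assoc] at this
            | succ n => exact hw (n :: x)
      intro x
      have := claim (m - 1) (by omega) x
      rwa [Nat.sub_self, List.replicate_zero, List.nil_append] at this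
    have all : ∀ N : ℕ, ∀ v : List ℕ → ZMod 2, Supp D (m + 1) v → LastTwo v → HypX D m v →
        ∀ x, v (N :: x) = 0 := by
      intro N
      induction N with
      | zero => exact base
      | succ N ih =>
        intro v hs hl hX x
        exact ih (up v) (supp_up hs) (last_up hm hs hl) (hypX_up hs (base v hs hl hX) hX) x
    intro v hs hl hX l
    cases l with
    | nil =>
      by_contra h0
      have := (hs _ h0).1
      simp at this
    | cons N x => exact all N v hs hl hX x

end Top

end MP154526.Top.Star.LX

namespace MP154526.Top.Star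

/-- LEMMA X -/
theorem specX : SpecX := fun _ m v hD hm hs hl hX => LX.main hD m hm v hs hl hX

end MP154526.Top.Star
end

section
/-!
# Theorem R from Lemma X
-/
set_option autoImplicit false

namespace MP154526.Top.Star

open Finset

namespace ThmR

variable {R : Type} [CommRing R]

/-- coefficient of exponent `j` in the last slot -/
def la {M : Type} (j : ℕ) (P : List ℕ → M) : List ℕ → M := fun x => P (x ++ [j])

theorem appL_eq_ev (D : ℕ) (ws : List (ℕ → R)) (P : List ℕ → R) (z : List ℕ) :
    appL D ws P z = ev D ws (fun x => P (x ++ z)) := by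
  induction ws generalizing P with
  | nil => rfl
  | cons w ws ih =>
    show appL D ws (app D w P) z = ev D ws (app D w fun x => P (x ++ z))
    rw [ih]
    rfl

theorem ev_snoc (D : ℕ) (ws : List (ℕ → R)) (v : ℕ → R) (P : List ℕ → R) :
    ev D (ws ++ [v]) P = ∑ j ∈ range D, v j * ev D ws (la j P) := by
  rw [ev_append]
  show app D v (appL D ws P) [] = _
  unfold app
  refine Finset.sum_congr rfl fun j _ => ?_
  rw [appL_eq_ev]
  rfl

theorem evS_snoc (D : ℕ) (l b : R) (P : List ℕ → R) (ρ : List R) (w : R) :
    evS D l b P (ρ ++ [w]) =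
      ∑ j ∈ range D, kerR l (b + ρ.sum) (b + ρ.sum + w) j * evS D l b (la j P) ρ := by
  unfold evS
  rw [starW_append]
  show ev D (geo b :: (starW l b ρ ++ [kerR l (b + ρ.sum) (b + ρ.sum + w)])) P = _
  rw [← List.cons_append, ev_snoc]

theorem shs_congr_sum {M : Type} [AddCommMonoid M] {F G : List R → M} (σ W : List R)
    (h : ∀ ρ : List R, ρ.sum = σ.sum + W.sum → F ρ = G ρ) : shs F σ W = shs G σ W := by
  induction σ, W using shs_induct generalizing F G with
  | h0 W => simpa using h W (by simp)
  | h1 a σ => simpa using h (a :: σ) (by simp)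
  | h2 a σ c W ha hb =>
    rw [shs_cons_cons, shs_cons_cons]
    congr 1
    · exact ha fun ρ hρ => h _ (by simp only [List.sum_cons] at hρ ⊢; rw [hρ]; ring)
    · exact hb fun ρ hρ => h _ (by simp only [List.sum_cons] at hρ ⊢; rw [hρ]; ring)

theorem shs_sum_mul {ι : Type} (s : Finset ι) (c : ι → R) (F : ι → List R → R) (σ W : List R) :
    shs (fun ρ => ∑ j ∈ s, c j * F j ρ) σ W = ∑ j ∈ s, c j * shs (F j) σ W := by
  induction σ, W using shs_induct generalizing F with
  | h0 W => simp
  | h1 a σ => simp
  | h2 a σ c' W ha hb =>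
    simp only [shs_cons_cons]
    rw [ha (fun j l => F j (a :: l)), hb (fun j l => F j (c' :: l)), ← Finset.sum_add_distrib]
    refine Finset.sum_congr rfl fun j _ => ?_
    ring

theorem sum_replicate (k : ℕ) (l : R) : (List.replicate k l).sum = (k : R) * l := by
  simp [List.sum_replicate]

/-- the last step is a letter of `W` -/
theorem shs_last_real (D k : ℕ) (l b : R) (P : List ℕ → R) (W : List R) (w : R) :
    shs (fun ρ => evS D l b P (ρ ++ [w])) (List.replicate k l) W =
      ∑ j ∈ range D, kerR l (b + W.sum + k * l) (b + W.sum + k * l + w) j *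
        S D k l b (la j P) W := by
  have h : shs (fun ρ => evS D l b P (ρ ++ [w])) (List.replicate k l) W =
      shs (fun ρ => ∑ j ∈ range D, kerR l (b + W.sum + k * l) (b + W.sum + k * l + w) j *
        evS D l b (la j P) ρ) (List.replicate k l) W := by
    refine shs_congr_sum _ _ fun ρ hρ => ?_
    rw [evS_snoc]
    have h1 : b + ρ.sum = b + W.sum + k * l := by
      rw [hρ, sum_replicate]
      ring
    rw [h1]
  rw [h, shs_sum_mul]
  rfl

theorem S_nil (D k : ℕ) (l b : R) (P : List ℕ → R) :
    S D k l b P [] = evS D l b P (List.replicate k l) := by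
  simp [S]

theorem S_succ_nil (D k : ℕ) (l b : R) (P : List ℕ → R) :
    S D (k + 1) l b P [] = ∑ j ∈ range D, kerR l (b + k * l) (b + k * l + l) j *
      S D k l b (la j P) [] := by
  rw [S_nil, List.replicate_succ', evS_snoc, sum_replicate]
  refine Finset.sum_congr rfl fun j _ => ?_
  rw [S_nil]

theorem S_snoc (D k : ℕ) (l b : R) (P : List ℕ → R) (W : List R) (w : R) :
    S D (k + 1) l b P (W ++ [w]) =
      ∑ j ∈ range D, kerR l (b + W.sum + (k + 1 : ℕ) * l) (b + W.sum + (k + 1 : ℕ) * l + w) j *
        S D (k + 1) l b (la j P) W +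
      ∑ j ∈ range D, kerR l (b + W.sum + k * l + w) (b + W.sum + k * l + w + l) j *
        S D k l b (la j P) (W ++ [w]) := by
  have h0 : S D (k + 1) l b P (W ++ [w]) =
      shs (fun ρ => evS D l b P (ρ ++ [l])) (List.replicate k l) (W ++ [w]) +
      shs (fun ρ => evS D l b P (ρ ++ [w])) (List.replicate (k + 1) l) W := by
    unfold S
    rw [List.replicate_succ', Red.shs_append_append]
  rw [h0, shs_last_real, shs_last_real, add_comm]
  congr 1
  refine Finset.sum_congr rfl fun j _ => ?_
  have h1 : b + (W ++ [w]).sum + k * l = b + W.sum + k * l + w := by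
    simp only [List.sum_append, List.sum_cons, List.sum_nil]
    ring
  rw [h1]

theorem la_cast [Algebra (ZMod 2) R] (j : ℕ) (P : List ℕ → ZMod 2) :
    la j (cast R P) = cast R (la j P) := rfl

/-- good functionals -/
def Gd (P : List ℕ → ZMod 2) : Prop := ∀ i l, P (i :: l) ≠ 0 → ∀ a ∈ l, a ≤ 1

theorem Gd.add {P Q : List ℕ → ZMod 2} (hP : Gd P) (hQ : Gd Q) : Gd (P + Q) := by
  intro i l h a ha
  by_cases h1 : P (i :: l) = 0
  · by_cases h2 : Q (i :: l) = 0
    · exact absurd (by simp [h1, h2]) h
    · exact hQ i l h2 a ha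
  · exact hP i l h1 a ha

theorem Gd.smul {P : List ℕ → ZMod 2} (c : ZMod 2) (hP : Gd P) : Gd (fun x => c * P x) := by
  intro i l h a ha
  refine hP i l (fun h1 => h ?_) a ha
  simp [h1]

theorem Gd.la {P : List ℕ → ZMod 2} (j : ℕ) (hP : Gd P) : Gd (ThmR.la j P) := by
  intro i l h a ha
  refine hP i (l ++ [j]) (by simpa [ThmR.la] using h) a ?_
  simp [ha]

theorem Gd.la_zero {P : List ℕ → ZMod 2} (hP : Gd P) {D m : ℕ} (hs : Supp D (m + 2) P) {j : ℕ}
    (hj : 2 ≤ j) : ThmR.la j P = 0 := by
  funext x
  by_contra h
  have h1 : P (x ++ [j]) ≠ 0 := h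
  have h2 := (hs _ h1).1
  cases x with
  | nil => simp at h2
  | cons i x =>
    have := hP i (x ++ [j]) h1 j (by simp)
    omega

theorem Supp.la {D m : ℕ} {P : List ℕ → ZMod 2} (h : Supp D (m + 1) P) (j : ℕ) :
    Supp D m (ThmR.la j P) := by
  intro x hx
  obtain ⟨h1, h2⟩ := h (x ++ [j]) hx
  refine ⟨by simpa using h1, fun a ha => h2 a (by simp [ha])⟩

theorem Supp.add {D m : ℕ} {P Q : List ℕ → ZMod 2} (hP : Supp D m P) (hQ : Supp D m Q) :
    Supp D m (P + Q) := by
  intro x hx
  by_cases h1 : P x = 0
  · by_cases h2 : Q x = 0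
    · exact absurd (by simp [h1, h2]) hx
    · exact hQ x h2
  · exact hP x h1

/-- the strong hypothesis: the sums over insertions are evaluations of functionals `g k`
not depending on `l`, and modulo good functionals `g k` strips `k` trailing zeros of `g 0` -/
structure HypR' (D m : ℕ) (g : ℕ → List ℕ → ZMod 2) (c : ℕ → ZMod 2) : Prop where
  supp : ∀ k, k ≤ m → Supp D (m - k + 1) (g k)
  ins : ∀ (R : Type) [CommRing R] [Algebra (ZMod 2) R] (l b : R) (k : ℕ) (W : List R),
    k + W.length = m → S D k l b (cast R (g 0)) W = evS D l b (cast R (g k)) W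
  good : ∀ k, 1 ≤ k → k ≤ m →
    Gd (g k + fun x => c k * g 0 (x ++ List.replicate k 0))


/-! ### extraction of the exponent zero in the last slot -/

theorem natCast_mul_cases [Algebra (ZMod 2) R] (n : ℕ) (l : R) :
    (n : R) * l = 0 ∨ (n : R) * l = l := by
  rcases Nat.even_or_odd n with ⟨r, rfl⟩ | ⟨r, rfl⟩
  · left
    push_cast
    rw [add_self, zero_mul]
  · right
    push_cast
    rw [two_zero]
    ring

theorem sum_extract [Algebra (ZMod 2) R] {D : ℕ} (hD : 1 ≤ D) (l s : R) (A : ℕ → R) :
    s * ∑ j ∈ range D, kerR l s 0 j * A j + (s + l) * ∑ j ∈ range D, kerR l s l j * A j =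
      l * A 0 := by
  rw [Finset.mul_sum, Finset.mul_sum, ← Finset.sum_add_distrib]
  have h : ∀ j ∈ range D, s * (kerR l s 0 j * A j) + (s + l) * (kerR l s l j * A j) =
      if j = 0 then l * A 0 else 0 := by
    intro j _
    have h1 : s * (kerR l s 0 j * A j) + (s + l) * (kerR l s l j * A j) =
        (s * kerR l s 0 j + (s + l) * kerR l s l j) * A j := by ring
    rw [h1, kerR_extract]
    by_cases hj : j = 0
    · subst hj
      simp
    · simp [hj]
  rw [Finset.sum_congr rfl h, Finset.sum_ite_eq' (range D) 0]
  simp [show 0 < D by omega]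

theorem sum_del {D : ℕ} (hD : 1 ≤ D) (A : ℕ → R) :
    ∑ j ∈ range D, (del 0 : ℕ → R) j * A j = A 0 := by
  simp only [del, ite_mul, one_mul, zero_mul]
  rw [Finset.sum_ite_eq' (range D) 0]
  simp [show 0 < D by omega]

theorem evS_extract [Algebra (ZMod 2) R] {D : ℕ} (hD : 1 ≤ D) (l b : R) (P : List ℕ → R)
    (W : List R) (n : ℕ) :
    (b + W.sum + n * l) * evS D l b P (W ++ [b + W.sum + n * l]) +
      (b + W.sum + n * l + l) * evS D l b P (W ++ [b + W.sum + n * l + l]) =
      l * evS D l b (la 0 P) W := by
  have key : (b + W.sum) * evS D l b P (W ++ [b + W.sum]) +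
      (b + W.sum + l) * evS D l b P (W ++ [b + W.sum + l]) = l * evS D l b (la 0 P) W := by
    rw [evS_snoc, evS_snoc, add_self, show b + W.sum + (b + W.sum + l) = l by
      linear_combination add_self (b + W.sum)]
    exact sum_extract hD l (b + W.sum) fun j => evS D l b (la j P) W
  rcases natCast_mul_cases n l with h | h
  · rw [h, add_zero]
    exact key
  · rw [h, show b + W.sum + l + l = b + W.sum by linear_combination add_self l, add_comm]
    exact key

theorem S_extract [Algebra (ZMod 2) R] {D : ℕ} (hD : 1 ≤ D) (l b : R) (P : List ℕ → R)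
    (W : List R) (k : ℕ) (s : R) (hs : s = b + W.sum + (k + 1 : ℕ) * l) :
    s * S D (k + 1) l b P (W ++ [s]) + (s + l) * S D (k + 1) l b P (W ++ [s + l]) =
      l * S D (k + 1) l b (la 0 P) W +
        (s * S D k l b (la 0 P) (W ++ [s]) + (s + l) * S D k l b (la 0 P) (W ++ [s + l])) := by
  have h1 : b + W.sum + k * l = s + l := by
    rw [hs]
    push_cast
    linear_combination -add_self l
  rw [S_snoc, S_snoc, ← hs, h1]
  rw [show s + (s + l) = l by linear_combination add_self s, add_self s,
    show s + l + s = l by linear_combination add_self s,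
    show s + l + (s + l) = 0 by linear_combination add_self (s + l), zero_add, add_self l,
    kerR_l_zero, kerR_zero_l]
  rw [sum_del hD fun j => S D k l b (la j P) (W ++ [s]),
    sum_del hD fun j => S D k l b (la j P) (W ++ [s + l])]
  have h2 := sum_extract hD l s fun j => S D (k + 1) l b (la j P) W
  linear_combination h2

/-- the functionals of the last slot zero -/
def gp (g : ℕ → List ℕ → ZMod 2) : ℕ → List ℕ → ZMod 2
  | 0 => la 0 (g 0)
  | k + 1 => la 0 (g (k + 1)) + la 0 (gp g k)

theorem la_add {M : Type} [Add M] (j : ℕ) (P Q : List ℕ → M) : la j (P + Q) = la j P + la j Q := rfl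

open Polynomial in
/-- cancel `l` -/
theorem cancel_l {D k : ℕ} (u g : List ℕ → ZMod 2) (n : ℕ)
    (h : ∀ (R : Type) [CommRing R] [Algebra (ZMod 2) R] (l b : R) (W : List R), W.length = n →
      l * S D k l b (cast R u) W = l * evS D l b (cast R g) W)
    (R : Type) [CommRing R] [Algebra (ZMod 2) R] (l b : R) (W : List R) (hW : W.length = n) :
    S D k l b (cast R u) W = evS D l b (cast R g) W := by
  have h1 := h R[X] X (C b) (W.map C) (by simpa using hW)
  have h2 := (monic_X (R := R)).isRegular.left h1
  have h3 := congrArg (evalRingHom l) h2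
  rw [S_map_cast, evS_map_cast] at h3
  simpa [List.map_map, Function.comp_def] using h3

theorem gp_ins {D m : ℕ} (hD : 2 ≤ D) {g : ℕ → List ℕ → ZMod 2} {c : ℕ → ZMod 2}
    (H : HypR' D (m + 1) g c) (k : ℕ) :
    ∀ (R : Type) [CommRing R] [Algebra (ZMod 2) R] (l b : R) (W : List R), k + W.length = m →
      S D k l b (cast R (la 0 (g 0))) W = evS D l b (cast R (gp g k)) W := by
  induction k with
  | zero =>
    intro R _ _ l b W _
    rw [S_zero_left]
    rfl
  | succ k ih =>
    have key : ∀ (R : Type) [CommRing R] [Algebra (ZMod 2) R] (l b : R) (W : List R),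
        W.length = m - (k + 1) → k + 1 ≤ m →
        l * S D (k + 1) l b (cast R (la 0 (g 0))) W =
          l * evS D l b (cast R (gp g (k + 1))) W := by
      intro R _ _ l b W hW hk
      have e1 := S_extract (by omega : 1 ≤ D) l b (cast R (g 0)) W k _ rfl
      rw [H.ins R l b (k + 1) _ (by simp [hW]; omega), H.ins R l b (k + 1) _ (by simp [hW]; omega),
        evS_extract (by omega : 1 ≤ D), la_cast, la_cast,
        ih R l b _ (by simp [hW]; omega), ih R l b _ (by simp [hW]; omega),
        evS_extract (by omega : 1 ≤ D), la_cast] at e1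
      have e2 : evS D l b (cast R (gp g (k + 1))) W =
          evS D l b (cast R (la 0 (g (k + 1)))) W + evS D l b (cast R (la 0 (gp g k))) W := by
        rw [← evS_add, ← cast_add]
        rfl
      rw [e2]
      linear_combination -e1 - add_self (l * evS D l b (cast R (la 0 (gp g k))) W)
    intro R _ _ l b W hW
    exact cancel_l (la 0 (g 0)) (gp g (k + 1)) (m - (k + 1))
      (fun R _ _ l b W hW' => key R l b W hW' (by omega)) R l b W (by omega)


/-- the constants for `gp` -/
def cp (c : ℕ → ZMod 2) : ℕ → ZMod 2
  | 0 => 1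
  | k + 1 => c (k + 1) + cp c k

theorem gp_supp {D m : ℕ} {g : ℕ → List ℕ → ZMod 2} {c : ℕ → ZMod 2}
    (H : HypR' D (m + 1) g c) (k : ℕ) (hk : k ≤ m) : Supp D (m - k + 1) (gp g k) := by
  induction k with
  | zero =>
    have := H.supp 0 (by omega)
    exact Supp.la (by simpa using this) 0
  | succ k ih =>
    have h1 := H.supp (k + 1) (by omega)
    have h2 := ih (by omega)
    rw [show m + 1 - (k + 1) + 1 = m - (k + 1) + 1 + 1 by omega] at h1
    rw [show m - k + 1 = m - (k + 1) + 1 + 1 by omega] at h2
    exact Supp.add (Supp.la h1 0) (Supp.la h2 0)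

theorem gp_good {D m : ℕ} {g : ℕ → List ℕ → ZMod 2} {c : ℕ → ZMod 2}
    (H : HypR' D (m + 1) g c) (k : ℕ) (hk : k ≤ m) :
    Gd (gp g k + fun x => cp c k * la 0 (g 0) (x ++ List.replicate k 0)) := by
  induction k with
  | zero =>
    intro i l h
    exfalso
    apply h
    simp only [gp, cp, List.replicate_zero, List.append_nil, one_mul, Pi.add_apply]
    exact add_self (R := ZMod 2) _
  | succ k ih =>
    have h1 := (H.good (k + 1) (by omega) (by omega)).la 0
    have h2 := (ih (by omega)).la 0
    have h3 := h1.add h2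
    have h4 : (la 0 (g (k + 1) + fun x => c (k + 1) * g 0 (x ++ List.replicate (k + 1) 0)) +
        la 0 (gp g k + fun x => cp c k * la 0 (g 0) (x ++ List.replicate k 0))) =
        gp g (k + 1) + fun x => cp c (k + 1) * la 0 (g 0) (x ++ List.replicate (k + 1) 0) := by
      funext x
      have e1 : x ++ [0] ++ List.replicate (k + 1) 0 =
          x ++ List.replicate (k + 1) 0 ++ [0] := by
        rw [List.append_assoc, List.append_assoc, ← List.replicate_succ', List.replicate_succ]
        rfl
      have e2 : x ++ [0] ++ List.replicate k 0 ++ [0] =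
          x ++ List.replicate (k + 1) 0 ++ [0] := by
        rw [List.append_assoc x [0], List.replicate_succ]
        rfl
      simp only [la, Pi.add_apply, gp, cp]
      rw [e1, e2]
      ring
    rwa [h4] at h3


/-! ### the part with last exponent at least two -/

/-- last exponent at least two -/
def big (u : List ℕ → ZMod 2) : List ℕ → ZMod 2 := fun x => if 2 ≤ x.getLastD 0 then u x else 0

theorem la_big (u : List ℕ → ZMod 2) (j : ℕ) : la j (big u) = if 2 ≤ j then la j u else 0 := by
  funext x
  simp only [la, big, List.getLastD_concat]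
  split_ifs <;> rfl

theorem big_spec {u : List ℕ → ZMod 2} (x : List ℕ)
    (h : big u x ≠ 0) : ∃ l' a, x = l' ++ [a] ∧ 2 ≤ a := by
  have h1 : 2 ≤ x.getLastD 0 := by
    by_contra h2
    exact h (by simp only [big, if_neg h2])
  rcases List.eq_nil_or_concat x with rfl | ⟨l', a, rfl⟩
  · simp at h1
  · exact ⟨l', a, by simp, by simpa using h1⟩

theorem big_supp {D m : ℕ} {u : List ℕ → ZMod 2} (hu : Supp D m u) : Supp D m (big u) := by
  intro x hx
  refine hu x fun h => hx ?_
  simp [big, h]

theorem evS_cast_zero [Algebra (ZMod 2) R] (D : ℕ) (l b : R) (ρ : List R) :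
    evS D l b (cast R (0 : List ℕ → ZMod 2)) ρ = 0 := by
  have : cast R (0 : List ℕ → ZMod 2) = 0 := by
    funext x
    simp [cast]
  rw [this]
  exact evS_zero D l b ρ

theorem S_cast_zero [Algebra (ZMod 2) R] (D k : ℕ) (l b : R) (W : List R) :
    S D k l b (cast R (0 : List ℕ → ZMod 2)) W = 0 := by
  have : evS D l b (cast R (0 : List ℕ → ZMod 2)) = fun _ => 0 := by
    funext ρ
    exact evS_cast_zero D l b ρ
  unfold S
  rw [this]
  exact shs_zero _ _

/-- splitting of a sum over the last exponent: `0`, `1`, at least two -/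
theorem sum_split [Algebra (ZMod 2) R] {D : ℕ} (hD : 2 ≤ D) (u : List ℕ → ZMod 2)
    (w : ℕ → R) (F : (List ℕ → R) → R) (hF : F (cast R 0) = 0) :
    ∑ j ∈ range D, w j * F (la j (cast R u)) =
      w 0 * F (cast R (la 0 u)) + w 1 * F (cast R (la 1 u)) +
        ∑ j ∈ range D, w j * F (la j (cast R (big u))) := by
  obtain ⟨D, rfl⟩ : ∃ D', D = D' + 2 := ⟨D - 2, by omega⟩
  rw [Finset.sum_range_succ', Finset.sum_range_succ', Finset.sum_range_succ' (n := D + 1),
    Finset.sum_range_succ' (n := D)]
  simp only [la_cast, la_big, zero_add]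
  have h0 : ¬ (2 ≤ 0) := by omega
  have h1 : ¬ (2 ≤ 1) := by omega
  simp only [if_neg h0, if_neg h1, hF, mul_zero, add_zero]
  have h2 : ∀ x : ℕ, 2 ≤ x + 1 + 1 := fun x => by omega
  simp only [if_pos (h2 _)]
  ring


theorem S_decomp [Algebra (ZMod 2) R] {D : ℕ} (hD : 2 ≤ D) (u : List ℕ → ZMod 2) (k : ℕ)
    (l b : R) (W : List R) (w : R) :
    S D (k + 1) l b (cast R u) (W ++ [w]) =
      S D (k + 1) l b (cast R (la 0 u)) W + (w + l) * S D (k + 1) l b (cast R (la 1 u)) W +
        S D k l b (cast R (la 0 u)) (W ++ [w]) + S D (k + 1) l b (cast R (big u)) (W ++ [w]) := by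
  have e1 := sum_split hD u
    (kerR l (b + W.sum + (k + 1 : ℕ) * l) (b + W.sum + (k + 1 : ℕ) * l + w))
    (fun P => S D (k + 1) l b P W) (S_cast_zero D (k + 1) l b W)
  have e2 := sum_split hD u
    (kerR l (b + W.sum + k * l + w) (b + W.sum + k * l + w + l))
    (fun P => S D k l b P (W ++ [w])) (S_cast_zero D k l b (W ++ [w]))
  rw [S_snoc, S_snoc, e1, e2, kerR_step_one, kerR_one, kerR_zero, kerR_zero]
  linear_combination S D (k + 1) l b (cast R (la 1 u)) W *
    add_self (b + W.sum + (k + 1 : ℕ) * l)

theorem S_decomp_nil [Algebra (ZMod 2) R] {D : ℕ} (hD : 2 ≤ D) (u : List ℕ → ZMod 2) (k : ℕ)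
    (l b : R) :
    S D (k + 1) l b (cast R u) [] =
      S D k l b (cast R (la 0 u)) [] + S D (k + 1) l b (cast R (big u)) [] := by
  have e2 := sum_split hD u (kerR l (b + k * l) (b + k * l + l))
    (fun P => S D k l b P []) (S_cast_zero D k l b [])
  rw [S_succ_nil, S_succ_nil, e2, kerR_step_one, kerR_zero]
  ring

theorem evS_snoc_good [Algebra (ZMod 2) R] {D n : ℕ} (hD : 2 ≤ D) {q : List ℕ → ZMod 2}
    (hq : Gd q) (hs : Supp D (n + 2) q) (l b : R) (W : List R) (w : R) :
    evS D l b (cast R q) (W ++ [w]) =
      evS D l b (cast R (la 0 q)) W + (w + l) * evS D l b (cast R (la 1 q)) W := by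
  have hb : big q = 0 := by
    funext x
    by_contra h
    obtain ⟨l', a, rfl, ha⟩ := big_spec x h
    have h1 : la a (big q) l' ≠ 0 := h
    rw [la_big, if_pos ha, hq.la_zero hs ha] at h1
    exact h1 rfl
  have e1 := sum_split hD q (kerR l (b + W.sum) (b + W.sum + w))
    (fun P => evS D l b P W) (evS_cast_zero D l b W)
  rw [evS_snoc, e1, hb, kerR_one, kerR_zero]
  have h0 : ∀ j, la j (cast R (0 : List ℕ → ZMod 2)) = cast R 0 := fun j => by
    funext x
    simp [la, cast]
  simp only [h0, evS_cast_zero, mul_zero, Finset.sum_const_zero]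
  linear_combination evS D l b (cast R (la 1 q)) W * add_self (b + W.sum)

theorem Gd.strip {P : List ℕ → ZMod 2} (hP : Gd P) (k : ℕ) :
    Gd (fun x => P (x ++ List.replicate k 0)) := by
  intro i l h a ha
  exact hP i (l ++ List.replicate k 0) (by simpa using h) a (by simp [ha])

theorem Gd.of_add {P Q : List ℕ → ZMod 2} (h : Gd (P + Q)) (hQ : Gd Q) : Gd P := by
  have h1 : P = (P + Q) + Q := by
    funext x
    have := add_self (R := ZMod 2) (Q x)
    simp only [Pi.add_apply]
    linear_combination -this
  rw [h1]
  exact h.add hQ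

open Polynomial in
/-- cancel `w + l` -/
theorem cancel_w {D k : ℕ} (u g : List ℕ → ZMod 2) (n : ℕ)
    (h : ∀ (R : Type) [CommRing R] [Algebra (ZMod 2) R] (l b w : R) (W : List R), W.length = n →
      (w + l) * (S D k l b (cast R u) W + evS D l b (cast R g) W) = 0)
    (R : Type) [CommRing R] [Algebra (ZMod 2) R] (l b : R) (W : List R) (hW : W.length = n) :
    S D k l b (cast R u) W = evS D l b (cast R g) W := by
  have h1 := h R[X] (C l) (C b) X (W.map C) (by simpa using hW)
  have h0 : S D k (C l) (C b) (cast R[X] u) (W.map C) +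
      evS D (C l) (C b) (cast R[X] g) (W.map C) = 0 := by
    refine (monic_X_add_C l).isRegular.left ?_
    show (X + C l) * _ = (X + C l) * 0
    rw [h1, mul_zero]
  have h3 := congrArg (evalRingHom (0 : R)) h0
  rw [map_add, S_map_cast, evS_map_cast] at h3
  simp only [coe_evalRingHom, eval_C, List.map_map, Function.comp_def, List.map_id', eval_zero]
    at h3
  have := add_self (evS D l b (cast R g) W)
  linear_combination h3 - this

theorem main (hX : SpecX) (D : ℕ) (hD : 2 ≤ D) (m : ℕ) :
    ∀ (g : ℕ → List ℕ → ZMod 2) (c : ℕ → ZMod 2), HypR' D m g c → Gd (g 0) := by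
  induction m with
  | zero =>
    intro g c H i l h a ha
    have := (H.supp 0 (le_refl 0) _ h).1
    have h2 : l = [] := by
      cases l with
      | nil => rfl
      | cons _ _ => simp at this
    subst h2
    simp at ha
  | succ m ih =>
    intro g c H
    have hu0 : Gd (la 0 (g 0)) :=
      ih (gp g) (cp c) ⟨fun k hk => gp_supp H k hk,
        fun R _ _ l b k W hW => gp_ins hD H k R l b W hW,
        fun k _ hk => gp_good H k hk⟩
    have hgp : ∀ k, k ≤ m → Gd (gp g k) := fun k hk =>
      Gd.of_add (gp_good H k hk) ((hu0.strip k).smul (cp c k))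
    have hg : ∀ k, k + 1 ≤ m + 1 → Gd (g (k + 1)) := fun k hk => by
      refine Gd.of_add (H.good (k + 1) (by omega) hk) ?_
      have h1 := (hu0.strip k).smul (c (k + 1))
      have h2 : (fun x => c (k + 1) * la 0 (g 0) (x ++ List.replicate k 0)) =
          fun x => c (k + 1) * g 0 (x ++ List.replicate (k + 1) 0) := by
        funext x
        simp only [la]
        rw [List.append_assoc, ← List.replicate_succ']
      rwa [h2] at h1
    have hsg : ∀ k, k + 1 ≤ m → Supp D (m - (k + 1) + 2) (g (k + 1)) := fun k hk => by
      have := H.supp (k + 1) (by omega)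
      rwa [show m + 1 - (k + 1) + 1 = m - (k + 1) + 2 by omega] at this
    have hsp : ∀ k, k + 1 ≤ m → Supp D (m - (k + 1) + 2) (gp g k) := fun k hk => by
      have := gp_supp H k (by omega)
      rwa [show m - k + 1 = m - (k + 1) + 2 by omega] at this
    -- the key identity
    have key : ∀ (R : Type) [CommRing R] [Algebra (ZMod 2) R] (l b : R) (k : ℕ) (W : List R)
        (w : R), k + 1 + W.length = m →
        S D (k + 1) l b (cast R (big (g 0))) (W ++ [w]) = (w + l) *
          (S D (k + 1) l b (cast R (la 1 (g 0))) W +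
            evS D l b (cast R (la 1 (g (k + 1)) + la 1 (gp g k))) W) := by
      intro R _ _ l b k W w hW
      have e1 := S_decomp hD (g 0) k l b W w
      rw [H.ins R l b (k + 1) _ (by simp; omega), gp_ins hD H (k + 1) R l b W (by omega),
        gp_ins hD H k R l b _ (by simp; omega),
        evS_snoc_good hD (hg k (by omega)) (hsg k (by omega)),
        evS_snoc_good hD (hgp k (by omega)) (hsp k (by omega))] at e1
      have e2 : evS D l b (cast R (gp g (k + 1))) W =
          evS D l b (cast R (la 0 (g (k + 1)))) W + evS D l b (cast R (la 0 (gp g k))) W := by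
        rw [← evS_add, ← cast_add]
        rfl
      rw [e2] at e1
      rw [cast_add, evS_add]
      have h2 : (2 : R) = 0 := two_zero
      linear_combination -e1 - ((w + l) * (S D (k + 1) l b (cast R (la 1 (g 0))) W +
        evS D l b (cast R (la 1 (gp g k))) W) + evS D l b (cast R (la 0 (gp g k))) W) * h2
    -- Lemma X
    have hv0 : ∀ x, big (g 0) x = 0 := by
      have hs0 : Supp D (m + 1 + 1) (g 0) := H.supp 0 (by omega)
      refine hX D (m + 1) (big (g 0)) hD (by omega) (big_supp hs0) big_spec ⟨?_, ?_⟩
      · intro R _ _ l b k W w w' hk hW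
        obtain ⟨k, rfl⟩ : ∃ k', k = k' + 1 := ⟨k - 1, by omega⟩
        rw [key R l b k W w (by omega), key R l b k W w' (by omega)]
        ring
      · have htop : ∀ (R : Type) [CommRing R] [Algebra (ZMod 2) R] (l b : R),
            S D (m + 1) l b (cast R (big (g 0))) [] =
              evS D l b (cast R (g (m + 1))) [] + evS D l b (cast R (gp g m)) [] := by
          intro R _ _ l b
          have e1 := S_decomp_nil hD (g 0) m l b
          rw [H.ins R l b (m + 1) _ (by simp), gp_ins hD H m R l b _ (by simp)] at e1
          linear_combination -e1 - add_self (evS D l b (cast R (gp g m)) [])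
        intro R _ _ l b
        have hl : ∀ q : List ℕ → ZMod 2, evS D l b (cast R q) [] = evS D b b (cast R q) [] :=
          fun q => rfl
        rw [htop, hl, hl, ← htop, S_succ_nil]
        have hker : kerR b (b + m * b) (b + m * b + b) = del 0 := by
          rcases natCast_mul_cases m b with h | h
          · rw [h, add_zero, add_self, kerR_l_zero]
          · rw [h, add_self, zero_add, kerR_zero_l]
        rw [hker, sum_del (by omega : 1 ≤ D) fun j => S D m b b (la j (cast R (big (g 0)))) [],
          la_cast, la_big, if_neg (by omega), S_cast_zero]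
    have hv1 : big (g 0) = 0 := funext hv0
    -- the part with last exponent one
    have hins1 : ∀ (k : ℕ), k + 1 ≤ m → ∀ (R : Type) [CommRing R] [Algebra (ZMod 2) R] (l b : R)
        (W : List R), W.length = m - (k + 1) →
        S D (k + 1) l b (cast R (la 1 (g 0))) W =
          evS D l b (cast R (la 1 (g (k + 1)) + la 1 (gp g k))) W := by
      intro k hk
      refine cancel_w (la 1 (g 0)) (la 1 (g (k + 1)) + la 1 (gp g k)) (m - (k + 1)) ?_
      intro R _ _ l b w W hW
      rw [← key R l b k W w (by omega), hv1, S_cast_zero]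
    have hu1 : Gd (la 1 (g 0)) := by
      refine ih (fun k => match k with
        | 0 => la 1 (g 0)
        | k + 1 => la 1 (g (k + 1)) + la 1 (gp g k)) (fun _ => 0) ⟨?_, ?_, ?_⟩
      · intro k hk
        cases k with
        | zero => exact Supp.la (H.supp 0 (by omega)) 1
        | succ k =>
          have h1 := hsg k hk
          have h2 := hsp k hk
          exact Supp.add (Supp.la h1 1) (Supp.la h2 1)
      · intro R _ _ l b k W hW
        cases k with
        | zero => exact S_zero_left D l b _ W
        | succ k => exact hins1 k (by omega) R l b W (by omega)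
      · intro k hk1 hk
        cases k with
        | zero => omega
        | succ k =>
          have h1 := ((hg k (by omega)).la 1).add ((hgp k (by omega)).la 1)
          have h2 : (la 1 (g (k + 1)) + la 1 (gp g k)) = ((la 1 (g (k + 1)) + la 1 (gp g k)) +
              fun x => (0 : ZMod 2) * la 1 (g 0) (x ++ List.replicate (k + 1) 0)) := by
            funext x
            simp
          rw [h2] at h1
          exact h1
    intro i l h a ha
    rcases List.eq_nil_or_concat l with rfl | ⟨l', e, rfl⟩
    · simp at ha
    · rw [List.concat_eq_append] at h ha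
      rw [← List.cons_append] at h
      by_cases he : 2 ≤ e
      · exfalso
        have h1 := hv0 (i :: l' ++ [e])
        simp only [big, List.getLastD_concat, if_pos he] at h1
        exact h h1
      · rw [List.mem_append, List.mem_singleton] at ha
        rcases ha with ha | rfl
        · have he' : e = 0 ∨ e = 1 := by omega
          rcases he' with rfl | rfl
          · exact hu0 i l' h a ha
          · exact hu1 i l' h a ha
        · omega

/-- THEOREM R -/
theorem specR' (hX : SpecX) : SpecR := by
  intro D m u hD hs hu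
  have h := main hX D hD m (fun k => if k = 0 then u else 0) (fun _ => 0) ⟨?_, ?_, ?_⟩
  · have h' : Gd u := by simpa using h
    exact h'
  · intro k hk
    by_cases h0 : k = 0
    · subst h0
      simpa using hs
    · simp only [if_neg h0]
      intro l hl
      exact absurd rfl hl
  · intro R _ _ l b k W hW
    by_cases h0 : k = 0
    · subst h0
      simp [S_zero_left]
    · simp only [if_neg h0, if_true]
      rw [evS_cast_zero]
      exact hu R l b k W (by omega) hW
  · intro k hk _
    rw [if_neg (by omega : k ≠ 0)]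
    intro i l h
    exact absurd (by simp) h

end ThmR

theorem specR (hX : SpecX) : SpecR := ThmR.specR' hX

end MP154526.Top.Star
end
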