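import Pool.Agent.Lib.MP_154526_nt.Top.Defs

/-!
# LYN-SPAN

A functional on words which kills all shuffle products of nonempty words and all half squares
`(au ⧢ au)/2 = a (u ⧢ au)` over a ring of characteristic 2 is determined by its values on Lyndon
words.
-/

set_option autoImplicit false

namespace MP154526.Lyn

open MP154526.Top

variable {α : Type}

/-- `Shuf u v t`: the word `t` is a shuffle of `u` and `v` -/
inductive Shuf : List α → List α → List α → Prop
  | nil : Shuf [] [] []
  | left {a : α} {u v t : List α} : Shuf u v t → Shuf (a :: u) v (a :: t)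
  | right {a : α} {u v t : List α} : Shuf u v t → Shuf u (a :: v) (a :: t)

theorem Shuf.self_nil : ∀ u : List α, Shuf u [] u
  | [] => Shuf.nil
  | _ :: u => Shuf.left (Shuf.self_nil u)

theorem Shuf.nil_self : ∀ u : List α, Shuf [] u u
  | [] => Shuf.nil
  | _ :: u => Shuf.right (Shuf.nil_self u)

theorem Shuf.append : ∀ u v : List α, Shuf u v (u ++ v)
  | [], v => Shuf.nil_self v
  | _ :: u, v => Shuf.left (Shuf.append u v)

theorem Shuf.symm {u v t : List α} (h : Shuf u v t) : Shuf v u t := by
  induction h with
  | nil => exact Shuf.nil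
  | left _ ih => exact Shuf.right ih
  | right _ ih => exact Shuf.left ih

theorem Shuf.perm {u v t : List α} (h : Shuf u v t) : t.Perm (u ++ v) := by
  induction h with
  | nil => exact List.Perm.refl _
  | left _ ih => exact ih.cons _
  | @right a u v t _ ih =>
    exact (ih.cons a).trans (List.perm_middle.symm)

theorem Shuf.nil_left {v t : List α} (h : Shuf [] v t) : t = v := by
  induction v generalizing t with
  | nil => cases h; rfl
  | cons a v ih =>
    cases h with
    | right h => rw [ih h]

theorem Shuf.nil_right {v t : List α} (h : Shuf v [] t) : t = v := h.symm.nil_left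

/-- a sum over shuffles vanishes if all terms vanish -/
theorem shs_eq_zero {M : Type} [AddCommMonoid M] :
    ∀ (u v : List α) (F : List α → M), (∀ t, Shuf u v t → F t = 0) → shs F u v = 0
  | [], v, F, h => by
    rw [shs]
    exact h _ (Shuf.nil_self v)
  | a :: u, [], F, h => by
    rw [shs]
    exact h _ (Shuf.self_nil _)
  | a :: u, c :: v, F, h => by
    rw [shs, shs_eq_zero u (c :: v) _ (fun t ht => h _ (Shuf.left ht)),
      shs_eq_zero (a :: u) v _ (fun t ht => h _ (Shuf.right ht)), add_zero]
termination_by u v => u.length + v.length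

theorem shs_nil_right {M : Type} [AddCommMonoid M] (F : List α → M) (u : List α) :
    shs F u [] = F u := by
  cases u <;> rw [shs]

theorem shs_nil_left {M : Type} [AddCommMonoid M] (F : List α → M) (u : List α) :
    shs F [] u = F u := by
  rw [shs]

theorem shs_symm {M : Type} [AddCommMonoid M] :
    ∀ (u v : List α) (F : List α → M), shs F u v = shs F v u
  | [], v, F => by rw [shs_nil_left, shs_nil_right]
  | a :: u, [], F => by rw [shs_nil_left, shs_nil_right]
  | a :: u, c :: v, F => by
    rw [shs, shs_symm u (c :: v), shs_symm (a :: u) v]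
    conv_rhs => rw [shs]
    rw [add_comm]
termination_by u v => u.length + v.length

/-- the powers of a word -/
def pw (l : List α) : ℕ → List α
  | 0 => []
  | i + 1 => l ++ pw l i

theorem pw_add (l : List α) (i j : ℕ) : pw l (i + j) = pw l i ++ pw l j := by
  induction i with
  | zero => simp [pw]
  | succ i ih => rw [Nat.succ_add, pw, ih, pw, List.append_assoc]

theorem pw_succ' (l : List α) (i : ℕ) : pw l (i + 1) = pw l i ++ l := by
  rw [pw_add]
  simp [pw]

/-- binomial coefficients of `2^k - 1` are odd -/
theorem odd_choose (k : ℕ) : ∀ i, i ≤ 2 ^ k - 1 → Odd ((2 ^ k - 1).choose i) := by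
  intro i
  induction i with
  | zero => intro _; simp
  | succ i ih =>
    intro hi
    have hpos : 0 < 2 ^ k := by positivity
    have h1 : (2 ^ k - 1 + 1).choose (i + 1) = (2 ^ k - 1).choose i + (2 ^ k - 1).choose (i + 1) :=
      Nat.choose_succ_succ _ _
    have h2 : 2 ∣ (2 ^ k).choose (i + 1) :=
      Nat.Prime.dvd_choose_pow Nat.prime_two (by omega) (by omega)
    rw [show 2 ^ k - 1 + 1 = 2 ^ k by omega] at h1
    have h3 := ih (by omega)
    rw [h1] at h2
    rcases Nat.even_or_odd ((2 ^ k - 1).choose (i + 1)) with h4 | h4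
    · exfalso
      have := (h3.add_even h4)
      rw [← Nat.not_even_iff_odd, even_iff_two_dvd] at this
      exact this h2
    · exact h4

/-- an odd binomial coefficient -/
theorem odd_choose' (n : ℕ) (hn : 2 ≤ n) (hp : ∀ k, n ≠ 2 ^ k) :
    ∃ j, 0 < j ∧ j < n ∧ Odd (n.choose j) := by
  set e := Nat.log 2 n with he
  have h1 : 2 ^ e ≤ n := Nat.pow_log_le_self 2 (by omega)
  have h2 : n < 2 ^ (e + 1) := Nat.lt_pow_succ_log_self (by norm_num) n
  obtain ⟨r, hr⟩ : ∃ r, n = 2 ^ e + r := ⟨n - 2 ^ e, by omega⟩
  have hr0 : 0 < r := by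
    rcases Nat.eq_zero_or_pos r with h | h
    · exact absurd (by omega) (hp e)
    · exact h
  have hr1 : r < 2 ^ e := by
    rw [pow_succ] at h2
    omega
  refine ⟨r, hr0, by omega, ?_⟩
  have key := Finset.Nat.sum_antidiagonal_eq_sum_range_succ
    (fun i j => (2 ^ e).choose i * r.choose j) r
  rw [hr, Nat.add_choose_eq, key, Finset.sum_range_succ']
  simp only [Nat.choose_zero_right, Nat.sub_zero, Nat.choose_self, mul_one]
  refine Even.add_odd ?_ odd_one
  refine Finset.even_sum _ ?_
  intro i hi
  have h3 : 2 ∣ (2 ^ e).choose (i + 1) :=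
    Nat.Prime.dvd_choose_pow Nat.prime_two (by omega)
      (by have := Finset.mem_range.1 hi; omega)
  exact (even_iff_two_dvd.2 h3).mul_right _

section Order

variable [LinearOrder α]

theorem cons_le_cons' {a : α} {x y : List α} (h : x ≤ y) : a :: x ≤ a :: y := by
  rcases h.eq_or_lt with rfl | h
  · exact le_refl _
  · exact le_of_lt (List.cons_lt_cons_iff.2 (Or.inr ⟨rfl, h⟩))

theorem cons_lt_cons' {a : α} {x y : List α} (h : x < y) : a :: x < a :: y :=
  List.cons_lt_cons_iff.2 (Or.inr ⟨rfl, h⟩)

theorem append_lt_append' (c : List α) {x y : List α} (h : x < y) : c ++ x < c ++ y := by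
  induction c with
  | nil => exact h
  | cons a c ih => exact cons_lt_cons' ih

theorem append_le_append' (c : List α) {x y : List α} (h : x ≤ y) : c ++ x ≤ c ++ y := by
  rcases h.eq_or_lt with rfl | h
  · exact le_refl _
  · exact le_of_lt (append_lt_append' c h)

theorem nil_lt' {x : List α} (h : x ≠ []) : ([] : List α) < x := by
  cases x with
  | nil => exact absurd rfl h
  | cons a x => exact List.nil_lt_cons a x

theorem le_append (x z : List α) : x ≤ x ++ z := by
  induction x with
  | nil =>
    rcases eq_or_ne z [] with rfl | h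
    · exact le_refl _
    · exact le_of_lt (nil_lt' h)
  | cons a x ih => exact cons_le_cons' ih

/-- trichotomy for `x < y`: `x` is a proper prefix of `y`, or they differ at a letter -/
theorem lt_cases {x y : List α} (h : x < y) :
    (∃ r, r ≠ [] ∧ y = x ++ r) ∨ ∀ z z' : List α, x ++ z < y ++ z' := by
  induction x generalizing y with
  | nil =>
    left
    exact ⟨y, by rintro rfl; exact lt_irrefl _ h, rfl⟩
  | cons a x ih =>
    cases y with
    | nil => exact absurd h (by simp)
    | cons b y =>
      rcases List.cons_lt_cons_iff.1 h with hab | ⟨rfl, hxy⟩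
      · right
        intro z z'
        exact List.cons_lt_cons_iff.2 (Or.inl hab)
      · rcases ih hxy with ⟨r, hr, rfl⟩ | h2
        · left
          exact ⟨r, hr, rfl⟩
        · right
          intro z z'
          exact cons_lt_cons' (h2 z z')

/-- the domination lemma `W` -/
theorem domin : ∀ (n : ℕ) (p x y t : List α), p.length + x.length + y.length ≤ n → y ≤ x →
    Shuf (p ++ x) y t → ∃ t', Shuf x (p ++ y) t' ∧ t ≤ t' := by
  intro n
  induction n with
  | zero =>
    intro p x y t hn hyx ht
    have hp : p = [] := List.eq_nil_of_length_eq_zero (by omega)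
    subst hp
    exact ⟨t, ht, le_refl _⟩
  | succ n ih =>
    intro p x y t hn hyx ht
    cases p with
    | nil => exact ⟨t, ht, le_refl _⟩
    | cons c p =>
      simp only [List.length_cons] at hn
      cases ht with
      | left h1 =>
        obtain ⟨t', h2, h3⟩ := ih p x y _ (by omega) hyx h1
        exact ⟨c :: t', Shuf.right h2, cons_le_cons' h3⟩
      | @right d _ y t1 h1 =>
        cases x with
        | nil => exact absurd hyx (by simp)
        | cons e x =>
          simp only [List.length_cons] at hn
          rcases hyx.lt_or_eq with hlt | heq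
          · rcases List.cons_lt_cons_iff.1 hlt with hde | ⟨rfl, hyx'⟩
            · exact ⟨e :: x ++ (c :: p ++ d :: y), Shuf.append _ _,
                le_of_lt (List.cons_lt_cons_iff.2 (Or.inl hde))⟩
            · obtain ⟨t', h2, h3⟩ := ih ((c :: p) ++ [d]) x y t1 (by simp; omega) hyx'.le
                (by simpa using h1)
              exact ⟨d :: t', Shuf.left (by simpa using h2), cons_le_cons' h3⟩
          · obtain ⟨rfl, rfl⟩ := List.cons.inj heq
            obtain ⟨t', h2, h3⟩ := ih ((c :: p) ++ [d]) y y t1 (by simp; omega) le_rfl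
                (by simpa using h1)
            exact ⟨d :: t', Shuf.left (by simpa using h2), cons_le_cons' h3⟩

/-- every nonempty suffix of `x` is larger than `v` -/
def Big (v x : List α) : Prop := ∀ s, s ≠ [] → s <:+ x → v < s

theorem Big.tail {v : List α} {a : α} {x : List α} (h : Big v (a :: x)) : Big v x :=
  fun s hs hx => h s hs (hx.trans (List.suffix_cons a x))

/-- the strict version -/
theorem strict : ∀ (n : ℕ) (a : α) (p x y z t : List α), x.length ≤ n → y < x →
    Big (a :: p ++ y) x → Shuf (a :: p ++ x ++ z) y t →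
    ∃ t', Shuf z (a :: p ++ y) t' ∧ t < x ++ t' := by
  intro n
  induction n with
  | zero =>
    intro a p x y z t hn hyx hb ht
    have hx : x = [] := List.eq_nil_of_length_eq_zero (by omega)
    subst hx
    exact absurd hyx (by simp)
  | succ n ih =>
    intro a p x y z t hn hyx hb ht
    cases x with
    | nil => exact absurd hyx (by simp)
    | cons e x =>
      simp only [List.length_cons] at hn
      cases ht with
      | @left _ _ _ t1 h1 =>
        have hv : a :: p ++ y < e :: x := hb _ (by simp) (List.suffix_refl _)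
        rcases List.cons_lt_cons_iff.1 hv with hae | ⟨rfl, hvx⟩
        · exact ⟨z ++ (a :: p ++ y), Shuf.append _ _, List.cons_lt_cons_iff.2 (Or.inl hae)⟩
        · have hle : y ≤ a :: x ++ z := le_trans hyx.le (le_append _ _)
          obtain ⟨t2, h2, h3⟩ := domin _ p (a :: x ++ z) y t1 le_rfl hle (by simpa using h1)
          obtain ⟨t', h4, h5⟩ := ih a [] x (p ++ y) z t2 (by omega) hvx (by simpa using hb.tail)
            (by simpa using h2)
          exact ⟨t', by simpa using h4, lt_of_le_of_lt (cons_le_cons' h3) (cons_lt_cons' h5)⟩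
      | @right d _ y t1 h1 =>
        rcases List.cons_lt_cons_iff.1 hyx with hde | ⟨rfl, hyx'⟩
        · exact ⟨z ++ (a :: p ++ d :: y), Shuf.append _ _, List.cons_lt_cons_iff.2 (Or.inl hde)⟩
        · obtain ⟨t', h2, h3⟩ := ih a (p ++ [d]) x y z t1 (by omega) hyx' (by simpa using hb.tail)
            (by simpa using h1)
          exact ⟨t', by simpa using h2, cons_lt_cons' h3⟩

/-- shuffles of `r z` with `v`, `v` smaller than all suffixes of `r` -/
theorem ord {v : List α} : ∀ (r z t : List α), Big v r → Shuf (r ++ z) v t →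
    ∃ t', Shuf z v t' ∧ t ≤ r ++ t' := by
  intro r
  induction r with
  | nil =>
    intro z t _ ht
    exact ⟨t, ht, le_refl _⟩
  | cons a r ih =>
    intro z t hb ht
    cases ht with
    | left h1 =>
      obtain ⟨t', h2, h3⟩ := ih z _ hb.tail h1
      exact ⟨t', h2, cons_le_cons' h3⟩
    | @right b _ y t1 h1 =>
      have hv : b :: y < a :: r := hb _ (by simp) (List.suffix_refl _)
      rcases List.cons_lt_cons_iff.1 hv with hba | ⟨rfl, hyr⟩
      · exact ⟨z ++ (b :: y), Shuf.append _ _, le_of_lt (List.cons_lt_cons_iff.2 (Or.inl hba))⟩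
      · obtain ⟨t', h2, h3⟩ := strict _ b [] r y z t1 le_rfl hyr (by simpa using hb.tail)
          (by simpa using h1)
        exact ⟨t', by simpa using h2, le_of_lt (cons_lt_cons' h3)⟩

/-- the leading part of the shuffle product of `r z` with `v` -/
theorem shs_lead {M : Type} [AddCommMonoid M] : ∀ (r z v : List α) (F : List α → M), Big v r →
    (∀ t, Shuf (r ++ z) v t → (∃ t', Shuf z v t' ∧ t < r ++ t') → F t = 0) →
    shs F (r ++ z) v = shs (fun t => F (r ++ t)) z v := by
  intro r
  induction r with
  | nil => intro z v F _ _; rfl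
  | cons a r ih =>
    intro z v F hb hF
    cases v with
    | nil => rw [shs_nil_right, shs_nil_right]
    | cons b y =>
      rw [List.cons_append, shs, ih z (b :: y) _ hb.tail, shs_eq_zero (a :: (r ++ z)) y, add_zero]
      · rfl
      · intro t ht
        have hv : b :: y < a :: r := hb _ (by simp) (List.suffix_refl _)
        refine hF _ (Shuf.right ht) ?_
        rcases List.cons_lt_cons_iff.1 hv with hba | ⟨rfl, hyr⟩
        · exact ⟨z ++ (b :: y), Shuf.append _ _, List.cons_lt_cons_iff.2 (Or.inl hba)⟩
        · obtain ⟨t', h2, h3⟩ := strict _ b [] r y z t le_rfl hyr (by simpa using hb.tail)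
            (by simpa using ht)
          exact ⟨t', by simpa using h2, cons_lt_cons' h3⟩
      · rintro t ht ⟨t', h1, h2⟩
        exact hF _ (Shuf.left ht) ⟨t', h1, cons_lt_cons' h2⟩

/-- `w` is a Lyndon word: nonempty and smaller than its proper nonempty suffixes -/
def IsLyn (w : List α) : Prop := w ≠ [] ∧ ∀ s, s ≠ [] → s <:+ w → s ≠ w → w < s

theorem Big.pw {l u : List α} (h : Big l u) (i : ℕ) : Big (pw l i) u := by
  induction i with
  | zero =>
    intro s hs _
    exact nil_lt' hs
  | succ i ih =>
    intro s hs hsu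
    rcases lt_cases (h s hs hsu) with ⟨r, hr, rfl⟩ | h2
    · exact append_lt_append' l (ih r hr ((List.suffix_append l r).trans hsu))
    · simpa [Lyn.pw] using h2 (Lyn.pw l i) []

theorem IsLyn.big_tail {a : α} {r : List α} (h : IsLyn (a :: r)) (m : ℕ) : Big (pw (a :: r) m) r := by
  apply Big.pw
  intro s hs hsr
  refine h.2 s hs (hsr.trans (List.suffix_cons a r)) ?_
  rintro rfl
  exact absurd hsr.length_le (by simp)

/-- shuffles of powers of a Lyndon word -/
theorem pw_bound {l : List α} (hl : IsLyn l) : ∀ (n j m : ℕ) (t : List α), j + m = n →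
    Shuf (pw l j) (pw l m) t → t ≤ pw l n := by
  obtain ⟨a, r, rfl⟩ : ∃ a r, l = a :: r := by
    cases l with
    | nil => exact absurd rfl hl.1
    | cons a r => exact ⟨a, r, rfl⟩
  intro n
  induction n with
  | zero =>
    intro j m t hn ht
    obtain ⟨rfl, rfl⟩ : j = 0 ∧ m = 0 := by omega
    rw [ht.nil_left]
  | succ n ih =>
    intro j m t hn ht
    rcases Nat.eq_zero_or_pos j with rfl | hj
    · rw [ht.nil_left, ← hn, Nat.zero_add]
    rcases Nat.eq_zero_or_pos m with rfl | hm
    · rw [ht.nil_right, ← hn, Nat.add_zero]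
    obtain ⟨j, rfl⟩ : ∃ k, j = k + 1 := ⟨j - 1, by omega⟩
    obtain ⟨m, rfl⟩ : ∃ k, m = k + 1 := ⟨m - 1, by omega⟩
    cases ht with
    | left h1 =>
      obtain ⟨t', h2, h3⟩ := ord r _ _ (hl.big_tail (m + 1)) h1
      have := ih j (m + 1) t' (by omega) h2
      exact cons_le_cons' (h3.trans (append_le_append' r this))
    | right h1 =>
      obtain ⟨t', h2, h3⟩ := ord r _ _ (hl.big_tail (j + 1)) h1.symm
      have := ih m (j + 1) t' (by omega) h2
      exact cons_le_cons' (h3.trans (append_le_append' r this))

/-- leading part of a shuffle of a tail with powers -/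
theorem shs_pw_tail {M : Type} [AddCommMonoid M] {a : α} {r : List α} (hl : IsLyn (a :: r))
    (j m : ℕ) (F : List α → M)
    (hF : ∀ t, t.Perm (pw (a :: r) (j + m + 1)) → t < pw (a :: r) (j + m + 1) → F t = 0) :
    shs (fun t => F (a :: t)) (r ++ pw (a :: r) j) (pw (a :: r) m) =
      shs (fun t => F (a :: r ++ t)) (pw (a :: r) j) (pw (a :: r) m) := by
  rw [shs_lead r _ _ _ (hl.big_tail m)]
  · rfl
  · rintro t ht ⟨t', h1, h2⟩
    apply hF
    · refine (ht.perm.cons a).trans ?_
      rw [pw, pw_add]
      simp
    · rw [pw]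
      exact cons_lt_cons' (lt_of_lt_of_le h2 (append_le_append' r
        (pw_bound hl (j + m) j m t' rfl h1)))

theorem shs_pw {M : Type} [AddCommMonoid M] {l : List α} (hl : IsLyn l) : ∀ (n j m : ℕ)
    (F : List α → M), j + m = n → (∀ t, t.Perm (pw l n) → t < pw l n → F t = 0) →
    shs F (pw l j) (pw l m) = (n.choose j) • F (pw l n) := by
  obtain ⟨a, r, rfl⟩ : ∃ a r, l = a :: r := by
    cases l with
    | nil => exact absurd rfl hl.1
    | cons a r => exact ⟨a, r, rfl⟩
  intro n
  induction n with
  | zero =>
    intro j m F hn hF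
    obtain ⟨rfl, rfl⟩ : j = 0 ∧ m = 0 := by omega
    simp [pw, shs_nil_left]
  | succ n ih =>
    intro j m F hn hF
    rcases Nat.eq_zero_or_pos j with rfl | hj
    · have : m = n + 1 := by omega
      subst this
      rw [show pw (a :: r) 0 = [] from rfl, shs_nil_left]
      simp
    rcases Nat.eq_zero_or_pos m with rfl | hm
    · have : j = n + 1 := by omega
      subst this
      rw [show pw (a :: r) 0 = [] from rfl, shs_nil_right]
      simp
    obtain ⟨j, rfl⟩ : ∃ k, j = k + 1 := ⟨j - 1, by omega⟩
    obtain ⟨m, rfl⟩ : ∃ k, m = k + 1 := ⟨m - 1, by omega⟩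
    have hF' : ∀ t, t.Perm (pw (a :: r) n) → t < pw (a :: r) n → F (a :: r ++ t) = 0 := by
      intro t h1 h2
      exact hF _ (h1.append_left (a :: r)) (append_lt_append' (a :: r) h2)
    have e1 : shs (fun t => F (a :: t)) (r ++ pw (a :: r) j) (pw (a :: r) (m + 1)) =
        (n.choose j) • F (pw (a :: r) (n + 1)) := by
      rw [shs_pw_tail hl j (m + 1) F (by rw [show j + (m + 1) + 1 = n + 1 by omega]; exact hF),
        ih j (m + 1) _ (by omega) hF']
      rfl
    have e2 : shs (fun t => F (a :: t)) (pw (a :: r) (j + 1)) (r ++ pw (a :: r) m) =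
        (n.choose (j + 1)) • F (pw (a :: r) (n + 1)) := by
      rw [shs_symm, shs_pw_tail hl m (j + 1) F
        (by rw [show m + (j + 1) + 1 = n + 1 by omega]; exact hF), shs_symm,
        ih (j + 1) m _ (by omega) hF']
      rfl
    have e3 : shs F (pw (a :: r) (j + 1)) (pw (a :: r) (m + 1)) =
        shs (fun t => F (a :: t)) (r ++ pw (a :: r) j) (pw (a :: r) (m + 1)) +
        shs (fun t => F (a :: t)) (pw (a :: r) (j + 1)) (r ++ pw (a :: r) m) := by
      simp only [pw, List.cons_append]
      rw [shs]
    rw [e3, e1, e2, ← add_smul, Nat.choose_succ_succ]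

/-- the least nonempty suffix -/
theorem exists_least_suffix : ∀ w : List α, w ≠ [] →
    ∃ l, l ≠ [] ∧ l <:+ w ∧ ∀ s, s ≠ [] → s <:+ w → l ≤ s := by
  intro w
  induction w with
  | nil => intro h; exact absurd rfl h
  | cons a w ih =>
    intro _
    rcases eq_or_ne w [] with rfl | hw
    · refine ⟨[a], by simp, List.suffix_refl _, ?_⟩
      intro s hs hsw
      rcases List.suffix_cons_iff.1 hsw with rfl | h
      · exact le_refl _
      · exact absurd (List.suffix_nil.1 h) hs
    · obtain ⟨l, hl, hlw, hmin⟩ := ih hw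
      rcases le_total l (a :: w) with h | h
      · refine ⟨l, hl, hlw.trans (List.suffix_cons a w), ?_⟩
        intro s hs hsw
        rcases List.suffix_cons_iff.1 hsw with rfl | h'
        · exact h
        · exact hmin s hs h'
      · refine ⟨a :: w, by simp, List.suffix_refl _, ?_⟩
        intro s hs hsw
        rcases List.suffix_cons_iff.1 hsw with rfl | h'
        · exact le_refl _
        · exact h.trans (hmin s hs h')

omit [LinearOrder α] in
/-- strip a maximal power at the end -/
theorem exists_strip {l : List α} (hl : l ≠ []) : ∀ (n : ℕ) (w : List α), w.length ≤ n →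
    ∃ u i, w = u ++ pw l i ∧ ¬ l <:+ u := by
  intro n
  induction n with
  | zero =>
    intro w hw
    have : w = [] := List.eq_nil_of_length_eq_zero (by omega)
    subst this
    exact ⟨[], 0, by simp [pw], fun h => hl (List.suffix_nil.1 h)⟩
  | succ n ih =>
    intro w hw
    by_cases h : l <:+ w
    · obtain ⟨w', rfl⟩ := h
      have hlen : 0 < l.length := List.length_pos_iff.2 hl
      simp only [List.length_append] at hw
      obtain ⟨u, i, rfl, hu⟩ := ih w' (by omega)
      exact ⟨u, i + 1, by rw [pw_succ', List.append_assoc], hu⟩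
    · exact ⟨w, 0, by simp [pw], h⟩

/-- **LYN-SPAN**, local version -/
theorem lynSpan_local {K : Type} [CommRing K] [CharP K 2] (P : List α → K) (w₀ : List α)
    (hw₀ : w₀ ≠ [])
    (hS : ∀ u v : List α, u ≠ [] → v ≠ [] → (u ++ v).Perm w₀ → shs P u v = 0)
    (hH : ∀ (a : α) (u : List α), (a :: u ++ a :: u).Perm w₀ →
      shs (fun l => P (a :: l)) u (a :: u) = 0)
    (hL : ∀ w : List α, w.Perm w₀ → IsLyn w → P w = 0) : P w₀ = 0 := by
  classical
  by_contra hne
  -- the smallest word with nonzero value
  obtain ⟨w, hw, hmin⟩ := Finset.exists_min_image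
    (w₀.permutations.toFinset.filter (fun w => P w ≠ 0)) id
    ⟨w₀, by simp [hne]⟩
  simp only [Finset.mem_filter, List.mem_toFinset, List.mem_permutations, id] at hw hmin
  obtain ⟨hww, hPw⟩ := hw
  have hmin' : ∀ t : List α, t.Perm w → t < w → P t = 0 := by
    intro t ht htw
    by_contra h
    exact absurd (hmin t ⟨ht.trans hww, h⟩) (not_le.2 htw)
  apply hPw
  have hwne : w ≠ [] := by
    rintro rfl
    exact hw₀ (List.nil_perm.1 hww)
  obtain ⟨l, hl, hlw, hlmin⟩ := exists_least_suffix w hwne
  obtain ⟨u, i, hwu, hlu⟩ := exists_strip hl _ w le_rfl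
  have hi : i ≠ 0 := by
    rintro rfl
    rw [hwu] at hlw
    simp [pw] at hlw
    exact hlu hlw
  obtain ⟨i, rfl⟩ : ∃ k, i = k + 1 := ⟨i - 1, by omega⟩
  have hbig : Big l u := by
    intro s hs hsu
    by_contra hcon
    have hsl : s ≤ l := not_lt.1 hcon
    rcases hsl.eq_or_lt with rfl | hsl
    · exact hlu hsu
    have hsuf : s ++ pw l (i + 1) <:+ w := by
      obtain ⟨x, rfl⟩ := hsu
      exact ⟨x, by rw [hwu, List.append_assoc]⟩
    have h1 : l ≤ s ++ pw l (i + 1) := hlmin _ (by simp [hs]) hsuf
    rcases lt_cases hsl with ⟨r, hr, hlr⟩ | h2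
    · have hrl : l ≤ r := hlmin r hr ((List.suffix_append s r).trans (hlr ▸ hlw))
      have hlen : r.length < l.length := by
        rw [hlr, List.length_append]
        have := List.length_pos_iff.2 hs
        omega
      have hne : l ≠ r := by
        intro h
        rw [← h] at hlen
        exact absurd hlen (lt_irrefl _)
      rcases lt_cases (lt_of_le_of_ne hrl hne) with ⟨q, hq, hrq⟩ | h3
      · rw [hrq, List.length_append] at hlen
        omega
      · have h4 : pw l (i + 1) < r := by
          have := h3 (pw l i) []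
          simpa [pw] using this
        have h5 : s ++ pw l (i + 1) < l := by
          conv_rhs => rw [hlr]
          exact append_lt_append' s h4
        exact absurd h1 (not_le.2 h5)
    · have := h2 (pw l (i + 1)) []
      rw [List.append_nil] at this
      exact absurd h1 (not_le.2 this)
  rcases eq_or_ne u [] with rfl | hu
  · rw [List.nil_append] at hwu
    have hlyn : IsLyn l := by
      refine ⟨hl, ?_⟩
      intro s hs hsl hne
      exact lt_of_le_of_ne (hlmin s hs (hsl.trans hlw)) hne.symm
    rcases Nat.eq_zero_or_pos i with rfl | hi0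
    · have : w = l := by simpa [pw] using hwu
      exact hL w hww (this ▸ hlyn)
    have hmin2 : ∀ t : List α, t.Perm (pw l (i + 1)) → t < pw l (i + 1) → P t = 0 := by
      rw [← hwu]
      exact hmin'
    have hpwne : ∀ j, 0 < j → pw l j ≠ [] := by
      intro j hj
      obtain ⟨j, rfl⟩ : ∃ k, j = k + 1 := ⟨j - 1, by omega⟩
      simp [pw, hl]
    by_cases hpow : ∃ k, i + 1 = 2 ^ k
    · obtain ⟨k, hk⟩ := hpow
      have hk0 : k ≠ 0 := by
        rintro rfl
        simp at hk
        omega
      obtain ⟨k, rfl⟩ : ∃ m, k = m + 1 := ⟨k - 1, by omega⟩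
      have hkp : 0 < 2 ^ k := by positivity
      obtain ⟨j, hj⟩ : ∃ j, 2 ^ k = j + 1 := ⟨2 ^ k - 1, by omega⟩
      have hij : i + 1 = (j + 1) + (j + 1) := by rw [hk, pow_succ, hj]; ring
      obtain ⟨a, r, har⟩ : ∃ a r, l = a :: r := by
        cases l with
        | nil => exact absurd rfl hl
        | cons a r => exact ⟨a, r, rfl⟩
      subst har
      have hh := hH a (r ++ pw (a :: r) j) (by
        have : a :: (r ++ pw (a :: r) j) = pw (a :: r) (j + 1) := by simp [pw]
        rw [this, ← pw_add, ← hij, ← hwu]
        exact hww)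
      have e1 : a :: (r ++ pw (a :: r) j) = pw (a :: r) (j + 1) := by simp [pw]
      rw [e1, shs_pw_tail hlyn j (j + 1) P
        (by rw [show j + (j + 1) + 1 = i + 1 by omega]; exact hmin2),
        shs_pw hlyn i j (j + 1) _ (by omega)] at hh
      · have hodd : Odd (i.choose j) := by
          have : i = 2 ^ (k + 1) - 1 := by omega
          rw [this]
          exact odd_choose (k + 1) j (by rw [← this]; omega)
        obtain ⟨c, hc⟩ := hodd
        rw [hc, nsmul_eq_mul] at hh
        push_cast at hh
        rw [CharTwo.two_eq_zero, zero_mul, zero_add, one_mul] at hh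
        rw [hwu]
        simpa [pw] using hh
      · intro t ht htl
        exact hmin2 _ (ht.append_left (a :: r)) (append_lt_append' (a :: r) htl)
    · push Not at hpow
      obtain ⟨j, hj0, hj1, hodd⟩ := odd_choose' (i + 1) (by omega) hpow
      have hh := hS (pw l j) (pw l (i + 1 - j)) (hpwne j hj0) (hpwne _ (by omega)) (by
        rw [← pw_add, show j + (i + 1 - j) = i + 1 by omega, ← hwu]
        exact hww)
      rw [shs_pw hlyn (i + 1) j (i + 1 - j) P (by omega) hmin2] at hh
      obtain ⟨c, hc⟩ := hodd
      rw [hc, nsmul_eq_mul] at hh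
      push_cast at hh
      rw [CharTwo.two_eq_zero, zero_mul, zero_add, one_mul] at hh
      rw [hwu]
      exact hh
  · have hpwne : pw l (i + 1) ≠ [] := by simp [pw, hl]
    have hh := hS u (pw l (i + 1)) hu hpwne (by rw [← hwu]; exact hww)
    rw [← List.append_nil u, shs_lead u [] (pw l (i + 1)) P (hbig.pw (i + 1)), shs_nil_left] at hh
    · rw [hwu]
      exact hh
    · rintro t ht ⟨t', h1, h2⟩
      rw [List.append_nil] at ht
      rw [h1.nil_left] at h2
      refine hmin' t ?_ ?_
      · rw [hwu]
        exact ht.perm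
      · rw [hwu]
        exact h2

/-- **LYN-SPAN** -/
theorem lynSpan {K : Type} [CommRing K] [CharP K 2] (P : List α → K)
    (hS : ∀ u v : List α, u ≠ [] → v ≠ [] → shs P u v = 0)
    (hH : ∀ (a : α) (u : List α), shs (fun l => P (a :: l)) u (a :: u) = 0)
    (hL : ∀ w : List α, IsLyn w → P w = 0) (w : List α) (hw : w ≠ []) : P w = 0 :=
  lynSpan_local P w hw (fun u v hu hv _ => hS u v hu hv) (fun a u _ => hH a u)
    (fun w _ h => hL w h)

end Order

end MP154526.Lyn
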