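import Pool.Agent.Lib.MP_154526_nt.Top.Plan
import Pool.Agent.Lib.MP_154526_nt.Top.LynSpan

/-!
# module LYN: `SpecLyn` and `SpecLynGr`
-/

set_option autoImplicit false

namespace MP154526.Top

theorem isLyn_of {w : List Bool} (h : MP154526.Lyn.IsLyn w) : IsLyn w := by
  refine ⟨h.1, ?_⟩
  rintro u v rfl hu hv
  refine h.2 v hv (List.suffix_append u v) ?_
  intro hh
  have := congrArg List.length hh
  rw [List.length_append] at this
  have h1 := List.length_pos_iff.2 hu
  omega

theorem specLyn : SpecLyn := by
  intro m Q hm hQ hL w hw
  refine MP154526.Lyn.lynSpan_local Q w ?_ ?_ ?_ ?_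
  · rintro rfl
    simp at hw
    omega
  · intro u v hu hv hp
    refine hQ.sh u v hu hv ?_
    have := hp.length_eq
    rw [List.length_append] at this
    omega
  · intro a u hp
    refine hQ.half a u ?_
    have := hp.length_eq
    simp only [List.length_append, List.length_cons] at this
    omega
  · intro t ht hl
    exact hL t (isLyn_of hl) (by rw [ht.length_eq, hw])

theorem specLynGr : SpecLynGr := by
  intro m k Q hm hQ hk hL w hw
  by_contra hne
  apply hne
  have hwk := hk w hne
  refine MP154526.Lyn.lynSpan_local Q w ?_ ?_ ?_ ?_
  · rintro rfl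
    simp at hw
    omega
  · intro u v hu hv hp
    refine hQ.sh u v hu hv ?_
    have := hp.length_eq
    rw [List.length_append] at this
    omega
  · intro a u hp
    refine hQ.half a u ?_
    have := hp.length_eq
    simp only [List.length_append, List.length_cons] at this
    omega
  · intro t ht hl
    exact hL t (isLyn_of hl) (by rw [ht.length_eq, hw]) (by rw [ht.count_eq, hwk])

end MP154526.Top
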