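import Mathlib

set_option autoImplicit false

/-! Internal tools for Theorem V (double shuffle modulo 2, helper84).
Words and vertex lists are written with the LAST letter (last slot) as head of the list. -/

namespace MP154526.Top.VI

open Polynomial

section basic

variable {R : Type*} [CommRing R]

/-- slot weight of the slot function (1+u z)/(1+y z) (characteristic 2) -/
def kap (u y : R) : ℕ → R
  | 0 => 1
  | (n+1) => y^n * (y+u)

/-- evaluation of a functional with coefficients `G` at slot functions `kap u c`; head = last slot -/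
def ev (D : ℕ) (u : R) : List R → (List ℕ → R) → R
  | [], G => G []
  | (c :: cs), G => ∑ n ∈ Finset.range D, kap u c n * ev D u cs (fun l => G (n :: l))

/-- vertices of the path of a word from the base `b`; head = last letter / last vertex -/
def verts (b : R) : List R → List R
  | [] => []
  | (x :: ρ) => (b + (x + ρ.sum)) :: verts b ρ

/-- sum of `F` over all shuffles of two words -/
def shs {α S : Type*} [AddCommMonoid S] : (List α → S) → List α → List α → S
  | F, [], W => F W
  | F, (x :: σ), [] => F (x :: σ)
  | F, (x :: σ), (w :: W) =>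
      shs (fun l => F (x :: l)) σ (w :: W) + shs (fun l => F (w :: l)) (x :: σ) W
termination_by _ σ W => σ.length + W.length

/-- the two-element alphabet {0,u} -/
def AU (u x : R) : Prop := x = 0 ∨ x = u

end basic

section shuffles

variable {α S : Type*} [AddCommMonoid S]

@[simp] theorem shs_nil (F : List α → S) (W : List α) : shs F [] W = F W := by
  rw [shs.eq_def]

@[simp] theorem shs_nil' (F : List α → S) (σ : List α) : shs F σ [] = F σ := by
  cases σ with
  | nil => simp
  | cons x σ => rw [shs.eq_def]

theorem shs_cons (F : List α → S) (x : α) (σ : List α) (w : α) (W : List α) :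
    shs F (x :: σ) (w :: W) =
      shs (fun l => F (x :: l)) σ (w :: W) + shs (fun l => F (w :: l)) (x :: σ) W := by
  rw [shs.eq_def]

/-- congruence: only words of the right length matter, with the right image in any commutative monoid -/
theorem shs_congr {M : Type*} [AddCommMonoid M] (s : List α → M)
    (hs0 : ∀ (x : α) (l : List α), s (x :: l) = s [x] + s l) (hs1 : s [] = 0) :
    ∀ (σ W : List α) (F G : List α → S),
    (∀ ρ, ρ.length = σ.length + W.length → s ρ = s σ + s W → F ρ = G ρ) →
    shs F σ W = shs G σ W
  | [], W, F, G, h => by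
      simp only [shs_nil]; exact h W (by simp) (by simp [hs1])
  | (x :: σ), [], F, G, h => by
      simp only [shs_nil']; exact h _ (by simp) (by simp [hs1])
  | (x :: σ), (w :: W), F, G, h => by
      rw [shs_cons, shs_cons]
      congr 1
      · apply shs_congr s hs0 hs1
        intro ρ h1 h2
        apply h
        · simp only [List.length_cons] at h1 ⊢; omega
        · rw [hs0 x ρ, h2, hs0 x σ, add_assoc]
      · apply shs_congr s hs0 hs1
        intro ρ h1 h2
        apply h
        · simp only [List.length_cons] at h1 ⊢; omega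
        · rw [hs0 w ρ, h2, hs0 w W]; abel
termination_by σ W => σ.length + W.length

theorem shs_zero_fun : ∀ (σ W : List α), shs (fun _ => (0 : S)) σ W = 0
  | [], W => by simp
  | (x :: σ), [] => by simp
  | (x :: σ), (w :: W) => by
      rw [shs_cons, shs_zero_fun σ (w :: W), shs_zero_fun (x :: σ) W, add_zero]
termination_by σ W => σ.length + W.length

theorem shs_map_add {T : Type*} [AddCommMonoid T] (φ : S →+ T) :
    ∀ (F : List α → S) (σ W : List α), φ (shs F σ W) = shs (fun l => φ (F l)) σ W
  | F, [], W => by simp
  | F, (x :: σ), [] => by simp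
  | F, (x :: σ), (w :: W) => by
      rw [shs_cons, shs_cons, map_add, shs_map_add φ _ σ (w :: W), shs_map_add φ _ (x :: σ) W]
termination_by F σ W => σ.length + W.length

theorem shs_sum {ι : Type*} (s : Finset ι) (F : ι → List α → S) :
    ∀ (σ W : List α), shs (fun l => ∑ i ∈ s, F i l) σ W = ∑ i ∈ s, shs (F i) σ W := by
  classical
  intro σ W
  induction s using Finset.induction_on with
  | empty => simpa using shs_zero_fun σ W
  | insert a s ha ih =>
      have h : (fun l => ∑ i ∈ insert a s, F i l) = fun l => F a l + ∑ i ∈ s, F i l := by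
        funext l; rw [Finset.sum_insert ha]
      rw [h, Finset.sum_insert ha, ← ih]
      clear ih h
      have key : ∀ (σ W : List α) (P Q : List α → S),
          shs (fun l => P l + Q l) σ W = shs P σ W + shs Q σ W := by
        intro σ W
        induction σ generalizing W with
        | nil => intro P Q; simp
        | cons x σ ihσ =>
          induction W with
          | nil => intro P Q; simp
          | cons w W ihW =>
            intro P Q
            rw [shs_cons, shs_cons, shs_cons]
            have h1 := ihσ (w :: W) (fun l => P (x :: l)) (fun l => Q (x :: l))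
            have h2 := ihW (fun l => P (w :: l)) (fun l => Q (w :: l))
            rw [h1, h2]; abel
      exact key σ W _ _

theorem shs_map {β : Type*} (f : α → β) :
    ∀ (F : List β → S) (σ W : List α), shs F (σ.map f) (W.map f) = shs (fun l => F (l.map f)) σ W
  | F, [], W => by simp
  | F, (x :: σ), [] => by simp
  | F, (x :: σ), (w :: W) => by
      rw [List.map_cons, List.map_cons, shs_cons, shs_cons, ← List.map_cons, ← List.map_cons,
        shs_map f _ σ (w :: W), shs_map f _ (x :: σ) W]
      simp
termination_by F σ W => σ.length + W.length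

end shuffles

section evs

variable {R : Type*} [CommRing R]

theorem shs_mul_left (c : R) {α : Type*} (F : List α → R) (σ W : List α) :
    shs (fun l => c * F l) σ W = c * shs F σ W := by
  have := shs_map_add (AddMonoidHom.mulLeft c) F σ W
  simpa using this.symm

theorem shs_congr_sum {S : Type*} [AddCommMonoid S] (σ W : List R) (F G : List R → S)
    (h : ∀ ρ, ρ.length = σ.length + W.length → ρ.sum = σ.sum + W.sum → F ρ = G ρ) :
    shs F σ W = shs G σ W :=
  shs_congr (fun l => l.sum) (by intro x l; simp) (by simp) σ W F G h

theorem shs_eq_zero {S : Type*} [AddCommMonoid S] (σ W : List R) (F : List R → S)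
    (h : ∀ ρ, ρ.length = σ.length + W.length → ρ.sum = σ.sum + W.sum → F ρ = 0) :
    shs F σ W = 0 := by
  rw [shs_congr_sum σ W F (fun _ => 0) h, shs_zero_fun]

theorem ev_congr (D : ℕ) (u : R) : ∀ (cs : List R) (G H : List ℕ → R),
    (∀ l, l.length = cs.length → (∀ x ∈ l, x < D) → G l = H l) → ev D u cs G = ev D u cs H
  | [], G, H, h => by simp only [ev]; exact h [] rfl (by simp)
  | (c :: cs), G, H, h => by
      simp only [ev]
      apply Finset.sum_congr rfl
      intro n hn
      rw [ev_congr D u cs (fun l => G (n :: l)) (fun l => H (n :: l))]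
      intro l h1 h2
      apply h
      · simp [h1]
      · intro x hx
        rcases List.mem_cons.1 hx with rfl | hx
        · exact Finset.mem_range.1 hn
        · exact h2 x hx

theorem ev_zero_fun (D : ℕ) (u : R) : ∀ (cs : List R), ev D u cs (fun _ => 0) = 0
  | [] => rfl
  | (c :: cs) => by
      simp only [ev]
      apply Finset.sum_eq_zero
      intro n _
      rw [ev_zero_fun D u cs, mul_zero]

theorem ev_eq_zero (D : ℕ) (u : R) (cs : List R) (G : List ℕ → R)
    (h : ∀ l, l.length = cs.length → (∀ x ∈ l, x < D) → G l = 0) : ev D u cs G = 0 := by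
  rw [ev_congr D u cs G (fun _ => 0) h, ev_zero_fun]

theorem ev_append (D : ℕ) (u : R) : ∀ (ε cs : List R) (G : List ℕ → R),
    ev D u (ε ++ cs) G = ev D u ε (fun τ => ev D u cs (fun l => G (τ ++ l)))
  | [], cs, G => by simp [ev]
  | (c :: ε), cs, G => by
      simp only [ev, List.cons_append]
      apply Finset.sum_congr rfl
      intro n _
      rw [ev_append D u ε cs]

theorem ev_shs {α : Type*} (D : ℕ) (u : R) (σ W : List α) : ∀ (ε : List R) (F : List α → List ℕ → R),
    shs (fun ρ => ev D u ε (F ρ)) σ W = ev D u ε (fun τ => shs (fun ρ => F ρ τ) σ W)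
  | [], F => by simp [ev]
  | (c :: ε), F => by
      simp only [ev]
      rw [shs_sum]
      apply Finset.sum_congr rfl
      intro n _
      rw [shs_mul_left, ev_shs D u σ W ε (fun ρ l => F ρ (n :: l))]

theorem kap_map {S : Type*} [CommRing S] (φ : R →+* S) (u y : R) (n : ℕ) :
    φ (kap u y n) = kap (φ u) (φ y) n := by
  cases n with
  | zero => simp [kap]
  | succ n => simp [kap]

theorem ev_map {S : Type*} [CommRing S] (φ : R →+* S) (D : ℕ) (u : R) :
    ∀ (cs : List R) (G : List ℕ → R),
    φ (ev D u cs G) = ev D (φ u) (cs.map φ) (fun l => φ (G l))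
  | [], G => by simp [ev]
  | (c :: cs), G => by
      simp only [ev, List.map_cons, map_sum, map_mul]
      apply Finset.sum_congr rfl
      intro n _
      rw [kap_map, ev_map φ D u cs]

theorem verts_map {S : Type*} [CommRing S] (φ : R →+* S) (b : R) :
    ∀ (ρ : List R), (verts b ρ).map φ = verts (φ b) (ρ.map φ)
  | [] => rfl
  | (x :: ρ) => by
      simp only [verts, List.map_cons, map_add, verts_map φ b ρ, map_list_sum]

theorem verts_length (b : R) : ∀ (ρ : List R), (verts b ρ).length = ρ.length
  | [] => rfl
  | (x :: ρ) => by simp [verts, verts_length b ρ]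

theorem verts_append (b : R) : ∀ (α β : List R),
    verts b (α ++ β) = verts (b + β.sum) α ++ verts b β
  | [], β => by simp [verts]
  | (x :: α), β => by
      simp only [verts, List.cons_append, verts_append b α β, List.sum_append]
      congr 1
      ring

end evs

section two

variable {R : Type*} [CommRing R]

theorem AU.add (h2 : (2 : R) = 0) {u x y : R} (hx : AU u x) (hy : AU u y) : AU u (x + y) := by
  rcases hx with rfl | rfl <;> rcases hy with rfl | rfl
  · left; ring
  · right; ring
  · right; ring
  · left; rw [← two_mul, h2, zero_mul]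

theorem AU.zero {u : R} : AU u (0 : R) := Or.inl rfl

theorem AU.sum (h2 : (2 : R) = 0) {u : R} : ∀ (l : List R), (∀ x ∈ l, AU u x) → AU u l.sum
  | [], _ => AU.zero
  | (x :: l), h => by
      rw [List.sum_cons]
      exact AU.add h2 (h x (by simp)) (AU.sum h2 l (fun y hy => h y (by simp [hy])))

theorem add_self2 (h2 : (2 : R) = 0) (x : R) : x + x = 0 := by rw [← two_mul, h2, zero_mul]

theorem kap_AU_ge_two (h2 : (2 : R) = 0) {u c : R} (hc : AU u c) (n : ℕ) : kap u c (n+2) = 0 := by
  rcases hc with rfl | rfl
  · simp [kap]
  · simp [kap, add_self2 h2]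

theorem kap_u_succ (h2 : (2 : R) = 0) (u : R) (n : ℕ) : kap u u (n+1) = 0 := by
  simp [kap, add_self2 h2]

/-- all vertices of a path over the alphabet {0,u} from a base in {0,u} are in {0,u} -/
theorem verts_AU (h2 : (2 : R) = 0) {u c : R} (hc : AU u c) : ∀ (α : List R),
    (∀ a ∈ α, AU u a) → ∀ v ∈ verts c α, AU u v
  | [], _, v, hv => by simp [verts] at hv
  | (x :: α), h, v, hv => by
      simp only [verts, List.mem_cons] at hv
      rcases hv with rfl | hv
      · exact AU.add h2 hc (AU.add h2 (h x (by simp)) (AU.sum h2 α (fun y hy => h y (by simp [hy]))))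
      · exact verts_AU h2 hc α (fun y hy => h y (by simp [hy])) v hv

/-- every list in {0,u} is the vertex list of a word in {0,u} -/
theorem exists_word (h2 : (2 : R) = 0) {u c : R} (hc : AU u c) : ∀ (ε : List R),
    (∀ e ∈ ε, AU u e) → ∃ γ : List R, γ.length = ε.length ∧ (∀ x ∈ γ, AU u x) ∧ verts c γ = ε
  | [], _ => ⟨[], rfl, by simp, rfl⟩
  | (e :: ε), h => by
      obtain ⟨γ, h1, h3, h4⟩ := exists_word h2 hc ε (fun y hy => h y (by simp [hy]))
      refine ⟨(e + (c + γ.sum)) :: γ, by simp [h1], ?_, ?_⟩
      · intro x hx
        rcases List.mem_cons.1 hx with rfl | hx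
        · exact AU.add h2 (h e (by simp)) (AU.add h2 hc (AU.sum h2 γ h3))
        · exact h3 x hx
      · simp only [verts, h4]
        congr 1
        have := add_self2 h2 c
        have h5 := add_self2 h2 γ.sum
        linear_combination this + h5

/-- Moebius inversion over vertices in {0,u} -/
theorem mob (h2 : (2 : R) = 0) (D : ℕ) {u : R} (hu : u ∈ nonZeroDivisors R) :
    ∀ (t : ℕ) (Φ : List ℕ → R),
    (∀ ε : List R, ε.length = t → (∀ c ∈ ε, AU u c) → ev D u ε Φ = 0) →
    ∀ τ : List ℕ, τ.length = t → (∀ x ∈ τ, x < D ∧ x ≤ 1) → Φ τ = 0 := by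
  intro t
  induction t with
  | zero =>
      intro Φ h τ hτ _
      have := h [] rfl (by simp)
      simp only [ev] at this
      rw [List.length_eq_zero_iff.1 hτ]; exact this
  | succ t ih =>
      intro Φ h τ hτ hx
      obtain ⟨x, τ', rfl⟩ : ∃ x τ', τ = x :: τ' := by
        cases τ with
        | nil => simp at hτ
        | cons x τ' => exact ⟨x, τ', rfl⟩
      have hτ' : τ'.length = t := by simpa using hτ
      have hx' : ∀ y ∈ τ', y < D ∧ y ≤ 1 := fun y hy => hx y (by simp [hy])
      have hD : 0 < D := lt_of_le_of_lt (Nat.zero_le _) (hx x (by simp)).1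
      have h0 : ∀ ε : List R, ε.length = t → (∀ c ∈ ε, AU u c) →
          ev D u ε (fun l => Φ (0 :: l)) = 0 := by
        intro ε h1 h3
        have h4 := h (u :: ε) (by simp [h1]) (by
          intro c hc
          rcases List.mem_cons.1 hc with rfl | hc
          · exact Or.inr rfl
          · exact h3 c hc)
        simp only [ev] at h4
        rw [Finset.sum_eq_single_of_mem 0 (Finset.mem_range.2 hD)] at h4
        · simpa [kap] using h4
        · intro n _ hn
          obtain ⟨k, rfl⟩ := Nat.exists_eq_succ_of_ne_zero hn
          rw [Nat.succ_eq_add_one, kap_u_succ h2, zero_mul]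
      have hxx := hx x (by simp)
      have hx2 : x = 0 ∨ x = 1 := by omega
      rcases hx2 with rfl | rfl
      · exact ih (fun l => Φ (0 :: l)) h0 τ' hτ' hx'
      · apply ih (fun l => Φ (1 :: l)) _ τ' hτ' hx'
        intro ε h1 h3
        have h4 := h (0 :: ε) (by simp [h1]) (by
          intro c hc
          rcases List.mem_cons.1 hc with rfl | hc
          · exact Or.inl rfl
          · exact h3 c hc)
        simp only [ev] at h4
        have hD1 : 1 < D := hxx.1
        obtain ⟨E, rfl⟩ : ∃ E, D = E + 2 := ⟨D - 2, by omega⟩
        rw [Finset.sum_range_succ', Finset.sum_range_succ'] at h4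
        rw [Finset.sum_eq_zero] at h4
        · simp only [h0 ε h1 h3, mul_zero, add_zero, zero_add] at h4
          have h5 : u * ev (E+2) u ε (fun l => Φ (1 :: l)) = 0 := by
            simpa [kap] using h4
          exact (mul_left_mem_nonZeroDivisors_eq_zero_iff hu).1 h5
        · intro n _
          rw [show n + 1 + 1 = n + 2 from rfl, kap_AU_ge_two h2 AU.zero, zero_mul]

/-- evaluation at vertices in {0,u} only sees exponents at most 1 -/
theorem ev_AU_zero (h2 : (2 : R) = 0) (D : ℕ) {u : R} : ∀ (ε : List R) (Φ : List ℕ → R),
    (∀ c ∈ ε, AU u c) →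
    (∀ τ : List ℕ, τ.length = ε.length → (∀ x ∈ τ, x < D ∧ x ≤ 1) → Φ τ = 0) → ev D u ε Φ = 0
  | [], Φ, _, h => by simp only [ev]; exact h [] rfl (by simp)
  | (c :: ε), Φ, hc, h => by
      simp only [ev]
      apply Finset.sum_eq_zero
      intro n hn
      by_cases h1 : n ≤ 1
      · rw [ev_AU_zero h2 D ε (fun l => Φ (n :: l)) (fun y hy => hc y (by simp [hy])), mul_zero]
        intro τ h3 h4
        apply h
        · simp [h3]
        · intro x hx
          rcases List.mem_cons.1 hx with rfl | hx
          · exact ⟨Finset.mem_range.1 hn, h1⟩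
          · exact h4 x hx
      · obtain ⟨k, rfl⟩ : ∃ k, n = k + 2 := ⟨n - 2, by omega⟩
        rw [kap_AU_ge_two h2 (hc c (by simp)), zero_mul]

end two

end MP154526.Top.VI
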