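import Mathlib
import Pool.Agent.Lib.MP_154526_nt.Top.VBasic
import Pool.Agent.Lib.MP_154526_nt.Top.Span

section
set_option autoImplicit false

namespace MP154526.Top.VI

open Polynomial

section combin

variable {R : Type*} [CommRing R] {S : Type*} [AddCommMonoid S]

/-- shuffles of `σ` (letters in {0,u}) with `γ ++ w :: W'`: if `F` kills all words `α ++ β` with `α` over {0,u},
`|α| ≥ |γ|` and the vertex of `β` in {0,u}, the shuffle sum is zero. -/
theorem lemZero (h2 : (2 : R) = 0) (u b : R) : ∀ (σ : List R), (∀ s ∈ σ, AU u s) →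
    ∀ (γ : List R), (∀ s ∈ γ, AU u s) → ∀ (w : R) (W' : List R), AU u (b + (w + W'.sum)) →
    ∀ F : List R → S,
    (∀ α β : List R, (∀ a ∈ α, AU u a) → γ.length ≤ α.length → β ≠ [] → AU u (b + β.sum) →
      α.length + β.length = σ.length + (γ.length + (1 + W'.length)) → F (α ++ β) = 0) →
    shs F σ (γ ++ w :: W') = 0 := by
  intro σ
  induction σ with
  | nil =>
      intro _ γ hγ w W' hw F h
      rw [shs_nil]
      exact h γ (w :: W') hγ le_rfl (by simp) (by simpa using hw) (by simp; omega)
  | cons x σ ihσ =>
      intro hσ γ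
      have hσ' : ∀ s ∈ σ, AU u s := fun s hs => hσ s (by simp [hs])
      have hx : AU u x := hσ x (by simp)
      induction γ with
      | nil =>
          intro _ w W' hw F h
          rw [List.nil_append, shs_cons]
          have hA : shs (fun l => F (x :: l)) σ (w :: W') = 0 := by
            have := ihσ hσ' [] (by simp) w W' hw (fun l => F (x :: l)) (by
              intro α β h1 h3 h4 h5 h6
              have := h (x :: α) β (by
                intro a ha
                rcases List.mem_cons.1 ha with rfl | ha
                · exact hx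
                · exact h1 a ha) (by simp) h4 h5 (by
                simp only [List.length_cons] at h6 ⊢; omega)
              simpa using this)
            simpa using this
          rw [hA, zero_add]
          apply shs_eq_zero
          intro ρ h1 h3
          apply h [] (w :: ρ) (by simp) (by simp) (by simp)
          · rw [List.sum_cons, h3]
            have h4 : AU u (x :: σ).sum := AU.sum h2 _ hσ
            have := AU.add h2 hw h4
            rwa [show b + (w + W'.sum) + (x :: σ).sum = b + (w + ((x :: σ).sum + W'.sum)) by ring] at this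
          · simp only [List.length_cons, List.length_nil] at h1 ⊢; omega
      | cons g γ ihγ =>
          intro hγ w W' hw F h
          have hg : AU u g := hγ g (by simp)
          have hγ' : ∀ s ∈ γ, AU u s := fun s hs => hγ s (by simp [hs])
          rw [List.cons_append, shs_cons]
          have hA : shs (fun l => F (x :: l)) σ (g :: (γ ++ w :: W')) = 0 := by
            have := ihσ hσ' (g :: γ) hγ w W' hw (fun l => F (x :: l)) (by
              intro α β h1 h3 h4 h5 h6
              have := h (x :: α) β (by
                intro a ha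
                rcases List.mem_cons.1 ha with rfl | ha
                · exact hx
                · exact h1 a ha) (by simp only [List.length_cons] at h3 ⊢; omega) h4 h5 (by
                simp only [List.length_cons] at h6 ⊢; omega)
              simpa using this)
            simpa using this
          rw [hA, zero_add]
          apply ihγ hγ' w W' hw
          intro α β h1 h3 h4 h5 h6
          have := h (g :: α) β (by
            intro a ha
            rcases List.mem_cons.1 ha with rfl | ha
            · exact hg
            · exact h1 a ha) (by simp only [List.length_cons] at h3 ⊢; omega) h4 h5 (by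
            simp only [List.length_cons] at h6 ⊢; omega)
          simpa using this

/-- the part of the shuffles with all letters of `σ` before `w` -/
theorem lemMain (h2 : (2 : R) = 0) (u b : R) (σ : List R) (hσ : ∀ s ∈ σ, AU u s) :
    ∀ (γ : List R), (∀ s ∈ γ, AU u s) → ∀ (w : R) (W' : List R), AU u (b + (w + W'.sum)) →
    ∀ F : List R → S,
    (∀ α β : List R, (∀ a ∈ α, AU u a) → γ.length + 1 ≤ α.length → β ≠ [] → AU u (b + β.sum) →
      α.length + β.length = σ.length + (γ.length + (1 + W'.length)) → F (α ++ β) = 0) →
    shs F σ (γ ++ w :: W') = shs (fun ρ => F (γ ++ w :: ρ)) σ W' := by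
  cases σ with
  | nil => intro γ _ w W' _ F _; simp
  | cons x σ =>
      have hσ' : ∀ s ∈ σ, AU u s := fun s hs => hσ s (by simp [hs])
      have hx : AU u x := hσ x (by simp)
      intro γ
      induction γ with
      | nil =>
          intro _ w W' hw F h
          rw [List.nil_append, shs_cons]
          have hA : shs (fun l => F (x :: l)) σ (w :: W') = 0 := by
            have := lemZero (S := S) h2 u b σ hσ' [] (by simp) w W' hw (fun l => F (x :: l)) (by
              intro α β h1 h3 h4 h5 h6
              have := h (x :: α) β (by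
                intro a ha
                rcases List.mem_cons.1 ha with rfl | ha
                · exact hx
                · exact h1 a ha) (by simp) h4 h5 (by
                simp only [List.length_cons, List.length_nil] at h6 ⊢; omega)
              simpa using this)
            simpa using this
          rw [hA, zero_add]
          simp
      | cons g γ ihγ =>
          intro hγ w W' hw F h
          have hg : AU u g := hγ g (by simp)
          have hγ' : ∀ s ∈ γ, AU u s := fun s hs => hγ s (by simp [hs])
          rw [List.cons_append, shs_cons]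
          have hA : shs (fun l => F (x :: l)) σ (g :: (γ ++ w :: W')) = 0 := by
            have := lemZero (S := S) h2 u b σ hσ' (g :: γ) hγ w W' hw (fun l => F (x :: l)) (by
              intro α β h1 h3 h4 h5 h6
              have := h (x :: α) β (by
                intro a ha
                rcases List.mem_cons.1 ha with rfl | ha
                · exact hx
                · exact h1 a ha) (by simp only [List.length_cons] at h3 ⊢; omega) h4 h5 (by
                simp only [List.length_cons] at h6 ⊢; omega)
              simpa using this)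
            simpa using this
          rw [hA, zero_add, ihγ hγ' w W' hw]
          · simp
          · intro α β h1 h3 h4 h5 h6
            have := h (g :: α) β (by
              intro a ha
              rcases List.mem_cons.1 ha with rfl | ha
              · exact hg
              · exact h1 a ha) (by simp only [List.length_cons] at h3 ⊢; omega) h4 h5 (by
              simp only [List.length_cons] at h6 ⊢; omega)
            simpa using this

end combin

/-- `Zt D m g t`: `g` vanishes on exponent lists of length `m` whose last `t` slots (head of the list)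
have exponents at most 1 -/
def Zt {A : Type*} [Zero A] (D m : ℕ) (g : List ℕ → A) (t : ℕ) : Prop :=
  ∀ τ l : List ℕ, τ.length = t → τ.length + l.length = m → (∀ x ∈ τ, x < D ∧ x ≤ 1) →
    (∀ x ∈ l, x < D) → g (τ ++ l) = 0

theorem Zt.mono {A : Type*} [Zero A] {D m : ℕ} {g : List ℕ → A} {t t' : ℕ} (h : Zt D m g t)
    (ht : t ≤ t') : Zt D m g t' := by
  intro τ l h1 h2 h3 h4
  have hτ : τ = τ.take t ++ τ.drop t := (List.take_append_drop t τ).symm
  rw [hτ, List.append_assoc]
  apply h
  · simp; omega
  · have : (τ.take t).length + (τ.drop t).length = τ.length := by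
      rw [← List.length_append, List.take_append_drop]
    rw [List.length_append]; omega
  · intro x hx; exact h3 x (List.mem_of_mem_take hx)
  · intro x hx
    rcases List.mem_append.1 hx with hx | hx
    · exact (h3 x (List.mem_of_mem_drop hx)).1
    · exact h4 x hx

/-- evaluation vanishes when at least `t` of the last vertices are in {0,u} -/
theorem evZ {A : Type*} [CommRing A] {R : Type*} [CommRing R] [Algebra A R] (h2 : (2 : R) = 0)
    (D m : ℕ) (g : List ℕ → A) (t : ℕ) (hZ : Zt D m g t) (u : R) (ε cs : List R)
    (hε : ∀ c ∈ ε, AU u c) (ht : t ≤ ε.length) (hm : ε.length + cs.length = m) :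
    ev D u (ε ++ cs) (fun l => algebraMap A R (g l)) = 0 := by
  rw [ev_append]
  apply ev_AU_zero h2 D ε _ hε
  intro τ h1 h3
  apply ev_eq_zero
  intro l h4 h5
  rw [hZ.mono ht τ l h1 (by omega) h3 h5, map_zero]

/-- hypothesis of Theorem V at a fixed base `b` -/
def Hyp {A : Type} [CommRing A] (b : A) (D m : ℕ) (g : List ℕ → A) : Prop :=
  ∀ (R : Type) [CommRing R] [Algebra A R] (u : R), u ∈ nonZeroDivisors R →
    ∀ σ W : List R, (∀ s ∈ σ, AU u s) → σ ≠ [] → σ.length + W.length = m →
    shs (fun ρ => ev D u (verts (algebraMap A R b) ρ) (fun l => algebraMap A R (g l))) σ W = 0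

/-- the weaker hypothesis with a correction term -/
def HypS {A : Type} [CommRing A] (b : A) (D m : ℕ) (g : List ℕ → A) : Prop :=
  ∀ (R : Type) [CommRing R] [Algebra A R] (u : R), u ∈ nonZeroDivisors R →
    ∀ σ W : List R, (∀ s ∈ σ, AU u s) → σ ≠ [] → σ.length + W.length = m →
    ∃ (τ : List R) (c : R), τ.length = σ.length ∧ (∀ s ∈ τ, AU u s) ∧
    shs (fun ρ => ev D u (verts (algebraMap A R b) ρ) (fun l => algebraMap A R (g l))) σ W =
      c * ev D u (τ ++ verts (algebraMap A R b) W) (fun l => algebraMap A R (g l))

theorem Hyp.toS {A : Type} [CommRing A] {b : A} {D m : ℕ} {g : List ℕ → A} (h : Hyp b D m g) :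
    HypS b D m g := by
  intro R _ _ u hu σ W h1 h2 h3
  refine ⟨σ, 0, rfl, h1, ?_⟩
  rw [h R u hu σ W h1 h2 h3, zero_mul]

/-- one step of the chain -/
theorem chain_step {A : Type} [CommRing A] (h2A : (2 : A) = 0) (b : A) (D m : ℕ) (g : List ℕ → A)
    (IH : ∀ r, 1 ≤ r → r < m → ∀ g' : List ℕ → A, Hyp b D r g' →
      ∀ l, l.length = r → (∀ x ∈ l, x < D) → g' l = 0)
    (hS : HypS b D m g) (t : ℕ) (ht : 1 ≤ t) (htm : t < m) (hZ : Zt D m g (t+1)) : Zt D m g t := by
  intro τ l h1 h2 h3 h4
  apply IH (m - t) (by omega) (by omega) (fun l' => g (τ ++ l')) _ l (by omega) h4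
  intro R _ _ u hu σ W' hσ hσ0 hlen
  have h2R : (2 : R) = 0 := by
    have := congrArg (algebraMap A R) h2A
    rwa [map_ofNat, map_zero] at this
  set B : R := algebraMap A R b with hB
  -- Moebius inversion over the tail
  refine mob h2R D hu t
    (fun τ' => shs (fun ρ => ev D u (verts B ρ) (fun l => algebraMap A R (g (τ' ++ l)))) σ W') ?_ τ h1 h3
  intro ε hε1 hε2
  -- split off the vertex at w
  obtain ⟨ε₀, e, rfl⟩ : ∃ ε₀ e, ε = ε₀ ++ [e] := by
    rcases List.eq_nil_or_concat ε with h | ⟨L, a, h⟩
    · rw [h] at hε1; simp at hε1; omega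
    · exact ⟨L, a, by simpa using h⟩
  have he : AU u e := hε2 e (by simp)
  have hε₀ : ∀ c ∈ ε₀, AU u c := fun c hc => hε2 c (by simp [hc])
  obtain ⟨γ, hγ1, hγ2, hγ3⟩ := exists_word h2R he ε₀ hε₀
  have hγt : γ.length + 1 = t := by rw [hγ1]; simpa using hε1
  set w : R := e + (B + (σ.sum + W'.sum)) with hw
  have hσs : AU u σ.sum := AU.sum h2R σ hσ
  have hw1 : B + (w + W'.sum) = e + σ.sum := by
    rw [hw]
    have e1 := add_self2 h2R B
    have e2 := add_self2 h2R W'.sum
    linear_combination e1 + e2
  have hw2 : ∀ ρ : List R, ρ.sum = σ.sum + W'.sum → B + (w + ρ.sum) = e := by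
    intro ρ hρ
    rw [hw, hρ]
    have e1 := add_self2 h2R B
    have e2 := add_self2 h2R W'.sum
    have e3 := add_self2 h2R σ.sum
    linear_combination e1 + e2 + e3
  have hwA : AU u (B + (w + W'.sum)) := by rw [hw1]; exact AU.add h2R he hσs
  -- the relation
  obtain ⟨τ₁, c₁, hτ1, hτ2, hrel⟩ := hS R u hu σ (γ ++ w :: W') hσ hσ0 (by
    rw [List.length_append, List.length_cons]; omega)
  set G : List ℕ → R := fun l => algebraMap A R (g l) with hG
  -- the right side vanishes
  have hR : ev D u (τ₁ ++ verts B (γ ++ w :: W')) G = 0 := by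
    have hv : verts B (γ ++ w :: W') =
        (verts (B + (w :: W').sum) γ ++ [B + (w + W'.sum)]) ++ verts B W' := by
      rw [verts_append]; simp [verts]
    rw [hv, ← List.append_assoc]
    apply evZ h2R D m g (t+1) hZ u
    · intro c hc
      rcases List.mem_append.1 hc with hc | hc
      · exact hτ2 c hc
      · rcases List.mem_append.1 hc with hc | hc
        · exact verts_AU h2R (by simpa using hwA) γ hγ2 c hc
        · rw [List.mem_singleton] at hc; rw [hc]; exact hwA
    · have : 1 ≤ σ.length := by
        rcases σ with _ | ⟨a, σ⟩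
        · exact absurd rfl hσ0
        · simp
      simp only [List.length_append, verts_length, List.length_cons, List.length_nil]; omega
    · simp only [List.length_append, verts_length, List.length_cons, List.length_nil]; omega
  rw [hR, mul_zero] at hrel
  -- the left side
  rw [lemMain h2R u B σ hσ γ hγ2 w W' hwA] at hrel
  · -- rewrite
    have hcong : shs (fun ρ => ev D u (verts B (γ ++ w :: ρ)) G) σ W' =
        shs (fun ρ => ev D u (ε₀ ++ [e]) (fun τ' => ev D u (verts B ρ) (fun l => G (τ' ++ l)))) σ W' := by
      apply shs_congr_sum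
      intro ρ hρ1 hρ2
      have hv : verts B (γ ++ w :: ρ) = (ε₀ ++ [e]) ++ verts B ρ := by
        rw [verts_append]
        simp only [List.sum_cons, hw2 ρ hρ2, hγ3, verts, List.append_assoc, List.cons_append,
          List.nil_append]
      rw [hv, ev_append]
    rw [hcong, ev_shs] at hrel
    exact hrel
  · intro α β hα1 hα2 hβ1 hβ2 hlen2
    obtain ⟨β₀, β₁, rfl⟩ : ∃ β₀ β₁, β = β₀ :: β₁ := by
      cases β with
      | nil => exact absurd rfl hβ1
      | cons β₀ β₁ => exact ⟨β₀, β₁, rfl⟩
    have hv : verts B (α ++ β₀ :: β₁) =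
        (verts (B + (β₀ :: β₁).sum) α ++ [B + (β₀ :: β₁).sum]) ++ verts B β₁ := by
      rw [verts_append]; simp [verts]
    show ev D u (verts B (α ++ β₀ :: β₁)) G = 0
    rw [hv]
    apply evZ h2R D m g (t+1) hZ u
    · intro c hc
      rcases List.mem_append.1 hc with hc | hc
      · exact verts_AU h2R hβ2 α hα1 c hc
      · rw [List.mem_singleton] at hc; rw [hc]; exact hβ2
    · simp only [List.length_append, verts_length, List.length_cons, List.length_nil]; omega
    · simp only [List.length_append, verts_length, List.length_cons, List.length_nil] at hlen2 ⊢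
      omega

theorem chain {A : Type} [CommRing A] (h2A : (2 : A) = 0) (b : A) (D m : ℕ) (g : List ℕ → A)
    (IH : ∀ r, 1 ≤ r → r < m → ∀ g' : List ℕ → A, Hyp b D r g' →
      ∀ l, l.length = r → (∀ x ∈ l, x < D) → g' l = 0)
    (hS : HypS b D m g) (h0 : Zt D m g m) : ∀ t, 1 ≤ t → t ≤ m → Zt D m g t := by
  have key : ∀ k t, t + k = m → 1 ≤ t → Zt D m g t := by
    intro k
    induction k with
    | zero => intro t h _; simp at h; rw [h]; exact h0
    | succ k ih =>
        intro t h h1
        exact chain_step h2A b D m g IH hS t h1 (by omega) (ih (t+1) (by omega) (by omega))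
  intro t h1 h3
  exact key (m - t) t (by omega) h1

end MP154526.Top.VI
end

section
set_option autoImplicit false

namespace MP154526.Top.VI

open Polynomial

section aux

variable {R : Type*} [CommRing R]

theorem verts_shift (b : R) : ∀ ρ : List R, verts b ρ = (verts 0 ρ).map (fun c => b + c)
  | [] => rfl
  | (x :: ρ) => by simp [verts, verts_shift b ρ]

theorem C_mem_nzd {u : R} (hu : u ∈ nonZeroDivisors R) : (C u : R[X]) ∈ nonZeroDivisors R[X] := by
  rw [mem_nonZeroDivisors_iff_right]
  intro p hp
  ext i
  have h1 := congrArg (fun q => coeff q i) hp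
  simp only [coeff_mul_C, coeff_zero] at h1
  rw [coeff_zero]
  exact (mem_nonZeroDivisors_iff_right.1 hu) _ h1

/-- lowest coefficient -/
theorem lowest (N a : ℕ) (haN : a < N) (Δ : ℕ → R[X]) (h0 : ∀ n, n < a → Δ n = 0)
    (h : ∑ n ∈ Finset.range N, X ^ n * Δ n = 0) : eval 0 (Δ a) = 0 := by
  have h1 := congrArg (fun q => coeff q a) h
  simp only [finset_sum_coeff, coeff_zero] at h1
  rw [Finset.sum_eq_single_of_mem a (Finset.mem_range.2 haN)] at h1
  · rw [mul_comm, coeff_mul_X_pow', if_pos le_rfl, Nat.sub_self] at h1
    rw [← coeff_zero_eq_eval_zero]; exact h1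
  · intro n _ hn
    rw [mul_comm, coeff_mul_X_pow']
    rcases lt_or_gt_of_ne hn with h2 | h2
    · rw [h0 n h2]; simp
    · rw [if_neg (by omega)]

end aux

/-- factor of the last slot -/
theorem lastSlot {A : Type*} [CommRing A] {R : Type*} [CommRing R] [Algebra A R]
    (D m : ℕ) (g : List ℕ → A) (hZ : Zt D (m+1) g 1) (u c : R) (cs : List R) (hcs : cs.length = m) :
    ev D u (c :: cs) (fun l => algebraMap A R (g l)) =
      c * (c + u) * ∑ n ∈ Finset.range (D-2), c ^ n *
        ev D u cs (fun l => algebraMap A R (g ((n+2) :: l))) := by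
  simp only [ev]
  have h0 : ∀ n, n < D → n ≤ 1 → ev D u cs (fun l => algebraMap A R (g (n :: l))) = 0 := by
    intro n h1 h2
    apply ev_eq_zero
    intro l h3 h4
    have := hZ [n] l rfl (by simp [h3, hcs]; omega) (by simpa using ⟨h1, h2⟩) h4
    rw [List.singleton_append] at this
    rw [this, map_zero]
  rcases Nat.lt_or_ge D 2 with hD | hD
  · have : D - 2 = 0 := by omega
    rw [this, Finset.range_zero, Finset.sum_empty, mul_zero]
    apply Finset.sum_eq_zero
    intro n hn
    rw [h0 n (Finset.mem_range.1 hn) (by have := Finset.mem_range.1 hn; omega), mul_zero]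
  · obtain ⟨E, rfl⟩ : ∃ E, D = E + 2 := ⟨D - 2, by omega⟩
    rw [Finset.sum_range_succ', Finset.sum_range_succ', h0 0 (by omega) (by omega),
      h0 (0+1) (by omega) (by omega), mul_zero, mul_zero, add_zero, add_zero, Finset.mul_sum]
    rw [show E + 2 - 2 = E by omega]
    apply Finset.sum_congr rfl
    intro n _
    rw [show n + 1 + 1 = n + 2 from rfl]
    simp only [kap]
    ring

section final

variable {A : Type} [CommRing A] [IsDomain A]

/-- squarefree part -/
theorem F0_of_Hyp (h2A : (2 : A) = 0) (b : A) (hb : b ≠ 0) (D m : ℕ) (hm : 1 ≤ m) (g : List ℕ → A)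
    (H : Hyp b D m g) : Zt D m g m := by
  intro τ l h1 h2 h3 _
  have hl : l = [] := List.length_eq_zero_iff.1 (by omega)
  rw [hl, List.append_nil]
  refine mob h2A D (mem_nonZeroDivisors_of_ne_zero hb) m g ?_ τ h1 h3
  intro ε hε1 hε2
  obtain ⟨σ, hσ1, hσ2, hσ3⟩ := exists_word h2A (Or.inr rfl : AU b b) ε hε2
  have := H A b (mem_nonZeroDivisors_of_ne_zero hb) σ [] hσ2 (by
    intro h; rw [h] at hσ1; simp at hσ1; omega) (by simp; omega)
  rw [shs_nil'] at this
  simp only [Algebra.algebraMap_self, RingHom.id_apply] at this
  rw [hσ3] at this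
  exact this

/-- step (a): the lowest coefficient in the last vertex has no squarefree part -/
theorem stepA (h2A : (2 : A) = 0) (b : A) (hb : b ≠ 0) (D m : ℕ) (g : List ℕ → A)
    (H : Hyp b D (m+1) g) (hZ : Zt D (m+1) g 1) (a : ℕ) (haD : a < D - 2)
    (hmin : ∀ n, n < a → ∀ l : List ℕ, l.length = m → (∀ x ∈ l, x < D) → g ((n+2) :: l) = 0) :
    Zt D m (fun l => g ((a+2) :: l)) m := by
  intro τ l h1 h2 h3 _
  have hl : l = [] := List.length_eq_zero_iff.1 (by omega)
  rw [hl, List.append_nil]
  refine mob h2A D (mem_nonZeroDivisors_of_ne_zero hb) m (fun l => g ((a+2) :: l)) ?_ τ h1 h3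
  intro ε hε1 hε2
  classical
  -- lift to A[X]
  have h2X : (2 : A[X]) = 0 := by
    have := congrArg (C : A →+* A[X]) h2A
    rwa [map_ofNat, map_zero] at this
  set u : A[X] := C b + X with hu
  have hune : u ≠ 0 := by
    intro h0
    have := congrArg (fun q => coeff q 1) h0
    simp [hu] at this
  -- shifted vertices, in {0,u}
  set f : A → A[X] := fun c => if c = b then 0 else u with hf
  obtain ⟨σ, hσ1, hσ2, hσ3⟩ := exists_word h2X (AU.zero : AU u 0) (u :: ε.map f) (by
    intro e he
    rcases List.mem_cons.1 he with rfl | he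
    · exact Or.inr rfl
    · obtain ⟨c, _, rfl⟩ := List.mem_map.1 he
      simp only [hf]
      split_ifs
      · exact Or.inl rfl
      · exact Or.inr rfl)
  have hrel := H A[X] u (mem_nonZeroDivisors_of_ne_zero hune) σ [] hσ2 (by
    intro h; rw [h] at hσ1; simp at hσ1) (by simp at hσ1 ⊢; omega)
  rw [shs_nil', verts_shift, hσ3, List.map_cons] at hrel
  have hX : algebraMap A A[X] b + u = X := by
    rw [← C_eq_algebraMap, hu]
    have := add_self2 h2X (C b)
    linear_combination this
  rw [hX, lastSlot D m g hZ u X _ (by simp [hε1])] at hrel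
  have hXu : X + u = C b := by
    rw [hu]
    have := add_self2 h2X (X : A[X])
    linear_combination this
  rw [hXu] at hrel
  have hne : (X : A[X]) * C b ≠ 0 := mul_ne_zero X_ne_zero (by simpa using hb)
  have hsum := (mul_eq_zero.1 hrel).resolve_left hne
  have hlow := lowest (D-2) a haD _ (by
    intro n hn
    apply ev_eq_zero
    intro l h4 h5
    rw [hmin n hn l (by simpa [hε1] using h4) h5, map_zero]) hsum
  have := ev_map (evalRingHom (0 : A)) D u
    ((ε.map f).map (fun c => algebraMap A A[X] b + c)) (fun l => algebraMap A A[X] (g ((a+2) :: l)))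
  rw [coe_evalRingHom, hlow] at this
  have hu0 : eval 0 u = b := by simp [hu]
  have hlist : List.map (fun q : A[X] => eval 0 q)
      ((ε.map f).map (fun c => algebraMap A A[X] b + c)) = ε := by
    rw [List.map_map, List.map_map]
    conv_rhs => rw [← List.map_id ε]
    apply List.map_congr_left
    intro c hc
    simp only [Function.comp, id, hf]
    rw [← C_eq_algebraMap]
    split_ifs with h
    · simp [h]
    · rcases hε2 c hc with h0 | h0
      · rw [h0, eval_add, eval_C, hu0]
        exact add_self2 h2A b
      · exact absurd h0 h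
  rw [hu0] at this
  have h7 : (fun l : List ℕ => eval 0 (algebraMap A A[X] (g ((a+2) :: l)))) =
      fun l => g ((a+2) :: l) := by
    funext l; rw [← C_eq_algebraMap, eval_C]
  rw [h7] at this
  have h8 : List.map (⇑(evalRingHom (0:A))) ((ε.map f).map (fun c => algebraMap A A[X] b + c)) = ε := by
    rw [coe_evalRingHom]; exact hlist
  rw [show (List.map (eval 0) (List.map (fun c => (algebraMap A A[X]) b + c) (List.map f ε))) = ε from hlist] at this
  exact this.symm

end final

section stepB

variable {A : Type} [CommRing A]

/-- generating sum over the exponent of the last slot -/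
noncomputable def GX (D : ℕ) (g : List ℕ → A) {R : Type} [CommRing R] [Algebra A R] (u : R[X])
    (cs : List R[X]) : R[X] :=
  ∑ n ∈ Finset.range (D-2), X ^ n * ev D u cs (fun l => algebraMap A R[X] (g ((n+2) :: l)))

theorem stepB1 (h2A : (2 : A) = 0) (b : A) (D m : ℕ) (g : List ℕ → A)
    (H : Hyp b D (m+1) g) (hZ : Zt D (m+1) g 1) {R : Type} [CommRing R] [Algebra A R] (u : R)
    (hu : u ∈ nonZeroDivisors R) (x : R[X]) (σ W : List R[X]) (hx : AU (C u) x)
    (hσ : ∀ s ∈ σ, AU (C u) s) (hlen : σ.length + 1 + W.length = m) :
    shs (fun ρ => GX D g (C u) (verts (algebraMap A R[X] b) ρ)) (x :: σ) W =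
    shs (fun ρ => GX D g (C u) (verts (algebraMap A R[X] b) ρ)) σ
      ((X + (algebraMap A R[X] b + ((x :: σ).sum + W.sum))) :: W) := by
  have h2X : (2 : R[X]) = 0 := by
    have := congrArg (algebraMap A R[X]) h2A
    rwa [map_ofNat, map_zero] at this
  set B : R[X] := algebraMap A R[X] b with hB
  set w : R[X] := X + (B + ((x :: σ).sum + W.sum)) with hw
  have hrel := H R[X] (C u) (C_mem_nzd hu) (x :: σ) (w :: W) (by
    intro s hs
    rcases List.mem_cons.1 hs with rfl | hs
    · exact hx
    · exact hσ s hs) (by simp) (by simp only [List.length_cons]; omega)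
  rw [← hB, shs_cons] at hrel
  have e1 : shs (fun l => ev D (C u) (verts B (x :: l)) (fun l => algebraMap A R[X] (g l))) σ (w :: W) =
      X * (X + C u) * shs (fun ρ => GX D g (C u) (verts B ρ)) σ (w :: W) := by
    rw [← shs_mul_left]
    apply shs_congr_sum
    intro ρ h1 h3
    have hv : B + (x + ρ.sum) = X := by
      rw [h3, List.sum_cons, hw, List.sum_cons]
      have e1 := add_self2 h2X B
      have e2 := add_self2 h2X W.sum
      have e3 := add_self2 h2X σ.sum
      have e4 := add_self2 h2X x
      linear_combination e1 + e2 + e3 + e4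
    simp only [verts]
    rw [hv, lastSlot D m g hZ (C u) X _ (by
      rw [verts_length, h1]; simp only [List.length_cons]; omega)]
    rfl
  have e2 : shs (fun l => ev D (C u) (verts B (w :: l)) (fun l => algebraMap A R[X] (g l))) (x :: σ) W =
      X * (X + C u) * shs (fun ρ => GX D g (C u) (verts B ρ)) (x :: σ) W := by
    rw [← shs_mul_left]
    apply shs_congr_sum
    intro ρ h1 h3
    have hv : B + (w + ρ.sum) = X := by
      rw [h3, hw]
      have e1 := add_self2 h2X B
      have e2 := add_self2 h2X W.sum
      have e3 := add_self2 h2X (x :: σ).sum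
      linear_combination e1 + e2 + e3
    simp only [verts]
    rw [hv, lastSlot D m g hZ (C u) X _ (by
      rw [verts_length, h1]; simp only [List.length_cons]; omega)]
    rfl
  rw [e1, e2, ← mul_add] at hrel
  have hreg : (X * (X + C u) : R[X]) ∈ nonZeroDivisors R[X] :=
    mul_mem (monic_X.mem_nonZeroDivisors) ((monic_X_add_C u).mem_nonZeroDivisors)
  have h5 := (mul_left_mem_nonZeroDivisors_eq_zero_iff hreg).1 hrel
  have h6 := add_self2 h2X (shs (fun ρ => GX D g (C u) (verts B ρ)) σ (w :: W))
  linear_combination h5 - h6

theorem stepB2 (h2A : (2 : A) = 0) (b : A) (D m : ℕ) (g : List ℕ → A)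
    (H : Hyp b D (m+1) g) (hZ : Zt D (m+1) g 1) {R : Type} [CommRing R] [Algebra A R] (u : R)
    (hu : u ∈ nonZeroDivisors R) : ∀ (σ W : List R[X]),
    (∀ s ∈ σ, AU (C u) s) → σ.length + W.length = m →
    ∃ τ : List R[X], τ.length = σ.length ∧ (∀ s ∈ τ, ∃ c, AU (C u) c ∧ s = X + c) ∧
    shs (fun ρ => GX D g (C u) (verts (algebraMap A R[X] b) ρ)) σ W =
      GX D g (C u) (τ ++ verts (algebraMap A R[X] b) W)
  | [], W, _, _ => ⟨[], rfl, by simp, by simp⟩
  | (x :: σ), W, hσ, hlen => by
      have h2X : (2 : R[X]) = 0 := by
        have := congrArg (algebraMap A R[X]) h2A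
        rwa [map_ofNat, map_zero] at this
      have hσ' : ∀ s ∈ σ, AU (C u) s := fun s hs => hσ s (by simp [hs])
      rw [stepB1 h2A b D m g H hZ u hu x σ W (hσ x (by simp)) hσ' (by
        simp only [List.length_cons] at hlen; omega)]
      obtain ⟨τ, h1, h3, h4⟩ := stepB2 h2A b D m g H hZ u hu σ
        ((X + (algebraMap A R[X] b + ((x :: σ).sum + W.sum))) :: W) hσ' (by
        simp only [List.length_cons] at hlen ⊢; omega)
      refine ⟨τ ++ [X + (x :: σ).sum], by simp [h1], ?_, ?_⟩
      · intro s hs
        rcases List.mem_append.1 hs with hs | hs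
        · exact h3 s hs
        · rw [List.mem_singleton] at hs
          exact ⟨_, AU.sum h2X _ hσ, hs⟩
      · rw [h4]
        congr 1
        rw [List.append_assoc]
        congr 1
        simp only [verts, List.cons_append, List.nil_append]
        congr 1
        have e1 := add_self2 h2X (algebraMap A R[X] b)
        have e2 := add_self2 h2X W.sum
        linear_combination e1 + e2

/-- step (b): the lowest coefficient satisfies the weak hypothesis -/
theorem stepB (h2A : (2 : A) = 0) (b : A) (D m : ℕ) (g : List ℕ → A)
    (H : Hyp b D (m+1) g) (hZ : Zt D (m+1) g 1) (a : ℕ) (haD : a < D - 2)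
    (hmin : ∀ n, n < a → ∀ l : List ℕ, l.length = m → (∀ x ∈ l, x < D) → g ((n+2) :: l) = 0) :
    HypS b D m (fun l => g ((a+2) :: l)) := by
  intro R _ _ u hu σ W hσ hσ0 hlen
  obtain ⟨τ, h1, h3, h4⟩ := stepB2 h2A b D m g H hZ u hu (σ.map C) (W.map C) (by
    intro s hs
    obtain ⟨s', hs', rfl⟩ := List.mem_map.1 hs
    rcases hσ s' hs' with h | h
    · left; rw [h, map_zero]
    · right; rw [h]) (by simpa using hlen)
  refine ⟨τ.map (eval 0), 1, by simp [h1], ?_, ?_⟩
  · intro s hs
    obtain ⟨s', hs', rfl⟩ := List.mem_map.1 hs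
    obtain ⟨c, hc, rfl⟩ := h3 s' hs'
    rcases hc with h | h
    · left; simp [h]
    · right; simp [h]
  · rw [one_mul]
    set B : R[X] := algebraMap A R[X] b with hB
    unfold GX at h4
    rw [shs_sum] at h4
    have h5 : ∑ n ∈ Finset.range (D-2), X ^ n *
        (shs (fun ρ => ev D (C u) (verts B ρ) (fun l => algebraMap A R[X] (g ((n+2) :: l))))
            (σ.map C) (W.map C) -
          ev D (C u) (τ ++ verts B (W.map C)) (fun l => algebraMap A R[X] (g ((n+2) :: l)))) = 0 := by
      rw [← sub_eq_zero, ← Finset.sum_sub_distrib] at h4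
      rw [← h4]
      apply Finset.sum_congr rfl
      intro n _
      rw [shs_mul_left, mul_sub]
    have h6 := lowest (D-2) a haD _ (by
      intro n hn
      rw [sub_eq_zero]
      rw [shs_eq_zero, ev_eq_zero]
      · intro l h7 h8
        rw [hmin n hn l _ h8, map_zero]
        rw [h7]; simp only [List.length_append, verts_length, List.length_map] at *; omega
      · intro ρ h7 _
        apply ev_eq_zero
        intro l h9 h10
        rw [hmin n hn l _ h10, map_zero]
        rw [h9, verts_length, h7]; simp only [List.length_map]; omega) h5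
    rw [eval_sub, sub_eq_zero] at h6
    have hBb : (evalRingHom (0 : R)) B = algebraMap A R b := by
      rw [hB, IsScalarTower.algebraMap_apply A R R[X], ← C_eq_algebraMap]; simp
    have hg : (fun l : List ℕ => (evalRingHom (0 : R)) (algebraMap A R[X] (g ((a+2) :: l)))) =
        fun l => algebraMap A R (g ((a+2) :: l)) := by
      funext l
      rw [IsScalarTower.algebraMap_apply A R R[X], ← C_eq_algebraMap]; simp
    have hCu : (evalRingHom (0 : R)) (C u) = u := by simp
    have hmapC : ∀ L : List R, (L.map C).map (evalRingHom (0 : R)) = L := by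
      intro L
      rw [List.map_map]
      conv_rhs => rw [← List.map_id L]
      apply List.map_congr_left
      intro c _; simp
    have h7 : eval 0 (shs (fun ρ => ev D (C u) (verts B ρ)
        (fun l => algebraMap A R[X] (g ((a+2) :: l)))) (σ.map C) (W.map C)) =
        shs (fun ρ => ev D u (verts (algebraMap A R b) ρ)
          (fun l => algebraMap A R (g ((a+2) :: l)))) σ W := by
      rw [← coe_evalRingHom, shs_map]
      have := shs_map_add ((evalRingHom (0 : R)) : R[X] →+ R) (fun l : List R => ev D (C u) (verts B (l.map C))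
        (fun l => algebraMap A R[X] (g ((a+2) :: l)))) σ W
      simp only [AddMonoidHom.coe_coe] at this
      rw [this]
      congr 1
      funext l
      rw [ev_map, hg, hCu, verts_map, hBb, hmapC]
    have h8 : eval 0 (ev D (C u) (τ ++ verts B (W.map C))
        (fun l => algebraMap A R[X] (g ((a+2) :: l)))) =
        ev D u (τ.map (eval 0) ++ verts (algebraMap A R b) W)
          (fun l => algebraMap A R (g ((a+2) :: l))) := by
      rw [← coe_evalRingHom, ev_map, hg, hCu, List.map_append, verts_map, hBb, hmapC]
    rw [h7, h8] at h6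
    exact h6

end stepB

/-- THEOREM V at a fixed nonzero base -/
theorem V_main {A : Type} [CommRing A] [IsDomain A] (h2A : (2 : A) = 0) (b : A) (hb : b ≠ 0) (D : ℕ) :
    ∀ m, 1 ≤ m → ∀ g : List ℕ → A, Hyp b D m g →
      ∀ l, l.length = m → (∀ x ∈ l, x < D) → g l = 0 := by
  intro m
  induction m using Nat.strong_induction_on with
  | _ m IH =>
    intro hm g H
    have IH' : ∀ r, 1 ≤ r → r < m → ∀ g' : List ℕ → A, Hyp b D r g' →
        ∀ l, l.length = r → (∀ x ∈ l, x < D) → g' l = 0 := fun r h1 h2 g' h3 => IH r h2 h1 g' h3
    obtain ⟨k, rfl⟩ : ∃ k, m = k + 1 := ⟨m - 1, by omega⟩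
    have hF0 := F0_of_Hyp h2A b hb D (k+1) hm g H
    have hZ : Zt D (k+1) g 1 := chain h2A b D (k+1) g IH' H.toS hF0 1 le_rfl hm
    intro l hl1 hl2
    by_contra hl3
    obtain ⟨n, l', rfl⟩ : ∃ n l', l = n :: l' := by
      cases l with
      | nil => simp at hl1
      | cons n l' => exact ⟨n, l', rfl⟩
    have hn2 : 2 ≤ n := by
      by_contra h
      apply hl3
      have := hZ [n] l' rfl (by simpa [add_comm] using hl1)
        (by simpa using ⟨hl2 n (by simp), by omega⟩) (fun x hx => hl2 x (by simp [hx]))
      simpa using this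
    have hex : ∃ a, ∃ l : List ℕ, l.length = k ∧ (∀ x ∈ l, x < D) ∧ g ((a+2) :: l) ≠ 0 := by
      refine ⟨n - 2, l', by simpa using hl1, fun x hx => hl2 x (by simp [hx]), ?_⟩
      rw [show n - 2 + 2 = n by omega]; exact hl3
    classical
    set a := Nat.find hex with ha
    obtain ⟨l₁, h1, h3, h4⟩ := Nat.find_spec hex
    have hmin : ∀ n, n < a → ∀ l : List ℕ, l.length = k → (∀ x ∈ l, x < D) → g ((n+2) :: l) = 0 := by
      intro n hn l h5 h6
      by_contra h7
      exact Nat.find_min hex hn ⟨l, h5, h6, h7⟩
    have haD : a < D - 2 := by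
      have h5 : n - 2 < D - 2 := by
        have := hl2 n (by simp); omega
      have h6 : a ≤ n - 2 := Nat.find_min' hex ⟨l', by simpa using hl1,
        fun x hx => hl2 x (by simp [hx]), by rw [show n - 2 + 2 = n by omega]; exact hl3⟩
      omega
    have hA := stepA h2A b hb D k g H hZ a haD hmin
    rcases Nat.eq_zero_or_pos k with hk | hk
    · subst hk
      have hl₁ : l₁ = [] := List.length_eq_zero_iff.1 h1
      apply h4
      have h9 : g ((a+2) :: []) = 0 := by simpa using hA [] [] rfl rfl (by simp) (by simp)
      rw [hl₁]; exact h9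
    · have hB := stepB h2A b D k g H hZ a haD hmin
      have hZ' : Zt D k (fun l => g ((a+2) :: l)) 1 :=
        chain h2A b D k _ (fun r h5 h6 => IH' r h5 (by omega)) hB hA 1 le_rfl hk
      have hH : Hyp b D k (fun l => g ((a+2) :: l)) := by
        intro R _ _ u hu σ W hσ hσ0 hlen
        have h2R : (2 : R) = 0 := by
          have := congrArg (algebraMap A R) h2A
          rwa [map_ofNat, map_zero] at this
        obtain ⟨τ, c, h5, h6, h7⟩ := hB R u hu σ W hσ hσ0 hlen
        rw [h7, evZ h2R D k _ 1 hZ' u τ _ h6 _ (by rw [h5, verts_length]; omega), mul_zero]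
        rw [h5]
        rcases σ with _ | ⟨s, σ⟩
        · exact absurd rfl hσ0
        · simp
      exact h4 (IH' k hk (by omega) _ hH l₁ h1 h3)

end MP154526.Top.VI
end

section
/-!
# Theorem V (helper84): `specV : SpecV`
-/
set_option autoImplicit false

namespace MP154526.Top

open Finset

theorem kap_eq {R : Type} [CommRing R] (u y : R) : VI.kap u y = kap u y := by
  funext n; cases n <;> rfl

theorem ev_snoc {R : Type} [CommRing R] (D : ℕ) (w : ℕ → R) : ∀ (ws : List (ℕ → R)) (P : List ℕ → R),
    ev D (ws ++ [w]) P = ∑ n ∈ range D, w n * ev D ws (fun l => P (l ++ [n]))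
  | [], P => rfl
  | (v :: ws), P => by
      show ev D (ws ++ [w]) (app D v P) = _
      rw [ev_snoc D w ws (app D v P)]
      rfl

theorem ev_rev {R : Type} [CommRing R] (D : ℕ) (u b : R) : ∀ (cs : List R) (P : List ℕ → R),
    ev D (geo b :: (cs.reverse).map (kap u)) P =
      VI.ev D u cs (fun l => ∑ j ∈ range D, b ^ j * P (j :: l.reverse))
  | [], P => by simp [ev, VI.ev, app, geo]
  | (c :: cs), P => by
      rw [List.reverse_cons, List.map_append, List.map_cons, List.map_nil, ← List.cons_append, ev_snoc]
      simp only [VI.ev]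
      apply sum_congr rfl
      intro n _
      rw [ev_rev D u b cs, kap_eq]
      congr 2
      funext l
      simp

theorem path_rev {R : Type} [CommRing R] (b : R) (ρ : List R) :
    path b ρ.reverse = (VI.verts b ρ).reverse := by
  have hsnoc : ∀ (ρ : List R) (b x : R), path b (ρ ++ [x]) = path b ρ ++ [b + (x + ρ.sum)] := by
    intro ρ
    induction ρ with
    | nil => intro b x; simp [path]
    | cons y ρ ih =>
        intro b x
        simp only [List.cons_append, path, ih, List.sum_cons, List.cons.injEq, true_and,
          List.append_cancel_left_eq, and_true]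
        ring
  induction ρ with
  | nil => rfl
  | cons x ρ ih =>
      rw [List.reverse_cons, hsnoc, ih]
      simp [VI.verts]

theorem shs_eq {α M : Type} [AddCommMonoid M] (F : List α → M) (σ W : List α) :
    VI.shs F σ W = shs F σ W := by
  induction σ, W using shs_induct generalizing F with
  | h0 W => simp
  | h1 a σ => simp
  | h2 a σ c W ha hb => rw [shs_cons_cons, VI.shs_cons, ha, hb]

theorem shs_snoc {α M : Type} [AddCommMonoid M] (a c : α) (σ W : List α) (F : List α → M) :
    shs F (σ ++ [a]) (W ++ [c]) =
      shs (fun l => F (l ++ [a])) σ (W ++ [c]) + shs (fun l => F (l ++ [c])) (σ ++ [a]) W := by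
  induction σ generalizing W F with
  | nil =>
      induction W generalizing F with
      | nil =>
          simp only [List.nil_append, shs_cons_cons, shs_nil_left, shs_nil_right]
          simp [add_comm]
      | cons w W ihW =>
          simp only [List.nil_append, List.cons_append] at ihW ⊢
          rw [shs_cons_cons, ihW, shs_cons_cons]
          simp only [shs_nil_left, List.cons_append]
          abel
  | cons x σ ih =>
      induction W generalizing F with
      | nil =>
          have h1 := ih [] (fun l => F (x :: l))
          simp only [List.nil_append, List.cons_append, shs_nil_right] at h1 ⊢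
          rw [shs_cons_cons, h1, shs_cons_cons]
          simp only [shs_nil_right, List.cons_append]
          abel
      | cons w W ihW =>
          simp only [List.cons_append] at ihW ⊢
          have h1 := ih (w :: W) (fun l => F (x :: l))
          have h2 := ihW (fun l => F (w :: l))
          simp only [List.cons_append] at h1
          rw [shs_cons_cons, h1, h2, shs_cons_cons (fun l => F (l ++ [a])),
            shs_cons_cons (fun l => F (l ++ [c]))]
          simp only [List.cons_append]
          abel

theorem shs_reverse {α M : Type} [AddCommMonoid M] (σ W : List α) (F : List α → M) :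
    shs F σ.reverse W.reverse = shs (fun l => F l.reverse) σ W := by
  induction σ, W using shs_induct generalizing F with
  | h0 W => simp
  | h1 a σ => simp
  | h2 a σ c W ha hb =>
    rw [List.reverse_cons, List.reverse_cons, shs_snoc, ← List.reverse_cons, ← List.reverse_cons,
      ha, hb, shs_cons_cons]
    simp

/-- Theorem V -/
theorem specV : SpecV := by
  intro D m g hD hm hsupp H
  have h2A : (2 : Polynomial (ZMod 2)) = 0 := by
    have h := congrArg (Polynomial.C : ZMod 2 →+* Polynomial (ZMod 2)) (show (2 : ZMod 2) = 0 from rfl)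
    rwa [map_ofNat, map_zero] at h
  set G : List ℕ → Polynomial (ZMod 2) := fun l => ∑ j ∈ range D, Polynomial.X ^ j * Polynomial.C (g (j :: l.reverse))
    with hG
  have hHyp : VI.Hyp (Polynomial.X : Polynomial (ZMod 2)) D m G := by
    intro R _ _ u _ σ W hσ hσ0 hlen
    letI : Algebra (ZMod 2) R := ((algebraMap (Polynomial (ZMod 2)) R).comp (Polynomial.C : ZMod 2 →+* Polynomial (ZMod 2))).toAlgebra
    set b : R := algebraMap (Polynomial (ZMod 2)) R Polynomial.X with hb
    obtain ⟨τ, hτ⟩ : ∃ τ : List Bool, τ.map (bl u) = σ.reverse := by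
      have : ∀ L : List R, (∀ s ∈ L, VI.AU u s) → ∃ τ : List Bool, τ.map (bl u) = L := by
        intro L
        induction L with
        | nil => intro _; exact ⟨[], rfl⟩
        | cons x L ih =>
            intro h
            obtain ⟨τ, hτ⟩ := ih (fun s hs => h s (by simp [hs]))
            rcases h x (by simp) with hx | hx
            · exact ⟨false :: τ, by simp [bl, hτ, hx]⟩
            · exact ⟨true :: τ, by simp [bl, hτ, hx]⟩
      exact this _ (fun s hs => hσ s (by simpa using hs))
    have hτlen : τ.length = σ.length := by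
      have := congrArg List.length hτ
      simpa using this
    have hrel := H R u b τ W.reverse (by
      intro h0
      rw [h0] at hτlen
      apply hσ0
      exact List.length_eq_zero_iff.1 (by simpa using hτlen.symm)) (by simp [hτlen, hlen])
    rw [hτ, shs_reverse] at hrel
    rw [shs_eq]
    rw [← hrel]
    congr 1
    funext ρ
    rw [path_rev, ev_rev]
    congr 1
    funext l
    rw [hG]
    simp only [map_sum, map_mul, map_pow]
    apply sum_congr rfl
    intro j _
    rfl
  have hzero := VI.V_main h2A (Polynomial.X : Polynomial (ZMod 2)) Polynomial.X_ne_zero D m hm G hHyp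
  intro l
  by_contra hl
  obtain ⟨h1, h2⟩ := hsupp l hl
  obtain ⟨j, l', rfl⟩ : ∃ j l', l = j :: l' := by
    cases l with
    | nil => simp at h1
    | cons j l' => exact ⟨j, l', rfl⟩
  have h3 := hzero l'.reverse (by simpa using h1) (by
    intro x hx; exact h2 x (by simp at hx; simp [hx]))
  rw [hG] at h3
  simp only [List.reverse_reverse] at h3
  have h4 := congrArg (fun p : Polynomial (ZMod 2) => p.coeff j) h3
  simp only [Polynomial.finset_sum_coeff, Polynomial.coeff_zero] at h4
  apply hl
  rw [sum_eq_single_of_mem j (mem_range.2 (h2 j (by simp)))] at h4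
  · rw [mul_comm, Polynomial.coeff_mul_X_pow'] at h4
    simpa using h4
  · intro n _ hn
    rw [Polynomial.coeff_mul_C, Polynomial.coeff_X_pow, if_neg (fun h => hn h.symm), zero_mul]

end MP154526.Top
end
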