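import Pool.Agent.Lib.MP_154526_nt.Top.FrontC
import Pool.Agent.Lib.MP_154526_nt.Top.Alg
import Pool.Agent.Lib.MP_154526_nt.Top.F2
import Pool.Agent.Lib.MP_154526_nt.Top.Span
import Pool.Agent.Lib.MP_154526_nt.Top.Fin
import Pool.Agent.Lib.MP_154526_nt.Top.ThmR
import Pool.Agent.Lib.MP_154526_nt.Top.Lyn
import Pool.Agent.Lib.MP_154526_nt.Top.Pass2Main
import Pool.Agent.Lib.MP_154526_nt.Top.Red
import Pool.Agent.Lib.MP_154526_nt.Top.Reg
import Pool.Agent.Lib.MP_154526_nt.Top.Star
import Pool.Agent.Lib.MP_154526_nt.Top.TopInj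
import Pool.Agent.Lib.MP_154526_nt.Top.V

section
/-!
# FRONT: the top part of `ψ` in words in `z_1, z_2` satisfies (STAR)
-/
set_option autoImplicit false

namespace MP154526.Top

theorem specFront : SpecFront := Front.specFront Front.specA Front.specB Front.specC

end MP154526.Top
end

section
/-!
# Assembly
-/
set_option autoImplicit false

namespace MP154526.Top

theorem asmTop : SpecTopInj := specTopInj specV

theorem asmR : Star.SpecR := Star.specR Star.specX

theorem asmF2 : SpecF2 := specF2 specFront (specStar asmR) specLyn (specRed asmTop)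

theorem asmPass2 : SpecPass2 :=
  Pass2.specPass2_of specAlg (fun φ w hw => RegN.regOK specAlg φ w hw) specPass1

theorem asmSpan : SpecSpan := specSpan asmF2 specPass1 asmPass2 specAlg

/-- the dimension bound -/
theorem asmAnswer : MP154526.Bound.SpecAnswer := specAnswer asmSpan specAlg specFact

end MP154526.Top
end
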