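import Pool.Agent.Lib.MP_154526_nt.Top.Plan
import Pool.Agent.Lib.MP_154526_nt.Top.Span

/-!
# The stuffle product, evaluated by a function: associativity, triangularity
-/

set_option autoImplicit false

namespace MP154526.Top.Pass2

open Finset

section Stf

variable {M : Type} [AddCommMonoid M]

/-- the stuffle of two words (exponents `a = k - 1`), evaluated by `f` -/
def stf (f : List ℕ → M) : List ℕ → List ℕ → M
  | [], v => f v
  | a :: u, [] => f (a :: u)
  | a :: u, b :: v => stf (fun l => f (a :: l)) u (b :: v) + stf (fun l => f (b :: l)) (a :: u) v +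
      stf (fun l => f ((a + b + 1) :: l)) u v
termination_by u v => u.length + v.length

@[simp] theorem stf_nil_left (f : List ℕ → M) (v : List ℕ) : stf f [] v = f v := by
  rw [stf]

@[simp] theorem stf_nil_right (f : List ℕ → M) (u : List ℕ) : stf f u [] = f u := by
  cases u <;> rw [stf]

theorem stf_cons_cons (f : List ℕ → M) (a : ℕ) (u : List ℕ) (b : ℕ) (v : List ℕ) :
    stf f (a :: u) (b :: v) =
      stf (fun l => f (a :: l)) u (b :: v) + stf (fun l => f (b :: l)) (a :: u) v +
        stf (fun l => f ((a + b + 1) :: l)) u v := by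
  rw [stf]

theorem stf_induct {P : List ℕ → List ℕ → Prop} (h0 : ∀ W, P [] W) (h1 : ∀ a σ, P (a :: σ) [])
    (h2 : ∀ a σ c W, P σ (c :: W) → P (a :: σ) W → P σ W → P (a :: σ) (c :: W))
    (σ W : List ℕ) : P σ W := by
  induction σ generalizing W with
  | nil => exact h0 W
  | cons a σ ih =>
    induction W with
    | nil => exact h1 a σ
    | cons c W ihW => exact h2 a σ c W (ih _) ihW (ih _)

theorem stf_comm (f : List ℕ → M) (u v : List ℕ) : stf f u v = stf f v u := by
  induction u, v using stf_induct generalizing f with
  | h0 W => simp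
  | h1 a σ => simp
  | h2 a σ c W ha hb hc =>
    rw [stf_cons_cons, stf_cons_cons, ha, hb, hc, add_comm a c]
    abel

theorem stf_add (f g : List ℕ → M) (u v : List ℕ) :
    stf (fun l => f l + g l) u v = stf f u v + stf g u v := by
  induction u, v using stf_induct generalizing f g with
  | h0 W => simp
  | h1 a σ => simp
  | h2 a σ c W ha hb hc =>
    rw [stf_cons_cons, stf_cons_cons, stf_cons_cons, ha, hb, hc]
    abel

theorem stf_map {N : Type} [AddCommMonoid N] (L : M →+ N) (f : List ℕ → M) (u v : List ℕ) :
    L (stf f u v) = stf (fun l => L (f l)) u v := by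
  induction u, v using stf_induct generalizing f with
  | h0 W => simp
  | h1 a σ => simp
  | h2 a σ c W ha hb hc => rw [stf_cons_cons, stf_cons_cons, map_add, map_add, ha, hb, hc]

/-- the weight of a word -/
def wt (l : List ℕ) : ℕ := l.sum + l.length

@[simp] theorem wt_nil : wt [] = 0 := rfl

@[simp] theorem wt_cons (a : ℕ) (l : List ℕ) : wt (a :: l) = a + 1 + wt l := by
  simp only [wt, List.sum_cons, List.length_cons]
  omega

theorem stf_mem (S : AddSubmonoid M) (f : List ℕ → M) (u v : List ℕ)
    (h : ∀ l, wt l = wt u + wt v → f l ∈ S) : stf f u v ∈ S := by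
  induction u, v using stf_induct generalizing f with
  | h0 W => simpa using h W (by simp)
  | h1 a σ => simpa using h (a :: σ) (by simp)
  | h2 a σ c W ha hb hc =>
    rw [stf_cons_cons]
    refine S.add_mem (S.add_mem ?_ ?_) ?_
    · exact ha _ fun l hl => h _ (by simp only [wt_cons] at hl ⊢; omega)
    · exact hb _ fun l hl => h _ (by simp only [wt_cons] at hl ⊢; omega)
    · exact hc _ fun l hl => h _ (by simp only [wt_cons] at hl ⊢; omega)

theorem stf_zero (f : List ℕ → M) (u v : List ℕ)
    (h : ∀ l, wt l = wt u + wt v → f l = 0) : stf f u v = 0 := by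
  have := stf_mem (⊥ : AddSubmonoid M) f u v (fun l hl => by simpa using h l hl)
  simpa using this

/-- associativity of the stuffle product -/
theorem stf_assoc (n : ℕ) (f : List ℕ → M) (u v w : List ℕ)
    (hn : u.length + v.length + w.length ≤ n) :
    stf (fun l => stf f l w) u v = stf (fun l => stf f u l) v w := by
  induction n generalizing f u v w with
  | zero =>
    have hu : u = [] := List.length_eq_zero_iff.1 (by omega)
    subst hu
    simp
  | succ n ih =>
    rcases u with _ | ⟨a, u⟩
    · simp
    rcases v with _ | ⟨b, v⟩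
    · simp
    rcases w with _ | ⟨c, w⟩
    · simp
    simp only [List.length_cons] at hn
    have e1 : stf (fun l => stf f l (c :: w)) (a :: u) (b :: v) =
        stf (fun l => stf f (a :: l) (c :: w)) u (b :: v) +
          stf (fun l => stf f (b :: l) (c :: w)) (a :: u) v +
          stf (fun l => stf f ((a + b + 1) :: l) (c :: w)) u v := stf_cons_cons _ _ _ _ _
    have e2 : stf (fun l => stf f (a :: u) l) (b :: v) (c :: w) =
        stf (fun l => stf f (a :: u) (b :: l)) v (c :: w) +
          stf (fun l => stf f (a :: u) (c :: l)) (b :: v) w +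
          stf (fun l => stf f (a :: u) ((b + c + 1) :: l)) v w := stf_cons_cons _ _ _ _ _
    rw [e1, e2]
    simp only [stf_cons_cons f, stf_add]
    have f1 : stf (fun l => stf (fun l => f (c :: l)) l w) (a :: u) (b :: v) =
        stf (fun l => stf (fun l => f (c :: l)) (a :: l) w) u (b :: v) +
          stf (fun l => stf (fun l => f (c :: l)) (b :: l) w) (a :: u) v +
          stf (fun l => stf (fun l => f (c :: l)) ((a + b + 1) :: l) w) u v :=
      stf_cons_cons _ _ _ _ _
    have f2 : stf (fun l => stf (fun l => f (a :: l)) u l) (b :: v) (c :: w) =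
        stf (fun l => stf (fun l => f (a :: l)) u (b :: l)) v (c :: w) +
          stf (fun l => stf (fun l => f (a :: l)) u (c :: l)) (b :: v) w +
          stf (fun l => stf (fun l => f (a :: l)) u ((b + c + 1) :: l)) v w :=
      stf_cons_cons _ _ _ _ _
    have g1 := ih (fun l => f (a :: l)) u (b :: v) (c :: w)
      (by simp only [List.length_cons]; omega)
    have g2 := ih (fun l => f (b :: l)) (a :: u) v (c :: w)
      (by simp only [List.length_cons]; omega)
    have g3 := ih (fun l => f (c :: l)) (a :: u) (b :: v) w
      (by simp only [List.length_cons]; omega)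
    have g4 := ih (fun l => f ((a + b + 1) :: l)) u v (c :: w)
      (by simp only [List.length_cons]; omega)
    have g5 := ih (fun l => f ((a + c + 1) :: l)) u (b :: v) w
      (by simp only [List.length_cons]; omega)
    have g6 := ih (fun l => f ((b + c + 1) :: l)) (a :: u) v w
      (by simp only [List.length_cons]; omega)
    have g7 := ih (fun l => f ((a + b + c + 1 + 1) :: l)) u v w
      (by omega)
    have h1 : a + b + 1 + c + 1 = a + b + c + 1 + 1 := by omega
    have h2 : a + (b + c + 1) + 1 = a + b + c + 1 + 1 := by omega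
    rw [f1] at g3
    rw [f2] at g1
    rw [h1, h2, ← g2, ← g4, ← g5, ← g6, ← g7]
    generalize stf (fun l => stf (fun l => f (a :: l)) l (c :: w)) u (b :: v) = X1 at *
    generalize stf (fun l => stf (fun l => f (c :: l)) (a :: u) l) (b :: v) w = X2 at *
    rw [← g3]
    rw [g1]
    abel

theorem stf_assoc' (f : List ℕ → M) (u v w : List ℕ) :
    stf (fun l => stf f l w) u v = stf (fun l => stf f u l) v w :=
  stf_assoc _ f u v w le_rfl

/-- in `y^i * b`, `b ∈ x ℌ`, all words except `y^i b` have fewer leading `y` -/
theorem stf_rep (i N : ℕ) (g : List ℕ → M) (a : ℕ) (b : List ℕ)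
    (hN : N = i + wt ((a + 1) :: b))
    (h : ∀ k < i, ∀ a' b', N = k + wt ((a' + 1) :: b') →
      g (List.replicate k 0 ++ (a' + 1) :: b') = 0) :
    stf g (List.replicate i 0) ((a + 1) :: b) = g (List.replicate i 0 ++ (a + 1) :: b) := by
  induction i generalizing g N with
  | zero => simp
  | succ i ih =>
    rw [List.replicate_succ, stf_cons_cons]
    have hw : wt (List.replicate i 0) = i := by simp [wt]
    have e2 : stf (fun l => g ((a + 1) :: l)) (0 :: List.replicate i 0) b = 0 := by
      refine stf_zero _ _ _ fun l hl => ?_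
      have := h 0 (by omega) a l (by
        simp only [wt_cons] at hl hN ⊢
        omega)
      simpa using this
    have e3 : stf (fun l => g ((0 + (a + 1) + 1) :: l)) (List.replicate i 0) b = 0 := by
      refine stf_zero _ _ _ fun l hl => ?_
      have := h 0 (by omega) (a + 1) l (by
        simp only [wt_cons] at hl hN ⊢
        omega)
      simpa [add_comm] using this
    rw [e2, e3, add_zero, add_zero]
    have := ih (N - 1) (fun l => g (0 :: l)) (by omega) (fun k hk a' b' hN' => by
      have := h (k + 1) (by omega) a' b' (by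
        simp only [wt_cons] at hN' hN ⊢
        omega)
      simpa [List.replicate_succ] using this)
    rw [this]
    simp

end Stf

/-- triangularity -/
theorem triang (n : ℕ) (f : List ℕ → ZMod 2)
    (h : ∀ u : List ℕ, u ≠ [] → ∀ a b, wt u + wt ((a + 1) :: b) = n → stf f u ((a + 1) :: b) = 0)
    (i j : ℕ) (hj : 1 ≤ j) (a : ℕ) (b : List ℕ) (hw : j + i + wt ((a + 1) :: b) = n) :
    stf f (List.replicate j 0) (List.replicate i 0 ++ (a + 1) :: b) = 0 := by
  induction i using Nat.strong_induction_on generalizing a b with
  | _ i ih =>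
    have e := stf_rep i (i + wt ((a + 1) :: b)) (fun l => stf f (List.replicate j 0) l) a b rfl
      (fun k hk a' b' hN => ih k hk a' b' (by omega))
    rw [← e, ← stf_assoc']
    refine stf_zero _ _ _ fun l hl => ?_
    have hr : ∀ m, wt (List.replicate m 0) = m := fun m => by simp [wt]
    rw [hr, hr] at hl
    refine h l ?_ a b (by omega)
    rintro rfl
    simp at hl
    omega

theorem stz_eq (f : List ℕ → ZMod 2) (j : ℕ) (w : List ℕ) :
    stz f j w = stf f (List.replicate j 0) w := by
  induction j generalizing f w with
  | zero =>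
    rw [stz]
    simp
  | succ j ih =>
    induction w generalizing f with
    | nil =>
      rw [stz]
      simp
    | cons a w ihw =>
      rw [stz, List.replicate_succ, stf_cons_cons, ih, ih, ihw, List.replicate_succ, zero_add]

/-- a word which is not a power of `y` is `y^i b`, `b` starting with `x` -/
theorem nonpure (w : List ℕ) (hw : ∃ a ∈ w, a ≠ 0) :
    ∃ i a b, w = List.replicate i 0 ++ (a + 1) :: b := by
  induction w with
  | nil => simp at hw
  | cons c w ih =>
    rcases c with _ | c
    · obtain ⟨a, ha, ha0⟩ := hw
      rcases List.mem_cons.1 ha with h | h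
      · exact absurd h ha0
      · obtain ⟨i, a, b, h⟩ := ih ⟨a, h, ha0⟩
        exact ⟨i + 1, a, b, by rw [h]; rfl⟩
    · exact ⟨0, c, w, rfl⟩

/-- `(T)` from the finite stuffle relations and the shuffle relations -/
theorem isT_of (n : ℕ) (ψ : List Bool → ZMod 2)
    (h : ∀ u : List ℕ, u ≠ [] → ∀ a b, wt u + wt ((a + 1) :: b) = n →
      stf (fun l => ψ (bw l)) u ((a + 1) :: b) = 0) : IsT n ψ := by
  intro j w hj hw hn
  obtain ⟨i, a, b, rfl⟩ := nonpure w hw
  rw [stz_eq]
  refine triang n _ h i j hj a b ?_
  simp only [List.sum_append, List.sum_replicate, List.length_append, List.length_replicate,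
    smul_eq_mul, mul_zero, zero_add] at hn
  have : wt ((a + 1) :: b) = ((a + 1) :: b).sum + ((a + 1) :: b).length := rfl
  omega

end MP154526.Top.Pass2
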