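import Pool.Agent.Lib.MP_154526_nt.Top.Span
import Pool.Agent.Lib.MP_154526_nt.Top.Plan

/-!
# FRONT: definitions

Functionals `c : List Bool → R` on words in `y = false`, `a = true`.  `x` acts on words in `y, a` as
the derivation `y ↦ a`, `a ↦ τ a`, `y` by left multiplication.  Everything is transposed.
-/

set_option autoImplicit false

namespace MP154526.Top.Front

open Finset

variable {R : Type} [CommRing R]

/-- transpose of the derivation `y ↦ a`, `a ↦ τ a` -/
def dT (τ : R) : (List Bool → R) → List Bool → R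
  | _, [] => 0
  | c, false :: w => c (true :: w) + dT τ (fun v => c (false :: v)) w
  | c, true :: w => τ * c (true :: w) + dT τ (fun v => c (true :: v)) w

/-- transpose of the left multiplication by `y` -/
def yT (c : List Bool → R) : List Bool → R := fun w => c (false :: w)

/-- `∑_{|w| = n} ψ(w) c(w(x,y)·1)` -/
def E (τ : R) : ℕ → (List Bool → R) → (List Bool → R) → R
  | 0, ψ, c => ψ [] * c []
  | n + 1, ψ, c => E τ n (fun w => ψ (false :: w)) (dT τ c) + E τ n (fun w => ψ (true :: w)) (yT c)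

/-- the functional reading the gap variables along the path from `b` with steps `ρ`:
`y^{i_0} a y^{i_1} a ⋯ a y^{i_m} ↦ ∏ b_j^{i_j}`, `m = ρ.length` -/
def X : R → List R → List Bool → R
  | _, [], [] => 1
  | _, _ :: _, [] => 0
  | b, ρ, false :: w => b * X b ρ w
  | _, [], true :: _ => 0
  | b, r :: ρ, true :: w => X (b + r) ρ w

/-- `∑ P(w) c(w(z_1,z_2)·1)` over the words `w` of weight `n` in `z_1 = y + τ` (letter `0`) and
`z_2 = (x + τ) y` (letter `1`) -/
def F (τ : R) : ℕ → (List ℕ → R) → (List Bool → R) → R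
  | 0, P, c => P [] * c []
  | 1, P, c => F τ 0 (fun l => P (0 :: l)) (fun w => yT c w + τ * c w)
  | n + 2, P, c => F τ (n + 1) (fun l => P (0 :: l)) (fun w => yT c w + τ * c w) +
      F τ n (fun l => P (1 :: l)) (fun w => yT (dT τ c) w + τ * yT c w)

/-- `ψ` with values in `R` -/
def castB (R : Type) [CommRing R] [Algebra (ZMod 2) R] (ψ : List Bool → ZMod 2) : List Bool → R :=
  fun w => algebraMap (ZMod 2) R (ψ w)

/-- (A), helper19: products are killed -/
def SpecA : Prop :=
  ∀ (R : Type) [CommRing R] [Algebra (ZMod 2) R] (τ : R) (n : ℕ) (ψ : List Bool → ZMod 2),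
    1 ≤ n → IsSh n ψ →
    (∀ (b : R) (σ W : List R), σ ≠ [] → W ≠ [] →
      shs (fun ρ => E τ n (castB R ψ) (X b ρ)) σ W = 0) ∧
    (∀ (b c : R) (ρ : List R), ρ ≠ [] → E τ n (castB R ψ) (X b ρ) = E τ n (castB R ψ) (X c ρ)) ∧
    (IsHalf n ψ → ∀ (b a : R) (u : List R),
      shs (fun ρ => E τ n (castB R ψ) (X b (a :: ρ))) u (a :: u) = 0)

/-- (B): the `T_τ` step (for functionals which vanish on the powers of `y`) -/
def SpecB : Prop :=
  ∀ (R : Type) [CommRing R] [Algebra (ZMod 2) R] (τ : R) (n : ℕ) (ψ : List Bool → ZMod 2),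
    IsT n ψ → ∀ c : List Bool → R, (∀ k, c (List.replicate k false) = 0) →
    E τ n (castB R ψ) c = F τ n (fun l => castB R ψ (bw l)) c

/-- (C): the part of top degree in `a` -/
def SpecC : Prop :=
  ∀ (R : Type) [CommRing R] [Algebra (ZMod 2) R] (l b : R) (n m D : ℕ) (ψ : List Bool → ZMod 2),
    1 ≤ m → n < D →
    (∀ l : List ℕ, m + 1 < l.length → l.sum + 2 * (l.length - 1) = n → ψ (bw (zw l)) = 0) →
    ∀ ρ : List R, ρ.length = m →
      F l n (fun l => castB R ψ (bw l)) (X (b + l) ρ) = evS D l b (cast R (PR n m ψ)) ρ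

theorem specFront (hA : SpecA) (hB : SpecB) (hC : SpecC) : SpecFront := by
  intro n m D ψ hn hm hD hSh hHalf hT htop
  have hX : ∀ {R : Type} [CommRing R] (b : R) (ρ : List R), ρ ≠ [] →
      ∀ k, X b ρ (List.replicate k false) = 0 := by
    intro R _ b ρ hρ k
    induction k with
    | zero => cases ρ with
      | nil => exact absurd rfl hρ
      | cons r ρ => rfl
    | succ k ih =>
      rw [List.replicate_succ]
      show X b ρ (false :: List.replicate k false) = 0
      cases ρ with
      | nil => exact absurd rfl hρ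
      | cons r ρ => rw [X, ih, mul_zero]
  have key : ∀ (R : Type) [CommRing R] [Algebra (ZMod 2) R] (l b : R) (ρ : List R),
      ρ.length = m → evS D l b (cast R (PR n m ψ)) ρ = E l n (castB R ψ) (X (b + l) ρ) := by
    intro R _ _ l b ρ hρ
    rw [hB R l n ψ hT (X (b + l) ρ)
      (hX (b + l) ρ (fun h => by rw [h] at hρ; simp at hρ; omega)),
      hC R l b n m D ψ hm hD htop ρ hρ]
  refine ⟨?_, ?_, ?_⟩
  · intro R _ _ l b σ W hσ hW hlen
    have h := (hA R l n ψ (by omega) hSh).1 (b + l) σ W hσ hW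
    rw [← h]
    exact shs_congr_len _ _ fun ρ hρ => key R l b ρ (by omega)
  · intro R _ _ l b a u hlen
    have h := (hA R l n ψ (by omega) hSh).2.2 hHalf (b + l) a u
    rw [← h]
    exact shs_congr_len _ _ fun ρ hρ => key R l b (a :: ρ) (by simp at hρ ⊢; omega)
  · intro R _ _ l b c ρ hρ
    rw [key R l b ρ hρ, key R l c ρ hρ]
    exact (hA R l n ψ (by omega) hSh).2.1 (b + l) (c + l) ρ
      (fun h => by rw [h] at hρ; simp at hρ; omega)

end MP154526.Top.Front
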