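import Mathlib

/-!
# Shared model for the top-depth part of the double shuffle problem modulo 2

A functional on the polynomials in `m` slots is given by its values `P : List ℕ → ZMod 2`
on the monomials `s₁^a₁ ⋯ s_m^a_m ↔ [a₁, …, a_m]`.
All identities are quantified over all commutative `ZMod 2`-algebras `R`.
-/

set_option autoImplicit false

namespace MP154526.Top

open Finset

/-- apply the slot function `w` to the first slot (exponents `< D`) -/
def app {R : Type} [CommRing R] (D : ℕ) (w : ℕ → R) (P : List ℕ → R) : List ℕ → R :=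
  fun l => ∑ j ∈ range D, w j * P (j :: l)

/-- evaluate the functional `P` on the product of the slot functions `ws` -/
def ev {R : Type} [CommRing R] (D : ℕ) : List (ℕ → R) → (List ℕ → R) → R
  | [], P => P []
  | w :: ws, P => ev D ws (app D w P)

/-- coefficients of `1/(1+ys)` -/
def geo {R : Type} [CommRing R] (y : R) : ℕ → R := fun j => y ^ j

/-- coefficients of `(1+us)/(1+ys)` (characteristic 2) -/
def kap {R : Type} [CommRing R] (u y : R) : ℕ → R
  | 0 => 1
  | j + 1 => y ^ j * (y + u)

/-- the vertices of the path with steps `ρ` from `b` (without `b`) -/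
def path {R : Type} [CommRing R] (b : R) : List R → List R
  | [] => []
  | r :: ρ => (b + r) :: path (b + r) ρ

/-- sum of `F` over all shuffles of two words -/
def shs {α M : Type} [AddCommMonoid M] (F : List α → M) : List α → List α → M
  | [], W => F W
  | a :: σ, [] => F (a :: σ)
  | a :: σ, c :: W => shs (fun l => F (a :: l)) σ (c :: W) + shs (fun l => F (c :: l)) (a :: σ) W
termination_by σ W => σ.length + W.length

/-- the coefficients of `P` in `R` -/
def cast (R : Type) [CommRing R] [Algebra (ZMod 2) R] (P : List ℕ → ZMod 2) : List ℕ → R :=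
  fun l => algebraMap (ZMod 2) R (P l)

/-- the letters `0`, `u` -/
def bl {R : Type} [CommRing R] (u : R) (s : Bool) : R := if s then u else 0

/-- `P` is a functional on `m` slots with exponents `< D` -/
def Supp (D m : ℕ) (P : List ℕ → ZMod 2) : Prop :=
  ∀ l, P l ≠ 0 → l.length = m ∧ ∀ a ∈ l, a < D

/-- hypothesis `H_m` of Theorem V: `g` is a family of functionals on `m` slots, the first slot of
`g` carries the powers of the base point `b` -/
def HypV (D m : ℕ) (g : List ℕ → ZMod 2) : Prop :=
  ∀ (R : Type) [CommRing R] [Algebra (ZMod 2) R] (u b : R) (σ : List Bool) (W : List R),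
    σ ≠ [] → σ.length + W.length = m →
    shs (fun ρ => ev D (geo b :: (path b ρ).map (kap u)) (cast R g)) (σ.map (bl u)) W = 0

/-- Theorem V -/
def SpecV : Prop :=
  ∀ (D m : ℕ) (g : List ℕ → ZMod 2), 2 ≤ D → 1 ≤ m → Supp D (m + 1) g → HypV D m g →
    ∀ l, g l = 0

/-- invariance under multiplication by `∏ (1 + t sᵢ)` -/
def HypG (D M : ℕ) (P : List ℕ → ZMod 2) : Prop :=
  ∀ (R : Type) [CommRing R] [Algebra (ZMod 2) R] (t : R) (ws : List (ℕ → R)), ws.length = M →
    ev D (ws.map (fun w j => w j + if j = 0 then 0 else t * w (j - 1))) (cast R P) =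
      ev D ws (cast R P)

/-- alternality in the steps of the path from `0` -/
def HypD (D M : ℕ) (P : List ℕ → ZMod 2) : Prop :=
  ∀ (R : Type) [CommRing R] [Algebra (ZMod 2) R] (σ W : List R), σ ≠ [] → W ≠ [] →
    σ.length + W.length = M →
    shs (fun ρ => ev D ((path 0 ρ).map geo) (cast R P)) σ W = 0

/-- `P` kills the squarefree monomials -/
def HypSF (P : List ℕ → ZMod 2) : Prop := ∀ l : List ℕ, (∀ a ∈ l, a ≤ 1) → P l = 0

/-- TOPINJ -/
def SpecTopInj : Prop :=
  ∀ (D M : ℕ) (P : List ℕ → ZMod 2), 2 ≤ D → Supp D M P → HypG D M P → HypD D M P → HypSF P →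
    ∀ l, P l = 0

end MP154526.Top
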