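import Pool.Agent.Lib.MP_154526_nt.Top.Plan
import Pool.Agent.Lib.MP_154526_nt.Top.Moebius

/-!
# STAR: definitions, exact statements of the submodules, kernel lemmas
-/

set_option autoImplicit false

namespace MP154526.Top.Star

open Finset

variable {R : Type} [CommRing R]

/-- sum over all insertions of `k` steps `l` into the path with steps `W` from `b` -/
def S (D k : ℕ) (l b : R) (P : List ℕ → R) (W : List R) : R :=
  shs (evS D l b P) (List.replicate k l) W

/-- hypothesis of Lemma X -/
structure HypX (D m : ℕ) (v : List ℕ → ZMod 2) : Prop where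
  lt : ∀ (R : Type) [CommRing R] [Algebra (ZMod 2) R] (l b : R) (k : ℕ) (W : List R) (w w' : R),
    1 ≤ k → k + W.length + 1 = m →
    (w' + l) * S D k l b (cast R v) (W ++ [w]) = (w + l) * S D k l b (cast R v) (W ++ [w'])
  top : ∀ (R : Type) [CommRing R] [Algebra (ZMod 2) R] (l b : R), S D m l b (cast R v) [] = 0

/-- LEMMA X -/
def SpecX : Prop :=
  ∀ (D m : ℕ) (v : List ℕ → ZMod 2), 2 ≤ D → 1 ≤ m → Supp D (m + 1) v →
    (∀ l, v l ≠ 0 → ∃ l' a, l = l' ++ [a] ∧ 2 ≤ a) → HypX D m v → ∀ l, v l = 0

/-- hypothesis of Theorem R -/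
def HypR (D m : ℕ) (u : List ℕ → ZMod 2) : Prop :=
  ∀ (R : Type) [CommRing R] [Algebra (ZMod 2) R] (l b : R) (k : ℕ) (W : List R),
    1 ≤ k → k + W.length = m → S D k l b (cast R u) W = 0

/-- THEOREM R -/
def SpecR : Prop :=
  ∀ (D m : ℕ) (u : List ℕ → ZMod 2), 2 ≤ D → Supp D (m + 1) u → HypR D m u →
    ∀ i l, u (i :: l) ≠ 0 → ∀ a ∈ l, a ≤ 1

/-! ### kernel lemmas -/

theorem hh_zero (s t : R) : hh 0 s t = 1 := by simp [hh]

theorem hh_succ (i : ℕ) (s t : R) : hh (i + 1) s t = s * hh i s t + t ^ (i + 1) := by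
  unfold hh
  rw [Finset.sum_range_succ', Finset.mul_sum]
  simp only [pow_zero, Nat.sub_zero, one_mul]
  congr 1
  refine Finset.sum_congr rfl fun p hp => ?_
  rw [show i + 1 - (p + 1) = i - p by omega]
  ring

theorem hh_comm (i : ℕ) (s t : R) : hh i s t = hh i t s := by
  unfold hh
  rw [← Finset.sum_range_reflect]
  refine Finset.sum_congr rfl fun p hp => ?_
  have : p ≤ i := by simpa [Nat.lt_succ_iff] using Finset.mem_range.1 hp
  rw [show i + 1 - 1 - p = i - p by omega, show i - (i - p) = p by omega]
  ring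

theorem kerR_comm (l s t : R) : kerR l s t = kerR l t s := by
  funext i
  cases i with
  | zero => rfl
  | succ i => simp only [kerR, hh_comm _ s t]

@[simp] theorem kerR_zero (l s t : R) : kerR l s t 0 = 1 := rfl

theorem kerR_one (l s t : R) : kerR l s t 1 = s + t + l := by
  simp [kerR, hh_succ, hh_zero]

theorem kerR_succ (l s t : R) (i : ℕ) :
    kerR l s t (i + 1) = s * kerR l s t i + t ^ i * (t + l) := by
  cases i with
  | zero => rw [kerR_one]; simp; ring
  | succ i => simp only [kerR, hh_succ]; ring

section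
variable [Algebra (ZMod 2) R]

/-- exponents `≥ 1` do not see the steps `l` from `0` -/
theorem kerR_zero_l (l : R) : kerR l 0 l = del 0 := by
  funext i
  cases i with
  | zero => simp [del]
  | succ i => rw [kerR_succ]; simp [del, add_self]

theorem kerR_l_zero (l : R) : kerR l l 0 = del 0 := by rw [kerR_comm, kerR_zero_l]

omit [Algebra (ZMod 2) R] in
theorem kerR_zero_left (l t : R) (i : ℕ) : kerR l 0 t (i + 1) = t ^ i * (t + l) := by
  rw [kerR_succ]; ring

theorem kerR_l_left (l t : R) (i : ℕ) : kerR l l t i = t ^ i := by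
  induction i with
  | zero => simp
  | succ i ih =>
    rw [kerR_succ, ih]
    have := add_self (l * t ^ i)
    linear_combination this

theorem kerR_right_l (l s : R) (i : ℕ) : kerR l s l i = s ^ i := by
  rw [kerR_comm, kerR_l_left]

theorem kerR_right_zero (l s : R) (i : ℕ) : kerR l s 0 (i + 1) = s ^ i * (s + l) := by
  rw [kerR_comm, kerR_zero_left]

theorem kerR_step_one (l s : R) : kerR l s (s + l) 1 = 0 := by
  rw [kerR_one]
  linear_combination add_self s + add_self l

theorem kerR_step (l s : R) (i : ℕ) :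
    kerR l s (s + l) (i + 2) = s * (s + l) * hh i s (s + l) := by
  induction i with
  | zero =>
    rw [kerR_succ, kerR_step_one, hh_zero]
    linear_combination (s + l) * add_self l
  | succ i ih =>
    rw [kerR_succ, ih, hh_succ]
    linear_combination (s + l) ^ (i + 2) * add_self l

/-- extraction of the exponent zero -/
theorem kerR_extract (l s : R) (i : ℕ) :
    s * kerR l s 0 i + (s + l) * kerR l s l i = if i = 0 then l else 0 := by
  cases i with
  | zero => simp only [kerR_zero, if_true]; linear_combination add_self s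
  | succ i =>
    rw [kerR_right_zero, kerR_right_l, if_neg (Nat.succ_ne_zero i)]
    linear_combination add_self (s ^ (i + 1) * (s + l))

end

theorem hh_map {T : Type} [CommRing T] (f : R →+* T) (i : ℕ) (s t : R) :
    f (hh i s t) = hh i (f s) (f t) := by
  simp [hh, map_sum]

theorem kerR_map {T : Type} [CommRing T] (f : R →+* T) (l s t : R) (i : ℕ) :
    f (kerR l s t i) = kerR (f l) (f s) (f t) i := by
  cases i with
  | zero => simp
  | succ i => simp [kerR, hh_map]

theorem geo_map {T : Type} [CommRing T] (f : R →+* T) (b : R) (i : ℕ) :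
    f (geo b i) = geo (f b) i := by simp [geo]

theorem starW_map {T : Type} [CommRing T] (f : R →+* T) (l b : R) (ρ : List R) :
    (starW l b ρ).map (fun w j => f (w j)) = starW (f l) (f b) (ρ.map f) := by
  induction ρ generalizing b with
  | nil => rfl
  | cons r ρ ih =>
    simp only [starW, List.map_cons, ih, map_add]
    congr 1
    funext j
    rw [kerR_map, map_add]

theorem evS_map {T : Type} [CommRing T] (f : R →+* T) (D : ℕ) (l b : R) (P : List ℕ → R)
    (ρ : List R) :
    f (evS D l b P ρ) = evS D (f l) (f b) (fun x => f (P x)) (ρ.map f) := by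
  unfold evS
  rw [ev_map, List.map_cons, starW_map]
  congr 2
  funext j
  exact geo_map f b j

theorem S_map {T : Type} [CommRing T] (f : R →+* T) (D k : ℕ) (l b : R) (P : List ℕ → R)
    (W : List R) :
    f (S D k l b P W) = S D k (f l) (f b) (fun x => f (P x)) (W.map f) := by
  unfold S
  have h := shs_map f.toAddMonoidHom (evS D l b P) (List.replicate k l) W
  have h2 : (fun ρ : List R => f.toAddMonoidHom (evS D l b P ρ)) =
      fun ρ => evS D (f l) (f b) (fun x => f (P x)) (ρ.map f) := by
    funext ρ
    exact evS_map f D l b P ρ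
  rw [h2] at h
  rw [← List.map_replicate, shs_letters]
  exact h

theorem S_map_cast {T : Type} [CommRing T] [Algebra (ZMod 2) R] [Algebra (ZMod 2) T]
    (f : R →+* T) (D k : ℕ) (l b : R) (v : List ℕ → ZMod 2) (W : List R) :
    f (S D k l b (cast R v) W) = S D k (f l) (f b) (cast T v) (W.map f) := by
  rw [S_map]
  congr 1
  funext x
  exact cast_map f v x

theorem evS_map_cast {T : Type} [CommRing T] [Algebra (ZMod 2) R] [Algebra (ZMod 2) T]
    (f : R →+* T) (D : ℕ) (l b : R) (v : List ℕ → ZMod 2) (ρ : List R) :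
    f (evS D l b (cast R v) ρ) = evS D (f l) (f b) (cast T v) (ρ.map f) := by
  rw [evS_map]
  congr 1
  funext x
  exact cast_map f v x

theorem starW_append (l b : R) (ρ σ : List R) :
    starW l b (ρ ++ σ) = starW l b ρ ++ starW l (b + ρ.sum) σ := by
  induction ρ generalizing b with
  | nil => simp [starW]
  | cons r ρ ih => simp [starW, ih, add_assoc]

theorem starW_length (l b : R) (ρ : List R) : (starW l b ρ).length = ρ.length := by
  induction ρ generalizing b with
  | nil => rfl
  | cons r ρ ih => simp [starW, ih]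

theorem evS_add (D : ℕ) (l b : R) (P Q : List ℕ → R) (ρ : List R) :
    evS D l b (P + Q) ρ = evS D l b P ρ + evS D l b Q ρ := ev_add _ _ _ _

theorem evS_smul (D : ℕ) (l b r : R) (P : List ℕ → R) (ρ : List R) :
    evS D l b (r • P) ρ = r * evS D l b P ρ := ev_smul _ _ _ _

theorem evS_zero (D : ℕ) (l b : R) (ρ : List R) : evS D l b (0 : List ℕ → R) ρ = 0 :=
  ev_zero _ _

theorem evS_of_length_ne {D m : ℕ} {P : List ℕ → R} (h : SuppR D (m + 1) P) (l b : R)
    (ρ : List R) (hρ : ρ.length ≠ m) : evS D l b P ρ = 0 := by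
  unfold evS
  refine ev_of_length_ne h _ ?_
  simpa [starW_length] using hρ

theorem S_add (D k : ℕ) (l b : R) (P Q : List ℕ → R) (W : List R) :
    S D k l b (P + Q) W = S D k l b P W + S D k l b Q W := by
  unfold S
  rw [← shs_add]
  congr 1
  funext ρ
  exact evS_add _ _ _ _ _ _

theorem S_zero_left (D : ℕ) (l b : R) (P : List ℕ → R) (W : List R) :
    S D 0 l b P W = evS D l b P W := by simp [S]

theorem cast_add (R : Type) [CommRing R] [Algebra (ZMod 2) R] (P Q : List ℕ → ZMod 2) :
    cast R (P + Q) = cast R P + cast R Q := by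
  funext x
  simp [cast]

end MP154526.Top.Star
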