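import Pool.Agent.Lib.MP_154526_nt.Top.Moebius

/-!
# TOPINJ from Theorem V
-/

set_option autoImplicit false

namespace MP154526.Top

open Finset Polynomial

variable {R : Type} [CommRing R]

/-- `C_k`: `P` vanishes on (squarefree in the first `M - k` slots) · (anything) -/
def Ck (M k : ℕ) (P : List ℕ → ZMod 2) : Prop :=
  ∀ (B : List ℕ), (∀ a ∈ B, a ≤ 1) → B.length + k = M → ∀ l : List ℕ, P (B ++ l) = 0

theorem kap_eq_comb [Algebra (ZMod 2) R] (v y : R) : v • kap y v = y • del 0 + (v + y) • geo v := by
  funext j
  cases j with
  | zero =>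
    simp only [kap, del, geo, Pi.smul_apply, Pi.add_apply, smul_eq_mul, if_true, mul_one, pow_zero]
    linear_combination (-y) * (two_zero : (2 : R) = 0)
  | succ j =>
    simp only [kap, del, geo, Pi.smul_apply, Pi.add_apply, smul_eq_mul, Nat.succ_ne_zero,
      if_false, mul_zero, zero_add]
    ring

/-- ring hom compatibility of the kernels -/
theorem kap_hom {S : Type} [CommRing S] (f : R →+* S) (u y : R) :
    (fun j => f (kap u y j)) = kap (f u) (f y) := by
  funext j
  cases j with
  | zero => simp [kap]
  | succ j => simp [kap]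

theorem geo_hom {S : Type} [CommRing S] (f : R →+* S) (y : R) :
    (fun j => f (geo y j)) = geo (f y) := by
  funext j
  simp [geo]

theorem del_hom {S : Type} [CommRing S] (f : R →+* S) (i : ℕ) :
    (fun j => f (del i j)) = del i := by
  funext j
  simp only [del]
  split_ifs <;> simp

/-- `(G)` in the form: all `geo` may be replaced by `kap t` -/
theorem evG [Algebra (ZMod 2) R] {D M : ℕ} {P : List ℕ → ZMod 2} (hS : Supp D M P)
    (hG : HypG D M P) (t : R) (vs : List R) :
    ev D (vs.map geo) (cast R P) = ev D (vs.map (kap t)) (cast R P) := by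
  by_cases hl : vs.length = M
  · rw [← hG R t (vs.map geo) (by simp [hl]), List.map_map]
    congr 2
    funext y
    exact geo_mul t y
  · rw [ev_of_length_ne hS.cast _ (by simpa using hl), ev_of_length_ne hS.cast _ (by simpa using hl)]

/-- vanishing on paths whose first `n` vertices are in `{0,u}` -/
theorem ev_prefix [Algebra (ZMod 2) R] {D M k : ℕ} {P : List ℕ → ZMod 2} (hD : 2 ≤ D)
    (hC : Ck M k P) (u : R) (vs ws : List R)
    (hvs : ∀ x ∈ vs, x = 0 ∨ x = u) (hl : vs.length + k = M) :
    ev D ((vs ++ ws).map (kap u)) (cast R P) = 0 := by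
  rw [List.map_append, ev_append, appL_bl_zero hD u vs.length (cast R P) ?_ vs hvs rfl]
  · exact ev_zero D _
  · intro B hB hBn l
    simp [cast, hC B hB (by omega) l]

/-- two-valued paths vanish -/
theorem two_valued [Algebra (ZMod 2) R] {D M : ℕ} {P : List ℕ → ZMod 2} (hD : 2 ≤ D)
    (hS : Supp D M P) (hG : HypG D M P) (hC : Ck M 0 P) (u : R) (vs : List R)
    (hvs : ∀ x ∈ vs, x = 0 ∨ x = u) : ev D (vs.map geo) (cast R P) = 0 := by
  by_cases hl : vs.length = M
  · rw [evG hS hG u]
    have := ev_prefix (R := R) hD hC u vs [] hvs (by omega)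
    simpa using this
  · exact ev_of_length_ne hS.cast _ (by simpa using hl)

/-! ### cancellation in `R[X]` -/

/-- if `p * q = 0` in `R[X]` with `p` monic, then `q = 0` -/
theorem monic_cancel {p q : R[X]} (hp : p.Monic) (h : p * q = 0) : q = 0 := by
  by_contra hq
  exact hq ((hp.mul_right_eq_zero_iff).1 h)

/-! ### antipode -/

section Antipode
variable {α M' : Type} [AddCommMonoid M']

/-- `∑ᵢ shs Φ (rev (take i W) ++ σ) (drop i W)` -/
def asum (Φ : List α → M') : List α → List α → M'
  | σ, [] => Φ σ
  | σ, c :: W => shs Φ σ (c :: W) + asum Φ (c :: σ) W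

theorem asum_eq (h2 : ∀ m : M', m + m = 0) (Φ : List α → M') (a : α) (σ W : List α) :
    asum Φ (a :: σ) W = shs (fun l => Φ (a :: l)) σ W := by
  induction W generalizing a σ with
  | nil => simp [asum]
  | cons c W ih =>
    rw [asum, ih, shs_cons_cons, add_assoc, h2, add_zero]

theorem asum_eq_rev (Φ : List α → M') (n : ℕ)
    (h : ∀ σ W : List α, σ ≠ [] → W ≠ [] → σ.length + W.length = n → shs Φ σ W = 0)
    (σ W : List α) (hσ : σ ≠ []) (hn : σ.length + W.length = n) :
    asum Φ σ W = Φ (W.reverse ++ σ) := by
  induction W generalizing σ with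
  | nil => simp [asum]
  | cons c W ih =>
    rw [asum, h σ (c :: W) hσ (by simp) hn, zero_add,
      ih (c :: σ) (by simp) (by simp only [List.length_cons] at hn ⊢; omega)]
    simp

theorem antipode (h2 : ∀ m : M', m + m = 0) (Φ : List α → M') (n : ℕ)
    (h : ∀ σ W : List α, σ ≠ [] → W ≠ [] → σ.length + W.length = n → shs Φ σ W = 0)
    (ρ : List α) (hn : ρ.length = n) : Φ ρ = Φ ρ.reverse := by
  cases ρ with
  | nil => rfl
  | cons a W =>
    have h1 := asum_eq h2 Φ a [] W
    rw [shs_nil_left] at h1
    rw [← h1, asum_eq_rev Φ n h [a] W (by simp) (by simp only [List.length_cons, List.length_nil] at hn ⊢; omega)]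
    simp

end Antipode

theorem steps_sum [Algebra (ZMod 2) R] (x y : R) (c : List R) :
    (steps x (c ++ [y])).sum = x + y := by
  induction c generalizing x with
  | nil => simp [steps]
  | cons d c ih =>
    simp only [List.cons_append, steps, List.sum_cons, ih]
    linear_combination (d) * (two_zero : (2 : R) = 0)

theorem path_reverse [Algebra (ZMod 2) R] (x y z : R) (c : List R) :
    path z (steps x (c ++ [y])).reverse = ((x :: c).reverse).map (fun v => z + y + v) := by
  induction c generalizing x with
  | nil =>
    simp only [List.nil_append, steps, List.reverse_cons, List.reverse_nil, path, List.map_cons,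
      List.map_nil]
    congr 1
    ring
  | cons d c ih =>
    simp only [List.cons_append, steps]
    rw [List.reverse_cons, path_append, ih, List.reverse_cons (a := x), List.map_append]
    congr 1
    simp only [path, List.map_cons, List.map_nil, List.sum_reverse, steps_sum]
    congr 1
    linear_combination (d) * (two_zero : (2 : R) = 0)

/-! ### multilinearity in the slot functions -/

theorem ev_span {D : ℕ} (S : Set (ℕ → R)) (n : ℕ) (Q : List ℕ → R)
    (h : ∀ ws : List (ℕ → R), ws.length = n → (∀ w ∈ ws, w ∈ S) → ev D ws Q = 0)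
    (ws : List (ℕ → R)) (hn : ws.length = n) (hws : ∀ w ∈ ws, w ∈ Submodule.span R S) :
    ev D ws Q = 0 := by
  induction ws generalizing n Q with
  | nil => exact h [] hn (by simp)
  | cons w ws ih =>
    have hw := hws w (by simp)
    have hws' : ∀ v ∈ ws, v ∈ Submodule.span R S := fun v hv => hws v (List.mem_cons_of_mem _ hv)
    have hlen : ws.length = n - 1 := by
      simp only [List.length_cons] at hn
      omega
    have hn1 : 1 ≤ n := by
      simp only [List.length_cons] at hn
      omega
    show ev D ws (app D w Q) = 0
    clear hn hws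
    induction hw using Submodule.span_induction with
    | mem x hx =>
      refine ih (n - 1) _ ?_ hlen hws'
      intro vs hvs hvS
      exact h (x :: vs) (by simp only [List.length_cons]; omega) (by
        intro v hv
        simp only [List.mem_cons] at hv
        rcases hv with rfl | hv
        · exact hx
        · exact hvS v hv)
    | zero =>
      have : app D (0 : ℕ → R) Q = 0 := by
        funext l
        simp [app]
      rw [this]
      exact ev_zero D ws
    | add x y _ _ hx hy => rw [app_w_add, ev_add, hx, hy, add_zero]
    | smul r x _ hx => rw [app_w_smul, ev_smul, hx, mul_zero]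

theorem ev_smul_all {D : ℕ} (r : R) {β : Type} (f : β → ℕ → R) (vs : List β) (Q : List ℕ → R) :
    ev D (vs.map (fun x => r • f x)) Q = r ^ vs.length * ev D (vs.map f) Q := by
  induction vs generalizing Q with
  | nil => simp [ev]
  | cons v vs ih =>
    simp only [List.map_cons, ev, List.length_cons]
    rw [ih, app_w_smul, ev_smul, pow_succ]
    ring

/-! ### naturality of evaluations on paths -/

theorem ev_kap_map {S : Type} [CommRing S] [Algebra (ZMod 2) R] [Algebra (ZMod 2) S]
    (f : R →+* S) (D : ℕ) (t : R) (vs : List R) (P : List ℕ → ZMod 2) :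
    f (ev D (vs.map (kap t)) (cast R P)) = ev D ((vs.map f).map (kap (f t))) (cast S P) := by
  rw [ev_map, List.map_map, List.map_map]
  congr 1
  · refine List.map_congr_left fun y _ => ?_
    exact kap_hom f t y
  · funext l
    exact cast_map f P l

/-- words with values in `{y, y+u}` (base `0`) vanish -/
theorem three_valued [Algebra (ZMod 2) R] {D M : ℕ} {P : List ℕ → ZMod 2} (hD : 2 ≤ D)
    (hS : Supp D M P) (hG : HypG D M P) (hC : Ck M 0 P) (y u : R) (cs : List Bool) :
    ev D ((cs.map (fun s => y + bl u s)).map (kap y)) (cast R P) = 0 := by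
  -- first the statement multiplied by a power of `y + u`
  have key : ∀ (R : Type) [CommRing R] [Algebra (ZMod 2) R] (y u : R) (vs : List R),
      (∀ x ∈ vs, x = y ∨ x = y + u) →
      (y + u) ^ vs.length * ev D (vs.map (kap y)) (cast R P) = 0 := by
    intro R _ _ y u vs hvs
    rw [← ev_smul_all]
    refine ev_span ({geo 0, geo (y + u)} : Set (ℕ → R)) vs.length _ ?_ _ (by simp) ?_
    · intro ws _ hws
      have : ∃ zs : List R, (∀ x ∈ zs, x = 0 ∨ x = y + u) ∧ ws = zs.map geo := by
        clear * - hws
        induction ws with
        | nil => exact ⟨[], by simp, rfl⟩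
        | cons w ws ih =>
          obtain ⟨zs, hz, rfl⟩ := ih (fun v hv => hws v (List.mem_cons_of_mem _ hv))
          have := hws w (by simp)
          simp only [Set.mem_insert_iff, Set.mem_singleton_iff] at this
          rcases this with rfl | rfl
          · exact ⟨0 :: zs, by simpa using hz, rfl⟩
          · exact ⟨(y + u) :: zs, by simpa using hz, rfl⟩
      obtain ⟨zs, hz, rfl⟩ := this
      exact two_valued hD hS hG hC (y + u) zs hz
    · intro w hw
      simp only [List.mem_map] at hw
      obtain ⟨x, hx, rfl⟩ := hw
      have h0 : (del 0 : ℕ → R) = geo 0 := by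
        funext j
        cases j with
        | zero => simp [del, geo]
        | succ j => simp [del, geo]
      have m0 : (geo 0 : ℕ → R) ∈ Submodule.span R ({geo 0, geo (y + u)} : Set (ℕ → R)) :=
        Submodule.subset_span (by simp)
      have m1 : (geo (y + u) : ℕ → R) ∈ Submodule.span R ({geo 0, geo (y + u)} : Set (ℕ → R)) :=
        Submodule.subset_span (by simp)
      rcases hvs x hx with rfl | rfl
      · rw [kap_self, h0]
        exact Submodule.smul_mem _ _ m0
      · rw [kap_eq_comb, h0]
        exact Submodule.add_mem _ (Submodule.smul_mem _ _ m0) (Submodule.smul_mem _ _ m1)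
  -- cancel in `R[X]`
  have h1 := key R[X] (C y) (C u + X) (cs.map (fun s => C y + bl (C u + X) s)) (by
    intro x hx
    simp only [List.mem_map] at hx
    obtain ⟨s, _, rfl⟩ := hx
    cases s
    · left
      simp [bl]
    · right
      simp [bl])
  have hm : ((C y + (C u + X)) ^ (cs.map (fun s => C y + bl (C u + X : R[X]) s)).length).Monic := by
    refine Monic.pow ?_ _
    have : (C y + (C u + X) : R[X]) = X + C (y + u) := by
      rw [C_add]
      ring
    rw [this]
    exact monic_X_add_C _
  have h2 := monic_cancel hm h1
  have h3 := congrArg (evalRingHom (0 : R)) h2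
  have h4 : (cs.map (fun s => C y + bl (C u + X : R[X]) s)).map (evalRingHom (0 : R)) =
      cs.map (fun s => y + bl u s) := by
    rw [List.map_map]
    refine List.map_congr_left fun s _ => ?_
    cases s <;> simp [bl]
  rw [ev_kap_map, map_zero, h4] at h3
  simpa using h3

theorem kap_zero_left (y : R) : kap 0 y = geo y := by
  funext j
  cases j with
  | zero => simp [kap, geo]
  | succ j => simp [kap, geo, pow_succ]

/-- `C_1`, first form -/
theorem c1_path [Algebra (ZMod 2) R] {D M : ℕ} {P : List ℕ → ZMod 2} (hD : 2 ≤ D)
    (hS : Supp D M P) (hG : HypG D M P) (hDD : HypD D M P) (hC : Ck M 0 P) (y u : R)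
    (cs : List Bool) (hl : cs.length + 1 = M) :
    ev D ((cs.map (bl u) ++ [y]).map geo) (cast R P) = 0 := by
  have h1 := antipode (add_self (R := R))
    (fun ρ : List R => ev D ((path 0 ρ).map geo) (cast R P)) M
    (fun σ W hσ hW hn => hDD R σ W hσ hW hn) (steps 0 (cs.map (bl u) ++ [y]))
    (by rw [steps_length]; simpa using hl)
  rw [path_steps, path_reverse] at h1
  rw [h1]
  have h2 : ((0 :: cs.map (bl u)).reverse).map (fun v => 0 + y + v) =
      (cs.reverse ++ [false]).map (fun s => y + bl u s) := by
    simp [bl, List.map_reverse, Function.comp_def]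
  rw [h2, evG hS hG y]
  exact three_valued hD hS hG hC y u _

theorem ck_one {D M : ℕ} {P : List ℕ → ZMod 2} (hD : 2 ≤ D)
    (hS : Supp D M P) (hG : HypG D M P) (hDD : HypD D M P) (hC : Ck M 0 P) : Ck M 1 P := by
  intro B hB hBM l
  by_contra hne
  obtain ⟨hlen, hlt⟩ := hS _ hne
  have hl1 : l.length = 1 := by
    rw [List.length_append] at hlen
    omega
  obtain ⟨j, rfl⟩ := List.length_eq_one_iff.1 hl1
  have hjD : j < D := hlt j (by simp)
  let R0 := (ZMod 2)[X]
  let R1 := R0[X]
  let u : R1 := X
  let y : R1 := C X
  let T : (List ℕ → R1) → R1 := fun Q => app D (kap u y) Q []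
  have hT : ∀ (r : R1) (P Q : List ℕ → R1), T (P + r • Q) = T P + r * T Q := by
    intro r P Q
    simp only [T, app_add, app_smul, Pi.add_apply, Pi.smul_apply, smul_eq_mul]
  have h1 := moebius (R := R1) hD u T hT B.length (cast R1 P) (by
    intro cs hcs
    have h2 := c1_path (R := R1) hD hS hG hDD hC y u cs (by omega)
    rw [evG hS hG u, List.map_append, ev_append, List.map_map] at h2
    exact h2) B hB rfl
  have h2 : T (fun l => cast R1 P (B ++ l)) = 0 := by
    refine monic_cancel (p := (X : R0[X]) ^ B.sum) (monic_X_pow _) ?_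
    exact h1
  have h3 := congrArg (evalRingHom (0 : R0)) h2
  simp only [T, app, map_sum, map_zero, map_mul] at h3
  have h4 : ∀ i, evalRingHom (0 : R0) (kap u y i) = X ^ i := by
    intro i
    have := congrFun (kap_hom (evalRingHom (0 : R0)) u y) i
    rw [this]
    have h5 : evalRingHom (0 : R0) u = 0 := by simp [u]
    have h6 : evalRingHom (0 : R0) y = X := by simp [y]
    rw [h5, h6, kap_zero_left]
    rfl
  simp only [h4] at h3
  have h3' : ∑ i ∈ range D, (X ^ i * cast (ZMod 2)[X] P (B ++ [i]) : (ZMod 2)[X]) = 0 := by
    refine Eq.trans ?_ h3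
    refine Finset.sum_congr rfl fun i _ => ?_
    congr 1
    exact (cast_map (evalRingHom (0 : R0)) P (B ++ [i])).symm
  have h5 := congrArg (fun p : (ZMod 2)[X] => p.coeff j) h3'
  simp only [finsetSum_coeff, coeff_zero] at h5
  have h6 : ∀ i ∈ range D, (X ^ i * cast (ZMod 2)[X] P (B ++ [i]) : (ZMod 2)[X]).coeff j =
      if j = i then P (B ++ [i]) else 0 := by
    intro i _
    have : cast (ZMod 2)[X] P (B ++ [i]) = C (P (B ++ [i])) := rfl
    rw [this, mul_comm, coeff_C_mul, coeff_X_pow]
    split_ifs <;> simp
  rw [Finset.sum_congr rfl h6, Finset.sum_ite_eq] at h5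
  simp only [mem_range, hjD, if_true] at h5
  exact hne h5

/-- naturality of the relations of Theorem V -/
theorem rel_map {S : Type} [CommRing S] [Algebra (ZMod 2) R] [Algebra (ZMod 2) S]
    (f : R →+* S) (D : ℕ) (u b : R) (g : List ℕ → ZMod 2) (σ W : List R) :
    f (shs (fun ρ => ev D (geo b :: (path b ρ).map (kap u)) (cast R g)) σ W) =
      shs (fun ρ => ev D (geo (f b) :: (path (f b) ρ).map (kap (f u))) (cast S g))
        (σ.map f) (W.map f) := by
  rw [shs_letters]
  have h := shs_map (f : R →+ S)
    (fun ρ => ev D (geo b :: (path b ρ).map (kap u)) (cast R g)) σ W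
  refine Eq.trans h ?_
  congr 1
  funext ρ
  show f (ev D (geo b :: (path b ρ).map (kap u)) (cast R g)) = _
  rw [ev_map, List.map_cons, List.map_map]
  congr 1
  · rw [← path_map, List.map_map]
    congr 1
    · exact geo_hom f b
    · refine List.map_congr_left fun y _ => ?_
      exact kap_hom f u y
  · funext l
    exact cast_map f g l

/-- the coefficient family of `x_1^2` -/
def shift2 (P : List ℕ → ZMod 2) (B : List ℕ) : List ℕ → ZMod 2
  | [] => 0
  | j :: a => P (B ++ (j + 2) :: a)

theorem app_shift2 [Algebra (ZMod 2) R] {D M k : ℕ} {P : List ℕ → ZMod 2} (hD : 2 ≤ D)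
    (hS : Supp D M P) (hC : Ck M k P) (u b : R) (B : List ℕ) (hB : ∀ a ∈ B, a ≤ 1)
    (hBM : B.length + (k + 1) = M) :
    app D (kap u b) (fun l => cast R P (B ++ l)) =
      (b * (b + u)) • app D (geo b) (cast R (shift2 P B)) := by
  funext l
  obtain ⟨E, rfl⟩ : ∃ E, D = E + 2 := ⟨D - 2, by omega⟩
  have h0 : cast R P (B ++ 0 :: l) = 0 := by
    have : P (B ++ 0 :: l) = 0 := by
      have := hC (B ++ [0]) (by
        intro a ha
        simp only [List.mem_append, List.mem_singleton] at ha
        rcases ha with ha | rfl
        · exact hB a ha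
        · omega) (by simp; omega) l
      simpa using this
    simp [cast, this]
  have h1 : cast R P (B ++ 1 :: l) = 0 := by
    have : P (B ++ 1 :: l) = 0 := by
      have := hC (B ++ [1]) (by
        intro a ha
        simp only [List.mem_append, List.mem_singleton] at ha
        rcases ha with ha | rfl
        · exact hB a ha
        · omega) (by simp; omega) l
      simpa using this
    simp [cast, this]
  have h2 : ∀ j, E ≤ j → cast R (shift2 P B) (j :: l) = 0 := by
    intro j hj
    have : P (B ++ (j + 2) :: l) = 0 := by
      by_contra hne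
      have := (hS _ hne).2 (j + 2) (by simp)
      omega
    simp [cast, shift2, this]
  simp only [app, Pi.smul_apply, smul_eq_mul]
  rw [Finset.sum_range_succ', Finset.sum_range_succ']
  simp only [zero_add]
  rw [h0, h1, Finset.sum_range_succ (fun j => geo b j * cast R (shift2 P B) (j :: l)) (E + 1),
    Finset.sum_range_succ (fun j => geo b j * cast R (shift2 P B) (j :: l)) E, h2 E le_rfl,
    h2 (E + 1) (by omega)]
  simp only [mul_zero, add_zero, Finset.mul_sum]
  refine Finset.sum_congr rfl fun j _ => ?_
  show b ^ (j + 1) * (b + u) * cast R P (B ++ (j + 2) :: l) =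
    b * (b + u) * (b ^ j * cast R P (B ++ (j + 2) :: l))
  ring

theorem ck_key [Algebra (ZMod 2) R] {D M k : ℕ} {P : List ℕ → ZMod 2} (hD : 2 ≤ D)
    (hS : Supp D M P) (hG : HypG D M P) (hDD : HypD D M P) (hC : Ck M k P)
    (B : List ℕ) (hB : ∀ a ∈ B, a ≤ 1) (hBM : B.length + (k + 1) = M)
    (u b : R) (σ : List Bool) (W : List R) (hσ : σ ≠ []) (hlen : σ.length + W.length = k) :
    u ^ B.sum * (b * (b + u)) *
      shs (fun ρ => ev D (geo b :: (path b ρ).map (kap u)) (cast R (shift2 P B)))
        (σ.map (bl u)) W = 0 := by
  let T : (List ℕ → R) → R := fun Q =>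
    shs (fun ρ => ev D (kap u b :: (path b ρ).map (kap u)) Q) (σ.map (bl u)) W
  have hT : ∀ (r : R) (P Q : List ℕ → R), T (P + r • Q) = T P + r * T Q := by
    intro r P Q
    simp only [T, ev_add, ev_smul]
    rw [shs_add]
    congr 1
    exact (shs_map (AddMonoidHom.mulLeft r) _ _ _).symm
  have h1 := moebius (R := R) hD u T hT B.length (cast R P) (by
    intro cs hcs
    set c := cs.map (bl u) with hc
    have hcm : ∀ x ∈ c, x = 0 ∨ x = u := by
      intro x hx
      simp only [hc, List.mem_map] at hx
      obtain ⟨s, _, rfl⟩ := hx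
      cases s <;> simp [bl]
    set V := steps 0 c with hV
    have hVlen : V.length = B.length := by rw [hV, steps_length, hc, List.length_map, hcs]
    set w := b + V.sum with hw
    have hpath : ∀ ρ, path 0 (V ++ w :: ρ) = c ++ b :: path b ρ := by
      intro ρ
      rw [path_append, hV, path_steps]
      have : 0 + (steps 0 c).sum + w = b := by
        rw [hw, hV]
        linear_combination ((steps 0 c).sum) * (two_zero : (2 : R) = 0)
      simp only [path, this]
    have h2 := hDD R (σ.map (bl u)) (V ++ w :: W) (by simpa using hσ) (by simp) (by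
      simp only [List.length_map, List.length_append, List.length_cons, hVlen]
      omega)
    rw [shs_split (fun x => x = 0 ∨ x = u) V w W (steps_mem u 0 (Or.inl rfl) c hcm)
      (σ.map (bl u)) (by
        intro x hx
        simp only [List.mem_map] at hx
        obtain ⟨s, _, rfl⟩ := hx
        cases s <;> simp [bl]) _ (by
        intro l hl
        show ev D ((path 0 l).map geo) (cast R P) = 0
        by_cases hM : l.length = M
        · rw [evG hS hG u, ← List.take_append_drop (V.length + 1) l, path_append]
          refine ev_prefix hD hC u _ _ (path_mem u 0 (Or.inl rfl) _ hl) ?_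
          rw [path_length, List.length_take]
          omega
        · exact ev_of_length_ne hS.cast _ (by simpa [path_length] using hM))] at h2
    rw [← h2]
    simp only [T]
    congr 1
    funext ρ
    rw [hpath, evG hS hG u, List.map_append, ev_append, hc, List.map_map]
    rfl) B hB rfl
  have h3 : T (fun l => cast R P (B ++ l)) = b * (b + u) *
      shs (fun ρ => ev D (geo b :: (path b ρ).map (kap u)) (cast R (shift2 P B)))
        (σ.map (bl u)) W := by
    have h4 := shs_map (AddMonoidHom.mulLeft (b * (b + u)))
      (fun ρ => ev D (geo b :: (path b ρ).map (kap u)) (cast R (shift2 P B))) (σ.map (bl u)) W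
    refine Eq.trans ?_ h4.symm
    simp only [T]
    congr 1
    funext ρ
    simp only [ev, AddMonoidHom.coe_mulLeft]
    rw [app_shift2 hD hS hC u b B hB hBM, ev_smul]
  rw [h3] at h1
  rw [mul_assoc]
  exact h1

theorem ck_step (hV : SpecV) {D M k : ℕ} {P : List ℕ → ZMod 2} (hD : 2 ≤ D)
    (hS : Supp D M P) (hG : HypG D M P) (hDD : HypD D M P) (hk : 1 ≤ k) (hC : Ck M k P) :
    Ck M (k + 1) P := by
  intro B hB hBM l
  have hg : ∀ l, shift2 P B l = 0 := by
    refine hV D k (shift2 P B) hD hk ?_ ?_
    · intro l hl
      cases l with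
      | nil => exact absurd rfl hl
      | cons j a =>
        obtain ⟨h1, h2⟩ := hS _ hl
        refine ⟨?_, ?_⟩
        · simp only [List.length_append, List.length_cons] at h1 ⊢
          omega
        · intro x hx
          simp only [List.mem_cons] at hx
          rcases hx with rfl | hx
          · have := h2 (x + 2) (by simp)
            omega
          · exact h2 x (by simp [hx])
    · intro R _ _ u b σ W hσ hlen
      have h1 := ck_key (R := R[X]) hD hS hG hDD hC B hB hBM (C u + X) (C b + X ^ 2) σ (W.map C)
        hσ (by simpa using hlen)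
      have hu : (C u + X : R[X]).Monic := by
        rw [add_comm]
        exact monic_X_add_C u
      have hb : (C b + X ^ 2 : R[X]).Monic := by
        rw [add_comm]
        exact monic_X_pow_add_C b (by norm_num)
      have hbu : (C b + X ^ 2 + (C u + X) : R[X]).Monic := by
        have : (C b + X ^ 2 + (C u + X) : R[X]) = X ^ 2 + (X + C (b + u)) := by
          rw [C_add]
          ring
        rw [this]
        refine monic_X_pow_add ?_
        refine lt_of_le_of_lt (degree_add_le _ _) (max_lt ?_ ?_)
        · exact lt_of_le_of_lt degree_X_le (by norm_num)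
        · exact lt_of_le_of_lt degree_C_le (by norm_num)
      have h2 := monic_cancel ((hu.pow _).mul (hb.mul hbu)) h1
      have h3 := congrArg (evalRingHom (0 : R)) h2
      rw [rel_map, map_zero] at h3
      have e1 : evalRingHom (0 : R) (C b + X ^ 2) = b := by simp
      have e2 : evalRingHom (0 : R) (C u + X) = u := by simp
      have e3 : (σ.map (bl (C u + X : R[X]))).map (evalRingHom (0 : R)) = σ.map (bl u) := by
        rw [List.map_map]
        refine List.map_congr_left fun s _ => ?_
        cases s <;> simp [bl]
      have e4 : (W.map C).map (evalRingHom (0 : R)) = W := by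
        rw [List.map_map]
        conv_rhs => rw [← List.map_id W]
        refine List.map_congr_left fun s _ => ?_
        simp
      rw [e1, e2, e3, e4] at h3
      exact h3
  by_contra hne
  obtain ⟨h1, h2⟩ := hS _ hne
  cases l with
  | nil =>
    simp only [List.append_nil] at h1
    omega
  | cons j a =>
    match j with
    | 0 =>
      refine hne ?_
      have := hC (B ++ [0]) (by
        intro a ha
        simp only [List.mem_append, List.mem_singleton] at ha
        rcases ha with ha | rfl
        · exact hB a ha
        · omega) (by simp; omega) a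
      simpa using this
    | 1 =>
      refine hne ?_
      have := hC (B ++ [1]) (by
        intro a ha
        simp only [List.mem_append, List.mem_singleton] at ha
        rcases ha with ha | rfl
        · exact hB a ha
        · omega) (by simp; omega) a
      simpa using this
    | j + 2 => exact hne (hg (j :: a))

/-- **TOPINJ** from Theorem V -/
theorem specTopInj (hV : SpecV) : SpecTopInj := by
  intro D M P hD hS hG hDD hSF
  have h0 : Ck M 0 P := by
    intro B hB hBM l
    by_contra hne
    obtain ⟨h1, _⟩ := hS _ hne
    have : l = [] := by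
      rw [List.length_append] at h1
      exact List.length_eq_zero_iff.1 (by omega)
    subst this
    rw [List.append_nil] at hne
    exact hne (hSF B hB)
  have h1 : Ck M 1 P := ck_one hD hS hG hDD h0
  have h2 : ∀ k, 1 ≤ k → Ck M k P := by
    intro k hk
    induction k, hk using Nat.le_induction with
    | base => exact h1
    | succ k hk ih => exact ck_step hV hD hS hG hDD hk ih
  intro l
  by_contra hne
  obtain ⟨h3, _⟩ := hS _ hne
  rcases Nat.eq_zero_or_pos M with rfl | hM
  · exact hne (h0 [] (by simp) rfl l)
  · exact hne (h2 M hM [] (by simp) (by simp) l)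

end MP154526.Top
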